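import Pool.Agent.H35.RS.Const

/-!
# Powers of random substitutions
-/

set_option autoImplicit false

namespace H35.RS.Up

open H35.RS

variable {A : Type*}

theorem imgW_finite (ϑ : A → Finset (List A)) (u : List A) : (imgW ϑ u).Finite := by
  induction u with
  | nil => exact Set.finite_singleton _
  | cons a u ih =>
    have h : imgW ϑ (a :: u) = Set.image2 (fun s t => s ++ t) (ϑ a : Set (List A)) (imgW ϑ u) := by
      ext v
      constructor
      · rintro ⟨s, hs, t, ht, rfl⟩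
        exact ⟨s, hs, t, ht, rfl⟩
      · rintro ⟨s, hs, t, ht, rfl⟩
        exact ⟨s, hs, t, ht, rfl⟩
    rw [h]
    exact Set.Finite.image2 _ (Finset.finite_toSet _) ih

theorem pow_finite (ϑ : A → Finset (List A)) (n : ℕ) (a : A) : (pow ϑ n a).Finite := by
  induction n with
  | zero => exact Set.finite_singleton _
  | succ n ih =>
    have h : pow ϑ (n + 1) a = ⋃ u ∈ pow ϑ n a, imgW ϑ u := by
      ext v
      simp only [Set.mem_iUnion, exists_prop]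
      exact Iff.rfl
    rw [h]
    exact ih.biUnion (fun u _ => imgW_finite ϑ u)

/-- The power `ϑ^n` as a random substitution. -/
noncomputable def powF (ϑ : A → Finset (List A)) (n : ℕ) : A → Finset (List A) :=
  fun a => (pow_finite ϑ n a).toFinset

theorem mem_powF {ϑ : A → Finset (List A)} {n : ℕ} {a : A} {v : List A} :
    v ∈ powF ϑ n a ↔ v ∈ pow ϑ n a := by
  unfold powF
  rw [Set.Finite.mem_toFinset]

theorem mem_imgW_nil {ϑ : A → Finset (List A)} {v : List A} : v ∈ imgW ϑ [] ↔ v = [] := Iff.rfl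

theorem mem_imgW_cons {ϑ : A → Finset (List A)} {a : A} {u v : List A} :
    v ∈ imgW ϑ (a :: u) ↔ ∃ s ∈ ϑ a, ∃ t ∈ imgW ϑ u, v = s ++ t := Iff.rfl

theorem mem_pow_zero {ϑ : A → Finset (List A)} {a : A} {v : List A} :
    v ∈ pow ϑ 0 a ↔ v = [a] := Iff.rfl

theorem mem_pow_succ {ϑ : A → Finset (List A)} {n : ℕ} {a : A} {v : List A} :
    v ∈ pow ϑ (n + 1) a ↔ ∃ u ∈ pow ϑ n a, v ∈ imgW ϑ u := Iff.rfl

theorem mem_imgW_single {ϑ : A → Finset (List A)} {a : A} {v : List A} :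
    v ∈ imgW ϑ [a] ↔ v ∈ ϑ a := by
  constructor
  · rintro ⟨s, hs, t, ht, rfl⟩
    have h : t = [] := ht
    rw [h, List.append_nil]
    exact hs
  · exact mem_imgW_singleton

theorem imgW_powF_zero {ϑ : A → Finset (List A)} {u v : List A} :
    v ∈ imgW (powF ϑ 0) u ↔ v = u := by
  induction u generalizing v with
  | nil => exact Iff.rfl
  | cons a u ih =>
    constructor
    · rintro ⟨s, hs, t, ht, rfl⟩
      have h1 : s = [a] := mem_powF.1 hs
      rw [h1, ih.1 ht]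
      rfl
    · rintro rfl
      exact ⟨[a], mem_powF.2 rfl, u, ih.2 rfl, rfl⟩

theorem imgW_powF_succ {ϑ : A → Finset (List A)} {n : ℕ} {u v : List A} :
    v ∈ imgW (powF ϑ (n + 1)) u ↔ ∃ w ∈ imgW (powF ϑ n) u, v ∈ imgW ϑ w := by
  induction u generalizing v with
  | nil =>
    constructor
    · intro h
      exact ⟨[], rfl, h⟩
    · rintro ⟨w, hw, hv⟩
      have h : w = [] := hw
      subst h
      exact hv
  | cons a u ih =>
    constructor
    · rintro ⟨s, hs, t, ht, rfl⟩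
      obtain ⟨s', hs', h1⟩ := mem_powF.1 hs
      obtain ⟨w, hw, h2⟩ := ih.1 ht
      exact ⟨s' ++ w, ⟨s', mem_powF.2 hs', w, hw, rfl⟩, (imgW_append _ _ _).2 ⟨s, h1, t, h2, rfl⟩⟩
    · rintro ⟨w, ⟨s', hs', w', hw', rfl⟩, hv⟩
      obtain ⟨s, hs, t, ht, rfl⟩ := (imgW_append _ _ _).1 hv
      exact ⟨s, mem_powF.2 ⟨s', mem_powF.1 hs', hs⟩, t, ih.2 ⟨w', hw', ht⟩, rfl⟩

/-- Composition: `ϑ^(m+n)(a) = ϑ^n(ϑ^m(a))`. -/
theorem comp {ϑ : A → Finset (List A)} {m n : ℕ} {a : A} {v : List A} :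
    v ∈ pow ϑ (m + n) a ↔ ∃ u ∈ pow ϑ m a, v ∈ imgW (powF ϑ n) u := by
  induction n generalizing v with
  | zero =>
    simp only [imgW_powF_zero, add_zero]
    constructor
    · intro h
      exact ⟨v, h, rfl⟩
    · rintro ⟨u, hu, rfl⟩
      exact hu
  | succ n ih =>
    rw [← add_assoc, mem_pow_succ]
    constructor
    · rintro ⟨w, hw, hv⟩
      obtain ⟨u, hu, h1⟩ := ih.1 hw
      exact ⟨u, hu, imgW_powF_succ.2 ⟨w, h1, hv⟩⟩
    · rintro ⟨u, hu, hv⟩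
      obtain ⟨w, hw, h1⟩ := imgW_powF_succ.1 hv
      exact ⟨w, ih.2 ⟨u, hu, hw⟩, h1⟩

theorem mem_powF_one {ϑ : A → Finset (List A)} {a : A} {v : List A} :
    v ∈ powF ϑ 1 a ↔ v ∈ ϑ a := by
  rw [mem_powF, mem_pow_succ]
  constructor
  · rintro ⟨u, hu, hv⟩
    have h : u = [a] := hu
    rw [h, mem_imgW_single] at hv
    exact hv
  · intro h
    exact ⟨[a], rfl, mem_imgW_single.2 h⟩

theorem powF_one (ϑ : A → Finset (List A)) : powF ϑ 1 = ϑ := by
  funext a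
  ext v
  exact mem_powF_one

/-- `(ϑ^n)^p = ϑ^(pn)`. -/
theorem pow_powF (ϑ : A → Finset (List A)) (n p : ℕ) (a : A) :
    pow (powF ϑ n) p a = pow ϑ (p * n) a := by
  induction p with
  | zero =>
    rw [Nat.zero_mul]
    rfl
  | succ p ih =>
    ext v
    rw [mem_pow_succ, Nat.succ_mul, comp, ih]

theorem pow_nonempty {ϑ : A → Finset (List A)} (hϑ : IsRandomSub ϑ) (n : ℕ) (a : A) :
    (pow ϑ n a).Nonempty := by
  induction n with
  | zero => exact ⟨[a], rfl⟩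
  | succ n ih =>
    obtain ⟨u, hu⟩ := ih
    obtain ⟨v, hv⟩ := imgW_nonempty hϑ u
    exact ⟨v, u, hu, hv⟩

theorem pow_ne_nil {ϑ : A → Finset (List A)} (hϑ : IsRandomSub ϑ) (n : ℕ) (a : A) :
    ∀ v ∈ pow ϑ n a, v ≠ [] := by
  induction n with
  | zero =>
    intro v hv
    have h : v = [a] := hv
    rw [h]
    simp
  | succ n ih =>
    rintro v ⟨u, hu, hv⟩
    have hu' := ih u hu
    cases u with
    | nil => exact absurd rfl hu'
    | cons b u =>
      obtain ⟨s, hs, t, ht, rfl⟩ := hv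
      have := (hϑ b).2 s hs
      intro h
      exact this (List.append_eq_nil_iff.1 h).1

theorem powF_isRandomSub {ϑ : A → Finset (List A)} (hϑ : IsRandomSub ϑ) (n : ℕ) :
    IsRandomSub (powF ϑ n) := by
  intro a
  constructor
  · obtain ⟨v, hv⟩ := pow_nonempty hϑ n a
    exact ⟨v, mem_powF.2 hv⟩
  · intro v hv
    exact pow_ne_nil hϑ n a v (mem_powF.1 hv)

theorem imgW_length {ϑ : A → Finset (List A)} {L : ℕ} (hlen : ∀ a, ∀ v ∈ ϑ a, v.length = L)
    (u : List A) : ∀ v ∈ imgW ϑ u, v.length = u.length * L := by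
  induction u with
  | nil =>
    intro v hv
    have h : v = [] := hv
    rw [h]
    simp
  | cons a u ih =>
    rintro v ⟨s, hs, t, ht, rfl⟩
    rw [List.length_append, hlen a s hs, ih t ht, List.length_cons]
    ring

theorem pow_length {ϑ : A → Finset (List A)} {L : ℕ} (hlen : ∀ a, ∀ v ∈ ϑ a, v.length = L)
    (n : ℕ) : ∀ a, ∀ v ∈ pow ϑ n a, v.length = L ^ n := by
  intro a
  induction n with
  | zero =>
    intro v hv
    have h : v = [a] := hv
    rw [h]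
    simp
  | succ n ih =>
    rintro v ⟨u, hu, hv⟩
    rw [imgW_length hlen u v hv, ih u hu, pow_succ]

theorem powF_length {ϑ : A → Finset (List A)} {L : ℕ} (hlen : ∀ a, ∀ v ∈ ϑ a, v.length = L)
    (n : ℕ) : ∀ a, ∀ v ∈ powF ϑ n a, v.length = L ^ n :=
  fun a v hv => pow_length hlen n a v (mem_powF.1 hv)

theorem powF_compatible {ϑ : A → Finset (List A)} (hϑ : IsRandomSub ϑ) (hc : Compatible ϑ)
    (n : ℕ) : Compatible (powF ϑ n) :=
  fun _ _ hv _ hv' => pow_perm hϑ hc (mem_powF.1 hv) (mem_powF.1 hv')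

/-- An image of `u` can be chosen with a given image of one of its letters. -/
theorem exists_img_infix {ϑ : A → Finset (List A)} (hϑ : IsRandomSub ϑ) {b : A} {u v : List A}
    (hb : b ∈ u) (hv : v ∈ ϑ b) : ∃ w ∈ imgW ϑ u, v <:+: w := by
  obtain ⟨s, t, rfl⟩ := List.append_of_mem hb
  obtain ⟨s', hs'⟩ := imgW_nonempty hϑ s
  obtain ⟨t', ht'⟩ := imgW_nonempty hϑ t
  exact ⟨s' ++ (v ++ t'), (imgW_append _ _ _).2 ⟨s', hs', v ++ t', ⟨v, hv, t', ht', rfl⟩, rfl⟩,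
    ⟨s', t', by rw [List.append_assoc]⟩⟩

/-- A letter of a word of `ϑ^m(a)` can be replaced by any of its level `n` images. -/
theorem exists_pow_infix {ϑ : A → Finset (List A)} (hϑ : IsRandomSub ϑ) {m n : ℕ} {a b : A}
    {u v : List A} (hu : u ∈ pow ϑ m a) (hb : b ∈ u) (hv : v ∈ pow ϑ n b) :
    ∃ w ∈ pow ϑ (m + n) a, v <:+: w := by
  obtain ⟨w, hw, h⟩ := exists_img_infix (powF_isRandomSub hϑ n) hb (mem_powF.2 hv)
  exact ⟨w, comp.2 ⟨u, hu, hw⟩, h⟩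

theorem letter_in_pow {ϑ : A → Finset (List A)} (hϑ : IsRandomSub ϑ) {p : ℕ}
    (hp : ∀ a b : A, ∃ v ∈ pow ϑ p b, a ∈ v) (t : ℕ) :
    ∀ a b : A, ∃ v ∈ pow ϑ (t * p + p) b, a ∈ v := by
  induction t with
  | zero =>
    intro a b
    rw [Nat.zero_mul, Nat.zero_add]
    exact hp a b
  | succ t ih =>
    intro a b
    obtain ⟨u, hu, hau⟩ := ih a b
    obtain ⟨v, hv, hav⟩ := hp a a
    obtain ⟨w, hw, h⟩ := exists_pow_infix hϑ hu hau hv
    refine ⟨w, ?_, h.subset hav⟩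
    rw [Nat.succ_mul]
    exact hw

theorem powF_primitive {ϑ : A → Finset (List A)} (hϑ : IsRandomSub ϑ) (hp : Primitive ϑ) {n : ℕ}
    (hn : 1 ≤ n) : Primitive (powF ϑ n) := by
  obtain ⟨p, hp1, hp⟩ := hp
  refine ⟨p, hp1, ?_⟩
  intro a b
  rw [pow_powF]
  obtain ⟨v, hv, hav⟩ := letter_in_pow hϑ hp (n - 1) a b
  refine ⟨v, ?_, hav⟩
  have h : p * n = (n - 1) * p + p := by
    obtain ⟨k, rfl⟩ : ∃ k, n = k + 1 := ⟨n - 1, by omega⟩
    rw [Nat.add_sub_cancel]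
    ring
  rw [h]
  exact hv

/-- Every legal word occurs in a word of `ϑ^N(b)`, for all large `N`. -/
theorem reach {ϑ : A → Finset (List A)} (hϑ : IsRandomSub ϑ) (hp : Primitive ϑ) {w : List A}
    (hw : Legal ϑ w) : ∃ N₀ : ℕ, ∀ N, N₀ ≤ N → ∀ b : A, ∃ v ∈ pow ϑ N b, w <:+: v := by
  obtain ⟨p0, hp1, hp⟩ := hp
  obtain ⟨p, a, v, hv, hwv⟩ := hw
  refine ⟨p0 + p, ?_⟩
  intro N hN b
  obtain ⟨t, rfl⟩ : ∃ t, N = t + p0 + p := ⟨N - (p0 + p), by omega⟩
  obtain ⟨u, hu⟩ := pow_nonempty hϑ t b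
  obtain ⟨b', hb'⟩ := List.exists_mem_of_ne_nil u (pow_ne_nil hϑ t b u hu)
  obtain ⟨v1, hv1, ha⟩ := hp a b'
  obtain ⟨w1, hw1, h1⟩ := exists_pow_infix hϑ hu hb' hv1
  obtain ⟨w2, hw2, h2⟩ := exists_pow_infix hϑ hw1 (h1.subset ha) hv
  exact ⟨w2, hw2, hwv.trans h2⟩

theorem legal_powF {ϑ : A → Finset (List A)} (hϑ : IsRandomSub ϑ) (hp : Primitive ϑ) {n : ℕ}
    (hn : 1 ≤ n) {w : List A} : Legal (powF ϑ n) w ↔ Legal ϑ w := by
  constructor
  · rintro ⟨p, a, v, hv, hwv⟩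
    rw [pow_powF] at hv
    exact ⟨p * n, a, v, hv, hwv⟩
  · intro h
    obtain ⟨N₀, hN⟩ := reach hϑ hp h
    obtain ⟨p, a, -, -, -⟩ := h
    obtain ⟨v, hv, hwv⟩ := hN (N₀ * n) (Nat.le_mul_of_pos_right _ hn) a
    refine ⟨N₀, a, v, ?_, hwv⟩
    rw [pow_powF]
    exact hv

theorem subshift_powF {ϑ : A → Finset (List A)} (hϑ : IsRandomSub ϑ) (hp : Primitive ϑ) {n : ℕ}
    (hn : 1 ≤ n) : subshift (powF ϑ n) = subshift ϑ := by
  ext x
  constructor
  · intro h i k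
    exact (legal_powF hϑ hp hn).1 (h i k)
  · intro h i k
    exact (legal_powF hϑ hp hn).2 (h i k)

/-- composition: a level 1 parsing of `x` and a level `n` parsing of `y` -/
theorem valid_succ {ϑ : A → Finset (List A)} (hϑ : IsRandomSub ϑ) (hp : Primitive ϑ) {L : ℕ}
    (hlen : ∀ a, ∀ v ∈ ϑ a, v.length = L) {n : ℕ} (hn : 1 ≤ n) {x y : ℤ → A} {c c' : ℤ}
    (hxy : ∀ i : ℤ, wd x (c + i * L) L ∈ ϑ (y i))
    (h : Cst.Valid (powF ϑ n) (L ^ n) y c') :
    Cst.Valid (powF ϑ (n + 1)) (L ^ (n + 1)) x (c + c' * L) := by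
  obtain ⟨z, hz, hzy⟩ := h
  refine ⟨z, ?_, ?_⟩
  · rw [subshift_powF hϑ hp (by omega)]
    rw [subshift_powF hϑ hp hn] at hz
    exact hz
  · intro i
    rw [mem_powF]
    refine ⟨_, mem_powF.1 (hzy i), ?_⟩
    have h1 := Syn.wd_mem_imgW L hxy (L ^ n) (c' + i * ((L ^ n : ℕ) : ℤ))
    rw [pow_succ]
    convert h1 using 2
    push_cast
    ring

end H35.RS.Up
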