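import Pool.Agent.H35.RS.Defs

/-! # Random substitutions: images of words and sequences (first facts) -/

namespace H35.RS

variable {A : Type*}

theorem imgW_nonempty {ϑ : A → Finset (List A)} (hϑ : IsRandomSub ϑ) (u : List A) :
    (imgW ϑ u).Nonempty := by
  induction u with
  | nil => exact ⟨[], rfl⟩
  | cons a u ih =>
    obtain ⟨s, hs⟩ := (hϑ a).1
    obtain ⟨t, ht⟩ := ih
    exact ⟨s ++ t, s, hs, t, ht, rfl⟩

theorem Legal.of_infix {ϑ : A → Finset (List A)} {w w' : List A} (h : Legal ϑ w)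
    (h' : w' <:+: w) : Legal ϑ w' := by
  obtain ⟨p, a, v, hv, hw⟩ := h
  exact ⟨p, a, v, hv, h'.trans hw⟩

theorem imgW_append {ϑ : A → Finset (List A)} (u₁ u₂ v : List A) :
    v ∈ imgW ϑ (u₁ ++ u₂) ↔ ∃ v₁ ∈ imgW ϑ u₁, ∃ v₂ ∈ imgW ϑ u₂, v = v₁ ++ v₂ := by
  induction u₁ generalizing v with
  | nil =>
    constructor
    · intro h
      exact ⟨[], rfl, v, h, rfl⟩
    · rintro ⟨v₁, h₁, v₂, h₂, rfl⟩
      have h1 : v₁ = [] := h₁
      subst h1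
      exact h₂
  | cons a u ih =>
    constructor
    · rintro ⟨s, hs, t, ht, rfl⟩
      obtain ⟨v₁, h₁, v₂, h₂, rfl⟩ := (ih t).1 ht
      exact ⟨s ++ v₁, ⟨s, hs, v₁, h₁, rfl⟩, v₂, h₂, by rw [List.append_assoc]⟩
    · rintro ⟨v₁, ⟨s, hs, t, ht, rfl⟩, v₂, h₂, rfl⟩
      exact ⟨s, hs, t ++ v₂, (ih _).2 ⟨t, ht, v₂, h₂, rfl⟩, by rw [List.append_assoc]⟩

theorem mem_imgW_singleton {ϑ : A → Finset (List A)} {a : A} {v : List A} (hv : v ∈ ϑ a) :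
    v ∈ imgW ϑ [a] :=
  ⟨v, hv, [], rfl, by simp⟩

theorem Legal.img {ϑ : A → Finset (List A)} (hϑ : IsRandomSub ϑ) {w v : List A}
    (h : Legal ϑ w) (hv : v ∈ imgW ϑ w) : Legal ϑ v := by
  obtain ⟨p, a, v0, hv0, s, t, rfl⟩ := h
  obtain ⟨s', hs'⟩ := imgW_nonempty hϑ s
  obtain ⟨t', ht'⟩ := imgW_nonempty hϑ t
  refine ⟨p + 1, a, s' ++ v ++ t', ⟨s ++ w ++ t, hv0, ?_⟩, ⟨s', t', rfl⟩⟩
  exact (imgW_append _ _ _).2 ⟨s' ++ v, (imgW_append _ _ _).2 ⟨s', hs', v, hv, rfl⟩, t', ht', rfl⟩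

theorem wd_length (x : ℤ → A) (i : ℤ) (n : ℕ) : (wd x i n).length = n := by
  simp [wd]

theorem wd_add (x : ℤ → A) (i : ℤ) (m n : ℕ) :
    wd x i (m + n) = wd x i m ++ wd x (i + m) n := by
  unfold wd
  rw [List.range_add, List.map_append, List.map_map]
  congr 1
  apply List.map_congr_left
  intro k _
  simp only [Function.comp]
  congr 1
  push_cast
  ring

theorem wd_one (x : ℤ → A) (i : ℤ) : wd x i 1 = [x i] := by
  simp [wd]

theorem wd_zero (x : ℤ → A) (i : ℤ) : wd x i 0 = [] := by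
  simp [wd]

theorem wd_infix (x : ℤ → A) {i j : ℤ} {n N : ℕ} (h1 : i ≤ j) (h2 : j + n ≤ i + N) :
    wd x j n <:+: wd x i N := by
  obtain ⟨a, ha⟩ : ∃ a : ℕ, j = i + a := ⟨(j - i).toNat, by omega⟩
  obtain ⟨b, hb⟩ : ∃ b : ℕ, N = a + n + b := ⟨N - (a + n), by omega⟩
  subst ha
  subst hb
  rw [wd_add, wd_add]
  exact ⟨wd x i a, _, rfl⟩

/-- Consecutive tiles concatenate to an image. -/
theorem wd_tiles {ϑ : A → Finset (List A)} (hϑ : IsRandomSub ϑ) {x y : ℤ → A}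
    (u : ℤ → List A) (c : ℤ → ℤ) (hu : ∀ i, u i ∈ ϑ (y i))
    (hc : ∀ i, c (i + 1) = c i + (u i).length) (hx : ∀ i, wd x (c i) (u i).length = u i)
    (i : ℤ) (m : ℕ) :
    ∃ n : ℕ, m ≤ n ∧ c (i + m) = c i + n ∧ wd x (c i) n ∈ imgW ϑ (wd y i m) := by
  induction m with
  | zero => exact ⟨0, le_rfl, by simp, by rw [wd_zero, wd_zero]; rfl⟩
  | succ m ih =>
    obtain ⟨n, hn, h1, h2⟩ := ih
    have hpos : 1 ≤ (u (i + m)).length := by
      have := (hϑ (y (i + m))).2 _ (hu (i + m))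
      exact List.length_pos_iff.2 this
    refine ⟨n + (u (i + m)).length, by omega, ?_, ?_⟩
    · have := hc (i + m)
      push_cast
      rw [← add_assoc, this, h1]
      ring
    · rw [wd_add x (c i) n, wd_add y i m 1, wd_one, ← h1, hx]
      exact (imgW_append _ _ _).2 ⟨_, h2, _, mem_imgW_singleton (hu _), rfl⟩

/-- W1 -/
theorem mem_subshift_of_tiles {ϑ : A → Finset (List A)} (hϑ : IsRandomSub ϑ) {x y : ℤ → A}
    (hy : y ∈ subshift ϑ) (u : ℤ → List A) (c : ℤ → ℤ) (hu : ∀ i, u i ∈ ϑ (y i))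
    (hc : ∀ i, c (i + 1) = c i + (u i).length) (hx : ∀ i, wd x (c i) (u i).length = u i) :
    x ∈ subshift ϑ := by
  intro j n
  set l : ℕ := (c 0).natAbs + j.natAbs + n with hl
  obtain ⟨n1, h11, h12, -⟩ := wd_tiles hϑ u c hu hc hx (-(l : ℤ)) l
  obtain ⟨n2, h21, h22, -⟩ := wd_tiles hϑ u c hu hc hx 0 l
  obtain ⟨N, h31, h32, h33⟩ := wd_tiles hϑ u c hu hc hx (-(l : ℤ)) (l + l)
  have e1 : (-(l : ℤ)) + l = 0 := by ring
  have e2 : (-(l : ℤ)) + ((l + l : ℕ) : ℤ) = l := by push_cast; ring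
  have e3 : (0 : ℤ) + l = l := by ring
  rw [e1] at h12
  rw [e2] at h32
  rw [e3] at h22
  have hN : Legal ϑ (wd x (c (-(l : ℤ))) N) := (hy _ _).img hϑ h33
  refine hN.of_infix (wd_infix x ?_ ?_)
  · omega
  · omega

end H35.RS
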