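import Pool.Agent.H35.RS.Basic

/-! # Compactness, concatenation of tiles, rearrangements -/

namespace H35.RS

variable {A : Type*}

namespace B2

theorem wd_getElem (x : ℤ → A) (i : ℤ) (n k : ℕ) (h : k < (wd x i n).length) :
    (wd x i n)[k] = x (i + k) := by
  simp [wd]

theorem wd_congr {x x' : ℤ → A} {i : ℤ} {n : ℕ} (h : ∀ k : ℕ, k < n → x (i + k) = x' (i + k)) :
    wd x i n = wd x' i n := by
  unfold wd
  apply List.map_congr_left
  intro j hj
  exact h j (List.mem_range.1 hj)

theorem imgW_perm_self {ϑ : A → Finset (List A)} (hc : Compatible ϑ) (u : List A) :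
    ∀ v ∈ imgW ϑ u, ∀ v' ∈ imgW ϑ u, v.Perm v' := by
  induction u with
  | nil =>
      intro v hv v' hv'
      have h1 : v = [] := hv
      have h2 : v' = [] := hv'
      rw [h1, h2]
  | cons a u ih =>
      rintro v ⟨s, hs, t, ht, rfl⟩ v' ⟨s', hs', t', ht', rfl⟩
      exact (hc a s hs s' hs').append (ih t ht t' ht')

theorem imgW_perm {ϑ : A → Finset (List A)} (hϑ : IsRandomSub ϑ) (hc : Compatible ϑ)
    {u u' : List A} (h : u.Perm u') :
    ∀ v ∈ imgW ϑ u, ∀ v' ∈ imgW ϑ u', v.Perm v' := by
  induction h with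
  | nil => exact imgW_perm_self hc []
  | cons a h ih =>
      rintro v ⟨s, hs, t, ht, rfl⟩ v' ⟨s', hs', t', ht', rfl⟩
      exact (hc a s hs s' hs').append (ih t ht t' ht')
  | swap a b l =>
      rintro v ⟨s, hs, t, ⟨s1, hs1, t1, ht1, rfl⟩, rfl⟩ v' ⟨s', hs', t', ⟨s1', hs1', t1', ht1', rfl⟩, rfl⟩
      rw [← List.append_assoc, ← List.append_assoc]
      refine List.Perm.append ?_ (imgW_perm_self hc l _ ht1 _ ht1')
      exact ((hc b s hs s1' hs1').append (hc a s1 hs1 s' hs')).trans List.perm_append_comm
  | trans _ _ ih1 ih2 =>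
      rename_i l1 l2 l3 _ _
      intro v hv v' hv'
      obtain ⟨w, hw⟩ := imgW_nonempty hϑ l2
      exact (ih1 v hv w hw).trans (ih2 w hw v' hv')

/-- concatenation of a two-sided sequence of non-empty words -/
theorem exists_concat (w : ℤ → List A) (hw : ∀ m, w m ≠ []) :
    ∃ (x : ℤ → A) (c : ℤ → ℤ), (∀ m, c (m + 1) = c m + (w m).length) ∧
      ∀ m, wd x (c m) (w m).length = w m := by
  classical
  -- partial sums
  obtain ⟨c, hc⟩ : ∃ c : ℤ → ℤ, ∀ m, c (m + 1) = c m + (w m).length := by
    refine ⟨fun m => ∑ j ∈ Finset.Ico 0 m, ((w j).length : ℤ)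
      - ∑ j ∈ Finset.Ico m 0, ((w j).length : ℤ), fun m => ?_⟩
    rcases le_or_gt 0 m with h | h
    · have h1 : Finset.Ico (m + 1) 0 = ∅ := Finset.Ico_eq_empty (by omega)
      have h2 : Finset.Ico m 0 = ∅ := Finset.Ico_eq_empty (by omega)
      have h3 : Finset.Ico 0 (m + 1) = insert m (Finset.Ico 0 m) := by
        ext j; simp only [Finset.mem_Ico, Finset.mem_insert]; omega
      simp only [h1, h2, Finset.sum_empty, sub_zero]
      rw [h3, Finset.sum_insert (by simp)]
      ring
    · have h1 : Finset.Ico 0 (m + 1) = ∅ := Finset.Ico_eq_empty (by omega)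
      have h2 : Finset.Ico 0 m = ∅ := Finset.Ico_eq_empty (by omega)
      have h3 : Finset.Ico m 0 = insert m (Finset.Ico (m + 1) 0) := by
        ext j; simp only [Finset.mem_Ico, Finset.mem_insert]; omega
      simp only [h1, h2, Finset.sum_empty, zero_sub]
      rw [h3, Finset.sum_insert (by simp)]
      ring
  have hpos : ∀ m, 0 < (w m).length := fun m => List.length_pos_iff.2 (hw m)
  have hstep : ∀ m, c m < c (m + 1) := fun m => by
    rw [hc]; have := hpos m; omega
  have hmono : StrictMono c := strictMono_int_of_lt_succ hstep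
  have hgrow : ∀ n : ℕ, ∀ m, c m + n ≤ c (m + n) := by
    intro n
    induction n with
    | zero => intro m; simp
    | succ n ih =>
        intro m
        have h1 := ih m
        have h2 := hstep (m + n)
        push_cast
        rw [← add_assoc m]
        omega
  have hloc : ∀ p : ℤ, ∃ m, c m ≤ p ∧ p < c (m + 1) := by
    intro p
    obtain ⟨m, hm1, hm2⟩ := Int.exists_greatest_of_bdd (P := fun m => c m ≤ p)
      ⟨(p - c 0).natAbs, fun z hz => by
        by_contra hcon
        push Not at hcon
        have h1 := hgrow (p - c 0).natAbs 0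
        have h2 := hmono hcon
        rw [zero_add] at h1
        omega⟩
      ⟨-((c 0 - p).natAbs : ℤ), by
        have h1 := hgrow (c 0 - p).natAbs (-((c 0 - p).natAbs : ℤ))
        rw [neg_add_cancel] at h1
        show c (-((c 0 - p).natAbs : ℤ)) ≤ p
        omega⟩
    refine ⟨m, hm1, ?_⟩
    by_contra hcon
    push Not at hcon
    have := hm2 (m + 1) hcon
    omega
  choose loc hloc1 hloc2 using hloc
  have huniq : ∀ p m, c m ≤ p → p < c (m + 1) → loc p = m := by
    intro p m h1 h2
    have h3 : c m < c (loc p + 1) := lt_of_le_of_lt h1 (hloc2 p)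
    have h4 : c (loc p) < c (m + 1) := lt_of_le_of_lt (hloc1 p) h2
    have h5 := hmono.lt_iff_lt.1 h3
    have h6 := hmono.lt_iff_lt.1 h4
    omega
  have hlt : ∀ p, (p - c (loc p)).toNat < (w (loc p)).length := by
    intro p
    have h1 := hloc1 p
    have h2 := hloc2 p
    rw [hc] at h2
    omega
  refine ⟨fun p => (w (loc p))[(p - c (loc p)).toNat]'(hlt p), c, hc, fun m => ?_⟩
  apply List.ext_getElem
  · exact wd_length _ _ _
  · intro k h1 h2
    rw [wd_getElem]
    have h3 : loc (c m + k) = m := by
      apply huniq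
      · omega
      · rw [hc]; omega
    have h4 : (c m + k - c (loc (c m + k))).toNat = k := by
      rw [h3]; omega
    have key : ∀ (a : ℤ) (b : ℕ) (hb : b < (w a).length), a = m → b = k →
        (w a)[b] = (w m)[k] := by
      intro a b hb ha hbk
      subst ha
      subst hbk
      rfl
    exact key _ _ _ h3 h4

theorem imgW_tiles {ϑ : A → Finset (List A)} (u : List A) : ∀ v ∈ imgW ϑ u,
    ∃ ws : List (List A), List.Forall₂ (fun a s => s ∈ ϑ a) u ws ∧ v = ws.flatten := by
  induction u with
  | nil =>
      intro v hv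
      have h1 : v = [] := hv
      exact ⟨[], List.Forall₂.nil, by rw [h1]; rfl⟩
  | cons a u ih =>
      rintro v ⟨s, hs, t, ht, rfl⟩
      obtain ⟨ws, h1, rfl⟩ := ih t ht
      exact ⟨s :: ws, List.Forall₂.cons hs h1, by simp⟩

theorem wd_flatten {x : ℤ → A} {w : ℤ → List A} {c : ℤ → ℤ}
    (hc : ∀ m, c (m + 1) = c m + (w m).length) (hx : ∀ m, wd x (c m) (w m).length = w m)
    (ws : List (List A)) : ∀ i : ℤ, (∀ (k : ℕ) (h : k < ws.length), w (i + k) = ws[k]) →
      wd x (c i) ws.flatten.length = ws.flatten := by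
  induction ws with
  | nil => intro i _; simp [wd]
  | cons s ws ih =>
      intro i h
      have h0 : w i = s := by
        have := h 0 (by simp)
        simpa using this
      rw [List.flatten_cons, List.length_append, wd_add]
      have h1 : wd x (c i) s.length = s := by rw [← h0]; exact hx i
      have h2 : c i + (s.length : ℤ) = c (i + 1) := by rw [hc, h0]
      rw [h1, h2, ih (i + 1)]
      intro k hk
      have := h (k + 1) (by simpa using hk)
      rw [List.getElem_cons_succ] at this
      rw [← this]
      congr 1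
      push_cast
      ring

end B2

open B2

theorem pow_perm {ϑ : A → Finset (List A)} (hϑ : IsRandomSub ϑ) (hc : Compatible ϑ) {p : ℕ}
    {a : A} {v v' : List A} (hv : v ∈ pow ϑ p a) (hv' : v' ∈ pow ϑ p a) : v.Perm v' := by
  induction p generalizing v v' with
  | zero =>
      have h1 : v = [a] := hv
      have h2 : v' = [a] := hv'
      rw [h1, h2]
  | succ p ih =>
      obtain ⟨u, hu, hv⟩ := hv
      obtain ⟨u', hu', hv'⟩ := hv'
      exact imgW_perm hϑ hc (ih hu hu') v hv v' hv'

theorem mem_subshift_of_local {ϑ : A → Finset (List A)} {x : ℤ → A}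
    (h : ∀ n : ℕ, ∃ x' ∈ subshift ϑ, ∀ i : ℤ, |i| ≤ (n : ℤ) → x' i = x i) :
    x ∈ subshift ϑ := by
  intro i n
  obtain ⟨x', hx', h1⟩ := h (i.natAbs + n)
  have : wd x i n = wd x' i n := by
    apply wd_congr
    intro k hk
    refine (h1 _ ?_).symm
    rw [abs_le]
    constructor <;> omega
  rw [this]
  exact hx' i n

theorem subshift_nonempty [Finite A] {ϑ : A → Finset (List A)}
    (h : ∀ n : ℕ, ∃ w, Legal ϑ w ∧ n ≤ w.length) : (subshift ϑ).Nonempty := by
  let _ : TopologicalSpace A := ⊥
  have _ : DiscreteTopology A := ⟨rfl⟩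
  let K : ℕ → Set (ℤ → A) := fun n => {x | Legal ϑ (wd x (-n) (2 * n))}
  have hinf : ∀ (x : ℤ → A) (i : ℤ) (a b c : ℕ), wd x (i + a) b <:+: wd x i (a + b + c) := by
    intro x i a b c
    refine ⟨wd x i a, wd x (i + a + b) c, ?_⟩
    rw [wd_add, wd_add]
    congr 1
    congr 1
    push_cast
    ring
  have hanti : ∀ n, K (n + 1) ⊆ K n := by
    intro n x hx
    refine Legal.of_infix hx ?_
    have := hinf x (-((n : ℤ) + 1)) 1 (2 * n) 1
    convert this using 2
    · push_cast; ring
    · push_cast; ring
    · ring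
  have hcl : ∀ n, IsClosed (K n) := by
    intro n
    let f : (ℤ → A) → (Fin (2 * n) → A) := fun x k => x (-n + (k : ℕ))
    have hf : Continuous f := continuous_pi fun k => continuous_apply _
    have hK : K n = f ⁻¹' {g | Legal ϑ (List.ofFn g)} := by
      ext x
      have : wd x (-n) (2 * n) = List.ofFn (f x) := by
        apply List.ext_getElem
        · simp [wd]
        · intro k h1 h2
          rw [wd_getElem, List.getElem_ofFn]
      show Legal ϑ (wd x (-n) (2 * n)) ↔ Legal ϑ (List.ofFn (f x))
      rw [this]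
    rw [hK]
    exact (isClosed_discrete _).preimage hf
  have hne : ∀ n, (K n).Nonempty := by
    intro n
    obtain ⟨w, hw, hlen⟩ := h (2 * n + 1)
    have hpos : 0 < w.length := by omega
    refine ⟨fun i => w.getD (i + n).toNat (w[0]'hpos), ?_⟩
    refine Legal.of_infix hw (List.IsPrefix.isInfix ?_)
    have : wd (fun i => w.getD (i + n).toNat (w[0]'hpos)) (-n) (2 * n) = w.take (2 * n) := by
      apply List.ext_getElem
      · simp [wd]; omega
      · intro k h1 h2
        rw [wd_getElem, List.getElem_take]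
        rw [wd_length] at h1
        have h3 : (-(n : ℤ) + (k : ℤ) + n).toNat = k := by omega
        rw [h3, List.getD_eq_getElem _ _ (by omega)]
    rw [this]
    exact List.take_prefix _ _
  have hcomp : IsCompact (K 0) := (hcl 0).isCompact
  obtain ⟨x, hx⟩ := IsCompact.nonempty_iInter_of_sequence_nonempty_isCompact_isClosed K hanti hne
    hcomp hcl
  refine ⟨x, fun i n => ?_⟩
  have h1 := Set.mem_iInter.1 hx (i.natAbs + n)
  refine Legal.of_infix h1 ?_
  have h2 := hinf x (-((i.natAbs + n : ℕ) : ℤ)) (i + (i.natAbs + n : ℕ)).toNat n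
    (2 * (i.natAbs + n) - (i + (i.natAbs + n : ℕ)).toNat - n)
  convert h2 using 2
  · omega
  · omega

theorem exists_point_with {ϑ : A → Finset (List A)} (hϑ : IsRandomSub ϑ) {y : ℤ → A}
    (hy : y ∈ subshift ϑ) (j : ℤ) (k : ℕ) {v : List A} (hv : v ∈ pow ϑ k (y j)) :
    ∃ x ∈ subshift ϑ, ∃ i, wd x i v.length = v := by
  classical
  induction k generalizing v with
  | zero =>
      have h1 : v = [y j] := hv
      refine ⟨y, hy, j, ?_⟩
      rw [h1]
      simp [wd]
  | succ k ih =>
      obtain ⟨u, hu, hv⟩ := hv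
      obtain ⟨z, hz, i, hi⟩ := ih hu
      obtain ⟨ws, hws, rfl⟩ := imgW_tiles u v hv
      have hlen : u.length = ws.length := hws.length_eq
      have hmem : ∀ (k : ℕ) (h : k < ws.length), ws[k] ∈ ϑ (z (i + k)) := by
        intro k h
        have h1 := List.Forall₂.get hws (by omega : k < u.length) h
        simp only [List.get_eq_getElem] at h1
        have h2 : u[k]'(by omega) = z (i + k) := by
          have h3 : (wd z i u.length)[k]'(by rw [wd_length]; omega) = z (i + k) := wd_getElem _ _ _ _ _
          rw [← h3]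
          congr 1
          exact hi.symm
        rw [← h2]
        exact h1
      choose f hf using fun m => (hϑ (z m)).1
      let w : ℤ → List A := fun m =>
        if h : i ≤ m ∧ m < i + ws.length then ws[(m - i).toNat]'(by omega) else f m
      have hw : ∀ m, w m ∈ ϑ (z m) := by
        intro m
        by_cases h : i ≤ m ∧ m < i + ws.length
        · have h1 := hmem (m - i).toNat (by omega)
          have h2 : i + ((m - i).toNat : ℤ) = m := by omega
          rw [h2] at h1
          simp only [w, dif_pos h]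
          exact h1
        · simp only [w, dif_neg h]
          exact hf m
      obtain ⟨x, c, hc, hx⟩ := exists_concat w (fun m => (hϑ (z m)).2 _ (hw m))
      refine ⟨x, mem_subshift_of_tiles hϑ hz w c hw hc hx, c i, ?_⟩
      apply wd_flatten hc hx
      intro k hk
      have h : i ≤ i + (k : ℤ) ∧ i + (k : ℤ) < i + ws.length := by omega
      simp only [w, dif_pos h]
      congr 1
      omega

end H35.RS
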