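import Mathlib

/-!
# Homomorphisms from symmetric groups to small finite groups
-/

namespace H35.RS

open Equiv Equiv.Perm

/-- A homomorphism from a symmetric group of large degree to a small finite group kills the
alternating group. -/
theorem kills_even {S : Type*} [Fintype S] [DecidableEq S] {F : Type*} [Group F] [Finite F]
    (f : Perm S →* F) (h : Nat.card F + 2 ≤ Fintype.card S) {π : Perm S}
    (hπ : Perm.sign π = 1) : f π = 1 := by
  classical
  have : Fintype F := Fintype.ofFinite F
  rw [Nat.card_eq_fintype_card] at h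
  have hpos : 0 < Fintype.card S := by omega
  obtain ⟨a⟩ : Nonempty S := Fintype.card_pos_iff.1 hpos
  -- pigeonhole
  obtain ⟨i, hi, j, hj, hij, hfij⟩ : ∃ i ∈ Finset.univ.erase a, ∃ j ∈ Finset.univ.erase a,
      i ≠ j ∧ f (swap a i) = f (swap a j) := by
    apply Finset.exists_ne_map_eq_of_card_lt_of_maps_to (t := (Finset.univ : Finset F))
    · rw [Finset.card_erase_of_mem (Finset.mem_univ a), Finset.card_univ, Finset.card_univ]
      omega
    · intro x _
      exact Finset.mem_univ _
  have hai : a ≠ i := (Finset.ne_of_mem_erase hi).symm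
  have haj : a ≠ j := (Finset.ne_of_mem_erase hj).symm
  have h3 : IsThreeCycle (swap a i * swap a j) := isThreeCycle_swap_mul_swap_same hai haj hij
  have hk : f (swap a i * swap a j) = 1 := by
    rw [map_mul, ← hfij, ← map_mul, swap_mul_self, map_one]
  have hall : ∀ σ : Perm S, IsThreeCycle σ → f σ = 1 := by
    intro σ hσ
    have hc : IsConj (swap a i * swap a j) σ := by
      rw [isConj_iff_cycleType_eq, h3.cycleType, hσ.cycleType]
    obtain ⟨c, hc⟩ := isConj_iff.1 hc
    rw [← hc, map_mul, map_mul, hk, mul_one, ← map_mul, mul_inv_cancel, map_one]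
  have hle : alternatingGroup S ≤ f.ker := by
    rw [← closure_three_cycles_eq_alternating, Subgroup.closure_le]
    intro σ hσ
    exact hall σ hσ
  exact hle (mem_alternatingGroup.2 hπ)

/-- The subgroup of permutations moving every element inside its class. -/
def classPerm {S : Type*} (R : S → S → Prop) (hR : Equivalence R) : Subgroup (Perm S) where
  carrier := {τ | ∀ V, R V (τ V)}
  mul_mem' := by
    intro σ τ hσ hτ V
    exact hR.trans (hτ V) (hσ (τ V))
  one_mem' := fun V => hR.refl V
  inv_mem' := by
    intro τ hτ V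
    have := hτ (τ⁻¹ V)
    have h2 : τ (τ⁻¹ V) = V := Equiv.apply_symm_apply τ V
    rw [h2] at this
    exact hR.symm this

theorem mem_classPerm {S : Type*} {R : S → S → Prop} {hR : Equivalence R} {τ : Perm S} :
    τ ∈ classPerm R hR ↔ ∀ V, R V (τ V) := Iff.rfl

/-- Permutations of order 3 moving elements inside their classes are killed by a homomorphism to a
finite group, if every class is either large or irrelevant. -/
theorem kills_three {S : Type*} [Finite S] {R : S → S → Prop} (hR : Equivalence R)
    {F : Type*} [Group F] [Finite F] (φ : classPerm R hR →* F)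
    (hcl : ∀ V0 : S, (∃ s : Finset S, Nat.card F + 2 ≤ s.card ∧ ∀ V ∈ s, R V0 V) ∨
      (∀ τ : classPerm R hR, (∀ V, τ.1 V ≠ V → R V0 V) → φ τ = 1))
    (τ : classPerm R hR) (hτ : τ ^ 3 = 1) : φ τ = 1 := by
  classical
  have : Fintype S := Fintype.ofFinite S
  -- elements moving only one class
  have key : ∀ V0 : S, ∀ σ : classPerm R hR, (∀ V, σ.1 V ≠ V → R V0 V) → Perm.sign σ.1 = 1 →
      φ σ = 1 := by
    intro V0 σ hσ hsign
    rcases hcl V0 with ⟨s, hs, hsR⟩ | h
    · -- large class
      let p : S → Prop := fun V => R V0 V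
      have hmem : ∀ π : Perm (Subtype p), (ofSubtype π : Perm S) ∈ classPerm R hR := by
        intro π V
        by_cases hV : p V
        · have h1 : (ofSubtype π : Perm S) V = (π ⟨V, hV⟩ : S) := ofSubtype_apply_of_mem π hV
          rw [h1]
          exact hR.trans (hR.symm hV) (π ⟨V, hV⟩).2
        · rw [ofSubtype_apply_of_not_mem π hV]
          exact hR.refl V
      let ι : Perm (Subtype p) →* classPerm R hR :=
        (ofSubtype : Perm (Subtype p) →* Perm S).codRestrict (classPerm R hR) hmem
      have hcard : Nat.card F + 2 ≤ Fintype.card (Subtype p) := by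
        refine le_trans hs ?_
        rw [Fintype.card_subtype]
        apply Finset.card_le_card
        intro V hV
        rw [Finset.mem_filter]
        exact ⟨Finset.mem_univ _, hsR V hV⟩
      have h1 : ∀ x, p (σ.1 x) ↔ p x := by
        intro x
        constructor
        · intro h
          exact hR.trans h (hR.symm (σ.2 x))
        · intro h
          exact hR.trans h (σ.2 x)
      have h2 : ∀ x, σ.1 x ≠ x → p x := hσ
      have h3 : ofSubtype (subtypePerm σ.1 h1) = σ.1 := ofSubtype_subtypePerm h1 h2
      have h4 : σ = ι (subtypePerm σ.1 h1) := Subtype.ext h3.symm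
      rw [h4]
      show (φ.comp ι) (subtypePerm σ.1 h1) = 1
      apply kills_even (φ.comp ι) hcard
      rw [← sign_ofSubtype, h3]
      exact hsign
    · exact h σ hσ
  -- induction on the cycle decomposition
  have main : ∀ σ : Perm S, ∀ hσ : σ ∈ classPerm R hR, σ ^ 3 = 1 → φ ⟨σ, hσ⟩ = 1 := by
    intro σ
    refine cycle_induction_on (P := fun σ => ∀ hσ : σ ∈ classPerm R hR, σ ^ 3 = 1 →
      φ ⟨σ, hσ⟩ = 1) σ ?_ ?_ ?_
    · intro hσ _
      exact map_one φ
    · intro σ hcyc hσ h3
      have hord : orderOf σ = 3 := by
        have hdvd : orderOf σ ∣ 3 := orderOf_dvd_of_pow_eq_one h3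
        rcases (Nat.dvd_prime Nat.prime_three).1 hdvd with h | h
        · exfalso
          exact hcyc.ne_one (orderOf_eq_one_iff.1 h)
        · exact h
      have hsupp : σ.support.card = 3 := by
        rw [← hcyc.orderOf, hord]
      have h3c : IsThreeCycle σ := card_support_eq_three_iff.1 hsupp
      obtain ⟨V0, hV0, hcycV⟩ := hcyc
      have hcyc' : IsCycle σ := ⟨V0, hV0, hcycV⟩
      apply key V0 ⟨σ, hσ⟩ _ h3c.sign
      intro V hV
      obtain ⟨k, hk⟩ := hcycV hV
      have : (σ ^ k) ∈ classPerm R hR := Subgroup.zpow_mem _ hσ k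
      have := this V0
      rwa [hk] at this
    · intro σ τ hdisj _ ihσ ihτ hστ h3
      have hcomm : Commute σ τ := hdisj.commute
      have h33 : σ ^ 3 * τ ^ 3 = 1 := by
        rw [← hcomm.mul_pow]
        exact h3
      have hd3 : Disjoint (σ ^ 3) (τ ^ 3) := hdisj.pow_disjoint_pow 3 3
      have h1 := hd3.mul_eq_one_iff.1 h33
      have hσm : σ ∈ classPerm R hR := by
        intro V
        rcases hdisj V with h | h
        · rw [h]
          exact hR.refl V
        · have := hστ V
          rw [Perm.mul_apply, h] at this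
          exact this
      have hτm : τ ∈ classPerm R hR := by
        intro V
        have : τ = σ⁻¹ * (σ * τ) := by simp
        rw [this]
        exact Subgroup.mul_mem _ (Subgroup.inv_mem _ hσm) hστ V
      have hprod : (⟨σ * τ, hστ⟩ : classPerm R hR) = ⟨σ, hσm⟩ * ⟨τ, hτm⟩ := rfl
      rw [hprod, map_mul, ihσ hσm h1.1, ihτ hτm h1.2, one_mul]
  have := main τ.1 τ.2 (by
    have := congrArg Subtype.val hτ
    simpa using this)
  exact this

end H35.RS
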