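import Pool.Agent.H35.RS.Gate
import Pool.Agent.H35.RS.GateAlg

/-!
# The abstract criterion
-/

namespace H35.RS

variable {A : Type*}

/-! ### Extension of a permutation of the contents of a small window to a larger window -/

theorem ico_mono {r r' : ℕ} (h : r ≤ r') {k : ℤ} (hk : k ∈ Finset.Ico (-(r : ℤ)) (r : ℤ)) :
    k ∈ Finset.Ico (-(r' : ℤ)) (r' : ℤ) := by
  rw [Finset.mem_Ico] at hk ⊢
  have : (r : ℤ) ≤ r' := by exact_mod_cast h
  omega

/-- The central part of a content. -/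
def ctr {r r' : ℕ} (h : r ≤ r') (V : Cont A r') : Cont A r := fun k => V ⟨k.1, ico_mono h k.2⟩

theorem ctr_cont {r r' : ℕ} (h : r ≤ r') (x : ℤ → A) (p : ℤ) :
    ctr h (cont r' x p) = cont r x p := rfl

open Classical in
/-- Apply `τ` to the central part of a content. -/
noncomputable def ext {r r' : ℕ} (h : r ≤ r') (τ : Cont A r → Cont A r) (V : Cont A r') :
    Cont A r' :=
  fun k => if hk : k.1 ∈ Finset.Ico (-(r : ℤ)) (r : ℤ) then τ (ctr h V) ⟨k.1, hk⟩ else V k

theorem ctr_ext {r r' : ℕ} (h : r ≤ r') (τ : Cont A r → Cont A r) (V : Cont A r') :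
    ctr h (ext h τ V) = τ (ctr h V) := by
  funext k
  simp only [ctr, ext]
  rw [dif_pos k.2]

theorem ext_ext {r r' : ℕ} (h : r ≤ r') (τ τ' : Cont A r → Cont A r) (V : Cont A r') :
    ext h τ' (ext h τ V) = ext h (τ' ∘ τ) V := by
  funext k
  by_cases hk : k.1 ∈ Finset.Ico (-(r : ℤ)) (r : ℤ)
  · have h1 : ext h τ' (ext h τ V) k = τ' (ctr h (ext h τ V)) ⟨k.1, hk⟩ := by
      conv_lhs => unfold ext
      rw [dif_pos hk]
      rfl
    rw [h1, ctr_ext]
    conv_rhs => unfold ext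
    rw [dif_pos hk]
    rfl
  · have h1 : ext h τ' (ext h τ V) k = ext h τ V k := by
      conv_lhs => unfold ext
      rw [dif_neg hk]
      rfl
    have h2 : ∀ σ : Cont A r → Cont A r, ext h σ V k = V k := by
      intro σ
      unfold ext
      rw [dif_neg hk]
    rw [h1, h2, h2]

theorem ext_id {r r' : ℕ} (h : r ≤ r') (V : Cont A r') : ext h (fun V => V) V = V := by
  funext k
  by_cases hk : k.1 ∈ Finset.Ico (-(r : ℤ)) (r : ℤ)
  · unfold ext
    rw [dif_pos hk]
    rfl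
  · unfold ext
    rw [dif_neg hk]

/-- Extension of permutations. -/
noncomputable def extPerm {r r' : ℕ} (h : r ≤ r') (τ : Equiv.Perm (Cont A r)) :
    Equiv.Perm (Cont A r') where
  toFun := ext h τ
  invFun := ext h (τ⁻¹ : Equiv.Perm (Cont A r))
  left_inv V := by
    rw [ext_ext]
    have : ((τ⁻¹ : Equiv.Perm (Cont A r)) ∘ τ : Cont A r → Cont A r) = fun V => V := by
      funext V
      exact Equiv.symm_apply_apply τ V
    rw [this, ext_id]
  right_inv V := by
    rw [ext_ext]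
    have : (τ ∘ (τ⁻¹ : Equiv.Perm (Cont A r)) : Cont A r → Cont A r) = fun V => V := by
      funext V
      exact Equiv.apply_symm_apply τ V
    rw [this, ext_id]

theorem extPerm_apply {r r' : ℕ} (h : r ≤ r') (τ : Equiv.Perm (Cont A r)) (V : Cont A r') :
    extPerm h τ V = ext h τ V := rfl

theorem extPerm_mul {r r' : ℕ} (h : r ≤ r') (τ τ' : Equiv.Perm (Cont A r)) :
    extPerm h (τ' * τ) = extPerm h τ' * extPerm h τ := by
  ext1 V
  rw [Equiv.Perm.mul_apply, extPerm_apply, extPerm_apply, extPerm_apply, ext_ext]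
  rfl

theorem extPerm_one {r r' : ℕ} (h : r ≤ r') :
    extPerm h (1 : Equiv.Perm (Cont A r)) = 1 := by
  ext1 V
  exact ext_id h V

theorem act_ext {r r' : ℕ} (h : r ≤ r') {P : (ℤ → A) → ℤ → Prop} {x : ℤ → A}
    (hS : Sep r' (P x)) (τ : Cont A r → Cont A r) :
    act r' P (ext h τ) x = act r P τ x := by
  have hS' : Sep r (P x) := by
    intro p p' hp hp' hne
    have := hS p p' hp hp' hne
    have h2 : (r : ℤ) ≤ r' := by exact_mod_cast h
    omega
  funext j
  unfold act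
  rcases cases_window r' (P x) j with ⟨p, hp, hj⟩ | hout
  · rw [modif_in hS _ _ hp hj]
    by_cases hj' : j - p ∈ Finset.Ico (-(r : ℤ)) (r : ℤ)
    · rw [modif_in hS' _ _ hp hj']
      unfold ext
      rw [dif_pos hj']
      rfl
    · rw [modif_out]
      · unfold ext
        rw [dif_neg hj']
        show x (p + (j - p)) = x j
        congr 1
        ring
      · intro p2 hp2 hj2
        have := hS.eq hp hp2 hj (ico_mono h hj2)
        exact hj' (this ▸ hj2)
  · rw [modif_out _ _ hout, modif_out]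
    intro p hp hj
    exact hout p hp (ico_mono h hj)

/-! ### The setting -/

/-- The data and the hypotheses of the criterion. Window radii are `q * L`. -/
structure GateSys (X : Set (ℤ → A)) where
  L : ℕ
  qmin : ℕ
  Mark : (ℤ → A) → ℤ → Prop
  Ty : ℕ → Type
  fin : ∀ N, Finite (Ty N)
  ty : ∀ N, (ℤ → A) → ℤ → Ty N
  R : ∀ q, Cont A (q * L) → Cont A (q * L) → Prop
  mark_sh : ∀ x p, Mark (sh 1 x) p ↔ Mark x (p + 1)
  mark_loc : ∃ r : ℕ, ∀ x x' p, (∀ i : ℤ, |i| ≤ (r : ℤ) → x (p + i) = x' (p + i)) →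
      Mark x p → Mark x' p
  ty_sh : ∀ N x p, ty N (sh 1 x) p = ty N x (p + 1)
  ty_loc : ∀ N, ∃ r : ℕ, ∀ x x' p, (∀ i : ℤ, |i| ≤ (r : ℤ) → x (p + i) = x' (p + i)) →
      ty N x p = ty N x' p
  ty_mono : ∀ N N', N ≤ N' → ∀ x x' p p', ty N' x p = ty N' x' p' → ty N x p = ty N x' p'
  R_equiv : ∀ q, Equivalence (R q)
  sep : ∀ q : ℕ, ∃ N, ∀ x ∈ X, ∀ p p', Mark x p → Mark x p' → ty N x p = ty N x p' → p ≠ p' →
      2 * ((q * L : ℕ) : ℤ) ≤ |p - p'|
  closed : ∀ q, qmin ≤ q → ∀ N (e : Ty N),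
      (∀ x ∈ X, ∀ p p', Mark x p → ty N x p = e → Mark x p' → ty N x p' = e → p ≠ p' →
        2 * ((q * L : ℕ) : ℤ) ≤ |p - p'|) →
      ∀ x ∈ X, ∀ c : ℤ → Cont A (q * L),
        (∀ p, Mark x p → ty N x p = e → R q (cont (q * L) x p) (c p)) →
        (modif (q * L) (fun p => Mark x p ∧ ty N x p = e) c x ∈ X) ∧
        (∀ p, (Mark (modif (q * L) (fun p => Mark x p ∧ ty N x p = e) c x) p ∧
            ty N (modif (q * L) (fun p => Mark x p ∧ ty N x p = e) c x) p = e) ↔
          (Mark x p ∧ ty N x p = e)) ∧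
        (∀ N', N ≤ N' → ∀ p, Mark x p → ty N x p = e →
          ty N' (modif (q * L) (fun p => Mark x p ∧ ty N x p = e) c x) p = ty N' x p)
  center : ∀ q q', q ≤ q' → ∀ (x x' : ℤ → A) (p : ℤ),
      (∀ j, j - p ∉ Finset.Ico (-((q * L : ℕ) : ℤ)) ((q * L : ℕ) : ℤ) → x' j = x j) →
      R q (cont (q * L) x p) (cont (q * L) x' p) → R q' (cont (q' * L) x p) (cont (q' * L) x' p)
  free : ∀ M q1 : ℕ, ∃ q, q1 ≤ q ∧ qmin ≤ q ∧ ∀ x ∈ X, ∀ p, Mark x p →
      ∃ s : Finset (Cont A (q * L)), M ≤ s.card ∧ ∀ V ∈ s, R q (cont (q * L) x p) V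
  ne : ∃ x ∈ X, Mark x 0

namespace GateSys

variable {X : Set (ℤ → A)} (G : GateSys X)

/-- The basic anchor predicate. -/
def Anch (N : ℕ) (e : G.Ty N) (x : ℤ → A) (p : ℤ) : Prop := G.Mark x p ∧ G.ty N x p = e

/-- Separation hypothesis at level `(q, N, e)`. -/
def SepHyp (q N : ℕ) (e : G.Ty N) : Prop :=
  ∀ x ∈ X, ∀ p p', G.Mark x p → G.ty N x p = e → G.Mark x p' → G.ty N x p' = e → p ≠ p' →
    2 * ((q * G.L : ℕ) : ℤ) ≤ |p - p'|

variable {G}

theorem SepHyp.sep {q N : ℕ} {e : G.Ty N} (hs : G.SepHyp q N e) {x : ℤ → A} (hx : x ∈ X) :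
    Sep (q * G.L) (G.Anch N e x) := by
  intro p p' hp hp' hne
  exact hs x hx p p' hp.1 hp.2 hp'.1 hp'.2 hne

open Classical in
theorem act_facts {q N : ℕ} {e : G.Ty N} (hq : G.qmin ≤ q) (hs : G.SepHyp q N e)
    {N' : ℕ} (s : Set (G.Ty N')) (τ : Equiv.Perm (Cont A (q * G.L)))
    (hτ : τ ∈ classPerm (G.R q) (G.R_equiv q)) {x : ℤ → A} (hx : x ∈ X) :
    act (q * G.L) (fun x p => G.Anch N e x p ∧ G.ty N' x p ∈ s) τ x ∈ X ∧
    (∀ p, G.Anch N e (act (q * G.L) (fun x p => G.Anch N e x p ∧ G.ty N' x p ∈ s) τ x) p ↔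
      G.Anch N e x p) ∧
    (∀ N'', N ≤ N'' → ∀ p, G.Anch N e x p →
      G.ty N'' (act (q * G.L) (fun x p => G.Anch N e x p ∧ G.ty N' x p ∈ s) τ x) p
        = G.ty N'' x p) := by
  have hS : Sep (q * G.L) (G.Anch N e x) := hs.sep hx
  have hact : act (q * G.L) (fun x p => G.Anch N e x p ∧ G.ty N' x p ∈ s) τ x
      = modif (q * G.L) (G.Anch N e x)
        (fun p => if G.Anch N e x p ∧ G.ty N' x p ∈ s then τ (cont (q * G.L) x p)
          else cont (q * G.L) x p) x := by
    unfold act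
    exact modif_restrict (S' := fun p => G.Anch N e x p ∧ G.ty N' x p ∈ s) hS
      (fun p hp => hp.1) _ x
  rw [hact]
  have h := G.closed q hq N e hs x hx
    (fun p => if G.Anch N e x p ∧ G.ty N' x p ∈ s then τ (cont (q * G.L) x p)
          else cont (q * G.L) x p) (by
      intro p hp1 hp2
      by_cases hps : G.Anch N e x p ∧ G.ty N' x p ∈ s
      · rw [if_pos hps]
        exact hτ _
      · rw [if_neg hps]
        exact (G.R_equiv q).refl _)
  refine ⟨h.1, h.2.1, ?_⟩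
  intro N'' hN'' p hp
  exact h.2.2 N'' hN'' p hp.1 hp.2

/-- The gates of the family. -/
def gate {q N : ℕ} {e : G.Ty N} (hq : G.qmin ≤ q) (hs : G.SepHyp q N e)
    {N' : ℕ} (hN : N ≤ N') (s : Set (G.Ty N')) : Gate X (q * G.L) where
  P x p := G.Anch N e x p ∧ G.ty N' x p ∈ s
  Γ := classPerm (G.R q) (G.R_equiv q)
  P_sh x p := by
    unfold Anch
    rw [G.mark_sh, G.ty_sh, G.ty_sh]
  P_loc := by
    obtain ⟨r1, h1⟩ := G.mark_loc
    obtain ⟨r2, h2⟩ := G.ty_loc N
    obtain ⟨r3, h3⟩ := G.ty_loc N'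
    refine ⟨r1 + r2 + r3, ?_⟩
    intro x x' p h hp
    have k1 : ∀ i : ℤ, |i| ≤ (r1 : ℤ) → x (p + i) = x' (p + i) := by
      intro i hi
      apply h
      push_cast
      omega
    have k2 : ∀ i : ℤ, |i| ≤ (r2 : ℤ) → x (p + i) = x' (p + i) := by
      intro i hi
      apply h
      push_cast
      omega
    have k3 : ∀ i : ℤ, |i| ≤ (r3 : ℤ) → x (p + i) = x' (p + i) := by
      intro i hi
      apply h
      push_cast
      omega
    refine ⟨⟨h1 x x' p k1 hp.1.1, ?_⟩, ?_⟩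
    · rw [← h2 x x' p k2]
      exact hp.1.2
    · rw [← h3 x x' p k3]
      exact hp.2
  sep x hx p p' hp hp' hne := hs x hx p p' hp.1.1 hp.1.2 hp'.1.1 hp'.1.2 hne
  mem x hx τ hτ := (act_facts hq hs s τ hτ hx).1
  inv x hx τ hτ p := by
    have h := act_facts hq hs s τ hτ hx
    constructor
    · rintro ⟨h1, h2⟩
      have h1' := (h.2.1 p).1 h1
      refine ⟨h1', ?_⟩
      rw [← h.2.2 N' hN p h1']
      exact h2
    · rintro ⟨h1, h2⟩
      refine ⟨(h.2.1 p).2 h1, ?_⟩
      rw [h.2.2 N' hN p h1]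
      exact h2

theorem gate_P {q N : ℕ} {e : G.Ty N} (hq : G.qmin ≤ q) (hs : G.SepHyp q N e)
    {N' : ℕ} (hN : N ≤ N') (s : Set (G.Ty N')) (x : ℤ → A) (p : ℤ) :
    (gate hq hs hN s).P x p ↔ (G.Anch N e x p ∧ G.ty N' x p ∈ s) := Iff.rfl

/-- Additivity. -/
theorem act_insert {q N : ℕ} {e : G.Ty N} (hq : G.qmin ≤ q) (hs : G.SepHyp q N e)
    {N' : ℕ} (hN : N ≤ N') (s : Set (G.Ty N')) {k : G.Ty N'} (hk : k ∉ s)
    (τ : Equiv.Perm (Cont A (q * G.L)))
    (hτ : τ ∈ classPerm (G.R q) (G.R_equiv q)) {x : ℤ → A} (hx : x ∈ X) :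
    act (q * G.L) (fun x p => G.Anch N e x p ∧ G.ty N' x p ∈ insert k s) τ x =
    act (q * G.L) (fun x p => G.Anch N e x p ∧ G.ty N' x p ∈ s) τ
      (act (q * G.L) (fun x p => G.Anch N e x p ∧ G.ty N' x p ∈ ({k} : Set (G.Ty N'))) τ x) := by
  have hf := act_facts hq hs ({k} : Set (G.Ty N')) τ hτ hx
  set y := act (q * G.L) (fun x p => G.Anch N e x p ∧ G.ty N' x p ∈ ({k} : Set (G.Ty N'))) τ x
    with hy
  have hS : Sep (q * G.L) (G.Anch N e x) := hs.sep hx
  have hSy : Sep (q * G.L) (G.Anch N e y) := hs.sep hf.1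
  -- anchors of type in s are the same for x and y
  have hsame : ∀ p, (G.Anch N e y p ∧ G.ty N' y p ∈ s) ↔ (G.Anch N e x p ∧ G.ty N' x p ∈ s) := by
    intro p
    constructor
    · rintro ⟨h1, h2⟩
      have h1' := (hf.2.1 p).1 h1
      refine ⟨h1', ?_⟩
      rw [← hf.2.2 N' hN p h1']
      exact h2
    · rintro ⟨h1, h2⟩
      refine ⟨(hf.2.1 p).2 h1, ?_⟩
      rw [hf.2.2 N' hN p h1]
      exact h2
  have hSk : Sep (q * G.L) (fun p => G.Anch N e x p ∧ G.ty N' x p ∈ ({k} : Set (G.Ty N'))) :=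
    fun p p' hp hp' hne => hS p p' hp.1 hp'.1 hne
  have hSi : Sep (q * G.L) (fun p => G.Anch N e x p ∧ G.ty N' x p ∈ insert k s) :=
    fun p p' hp hp' hne => hS p p' hp.1 hp'.1 hne
  have hSs : Sep (q * G.L) (fun p => G.Anch N e y p ∧ G.ty N' y p ∈ s) :=
    fun p p' hp hp' hne => hSy p p' hp.1 hp'.1 hne
  -- values of y outside the k-windows
  have hyout : ∀ j, (∀ p, G.Anch N e x p ∧ G.ty N' x p ∈ ({k} : Set (G.Ty N')) →
      j - p ∉ Finset.Ico (-((q * G.L : ℕ) : ℤ)) ((q * G.L : ℕ) : ℤ)) → y j = x j := by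
    intro j hj
    exact modif_out _ _ hj
  funext j
  rcases cases_window (q * G.L) (G.Anch N e x) j with ⟨p, hp, hj⟩ | hout
  · by_cases hps : G.ty N' x p ∈ s
    · -- window of an anchor with type in s
      have hcont : cont (q * G.L) y p = cont (q * G.L) x p := by
        funext i
        apply hyout
        rintro p2 ⟨hp2, hp2k⟩ hi
        have hi' : p + i.1 - p ∈ Finset.Ico (-((q * G.L : ℕ) : ℤ)) ((q * G.L : ℕ) : ℤ) := by
          rw [add_sub_cancel_left]
          exact i.2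
        have := hS.eq hp hp2 hi' hi
        subst this
        apply hk
        have h3 : G.ty N' x p = k := hp2k
        rw [← h3]
        exact hps
      conv_lhs => unfold act
      conv_rhs => unfold act
      rw [modif_in hSi _ _ ⟨hp, Or.inr hps⟩ hj,
        modif_in hSs _ _ ((hsame p).2 ⟨hp, hps⟩) hj, hcont]
    · have hnots : ∀ p2, (G.Anch N e y p2 ∧ G.ty N' y p2 ∈ s) →
          j - p2 ∉ Finset.Ico (-((q * G.L : ℕ) : ℤ)) ((q * G.L : ℕ) : ℤ) := by
        intro p2 hp2 hj2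
        have h2 := (hsame p2).1 hp2
        have := hS.eq hp h2.1 hj hj2
        subst this
        exact hps h2.2
      have hr : act (q * G.L) (fun x p => G.Anch N e x p ∧ G.ty N' x p ∈ s) τ y j = y j :=
        modif_out _ _ hnots
      rw [hr]
      by_cases hpk : G.ty N' x p = k
      · rw [hy]
        conv_lhs => unfold act
        conv_rhs => unfold act
        rw [modif_in hSi _ _ ⟨hp, Or.inl hpk⟩ hj, modif_in hSk _ _ ⟨hp, hpk⟩ hj]
      · rw [hyout j]
        · apply modif_out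
          rintro p2 ⟨hp2, hp2k⟩ hj2
          have := hS.eq hp hp2 hj hj2
          subst this
          rcases hp2k with h | h
          · exact hpk h
          · exact hps h
        · rintro p2 ⟨hp2, hp2k⟩ hj2
          have := hS.eq hp hp2 hj hj2
          subst this
          exact hpk hp2k
  · have hr : act (q * G.L) (fun x p => G.Anch N e x p ∧ G.ty N' x p ∈ s) τ y j = y j := by
      apply modif_out
      intro p2 hp2
      exact hout p2 ((hsame p2).1 hp2).1
    rw [hr, hyout j (fun p2 hp2 => hout p2 hp2.1)]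
    apply modif_out
    intro p2 hp2
    exact hout p2 hp2.1

/-- The action of a permutation of order 3 through large windows. -/
theorem kill_large [Finite A] [TopologicalSpace A] [DiscreteTopology A] (hX : ShiftInv X)
    {F : Type*} [Group F] [Finite F] (f : autGroup X hX →* F)
    {q N : ℕ} {e : G.Ty N} (hq : G.qmin ≤ q) (hs : G.SepHyp q N e)
    (hfree : ∀ x ∈ X, ∀ p, G.Mark x p →
      ∃ s : Finset (Cont A (q * G.L)), Nat.card F + 2 ≤ s.card ∧
        ∀ V ∈ s, G.R q (cont (q * G.L) x p) V)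
    (τ : classPerm (G.R q) (G.R_equiv q)) (hτ : τ ^ 3 = 1) :
    f ((gate hq hs (le_refl N) Set.univ).hom hX τ) = 1 := by
  apply kills_three (G.R_equiv q) (f.comp ((gate hq hs (le_refl N) Set.univ).hom hX)) _ τ hτ
  intro V0
  by_cases h : ∃ x ∈ X, ∃ p, G.Anch N e x p ∧ G.R q V0 (cont (q * G.L) x p)
  · left
    obtain ⟨x, hx, p, hp, hV⟩ := h
    obtain ⟨s, hs1, hs2⟩ := hfree x hx p hp.1
    exact ⟨s, hs1, fun V hV' => (G.R_equiv q).trans hV (hs2 V hV')⟩
  · right
    intro σ hσ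
    have h1 : (gate hq hs (le_refl N) Set.univ).hom hX σ = 1 := by
      apply Subtype.ext
      apply Homeomorph.ext
      intro x
      apply Subtype.ext
      rw [Gate.hom_apply]
      show act (q * G.L) (gate hq hs (le_refl N) Set.univ).P σ.1 x.1 = x.1
      have hS : Sep (q * G.L) ((gate hq hs (le_refl N) Set.univ).P x.1) :=
        (gate hq hs (le_refl N) Set.univ).sep x.1 x.2
      have h2 : act (q * G.L) (gate hq hs (le_refl N) Set.univ).P σ.1 x.1
          = act (q * G.L) (gate hq hs (le_refl N) Set.univ).P (fun V => V) x.1 := by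
        unfold act
        apply modif_congr hS (fun p => Iff.rfl)
        intro p hp
        by_contra hne
        exact h ⟨x.1, x.2, p, hp.1, hσ _ hne⟩
      rw [h2]
      exact act_id hS
    show f ((gate hq hs (le_refl N) Set.univ).hom hX σ) = 1
    rw [h1, map_one]

/-- The criterion. -/
theorem not_residuallyFinite [Finite A] [TopologicalSpace A] [DiscreteTopology A]
    (G : GateSys X) (hX : ShiftInv X) : ¬ Group.ResiduallyFinite (autGroup X hX) := by
  classical
  intro hRF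
  obtain ⟨q0, -, hq0, hfree0⟩ := G.free 3 0
  obtain ⟨N0, hN0⟩ := G.sep q0
  obtain ⟨x1, hx1, hm1⟩ := G.ne
  set e0 : G.Ty N0 := G.ty N0 x1 0 with he0
  have hs0 : G.SepHyp q0 N0 e0 := by
    intro x hx p p' hp hpe hp' hpe' hne
    exact hN0 x hx p p' hp hp' (hpe.trans hpe'.symm) hne
  -- three contents
  obtain ⟨s, hs3, hsR⟩ := hfree0 x1 hx1 0 hm1
  set V1 := cont (q0 * G.L) x1 0 with hV1
  obtain ⟨V2, hV2, V3, hV3, h23⟩ : ∃ V2 ∈ s.erase V1, ∃ V3 ∈ s.erase V1, V2 ≠ V3 := by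
    have hc : 1 < (s.erase V1).card := by
      have := Finset.pred_card_le_card_erase (s := s) (a := V1)
      omega
    exact Finset.one_lt_card.1 hc
  have h12 : V1 ≠ V2 := (Finset.ne_of_mem_erase hV2).symm
  have h13 : V1 ≠ V3 := (Finset.ne_of_mem_erase hV3).symm
  have hR2 : G.R q0 V1 V2 := hsR V2 (Finset.mem_of_mem_erase hV2)
  have hR3 : G.R q0 V1 V3 := hsR V3 (Finset.mem_of_mem_erase hV3)
  have : Fintype (Cont A (q0 * G.L)) := Fintype.ofFinite _
  have hswap : ∀ V, G.R q0 V1 V → Equiv.swap V1 V ∈ classPerm (G.R q0) (G.R_equiv q0) := by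
    intro V hV W
    by_cases h1 : W = V1
    · subst h1
      rw [Equiv.swap_apply_left]
      exact hV
    · by_cases h2 : W = V
      · subst h2
        rw [Equiv.swap_apply_right]
        exact (G.R_equiv q0).symm hV
      · rw [Equiv.swap_apply_of_ne_of_ne h1 h2]
        exact (G.R_equiv q0).refl W
  set τ0 : classPerm (G.R q0) (G.R_equiv q0) :=
    ⟨Equiv.swap V1 V2 * Equiv.swap V1 V3, Subgroup.mul_mem _ (hswap V2 hR2) (hswap V3 hR3)⟩
    with hτ0
  have h3c : Equiv.Perm.IsThreeCycle (Equiv.swap V1 V2 * Equiv.swap V1 V3) :=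
    Equiv.Perm.isThreeCycle_swap_mul_swap_same h12 h13 h23
  have hτ3 : (τ0.1) ^ 3 = 1 := by
    have := pow_orderOf_eq_one (Equiv.swap V1 V2 * Equiv.swap V1 V3)
    rwa [h3c.orderOf] at this
  have hτV : τ0.1 V1 ≠ V1 := by
    show (Equiv.swap V1 V2 * Equiv.swap V1 V3) V1 ≠ V1
    rw [Equiv.Perm.mul_apply, Equiv.swap_apply_left,
      Equiv.swap_apply_of_ne_of_ne h13.symm h23.symm]
    exact h13.symm
  -- the element of the automorphism group
  set g0 := (gate hq0 hs0 (le_refl N0) Set.univ).hom hX τ0 with hg0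
  have hg0ne : g0 ≠ 1 := by
    intro h
    have h1 : (((g0 : X ≃ₜ X) ⟨x1, hx1⟩ : X) : ℤ → A) = x1 := by
      rw [h]
      rfl
    rw [hg0, Gate.hom_apply] at h1
    have h2 : cont (q0 * G.L)
        (act (q0 * G.L) (gate hq0 hs0 (le_refl N0) Set.univ).P τ0.1 x1) 0 = V1 := by
      have h3 : act (q0 * G.L) (gate hq0 hs0 (le_refl N0) Set.univ).P τ0.1 x1 = x1 := h1
      rw [h3]
    have h4 : cont (q0 * G.L)
        (act (q0 * G.L) (gate hq0 hs0 (le_refl N0) Set.univ).P τ0.1 x1) 0 = τ0.1 V1 := by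
      unfold act
      exact cont_modif ((gate hq0 hs0 (le_refl N0) Set.univ).sep x1 hx1) _ _
        ⟨⟨hm1, rfl⟩, Set.mem_univ _⟩
    exact hτV (h4.symm.trans h2)
  -- a finite quotient
  obtain ⟨H, hH⟩ :=
    (Group.residuallyFinite_iff_exists_finiteIndexNormalSubgroup.1 hRF) g0 hg0ne
  let F := autGroup X hX ⧸ H.toSubgroup
  let f : autGroup X hX →* F := QuotientGroup.mk' H.toSubgroup
  have hfin : Finite F := by
    infer_instance
  have hf0 : f g0 ≠ 1 := by
    intro h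
    apply hH
    exact (QuotientGroup.eq_one_iff g0).1 h
  obtain ⟨q, hqq, hq, hfree⟩ := G.free (Nat.card F + 2) q0
  obtain ⟨N1, hN1⟩ := G.sep q
  set N := max N0 N1 with hN
  have hNN0 : N0 ≤ N := le_max_left _ _
  have hNN1 : N1 ≤ N := le_max_right _ _
  have hsq : ∀ k : G.Ty N, G.SepHyp q N k := by
    intro k x hx p p' hp hpe hp' hpe' hne
    exact hN1 x hx p p' hp hp' (G.ty_mono N1 N hNN1 x x p p' (hpe.trans hpe'.symm)) hne
  have hr : q0 * G.L ≤ q * G.L := Nat.mul_le_mul_right _ hqq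
  -- the extension of τ0 to the larger windows
  have hext : extPerm hr τ0.1 ∈ classPerm (G.R q) (G.R_equiv q) := by
    intro V
    let z : (W : Cont A (q * G.L)) → ℤ → A := fun W j =>
      if hj : j ∈ Finset.Ico (-((q * G.L : ℕ) : ℤ)) ((q * G.L : ℕ) : ℤ) then W ⟨j, hj⟩ else x1 j
    have hz : ∀ W, cont (q * G.L) (z W) 0 = W := by
      intro W
      funext k
      show z W (0 + k.1) = W k
      have hk : (0 : ℤ) + k.1 ∈ Finset.Ico (-((q * G.L : ℕ) : ℤ)) ((q * G.L : ℕ) : ℤ) := by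
        rw [zero_add]
        exact k.2
      show (if hj : (0 : ℤ) + k.1 ∈ Finset.Ico (-((q * G.L : ℕ) : ℤ)) ((q * G.L : ℕ) : ℤ) then
        W ⟨0 + k.1, hj⟩ else x1 (0 + k.1)) = W k
      rw [dif_pos hk]
      congr 1
      apply Subtype.ext
      simp
    have h := G.center q0 q hqq (z V) (z (extPerm hr τ0.1 V)) 0 ?_ ?_
    · rw [hz, hz] at h
      exact h
    · intro j hj
      rw [sub_zero] at hj
      by_cases hj' : j ∈ Finset.Ico (-((q * G.L : ℕ) : ℤ)) ((q * G.L : ℕ) : ℤ)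
      · show (if hj : j ∈ Finset.Ico (-((q * G.L : ℕ) : ℤ)) ((q * G.L : ℕ) : ℤ) then
          (extPerm hr τ0.1 V) ⟨j, hj⟩ else x1 j) =
          (if hj : j ∈ Finset.Ico (-((q * G.L : ℕ) : ℤ)) ((q * G.L : ℕ) : ℤ) then
          V ⟨j, hj⟩ else x1 j)
        rw [dif_pos hj', dif_pos hj', extPerm_apply]
        unfold ext
        rw [dif_neg hj]
      · show (if hj : j ∈ Finset.Ico (-((q * G.L : ℕ) : ℤ)) ((q * G.L : ℕ) : ℤ) then
          (extPerm hr τ0.1 V) ⟨j, hj⟩ else x1 j) =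
          (if hj : j ∈ Finset.Ico (-((q * G.L : ℕ) : ℤ)) ((q * G.L : ℕ) : ℤ) then
          V ⟨j, hj⟩ else x1 j)
        rw [dif_neg hj', dif_neg hj']
    · rw [← ctr_cont hr, ← ctr_cont hr, hz, hz, extPerm_apply, ctr_ext]
      exact τ0.2 _
  have hext3 : (⟨extPerm hr τ0.1, hext⟩ : classPerm (G.R q) (G.R_equiv q)) ^ 3 = 1 := by
    apply Subtype.ext
    show (extPerm hr τ0.1) ^ 3 = 1
    have h1 : extPerm hr (τ0.1 ^ 3) = (extPerm hr τ0.1) ^ 3 := by
      rw [pow_succ, pow_two, extPerm_mul, extPerm_mul, pow_succ, pow_two]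
    rw [← h1, hτ3, extPerm_one]
  -- single type
  have hsingle : ∀ k : G.Ty N, f ((gate hq0 hs0 hNN0 {k}).hom hX τ0) = 1 := by
    intro k
    by_cases hk : ∃ x ∈ X, ∃ p, G.Anch N0 e0 x p ∧ G.ty N x p = k
    · obtain ⟨x2, hx2, p2, hp2, hk2⟩ := hk
      have himp : ∀ x p, G.ty N x p = k → G.ty N0 x p = e0 := by
        intro x p h
        rw [← hp2.2]
        exact G.ty_mono N0 N hNN0 x x2 p p2 (h.trans hk2.symm)
      have heq : (gate hq0 hs0 hNN0 {k}).hom hX τ0
          = (gate hq (hsq k) (le_refl N) Set.univ).hom hX ⟨extPerm hr τ0.1, hext⟩ := by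
        apply Subtype.ext
        apply Homeomorph.ext
        intro x
        apply Subtype.ext
        rw [Gate.hom_apply, Gate.hom_apply]
        have hS : Sep (q * G.L) ((gate hq (hsq k) (le_refl N) Set.univ).P x.1) :=
          (gate hq (hsq k) (le_refl N) Set.univ).sep x.1 x.2
        have hPP : (gate hq0 hs0 hNN0 {k}).P x.1
            = (gate hq (hsq k) (le_refl N) Set.univ).P x.1 := by
          funext p
          apply propext
          constructor
          · rintro ⟨⟨h1, _⟩, h2⟩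
            exact ⟨⟨h1, h2⟩, Set.mem_univ _⟩
          · rintro ⟨⟨h1, h2⟩, _⟩
            exact ⟨⟨h1, himp _ _ h2⟩, h2⟩
        have h1 := act_ext hr hS (τ0.1 : Cont A (q0 * G.L) → Cont A (q0 * G.L))
        show act (q0 * G.L) (gate hq0 hs0 hNN0 {k}).P τ0.1 x.1
          = act (q * G.L) (gate hq (hsq k) (le_refl N) Set.univ).P (ext hr τ0.1) x.1
        rw [h1]
        unfold act
        rw [hPP]
      rw [heq]
      exact kill_large hX f hq (hsq k) hfree _ hext3
    · have heq : (gate hq0 hs0 hNN0 {k}).hom hX τ0 = 1 := by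
        apply Subtype.ext
        apply Homeomorph.ext
        intro x
        apply Subtype.ext
        rw [Gate.hom_apply]
        show act (q0 * G.L) (gate hq0 hs0 hNN0 {k}).P τ0.1 x.1 = x.1
        funext j
        unfold act
        apply modif_out
        intro p hp _
        exact hk ⟨x.1, x.2, p, hp.1, hp.2⟩
      rw [heq, map_one]
  -- all types
  have hTfin : Finite (G.Ty N) := G.fin N
  have hTF : Fintype (G.Ty N) := Fintype.ofFinite _
  have hall : ∀ s : Finset (G.Ty N), f ((gate hq0 hs0 hNN0 (s : Set (G.Ty N))).hom hX τ0) = 1 := by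
    intro s
    induction s using Finset.induction_on with
    | empty =>
      have heq : (gate hq0 hs0 hNN0 ((∅ : Finset (G.Ty N)) : Set (G.Ty N))).hom hX τ0 = 1 := by
        apply Subtype.ext
        apply Homeomorph.ext
        intro x
        apply Subtype.ext
        rw [Gate.hom_apply]
        show act (q0 * G.L) (gate hq0 hs0 hNN0 _).P τ0.1 x.1 = x.1
        funext j
        unfold act
        apply modif_out
        intro p hp _
        simpa using hp.2
      rw [heq, map_one]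
    | insert k s hks ih =>
      have heq : (gate hq0 hs0 hNN0 ((insert k s : Finset (G.Ty N)) : Set (G.Ty N))).hom hX τ0
          = (gate hq0 hs0 hNN0 (s : Set (G.Ty N))).hom hX τ0
            * (gate hq0 hs0 hNN0 {k}).hom hX τ0 := by
        apply Subtype.ext
        apply Homeomorph.ext
        intro x
        apply Subtype.ext
        have h := act_insert hq0 hs0 hNN0 (s : Set (G.Ty N)) (k := k) (by simpa using hks)
          τ0.1 τ0.2 x.2
        show act (q0 * G.L) (gate hq0 hs0 hNN0 _).P τ0.1 x.1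
          = act (q0 * G.L) (gate hq0 hs0 hNN0 (s : Set (G.Ty N))).P τ0.1
            (act (q0 * G.L) (gate hq0 hs0 hNN0 {k}).P τ0.1 x.1)
        rw [Finset.coe_insert]
        exact h
      rw [heq, map_mul, ih, hsingle k, one_mul]
  apply hf0
  have heq : g0 = (gate hq0 hs0 hNN0 ((Finset.univ : Finset (G.Ty N)) : Set (G.Ty N))).hom hX
      τ0 := by
    rw [hg0]
    apply Subtype.ext
    apply Homeomorph.ext
    intro x
    apply Subtype.ext
    rw [Gate.hom_apply, Gate.hom_apply]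
    have hPP : (gate hq0 hs0 (le_refl N0) Set.univ).P x.1
        = (gate hq0 hs0 hNN0 ((Finset.univ : Finset (G.Ty N)) : Set (G.Ty N))).P x.1 := by
      funext p
      apply propext
      constructor
      · rintro ⟨h1, _⟩
        exact ⟨h1, by simp⟩
      · rintro ⟨h1, _⟩
        exact ⟨h1, Set.mem_univ _⟩
    unfold act
    rw [hPP]
  rw [heq]
  exact hall Finset.univ

end GateSys

/-- The abstract theorem. Window radii are `q * L`. -/
theorem not_residuallyFinite_of_gates [Finite A] [TopologicalSpace A] [DiscreteTopology A]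
    (X : Set (ℤ → A)) (hX : ShiftInv X) (L qmin : ℕ)
    (Mark : (ℤ → A) → ℤ → Prop)
    (Ty : ℕ → Type) (hTy : ∀ N, Finite (Ty N)) (ty : ∀ N, (ℤ → A) → ℤ → Ty N)
    (R : ∀ q, Cont A (q * L) → Cont A (q * L) → Prop)
    (mark_sh : ∀ x p, Mark (sh 1 x) p ↔ Mark x (p + 1))
    (mark_loc : ∃ r : ℕ, ∀ x x' p, (∀ i : ℤ, |i| ≤ (r : ℤ) → x (p + i) = x' (p + i)) →
      Mark x p → Mark x' p)
    (ty_sh : ∀ N x p, ty N (sh 1 x) p = ty N x (p + 1))
    (ty_loc : ∀ N, ∃ r : ℕ, ∀ x x' p, (∀ i : ℤ, |i| ≤ (r : ℤ) → x (p + i) = x' (p + i)) →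
      ty N x p = ty N x' p)
    (ty_mono : ∀ N N', N ≤ N' → ∀ x x' p p', ty N' x p = ty N' x' p' → ty N x p = ty N x' p')
    (R_equiv : ∀ q, Equivalence (R q))
    (sep : ∀ q : ℕ, ∃ N, ∀ x ∈ X, ∀ p p', Mark x p → Mark x p' → ty N x p = ty N x p' → p ≠ p' →
      2 * ((q * L : ℕ) : ℤ) ≤ |p - p'|)
    (closed : ∀ q, qmin ≤ q → ∀ N (e : Ty N),
      (∀ x ∈ X, ∀ p p', Mark x p → ty N x p = e → Mark x p' → ty N x p' = e → p ≠ p' →
        2 * ((q * L : ℕ) : ℤ) ≤ |p - p'|) →
      ∀ x ∈ X, ∀ c : ℤ → Cont A (q * L),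
        (∀ p, Mark x p → ty N x p = e → R q (cont (q * L) x p) (c p)) →
        (modif (q * L) (fun p => Mark x p ∧ ty N x p = e) c x ∈ X) ∧
        (∀ p, (Mark (modif (q * L) (fun p => Mark x p ∧ ty N x p = e) c x) p ∧
            ty N (modif (q * L) (fun p => Mark x p ∧ ty N x p = e) c x) p = e) ↔
          (Mark x p ∧ ty N x p = e)) ∧
        (∀ N', N ≤ N' → ∀ p, Mark x p → ty N x p = e →
          ty N' (modif (q * L) (fun p => Mark x p ∧ ty N x p = e) c x) p = ty N' x p))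
    (center : ∀ q q', q ≤ q' → ∀ (x x' : ℤ → A) (p : ℤ),
      (∀ j, j - p ∉ Finset.Ico (-((q * L : ℕ) : ℤ)) ((q * L : ℕ) : ℤ) → x' j = x j) →
      R q (cont (q * L) x p) (cont (q * L) x' p) → R q' (cont (q' * L) x p) (cont (q' * L) x' p))
    (free : ∀ M q1 : ℕ, ∃ q, q1 ≤ q ∧ qmin ≤ q ∧ ∀ x ∈ X, ∀ p, Mark x p →
      ∃ s : Finset (Cont A (q * L)), M ≤ s.card ∧ ∀ V ∈ s, R q (cont (q * L) x p) V)
    (ne : ∃ x ∈ X, Mark x 0) :
    ¬ Group.ResiduallyFinite (autGroup X hX) :=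
  GateSys.not_residuallyFinite (X := X)
    { L := L, qmin := qmin, Mark := Mark, Ty := Ty, fin := hTy, ty := ty, R := R,
      mark_sh := mark_sh, mark_loc := mark_loc, ty_sh := ty_sh, ty_loc := ty_loc,
      ty_mono := ty_mono, R_equiv := R_equiv, sep := sep, closed := closed, center := center,
      free := free, ne := ne } hX

end H35.RS
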