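import Pool.Agent.H35.RS.Syndetic
import Pool.Agent.H35.RS.GateRF

/-!
# The constant length theorem
-/

namespace H35.RS

namespace Cst

/-! ### Compactness -/

theorem compact_seq {A : Type*} [Finite A] (P : ℕ → (ℤ → A) → Prop)
    (mono : ∀ n y, P (n + 1) y → P n y)
    (ne : ∀ n, ∃ y, P n y)
    (loc : ∀ n, ∃ r : ℕ, ∀ y y' : ℤ → A, (∀ i : ℤ, |i| ≤ (r : ℤ) → y i = y' i) → P n y → P n y') :
    ∃ y, ∀ n, P n y := by
  classical
  let _ : TopologicalSpace A := ⊥
  have _ : DiscreteTopology A := ⟨rfl⟩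
  have hcl : ∀ n, IsClosed {y : ℤ → A | P n y} := by
    intro n
    obtain ⟨r, hr⟩ := loc n
    let f : (ℤ → A) → (Finset.Icc (-(r : ℤ)) (r : ℤ) → A) := fun x k => x k.1
    have hf : Continuous f := continuous_pi fun k => continuous_apply _
    have hK : {y : ℤ → A | P n y} = f ⁻¹' (f '' {y : ℤ → A | P n y}) := by
      ext y
      constructor
      · intro hy
        exact ⟨y, hy, rfl⟩
      · rintro ⟨y', hy', he⟩
        refine hr y' y ?_ hy'
        intro i hi
        rw [abs_le] at hi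
        exact congrFun he ⟨i, Finset.mem_Icc.2 ⟨hi.1, hi.2⟩⟩
    rw [hK]
    exact (isClosed_discrete _).preimage hf
  obtain ⟨y, hy⟩ := IsCompact.nonempty_iInter_of_sequence_nonempty_isCompact_isClosed
    (fun n => {y : ℤ → A | P n y}) mono ne (hcl 0).isCompact hcl
  exact ⟨y, fun n => Set.mem_iInter.1 hy n⟩

variable {A : Type*}

/-! ### Types of blocks -/

/-- The set of the letters `a` with `x_j ⋯ x_{j+L-1} ∈ ϑ(a)`. -/
def tp (ϑ : A → Finset (List A)) (L : ℕ) (x : ℤ → A) (j : ℤ) : Set A := {a | wd x j L ∈ ϑ a}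

/-- `c` is a cutting position of `x`. -/
def Valid (ϑ : A → Finset (List A)) (L : ℕ) (x : ℤ → A) (c : ℤ) : Prop :=
  ∃ y ∈ subshift ϑ, ∀ i : ℤ, wd x (c + i * L) L ∈ ϑ (y i)

theorem wd_congr' {x x' : ℤ → A} {i j : ℤ} {n : ℕ}
    (h : ∀ k : ℤ, 0 ≤ k → k < n → x (i + k) = x' (j + k)) : wd x i n = wd x' j n := by
  unfold wd
  apply List.map_congr_left
  intro k hk
  exact h k (by omega) (by have := List.mem_range.1 hk; omega)

theorem wd_eq_iff {x x' : ℤ → A} {i j : ℤ} {n : ℕ} (h : wd x i n = wd x' j n) :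
    ∀ k : ℤ, 0 ≤ k → k < n → x (i + k) = x' (j + k) := by
  intro k hk hkn
  obtain ⟨m, rfl⟩ : ∃ m : ℕ, k = m := ⟨k.toNat, by omega⟩
  unfold wd at h
  have := (List.map_inj_left.1 h) m (List.mem_range.2 (by omega))
  exact this

theorem tp_congr {ϑ : A → Finset (List A)} {L : ℕ} {x x' : ℤ → A} {i j : ℤ}
    (h : ∀ k : ℤ, 0 ≤ k → k < L → x (i + k) = x' (j + k)) : tp ϑ L x i = tp ϑ L x' j := by
  unfold tp
  rw [wd_congr' h]

theorem tp_sh (ϑ : A → Finset (List A)) (L : ℕ) (k : ℤ) (x : ℤ → A) (j : ℤ) :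
    tp ϑ L (sh k x) j = tp ϑ L x (j + k) := by
  unfold tp
  rw [wd_sh]

theorem mem_tp {ϑ : A → Finset (List A)} {L : ℕ} {x : ℤ → A} {j : ℤ} {a : A} :
    a ∈ tp ϑ L x j ↔ wd x j L ∈ ϑ a := Iff.rfl

theorem sh_mem {ϑ : A → Finset (List A)} {x : ℤ → A} (hx : x ∈ subshift ϑ) (k : ℤ) :
    sh k x ∈ subshift ϑ := by
  intro i n
  rw [wd_sh]
  exact hx _ _

/-- H_sub -/
theorem mem_of_tp {ϑ : A → Finset (List A)} (hϑ : IsRandomSub ϑ) {L : ℕ} {x x' : ℤ → A} {c : ℤ}
    (hv : Valid ϑ L x c) (h : ∀ i : ℤ, tp ϑ L x' (c + i * L) = tp ϑ L x (c + i * L)) :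
    x' ∈ subshift ϑ := by
  obtain ⟨y, hy, hi⟩ := hv
  refine mem_subshift_of_tiles hϑ hy (fun i => wd x' (c + i * L) L) (fun i => c + i * L) ?_ ?_ ?_
  · intro i
    have h1 : y i ∈ tp ϑ L x (c + i * L) := hi i
    rw [← h i] at h1
    exact h1
  · intro i
    simp only [wd_length]
    ring
  · intro i
    simp only [wd_length]

theorem valid_sh {ϑ : A → Finset (List A)} {L : ℕ} {x : ℤ → A} (k c : ℤ) :
    Valid ϑ L (sh k x) c ↔ Valid ϑ L x (c + k) := by
  unfold Valid
  have : ∀ i : ℤ, wd (sh k x) (c + i * L) L = wd x (c + k + i * L) L := by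
    intro i
    rw [wd_sh]
    congr 1
    ring
  simp only [this]

theorem valid_add {ϑ : A → Finset (List A)} {L : ℕ} {x : ℤ → A} {c : ℤ} (h : Valid ϑ L x c)
    (d : ℤ) : Valid ϑ L x (c + d * L) := by
  obtain ⟨y, hy, hi⟩ := h
  refine ⟨sh d y, sh_mem hy d, fun i => ?_⟩
  have := hi (i + d)
  rw [sh_apply]
  convert this using 2
  ring

theorem exists_valid [Finite A] {ϑ : A → Finset (List A)} (hϑ : IsRandomSub ϑ) {L : ℕ}
    (hlen : ∀ a, ∀ v ∈ ϑ a, v.length = L) {x : ℤ → A} (hx : x ∈ subshift ϑ) :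
    ∃ c, Valid ϑ L x c := by
  obtain ⟨y, hy, c, hc, ht, -, -⟩ := exists_tiles hϑ (fun _ => L) hlen hx
  have hc' : ∀ i : ℤ, c i = c 0 + i * L := by
    intro i
    induction i using Int.induction_on with
    | zero => simp
    | succ i ih => rw [hc, ih]; ring
    | pred i ih =>
        have := hc (-(i : ℤ) - 1)
        rw [sub_add_cancel, ih] at this
        have h2 : c (-(i : ℤ) - 1) = c 0 + -(i : ℤ) * L - L := by linarith
        rw [h2]; ring
  refine ⟨c 0, y, hy, fun i => ?_⟩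
  rw [← hc' i]
  exact ht i

/-! ### Closedness of the set of sequences with a given cutting position -/

theorem legal_mono {ϑ : A → Finset (List A)} {y : ℤ → A} {n : ℕ}
    (h : Legal ϑ (wd y (-((n + 1 : ℕ) : ℤ)) (2 * (n + 1)))) : Legal ϑ (wd y (-(n : ℤ)) (2 * n)) :=
  h.of_infix (wd_infix y (by push_cast; omega) (by push_cast; omega))

theorem mem_of_legal {ϑ : A → Finset (List A)} {y : ℤ → A}
    (h : ∀ n : ℕ, Legal ϑ (wd y (-(n : ℤ)) (2 * n))) : y ∈ subshift ϑ := by
  intro i n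
  refine (h (i.natAbs + n)).of_infix (wd_infix y ?_ ?_)
  · omega
  · omega

theorem valid_closed [Finite A] {ϑ : A → Finset (List A)} {L : ℕ} {x : ℤ → A} {c : ℤ}
    (h : ∀ n : ℕ, ∃ x' : ℤ → A, (∀ i : ℤ, -(n : ℤ) ≤ i → i < n → x' i = x i) ∧ Valid ϑ L x' c) :
    Valid ϑ L x c := by
  obtain ⟨y, hy⟩ := compact_seq
    (fun n y => Legal ϑ (wd y (-(n : ℤ)) (2 * n)) ∧
      ∀ i : ℤ, -(n : ℤ) ≤ i → i < n → -(n : ℤ) ≤ c + i * L → c + i * L + L ≤ n →
        wd x (c + i * L) L ∈ ϑ (y i))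
    (by
      rintro n y ⟨h1, h2⟩
      refine ⟨legal_mono h1, fun i hi1 hi2 hi3 hi4 => h2 i ?_ ?_ ?_ ?_⟩
      · push_cast; omega
      · push_cast; omega
      · push_cast; linarith
      · push_cast; linarith)
    (by
      intro n
      obtain ⟨x', hx', y, hy, hi⟩ := h n
      refine ⟨y, hy _ _, fun i _ _ hi3 hi4 => ?_⟩
      have : wd x (c + i * L) L = wd x' (c + i * L) L := by
        apply wd_congr'
        intro k hk1 hk2
        exact (hx' _ (by linarith) (by linarith)).symm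
      rw [this]
      exact hi i)
    (by
      intro n
      refine ⟨n, ?_⟩
      rintro y y' hyy ⟨h1, h2⟩
      constructor
      · have : wd y' (-(n : ℤ)) (2 * n) = wd y (-(n : ℤ)) (2 * n) := by
          apply wd_congr'
          intro k hk1 hk2
          refine (hyy _ ?_).symm
          rw [abs_le]
          push_cast at hk2
          constructor <;> linarith
        rw [this]
        exact h1
      · intro i hi1 hi2 hi3 hi4
        rw [← hyy i (by rw [abs_le]; constructor <;> omega)]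
        exact h2 i hi1 hi2 hi3 hi4)
  refine ⟨y, mem_of_legal fun n => (hy n).1, fun i => ?_⟩
  obtain ⟨m, hm⟩ : ∃ m : ℤ, m = c + i * L := ⟨_, rfl⟩
  have h1 := (hy (i.natAbs + m.natAbs + L + 1)).2 i
  rw [← hm] at h1 ⊢
  apply h1 <;> omega

theorem desub_iff {ϑ : A → Finset (List A)} {L : ℕ} (hϑ : IsRandomSub ϑ)
    (hlen : ∀ a, ∀ v ∈ ϑ a, v.length = L) (x : ℤ → A) (k : ℕ) :
    (∃ y, Desub ϑ x y k) ↔ (k < L ∧ Valid ϑ L x (-(k : ℤ))) := by
  constructor
  · rintro ⟨y, hy, ⟨v, hv, hkv⟩, u, c, hu, hc0, hc, hx⟩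
    refine ⟨by rw [hlen _ _ hv] at hkv; exact hkv, y, hy, fun i => ?_⟩
    have hl : ∀ i, (u i).length = L := fun i => hlen _ _ (hu i)
    have hc' : ∀ i : ℤ, c i = i * L := by
      intro i
      induction i using Int.induction_on with
      | zero => simp [hc0]
      | succ i ih => rw [hc, ih, hl]; ring
      | pred i ih =>
          have := hc (-(i : ℤ) - 1)
          rw [sub_add_cancel, ih, hl] at this
          have h2 : c (-(i : ℤ) - 1) = -(i : ℤ) * L - L := by linarith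
          rw [h2]; ring
    have h1 := hx i
    rw [hl, wd_sh, hc'] at h1
    have h2 : -(k : ℤ) + i * L = i * L + -(k : ℤ) := by ring
    rw [h2, h1]
    exact hu i
  · rintro ⟨hk, y, hy, hi⟩
    obtain ⟨v, hv⟩ := (hϑ (y 0)).1
    refine ⟨y, hy, ⟨v, hv, by rw [hlen _ _ hv]; exact hk⟩,
      fun i => wd x (-(k : ℤ) + i * L) L, fun i => i * L, hi, by simp, ?_, ?_⟩
    · intro i
      simp only [wd_length]
      ring
    · intro i
      simp only [wd_length]
      rw [wd_sh]
      congr 1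
      ring

/-! ### The anchor -/

/-- `x` shows the pattern `x0_{-n} ⋯ x0_{n-1}` around the position `p`. -/
def Mk (x0 : ℤ → A) (n : ℕ) (x : ℤ → A) (p : ℤ) : Prop :=
  ∀ i : ℤ, -(n : ℤ) ≤ i → i < n → x (p + i) = x0 i

theorem exists_anchor [Finite A] {ϑ : A → Finset (List A)} (hϑ : IsRandomSub ϑ) {L : ℕ}
    (hL : 1 ≤ L) (hlen : ∀ a, ∀ v ∈ ϑ a, v.length = L)
    (h1 : ∃ x ∈ subshift ϑ, ∃! k : ℕ, ∃ y, Desub ϑ x y k) :
    ∃ x0 ∈ subshift ϑ, ∃ n : ℕ, ∀ x ∈ subshift ϑ, ∀ p, Mk x0 n x p →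
      (Valid ϑ L x p ∧ ∀ c, Valid ϑ L x c → (L : ℤ) ∣ c - p) := by
  classical
  have hL0 : (0 : ℤ) < L := by exact_mod_cast hL
  obtain ⟨x1, hx1, k0, hk0, huniq⟩ := h1
  simp only at hk0 huniq
  set x0 := sh (-(k0 : ℤ)) x1 with hx0
  have hval : ∀ c, Valid ϑ L x0 c → (L : ℤ) ∣ c := by
    intro c hc
    rw [hx0, valid_sh] at hc
    set e : ℤ := c + -(k0 : ℤ) with he
    -- the phase `(-e) mod L`
    have hm0 : 0 ≤ (-e) % (L : ℤ) := Int.emod_nonneg _ (by omega)
    have hm1 : (-e) % (L : ℤ) < L := Int.emod_lt_of_pos _ hL0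
    obtain ⟨k, hk⟩ : ∃ k : ℕ, (k : ℤ) = (-e) % (L : ℤ) := ⟨((-e) % (L : ℤ)).toNat, by omega⟩
    have h2 : Valid ϑ L x1 (-(k : ℤ)) := by
      have h3 := valid_add hc ((-e) / (L : ℤ))
      have h4 : e + (-e) / (L : ℤ) * L = -(k : ℤ) := by
        have := Int.emod_add_mul_ediv (-e) (L : ℤ)
        rw [hk]
        linarith
      rwa [h4] at h3
    have h5 := huniq k ((desub_iff hϑ hlen x1 k).2 ⟨by omega, h2⟩)
    subst h5
    have h6 : (L : ℤ) ∣ (-e) - (-e) % (L : ℤ) := Int.dvd_self_sub_emod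
    rw [← hk] at h6
    have h7 : (-e) - (k : ℤ) = -c := by rw [he]; ring
    rw [h7] at h6
    exact (dvd_neg).1 h6
  -- for each non-valid residue a radius
  have hrad : ∀ c : ℤ, ¬ (L : ℤ) ∣ c → ∃ n : ℕ, ∀ x : ℤ → A,
      (∀ i : ℤ, -(n : ℤ) ≤ i → i < n → x i = x0 i) → ¬ Valid ϑ L x c := by
    intro c hc
    by_contra hcon
    push Not at hcon
    exact hc (hval c (valid_closed hcon))
  choose! N hN using hrad
  refine ⟨x0, sh_mem hx1 _, (Finset.range L).sup (fun c => N c), ?_⟩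
  intro x hx p hp
  have key : ∀ c, Valid ϑ L x c → (L : ℤ) ∣ c - p := by
    intro c hc
    by_contra hnd
    have hm0 : 0 ≤ (c - p) % (L : ℤ) := Int.emod_nonneg _ (by omega)
    have hm1 : (c - p) % (L : ℤ) < L := Int.emod_lt_of_pos _ hL0
    obtain ⟨k, hk⟩ : ∃ k : ℕ, (k : ℤ) = (c - p) % (L : ℤ) :=
      ⟨((c - p) % (L : ℤ)).toNat, by omega⟩
    have hk1 : ¬ (L : ℤ) ∣ (k : ℤ) := by
      rw [hk]
      intro hd
      exact hnd ((Int.dvd_iff_emod_eq_zero).2 (by
        have := Int.emod_emod_of_dvd (c - p) (dvd_refl (L : ℤ))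
        rw [← this]
        exact Int.emod_eq_zero_of_dvd hd))
    have hkL : k < L := by omega
    refine hN k hk1 (sh p x) ?_ ?_
    · intro i hi1 hi2
      rw [sh_apply, add_comm]
      have hle : N (k : ℤ) ≤ (Finset.range L).sup (fun c => N c) :=
        Finset.le_sup (f := fun c : ℕ => N c) (Finset.mem_range.2 hkL)
      apply hp
      · omega
      · omega
    · rw [valid_sh]
      have h3 := valid_add hc (-((c - p) / (L : ℤ)))
      have h4 : c + -((c - p) / (L : ℤ)) * L = k + p := by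
        have := Int.emod_add_mul_ediv (c - p) (L : ℤ)
        rw [hk]
        linarith
      rwa [h4] at h3
  refine ⟨?_, key⟩
  obtain ⟨c, hc⟩ := exists_valid hϑ hlen hx
  obtain ⟨d, hd⟩ := key c hc
  have h3 := valid_add hc (-d)
  have h4 : c + -d * L = p := by linarith
  rwa [h4] at h3

/-! ### Separation -/

theorem periodic_mod {B : Type*} {f : ℤ → B} {D : ℤ} (h : ∀ i, f i = f (i + D)) (i : ℤ) :
    f (i % D) = f i := by
  have hp : Function.Periodic f D := fun i => (h i).symm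
  have h1 := (hp.int_mul (i / D)) (i % D)
  have h2 : i % D + (i / D : ℤ) * D = i := by
    have := Int.emod_add_mul_ediv i D
    linarith
  rw [Int.cast_id, h2] at h1
  exact h1.symm

theorem sep_aux [Finite A] {ϑ : A → Finset (List A)} (hϑ : IsRandomSub ϑ) {L : ℕ}
    (hL : 1 ≤ L) (hap : Aperiodic (subshift ϑ)) {x0 : ℤ → A} {n : ℕ}
    (hMk : ∀ x ∈ subshift ϑ, ∀ p, Mk x0 n x p → Valid ϑ L x p) (d : ℤ) (hd : d ≠ 0) :
    ∃ N : ℕ, ∀ x ∈ subshift ϑ, Mk x0 n x 0 →
      ¬ ∀ i : ℤ, -(N : ℤ) ≤ i → i < N → tp ϑ L x (i * L) = tp ϑ L x ((i + d) * L) := by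
  classical
  by_contra hcon
  push Not at hcon
  have hL0 : (0 : ℤ) < L := by exact_mod_cast hL
  obtain ⟨x, hx⟩ := compact_seq
    (fun N x => Legal ϑ (wd x (-(N : ℤ)) (2 * N)) ∧ Mk x0 n x 0 ∧
      ∀ i : ℤ, -(N : ℤ) ≤ i → i < N → tp ϑ L x (i * L) = tp ϑ L x ((i + d) * L))
    (by
      rintro N x ⟨h1, h2, h3⟩
      refine ⟨legal_mono h1, h2, fun i hi1 hi2 => h3 i ?_ ?_⟩
      · omega
      · omega)
    (by
      intro N
      obtain ⟨x, hx, h1, h2⟩ := hcon N
      exact ⟨x, hx _ _, h1, h2⟩)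
    (by
      intro N
      refine ⟨(N + d.natAbs + 1) * L + n, ?_⟩
      have hr : (((N + d.natAbs + 1) * L + n : ℕ) : ℤ) = (N + (d.natAbs : ℤ) + 1) * L + n := by
        push_cast
        ring
      rw [hr]
      have hNL : (0 : ℤ) ≤ (N : ℤ) * L := by positivity
      have hdL : (0 : ℤ) ≤ (d.natAbs : ℤ) * L := by positivity
      have hNN : (N : ℤ) ≤ (N : ℤ) * L := by nlinarith [(Nat.cast_nonneg N : (0 : ℤ) ≤ N)]
      have hd1 : d ≤ (d.natAbs : ℤ) := by omega
      have hd2 : -(d.natAbs : ℤ) ≤ d := by omega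
      rintro y y' hyy ⟨h1, h2, h3⟩
      refine ⟨?_, ?_, ?_⟩
      · have : wd y' (-(N : ℤ)) (2 * N) = wd y (-(N : ℤ)) (2 * N) := by
          apply wd_congr'
          intro k hk1 hk2
          refine (hyy _ ?_).symm
          rw [abs_le]
          push_cast at hk2
          constructor <;> nlinarith
        rw [this]
        exact h1
      · intro i hi1 hi2
        rw [← hyy (0 + i) (by rw [abs_le]; constructor <;> nlinarith)]
        exact h2 i hi1 hi2
      · intro i hi1 hi2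
        have e : ∀ k : ℤ, -(N : ℤ) - (d.natAbs : ℤ) ≤ k → k ≤ N + (d.natAbs : ℤ) →
            tp ϑ L y' (k * L) = tp ϑ L y (k * L) := by
          intro k hk1 hk2
          apply tp_congr
          intro l hl1 hl2
          refine (hyy _ ?_).symm
          have e1 : (-(N : ℤ) - (d.natAbs : ℤ)) * L ≤ k * L :=
            mul_le_mul_of_nonneg_right hk1 hL0.le
          have e2 : k * L ≤ (N + (d.natAbs : ℤ)) * L := mul_le_mul_of_nonneg_right hk2 hL0.le
          rw [abs_le]
          constructor <;> nlinarith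
        rw [e i (by omega) (by omega), e (i + d) (by omega) (by omega)]
        exact h3 i hi1 hi2)
  have hxX : x ∈ subshift ϑ := mem_of_legal fun n => (hx n).1
  have hxM : Mk x0 n x 0 := (hx 0).2.1
  have hper : ∀ i : ℤ, tp ϑ L x (i * L) = tp ϑ L x ((i + d) * L) := by
    intro i
    exact (hx (i.natAbs + 1)).2.2 i (by omega) (by omega)
  -- period `D = |d|`
  set D : ℤ := (d.natAbs : ℤ) with hD
  have hD0 : 0 < D := by omega
  have hperD : ∀ i : ℤ, tp ϑ L x (i * L) = tp ϑ L x ((i + D) * L) := by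
    intro i
    rcases le_total 0 d with h | h
    · have : D = d := by omega
      rw [this]
      exact hper i
    · have : D = -d := by omega
      rw [this]
      have h1 := hper (i + -d)
      have h2 : i + -d + d = i := by ring
      rw [h2] at h1
      exact h1.symm
  have hmod : ∀ i : ℤ, tp ϑ L x ((i % D) * L) = tp ϑ L x (i * L) := fun i =>
    periodic_mod (f := fun i => tp ϑ L x (i * L)) hperD i
  set x' : ℤ → A := fun j => x (((j / L) % D) * L + j % L) with hx'
  have htp : ∀ i : ℤ, tp ϑ L x' (0 + i * L) = tp ϑ L x (0 + i * L) := by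
    intro i
    rw [zero_add, ← hmod i]
    apply tp_congr
    intro k hk1 hk2
    simp only [hx']
    have e1 : (i * L + k) / (L : ℤ) = i := by
      rw [add_comm, Int.add_mul_ediv_right _ _ (by omega), Int.ediv_eq_zero_of_lt hk1 hk2, zero_add]
    have e2 : (i * L + k) % (L : ℤ) = k := by
      rw [add_comm, Int.add_mul_emod_self_right, Int.emod_eq_of_lt hk1 hk2]
    rw [e1, e2]
  have hx'X : x' ∈ subshift ϑ := mem_of_tp hϑ (hMk x hxX 0 hxM) htp
  refine hap x' hx'X (d.natAbs * L) ?_ ?_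
  · have : 1 ≤ d.natAbs := by omega
    exact Nat.mul_pos this hL
  · funext j
    rw [sh_apply]
    simp only [hx']
    have e0 : (((d.natAbs * L : ℕ)) : ℤ) = D * L := by push_cast [hD]; ring
    rw [e0]
    have e1 : (j + D * L) / (L : ℤ) = j / L + D := Int.add_mul_ediv_right _ _ (by omega)
    have e2 : (j + D * L) % (L : ℤ) = j % L := Int.add_mul_emod_self_right _ _ _
    rw [e1, e2, Int.add_emod_right]

/-! ### The gate data -/

/-- The type of radius `N` of the position `p`. -/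
abbrev Ty (A : Type*) (N : ℕ) := {i : ℤ // i ∈ Finset.Ico (-(N : ℤ)) (N : ℤ)} → Set A

def ty (ϑ : A → Finset (List A)) (L : ℕ) (N : ℕ) (x : ℤ → A) (p : ℤ) : Ty A N :=
  fun i => tp ϑ L x (p + i.1 * L)

theorem ty_eq {ϑ : A → Finset (List A)} {L : ℕ} {N : ℕ} {x x' : ℤ → A} {p p' : ℤ}
    (h : ty ϑ L N x p = ty ϑ L N x' p') {i : ℤ} (h1 : -(N : ℤ) ≤ i) (h2 : i < N) :
    tp ϑ L x (p + i * L) = tp ϑ L x' (p' + i * L) :=
  congrFun h ⟨i, Finset.mem_Ico.2 ⟨h1, h2⟩⟩

theorem sep_gate [Finite A] {ϑ : A → Finset (List A)} (hϑ : IsRandomSub ϑ) {L : ℕ}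
    (hL : 1 ≤ L) (hap : Aperiodic (subshift ϑ)) {x0 : ℤ → A} {n : ℕ}
    (hMk : ∀ x ∈ subshift ϑ, ∀ p, Mk x0 n x p →
      (Valid ϑ L x p ∧ ∀ c, Valid ϑ L x c → (L : ℤ) ∣ c - p)) (q : ℕ) :
    ∃ N, ∀ x ∈ subshift ϑ, ∀ p p', Mk x0 n x p → Mk x0 n x p' →
      ty ϑ L N x p = ty ϑ L N x p' → p ≠ p' → 2 * ((q * L : ℕ) : ℤ) ≤ |p - p'| := by
  classical
  have hL0 : (0 : ℤ) < L := by exact_mod_cast hL
  choose! N hN using sep_aux hϑ hL hap (fun x hx p hp => (hMk x hx p hp).1)
  refine ⟨(Finset.Icc (-(2 * q : ℤ)) (2 * q)).sup N, ?_⟩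
  intro x hx p p' hp hp' hty hne
  by_contra hlt
  push Not at hlt
  obtain ⟨d, hd⟩ := (hMk x hx p hp).2 p' (hMk x hx p' hp').1
  have hd0 : d ≠ 0 := by
    rintro rfl
    apply hne
    rw [mul_zero] at hd
    linarith
  have hlt2 : |(p - p')| = |d| * L := by
    rw [abs_sub_comm, hd, abs_mul, abs_of_pos hL0, mul_comm]
  rw [hlt2] at hlt
  push_cast at hlt
  have hdq : |d| < 2 * q := by
    have : |d| * L < (2 * q) * L := by linarith
    exact lt_of_mul_lt_mul_right this hL0.le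
  have hdm : d ∈ Finset.Icc (-(2 * q : ℤ)) (2 * q) := by
    rw [Finset.mem_Icc]
    rw [abs_lt] at hdq
    constructor <;> linarith
  have hle := Finset.le_sup (f := N) hdm
  refine hN d hd0 (sh p x) (sh_mem hx p) ?_ ?_
  · intro i hi1 hi2
    rw [sh_apply]
    have := hp i hi1 hi2
    convert this using 2
    ring
  · intro i hi1 hi2
    rw [tp_sh, tp_sh]
    have h1 := ty_eq hty (i := i) (by omega) (by omega)
    have e1 : i * L + p = p + i * L := by ring
    have e2 : (i + d) * L + p = p' + i * L := by linarith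
    rw [e1, e2]
    exact h1

/-- Put the content `V` into the window around `0` of `z`. -/
noncomputable def ext (r : ℕ) (z : ℤ → A) (V : Cont A r) : ℤ → A :=
  fun j => if h : j ∈ Finset.Ico (-(r : ℤ)) (r : ℤ) then V ⟨j, h⟩ else z j

theorem ext_in {r : ℕ} {z : ℤ → A} {V : Cont A r} {j : ℤ}
    (h : j ∈ Finset.Ico (-(r : ℤ)) (r : ℤ)) : ext r z V j = V ⟨j, h⟩ := by
  unfold ext
  rw [dif_pos h]

theorem ext_out {r : ℕ} {z : ℤ → A} {V : Cont A r} {j : ℤ}
    (h : j ∉ Finset.Ico (-(r : ℤ)) (r : ℤ)) : ext r z V j = z j := by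
  unfold ext
  rw [dif_neg h]

theorem ext_self (r : ℕ) (x : ℤ → A) (p : ℤ) :
    ext r (fun j => x (p + j)) (cont r x p) = fun j => x (p + j) := by
  funext j
  by_cases h : j ∈ Finset.Ico (-(r : ℤ)) (r : ℤ)
  · rw [ext_in h]
    rfl
  · rw [ext_out h]

/-- Equivalence of contents. -/
def Rel (ϑ : A → Finset (List A)) (L n q : ℕ) (V V' : Cont A (q * L)) : Prop :=
  ∀ z : ℤ → A,
    (∀ i : ℤ, tp ϑ L (ext (q * L) z V) (i * L) = tp ϑ L (ext (q * L) z V') (i * L)) ∧
    ∀ j : ℤ, -(n : ℤ) ≤ j → j < n → ext (q * L) z V j = ext (q * L) z V' j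

theorem rel_equiv (ϑ : A → Finset (List A)) (L n q : ℕ) : Equivalence (Rel ϑ L n q) where
  refl := fun _ _ => ⟨fun _ => rfl, fun _ _ _ => rfl⟩
  symm := fun h z => ⟨fun i => ((h z).1 i).symm, fun j h1 h2 => ((h z).2 j h1 h2).symm⟩
  trans := fun h h' z =>
    ⟨fun i => ((h z).1 i).trans ((h' z).1 i), fun j h1 h2 => ((h z).2 j h1 h2).trans
      ((h' z).2 j h1 h2)⟩

theorem tp_modif {ϑ : A → Finset (List A)} {L n q : ℕ} (hL : 1 ≤ L) {S : ℤ → Prop}
    (hS : Sep (q * L) S) (x : ℤ → A) (c : ℤ → Cont A (q * L)) (p0 : ℤ)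
    (hcong : ∀ p, S p → (L : ℤ) ∣ p - p0)
    (hR : ∀ p, S p → Rel ϑ L n q (cont (q * L) x p) (c p)) (i : ℤ) :
    tp ϑ L (modif (q * L) S c x) (p0 + i * L) = tp ϑ L x (p0 + i * L) := by
  have hL0 : (0 : ℤ) < L := by exact_mod_cast hL
  have hqL : ((q * L : ℕ) : ℤ) = (q : ℤ) * L := by push_cast; ring
  by_cases h : ∃ p1, S p1 ∧ ∃ d : ℤ, p1 = p0 + d * L ∧ -(q : ℤ) ≤ i - d ∧ i - d < q
  · obtain ⟨p1, hp1, d, hd, hd1, hd2⟩ := h
    have h1 := (hR p1 hp1 (fun j => x (p1 + j))).1 (i - d)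
    rw [ext_self] at h1
    have e1 : tp ϑ L x (p0 + i * L) = tp ϑ L (fun j => x (p1 + j)) ((i - d) * L) := by
      apply tp_congr
      intro k _ _
      show x (p0 + i * L + k) = x (p1 + ((i - d) * L + k))
      congr 1
      rw [hd]
      ring
    rw [e1, h1]
    apply tp_congr
    intro k hk1 hk2
    have a1 : -(q : ℤ) * L ≤ (i - d) * L := mul_le_mul_of_nonneg_right hd1 hL0.le
    have a2 : (i - d) * L ≤ (q - 1) * L :=
      mul_le_mul_of_nonneg_right (by omega) hL0.le
    have hin : (i - d) * L + k ∈ Finset.Ico (-((q * L : ℕ) : ℤ)) ((q * L : ℕ) : ℤ) := by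
      rw [Finset.mem_Ico, hqL]
      constructor <;> linarith
    have hin' : p0 + i * L + k - p1 ∈ Finset.Ico (-((q * L : ℕ) : ℤ)) ((q * L : ℕ) : ℤ) := by
      have : p0 + i * L + k - p1 = (i - d) * L + k := by rw [hd]; ring
      rw [this]
      exact hin
    rw [modif_in hS c x hp1 hin', ext_in hin]
    congr 1
    apply Subtype.ext
    show p0 + i * L + k - p1 = (i - d) * L + k
    rw [hd]
    ring
  · apply tp_congr
    intro k hk1 hk2
    apply modif_out
    intro p1 hp1 hin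
    apply h
    obtain ⟨d, hd⟩ := hcong p1 hp1
    rw [Finset.mem_Ico, hqL] at hin
    refine ⟨p1, hp1, d, by linarith, ?_, ?_⟩
    · have : -(q : ℤ) * L < (i - d + 1) * L := by linarith
      have := lt_of_mul_lt_mul_right this hL0.le
      omega
    · have : (i - d) * L < q * L := by linarith
      exact lt_of_mul_lt_mul_right this hL0.le

theorem closed_gate {ϑ : A → Finset (List A)} (hϑ : IsRandomSub ϑ) {L : ℕ}
    (hL : 1 ≤ L) {x0 : ℤ → A} {n : ℕ}
    (hMk : ∀ x ∈ subshift ϑ, ∀ p, Mk x0 n x p →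
      (Valid ϑ L x p ∧ ∀ c, Valid ϑ L x c → (L : ℤ) ∣ c - p)) (q : ℕ) (hq : n ≤ q) (N : ℕ)
    (e : Ty A N)
    (hsep : ∀ x ∈ subshift ϑ, ∀ p p', Mk x0 n x p → ty ϑ L N x p = e → Mk x0 n x p' →
      ty ϑ L N x p' = e → p ≠ p' → 2 * ((q * L : ℕ) : ℤ) ≤ |p - p'|)
    (x : ℤ → A) (hx : x ∈ subshift ϑ) (c : ℤ → Cont A (q * L))
    (hR : ∀ p, Mk x0 n x p → ty ϑ L N x p = e → Rel ϑ L n q (cont (q * L) x p) (c p)) :
    (modif (q * L) (fun p => Mk x0 n x p ∧ ty ϑ L N x p = e) c x ∈ subshift ϑ) ∧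
    (∀ p, (Mk x0 n (modif (q * L) (fun p => Mk x0 n x p ∧ ty ϑ L N x p = e) c x) p ∧
        ty ϑ L N (modif (q * L) (fun p => Mk x0 n x p ∧ ty ϑ L N x p = e) c x) p = e) ↔
      (Mk x0 n x p ∧ ty ϑ L N x p = e)) ∧
    (∀ N', N ≤ N' → ∀ p, Mk x0 n x p → ty ϑ L N x p = e →
      ty ϑ L N' (modif (q * L) (fun p => Mk x0 n x p ∧ ty ϑ L N x p = e) c x) p
        = ty ϑ L N' x p) := by
  have hqL : ((q * L : ℕ) : ℤ) = (q : ℤ) * L := by push_cast; ring
  have hnq : (n : ℤ) ≤ q * L := by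
    have h1 : (n : ℤ) ≤ q := by exact_mod_cast hq
    have h2 : (1 : ℤ) ≤ L := by exact_mod_cast hL
    nlinarith [(Nat.cast_nonneg q : (0 : ℤ) ≤ q)]
  set S : ℤ → Prop := fun p => Mk x0 n x p ∧ ty ϑ L N x p = e with hSdef
  set y := modif (q * L) S c x with hy
  have hS : Sep (q * L) S := by
    intro p p' hp hp' hne
    exact hsep x hx p p' hp.1 hp.2 hp'.1 hp'.2 hne
  by_cases hany : ∃ p0, S p0
  · obtain ⟨p0, hp0⟩ := hany
    -- types of `y` and `x` agree
    have hA : ∀ p, (L : ℤ) ∣ p - p0 → ∀ i : ℤ, tp ϑ L y (p + i * L) = tp ϑ L x (p + i * L) := by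
      intro p hp i
      refine tp_modif (n := n) hL hS x c p ?_ (fun p hp => hR p hp.1 hp.2) i
      intro p1 hp1
      have h1 : (L : ℤ) ∣ p1 - p0 := (hMk x hx p0 hp0.1).2 p1 (hMk x hx p1 hp1.1).1
      have h2 : p1 - p = (p1 - p0) - (p - p0) := by ring
      rw [h2]
      exact dvd_sub h1 hp
    have hcongx : ∀ p, Mk x0 n x p → (L : ℤ) ∣ p - p0 := fun p hp =>
      (hMk x hx p0 hp0.1).2 p (hMk x hx p hp).1
    have hyX : y ∈ subshift ϑ :=
      mem_of_tp hϑ (hMk x hx p0 hp0.1).1 (hA p0 (by simp))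
    have hfwd : ∀ p, S p → Mk x0 n y p ∧ ty ϑ L N y p = e := by
      intro p hp
      constructor
      · intro j hj1 hj2
        have hin : p + j - p ∈ Finset.Ico (-((q * L : ℕ) : ℤ)) ((q * L : ℕ) : ℤ) := by
          rw [Finset.mem_Ico, hqL]
          constructor <;> linarith
        have hin2 : j ∈ Finset.Ico (-((q * L : ℕ) : ℤ)) ((q * L : ℕ) : ℤ) := by
          rw [Finset.mem_Ico, hqL]
          constructor <;> linarith
        rw [hy, modif_in hS c x hp hin]
        have h1 := (hR p hp.1 hp.2 x).2 j hj1 hj2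
        rw [ext_in hin2, ext_in hin2] at h1
        have h2 : c p ⟨p + j - p, hin⟩ = c p ⟨j, hin2⟩ := by
          congr 1
          apply Subtype.ext
          show p + j - p = j
          ring
        rw [h2, ← h1]
        exact hp.1 j hj1 hj2
      · rw [← hp.2]
        funext i
        exact hA p (hcongx p hp.1) i.1
    refine ⟨hyX, ?_, ?_⟩
    · intro p'
      constructor
      · rintro ⟨hm, ht⟩
        by_contra hnot
        -- `p'` is far from all anchors of `x`
        have hfar : ∀ p1, S p1 → 2 * ((q * L : ℕ) : ℤ) ≤ |p' - p1| := by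
          intro p1 hp1
          refine hsep y hyX p' p1 hm ht (hfwd p1 hp1).1 (hfwd p1 hp1).2 ?_
          rintro rfl
          exact hnot hp1
        have hmx : Mk x0 n x p' := by
          intro j hj1 hj2
          rw [← hm j hj1 hj2]
          symm
          apply modif_out
          intro p1 hp1 hin
          have h1 := hfar p1 hp1
          rw [Finset.mem_Ico] at hin
          rw [hqL] at h1 hin
          rcases le_abs.1 h1 with h | h
          · linarith
          · linarith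
        apply hnot
        refine ⟨hmx, ?_⟩
        rw [← ht]
        funext i
        exact (hA p' (hcongx p' hmx) i.1).symm
      · exact hfwd p'
    · intro N' _ p hp hpe
      funext i
      exact hA p (hcongx p hp) i.1
  · have hyx : y = x := by
      funext j
      rw [hy]
      apply modif_out
      intro p hp
      exact absurd ⟨p, hp⟩ hany
    rw [hyx]
    exact ⟨hx, fun p => Iff.rfl, fun _ _ _ _ _ => rfl⟩

theorem center_gate (ϑ : A → Finset (List A)) (L n : ℕ) (q q' : ℕ) (hqq : q ≤ q')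
    (x x' : ℤ → A) (p : ℤ)
    (hout : ∀ j, j - p ∉ Finset.Ico (-((q * L : ℕ) : ℤ)) ((q * L : ℕ) : ℤ) → x' j = x j)
    (hR : Rel ϑ L n q (cont (q * L) x p) (cont (q * L) x' p)) :
    Rel ϑ L n q' (cont (q' * L) x p) (cont (q' * L) x' p) := by
  intro z
  have hle : ((q * L : ℕ) : ℤ) ≤ ((q' * L : ℕ) : ℤ) := by
    exact_mod_cast Nat.mul_le_mul_right L hqq
  obtain ⟨z', hz'⟩ : ∃ z' : ℤ → A, z' = ext (q' * L) z (cont (q' * L) x p) := ⟨_, rfl⟩
  have e1 : ext (q' * L) z (cont (q' * L) x p) = ext (q * L) z' (cont (q * L) x p) := by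
    funext j
    by_cases h : j ∈ Finset.Ico (-((q * L : ℕ) : ℤ)) ((q * L : ℕ) : ℤ)
    · have h' : j ∈ Finset.Ico (-((q' * L : ℕ) : ℤ)) ((q' * L : ℕ) : ℤ) := by
        rw [Finset.mem_Ico] at h ⊢
        omega
      rw [ext_in h, ext_in h']
      rfl
    · rw [ext_out h, hz']
  have e2 : ext (q' * L) z (cont (q' * L) x' p) = ext (q * L) z' (cont (q * L) x' p) := by
    funext j
    by_cases h : j ∈ Finset.Ico (-((q * L : ℕ) : ℤ)) ((q * L : ℕ) : ℤ)
    · have h' : j ∈ Finset.Ico (-((q' * L : ℕ) : ℤ)) ((q' * L : ℕ) : ℤ) := by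
        rw [Finset.mem_Ico] at h ⊢
        omega
      rw [ext_in h, ext_in h']
      rfl
    · rw [ext_out h]
      by_cases h' : j ∈ Finset.Ico (-((q' * L : ℕ) : ℤ)) ((q' * L : ℕ) : ℤ)
      · rw [ext_in h', hz', ext_in h']
        show x' (p + j) = x (p + j)
        apply hout
        rwa [add_sub_cancel_left]
      · rw [ext_out h', hz', ext_out h']
  rw [e1, e2]
  exact hR z'

/-! ### Freedom -/

theorem exists_change {L : ℕ} (x : ℤ → A) (s : ℤ) {v' : List A} (hv' : v'.length = L) :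
    ∃ x' : ℤ → A, wd x' s L = v' ∧ ∀ j, (j < s ∨ s + L ≤ j) → x' j = x j := by
  classical
  refine ⟨fun j => if s ≤ j ∧ j < s + L then v'.getD (j - s).toNat (x j) else x j, ?_, ?_⟩
  · apply List.ext_getElem
    · rw [wd_length, hv']
    · intro k h1 h2
      rw [wd_length] at h1
      have h3 : s ≤ s + (k : ℤ) ∧ s + (k : ℤ) < s + L := by omega
      have h4 : (s + (k : ℤ) - s).toNat = k := by omega
      simp only [wd, List.getElem_map, List.getElem_range, h3, and_self, if_true, h4]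
      rw [List.getD_eq_getElem _ _ h2]
  · intro j hj
    have : ¬ (s ≤ j ∧ j < s + L) := by omega
    simp only [this, if_false]

theorem free_gate [Finite A] {ϑ : A → Finset (List A)} (hϑ : IsRandomSub ϑ) {L : ℕ}
    (hL : 1 ≤ L) (hlen : ∀ a, ∀ v ∈ ϑ a, v.length = L) (hcompat : Compatible ϑ)
    (hprim : Primitive ϑ) {b : A}
    (h2 : ∀ v ∈ ϑ b, ∃ v', v' ≠ v ∧ ∀ a, v ∈ ϑ a ↔ v' ∈ ϑ a) {x0 : ℤ → A} {n : ℕ}
    (hMk : ∀ x ∈ subshift ϑ, ∀ p, Mk x0 n x p → Valid ϑ L x p) (M q1 : ℕ) :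
    ∃ q, q1 ≤ q ∧ n ≤ q ∧ ∀ x ∈ subshift ϑ, ∀ p, Mk x0 n x p →
      ∃ s : Finset (Cont A (q * L)), M ≤ s.card ∧ ∀ V ∈ s, Rel ϑ L n q (cont (q * L) x p) V := by
  classical
  have hL0 : (0 : ℤ) < L := by exact_mod_cast hL
  obtain ⟨G, hG⟩ := syndetic_letter hϑ L hL hlen hcompat hprim b
  refine ⟨q1 + n + M * G, by omega, by omega, ?_⟩
  set q := q1 + n + M * G with hq
  have hqL : ((q * L : ℕ) : ℤ) = (q : ℤ) * L := by push_cast; ring
  intro x hx p hp
  obtain ⟨y, hy, hyx⟩ := hMk x hx p hp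
  have hi : ∀ m : ℕ, ∃ i : ℤ, (n : ℤ) + m * G ≤ i ∧ i < n + m * G + G ∧ y i = b := fun m =>
    hG y hy _
  choose i hi1 hi2 hi3 using hi
  have hv : ∀ m : ℕ, ∃ x' : ℤ → A, wd x' (p + i m * L) L ≠ wd x (p + i m * L) L ∧
      tp ϑ L x' (p + i m * L) = tp ϑ L x (p + i m * L) ∧
      ∀ j, (j < p + i m * L ∨ p + i m * L + L ≤ j) → x' j = x j := by
    intro m
    have h3 : wd x (p + i m * L) L ∈ ϑ b := by
      rw [← hi3 m]
      exact hyx (i m)
    obtain ⟨v', hv1, hv2⟩ := h2 _ h3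
    obtain ⟨x', hx1, hx2⟩ := exists_change x (p + i m * L) (hlen b v' ((hv2 b).1 h3))
    refine ⟨x', by rw [hx1]; exact hv1, ?_, hx2⟩
    ext a
    rw [mem_tp, mem_tp, hx1]
    exact (hv2 a).symm
  choose X' hX1 hX2 hX3 using hv
  have hin : ∀ m < M, ∀ k : ℤ, 0 ≤ k → k < L → 
      i m * L + k ∈ Finset.Ico (-((q * L : ℕ) : ℤ)) ((q * L : ℕ) : ℤ) := by
    intro m hm k hk1 hk2
    rw [Finset.mem_Ico, hqL]
    have h3 := hi1 m
    have h4 := hi2 m
    have h5 : (m : ℤ) * G + G ≤ M * G := by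
      have : m * G + G ≤ M * G := by
        calc m * G + G = (m + 1) * G := by ring
          _ ≤ M * G := Nat.mul_le_mul_right G hm
      exact_mod_cast this
    have h6 : (0 : ℤ) ≤ (m : ℤ) * G := by positivity
    have h7 : (q : ℤ) = q1 + n + M * G := by rw [hq]; push_cast; ring
    have h8 : 0 ≤ i m := by
      have : (0 : ℤ) ≤ n := by positivity
      linarith
    have h9 : i m ≤ q - 1 := by
      have : (0 : ℤ) ≤ q1 := by positivity
      omega
    have h10 : 0 ≤ i m * L := by positivity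
    have h11 : i m * L ≤ (q - 1) * L := mul_le_mul_of_nonneg_right h9 hL0.le
    constructor
    · have : (0 : ℤ) ≤ (q : ℤ) * L := by positivity
      linarith
    · linarith
  have hinj : Set.InjOn (fun m => cont (q * L) (X' m) p) (Finset.range M : Set ℕ) := by
    intro m hm m' hm' heq
    by_contra hne
    have hmM : m < M := by simpa using hm
    have hii : i m ≠ i m' := by
      rcases lt_or_gt_of_ne hne with h | h
      · have h3 := hi2 m
        have h4 := hi1 m'
        have h5 : (m : ℤ) * G + G ≤ m' * G := by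
          have : m * G + G ≤ m' * G := by
            calc m * G + G = (m + 1) * G := by ring
              _ ≤ m' * G := Nat.mul_le_mul_right G h
          exact_mod_cast this
        omega
      · have h3 := hi2 m'
        have h4 := hi1 m
        have h5 : (m' : ℤ) * G + G ≤ m * G := by
          have : m' * G + G ≤ m * G := by
            calc m' * G + G = (m' + 1) * G := by ring
              _ ≤ m * G := Nat.mul_le_mul_right G h
          exact_mod_cast this
        omega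
    apply hX1 m
    apply wd_congr'
    intro k hk1 hk2
    have h3 := congrFun heq ⟨i m * L + k, hin m hmM k hk1 hk2⟩
    have h4 : X' m (p + (i m * L + k)) = X' m' (p + (i m * L + k)) := h3
    have h5 : X' m' (p + (i m * L + k)) = x (p + (i m * L + k)) := by
      apply hX3
      rcases lt_or_gt_of_ne hii with h | h
      · left
        have : (i m + 1) * L ≤ i m' * L := mul_le_mul_of_nonneg_right (by omega) hL0.le
        linarith
      · right
        have : (i m' + 1) * L ≤ i m * L := mul_le_mul_of_nonneg_right (by omega) hL0.le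
        linarith
    rw [h5, ← add_assoc] at h4
    exact h4
  refine ⟨(Finset.range M).image (fun m => cont (q * L) (X' m) p), ?_, ?_⟩
  · rw [Finset.card_image_of_injOn hinj, Finset.card_range]
  · intro V hV
    obtain ⟨m, hm, rfl⟩ := Finset.mem_image.1 hV
    have hmM : m < M := Finset.mem_range.1 hm
    intro z
    -- the two extensions agree outside the block
    have hout : ∀ j : ℤ, (j < i m * L ∨ i m * L + L ≤ j) →
        ext (q * L) z (cont (q * L) x p) j = ext (q * L) z (cont (q * L) (X' m) p) j := by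
      intro j hj
      by_cases h : j ∈ Finset.Ico (-((q * L : ℕ) : ℤ)) ((q * L : ℕ) : ℤ)
      · rw [ext_in h, ext_in h]
        show x (p + j) = X' m (p + j)
        symm
        apply hX3
        rcases hj with h | h
        · left; linarith
        · right; linarith
      · rw [ext_out h, ext_out h]
    constructor
    · intro l
      by_cases hl : l = i m
      · rw [hl]
        have e1 : tp ϑ L (ext (q * L) z (cont (q * L) x p)) (i m * L)
            = tp ϑ L x (p + i m * L) := by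
          apply tp_congr
          intro k hk1 hk2
          rw [ext_in (hin m hmM k hk1 hk2)]
          show x (p + (i m * L + k)) = x (p + i m * L + k)
          congr 1
          ring
        have e2 : tp ϑ L (ext (q * L) z (cont (q * L) (X' m) p)) (i m * L)
            = tp ϑ L (X' m) (p + i m * L) := by
          apply tp_congr
          intro k hk1 hk2
          rw [ext_in (hin m hmM k hk1 hk2)]
          show X' m (p + (i m * L + k)) = X' m (p + i m * L + k)
          congr 1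
          ring
        rw [e1, e2, hX2]
      · apply tp_congr
        intro k hk1 hk2
        apply hout
        rcases lt_or_gt_of_ne hl with h | h
        · left
          have : (l + 1) * L ≤ i m * L := mul_le_mul_of_nonneg_right (by omega) hL0.le
          linarith
        · right
          have : (i m + 1) * L ≤ l * L := mul_le_mul_of_nonneg_right (by omega) hL0.le
          linarith
    · intro j hj1 hj2
      apply hout
      left
      have h3 := hi1 m
      have h6 : (0 : ℤ) ≤ (m : ℤ) * G := by positivity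
      have h8 : (n : ℤ) ≤ i m := by linarith
      have h9 : i m ≤ i m * L := by
        have : (0 : ℤ) ≤ n := by positivity
        nlinarith
      linarith

end Cst

open Cst in
/-- The constant length theorem. -/
theorem const_not_rf {A : Type} [Finite A] [TopologicalSpace A] [DiscreteTopology A]
    (ϑ : A → Finset (List A)) (L : ℕ) (hϑ : IsRandomSub ϑ) (hlen : ∀ a, ∀ v ∈ ϑ a, v.length = L)
    (hcompat : Compatible ϑ) (hprim : Primitive ϑ) (hap : Aperiodic (subshift ϑ))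
    (h1 : ∃ x ∈ subshift ϑ, ∃! k : ℕ, ∃ y, Desub ϑ x y k)
    (h2 : ∃ b, ∀ v ∈ ϑ b, ∃ v', v' ≠ v ∧ ∀ a, v ∈ ϑ a ↔ v' ∈ ϑ a) :
    ¬ Group.ResiduallyFinite (autRS ϑ) := by
  obtain ⟨b, h2⟩ := h2
  have hL : 1 ≤ L := by
    obtain ⟨v, hv⟩ := (hϑ b).1
    rw [← hlen b v hv]
    exact List.length_pos_iff.2 ((hϑ b).2 v hv)
  obtain ⟨x0, hx0, n, hMk⟩ := exists_anchor hϑ hL hlen h1
  refine not_residuallyFinite_of_gates (subshift ϑ) (shiftInv_subshift ϑ) L n (Mk x0 n)
    (Ty A) (fun N => inferInstance) (ty ϑ L) (Rel ϑ L n) ?_ ?_ ?_ ?_ ?_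
    (rel_equiv ϑ L n) (sep_gate hϑ hL hap hMk) ?_ ?_
    (free_gate hϑ hL hlen hcompat hprim h2 (fun x hx p hp => (hMk x hx p hp).1)) ?_
  · -- mark_sh
    intro x p
    unfold Mk
    have : ∀ i : ℤ, sh 1 x (p + i) = x (p + 1 + i) := by
      intro i
      rw [sh_apply]
      congr 1
      ring
    simp only [this]
  · -- mark_loc
    refine ⟨n, fun x x' p h hm i hi1 hi2 => ?_⟩
    rw [← h i (by rw [abs_le]; constructor <;> linarith)]
    exact hm i hi1 hi2
  · -- ty_sh
    intro N x p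
    funext i
    show tp ϑ L (sh 1 x) (p + i.1 * L) = tp ϑ L x (p + 1 + i.1 * L)
    rw [tp_sh]
    congr 1
    ring
  · -- ty_loc
    intro N
    refine ⟨(N + 1) * L, fun x x' p h => ?_⟩
    funext i
    obtain ⟨i, hi⟩ := i
    rw [Finset.mem_Ico] at hi
    show tp ϑ L x (p + i * L) = tp ϑ L x' (p + i * L)
    apply tp_congr
    intro k hk1 hk2
    have h3 := h (i * L + k) (by
      have hL0 : (0 : ℤ) < L := by exact_mod_cast hL
      have a1 : -(N : ℤ) * L ≤ i * L := mul_le_mul_of_nonneg_right hi.1 hL0.le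
      have a2 : i * L ≤ N * L := mul_le_mul_of_nonneg_right hi.2.le hL0.le
      rw [abs_le]
      push_cast
      constructor <;> linarith)
    rw [← add_assoc] at h3
    exact h3
  · -- ty_mono
    intro N N' hNN x x' p p' h
    funext i
    obtain ⟨i, hi⟩ := i
    rw [Finset.mem_Ico] at hi
    exact ty_eq h (i := i) (by omega) (by omega)
  · -- closed
    intro q hq N e hsep x hx c hR
    exact closed_gate hϑ hL hMk q hq N e hsep x hx c hR
  · -- center
    intro q q' hqq x x' p hout hR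
    exact center_gate ϑ L n q q' hqq x x' p hout hR
  · -- ne
    exact ⟨x0, hx0, fun i _ _ => by rw [zero_add]⟩

end H35.RS
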