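import Pool.Agent.H35.RS.Const
import Pool.Agent.H35.RS.PowF

/-!
# The general constant length theorem, relative to two facts proved elsewhere
-/

set_option autoImplicit false

namespace H35.RS.Up

open H35.RS

variable {A : Type*}

theorem rf_congr [TopologicalSpace A] {X Y : Set (ℤ → A)} (h : X = Y) (hX : ShiftInv X)
    (hY : ShiftInv Y) : Group.ResiduallyFinite (autGroup X hX) →
      Group.ResiduallyFinite (autGroup Y hY) := by
  subst h
  exact fun h => h

/-- replacing a block -/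
theorem block_change {ϑ : A → Finset (List A)} {L : ℕ} (hlen : ∀ a, ∀ v ∈ ϑ a, v.length = L)
    {q : ℕ} {c : A} (hD : ∀ b : A, b ≠ c → Disjoint (pow ϑ q c) (pow ϑ q b))
    {w w' : List A} (hw : w ∈ pow ϑ q c) (hw' : w' ∈ pow ϑ q c) {m : ℕ} {a : A}
    {s t vs vt : List A} (hvs : vs.length = s.length * L ^ q) (hl : (s ++ c :: t).length = L ^ m)
    (hv : vs ++ (w ++ vt) ∈ pow ϑ (m + q) a) : vs ++ (w' ++ vt) ∈ pow ϑ (m + q) a := by
  rw [comp] at hv ⊢
  obtain ⟨u, hu, hv⟩ := hv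
  have hul := pow_length hlen _ _ _ hu
  have hsl : s.length < u.length := by
    rw [hul, ← hl, List.length_append, List.length_cons]
    omega
  -- split u
  obtain ⟨s', c', t', rfl, hs'⟩ : ∃ s' c' t', u = s' ++ c' :: t' ∧ s'.length = s.length := by
    refine ⟨u.take s.length, u[s.length], u.drop (s.length + 1), ?_, ?_⟩
    · rw [← List.drop_eq_getElem_cons hsl, List.take_append_drop]
    · rw [List.length_take]; omega
  refine ⟨s' ++ c' :: t', hu, ?_⟩
  rw [imgW_append] at hv ⊢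
  obtain ⟨v1, hv1, v2, hv2, he⟩ := hv
  obtain ⟨x, hx, y, hy, rfl⟩ := hv2
  have l1 : v1.length = vs.length := by
    rw [imgW_length (powF_length hlen q) s' v1 hv1, hs', hvs]
  obtain ⟨e1, e2⟩ := List.append_inj he l1.symm
  have l2 : x.length = w.length := by
    rw [powF_length hlen q _ x hx, pow_length hlen _ _ _ hw]
  obtain ⟨e3, e4⟩ := List.append_inj e2 l2.symm
  subst e1 e3 e4
  have hc : c' = c := by
    by_contra hc
    exact Set.disjoint_left.1 (hD c' hc) hw (mem_powF.1 hx)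
  subst hc
  exact ⟨vs, hv1, w' ++ vt, ⟨w', mem_powF.2 hw', vt, hy, rfl⟩, rfl⟩

/-- a word common to all letters gives a periodic point -/
theorem no_common {ϑ : A → Finset (List A)} (hϑ : IsRandomSub ϑ) (hp : Primitive ϑ)
    {L : ℕ} (hlen : ∀ a, ∀ v ∈ ϑ a, v.length = L) (hne : (subshift ϑ).Nonempty)
    (hap : Aperiodic (subshift ϑ)) {n : ℕ} (hn : 1 ≤ n) {v : List A}
    (hv : ∀ a, v ∈ pow ϑ n a) : False := by
  obtain ⟨y, hy⟩ := hne
  have hvl : v.length = L ^ n := pow_length hlen _ _ _ (hv (y 0))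
  have hv0 : v ≠ [] := pow_ne_nil hϑ _ _ _ (hv (y 0))
  have hΛ : 0 < v.length := List.length_pos_iff.2 hv0
  have hΛ' : (0 : ℤ) < v.length := by exact_mod_cast hΛ
  let x : ℤ → A := fun j => v.getD (j % (v.length : ℤ)).toNat (y 0)
  have hx : ∀ i : ℤ, wd x (i * v.length) v.length = v := by
    intro i
    apply List.ext_getElem
    · rw [wd_length]
    · intro k h1 h2
      unfold wd
      rw [List.getElem_map, List.getElem_range]
      show v.getD ((i * (v.length : ℤ) + (k : ℤ)) % (v.length : ℤ)).toNat (y 0) = _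
      have : (i * (v.length : ℤ) + (k : ℤ)) % (v.length : ℤ) = k := by
        rw [add_comm, Int.add_mul_emod_self_right]
        exact Int.emod_eq_of_lt (by positivity) (by exact_mod_cast h2)
      rw [this, Int.toNat_natCast, List.getD_eq_getElem _ _ h2]
  have hxX : x ∈ subshift (powF ϑ n) := by
    refine mem_subshift_of_tiles (powF_isRandomSub hϑ n) (y := y)
      (by rw [subshift_powF hϑ hp hn]; exact hy) (fun _ => v) (fun i => i * v.length)
      (fun i => mem_powF.2 (hv (y i))) ?_ ?_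
    · intro i
      ring
    · intro i
      exact hx i
  rw [subshift_powF hϑ hp hn] at hxX
  apply hap x hxX v.length hΛ
  funext j
  show v.getD ((j + (v.length : ℤ)) % (v.length : ℤ)).toNat (y 0) =
    v.getD (j % (v.length : ℤ)).toNat (y 0)
  rw [Int.add_emod_right]

/-- two letters: images of the letters are disjoint -/
theorem sep_two {ϑ : A → Finset (List A)} (hϑ : IsRandomSub ϑ) (hp : Primitive ϑ)
    {L : ℕ} (hlen : ∀ a, ∀ v ∈ ϑ a, v.length = L) (hne : (subshift ϑ).Nonempty)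
    (hap : Aperiodic (subshift ϑ)) (h2 : Nat.card A = 2) :
    ∃ c : A, ∀ n : ℕ, ∀ b : A, b ≠ c → Disjoint (pow ϑ n c) (pow ϑ n b) := by
  obtain ⟨y, -⟩ := id hne
  refine ⟨y 0, ?_⟩
  intro n b hb
  rw [Set.disjoint_left]
  intro v hv hv'
  rcases Nat.eq_zero_or_pos n with rfl | hn
  · have h1 : v = [y 0] := hv
    have h2 : v = [b] := hv'
    rw [h1] at h2
    exact hb (List.cons.inj h2).1.symm
  · refine no_common hϑ hp hlen hne hap hn (v := v) ?_
    intro a
    have hcov : a = y 0 ∨ a = b := by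
      classical
      have hfin : Finite A := Nat.finite_of_card_ne_zero (by omega)
      have : Fintype A := Fintype.ofFinite A
      by_contra hc
      push Not at hc
      have h3 : ({y 0, b, a} : Finset A).card ≤ Fintype.card A := Finset.card_le_univ _
      rw [Finset.card_eq_three.2 ⟨y 0, b, a, hb.symm, hc.1.symm, hc.2.symm, rfl⟩,
        ← Nat.card_eq_fintype_card, h2] at h3
      omega
    rcases hcov with rfl | rfl
    · exact hv
    · exact hv'

/-- The constant length theorem, relative to the existence of a point with a unique phase for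
all powers and to the existence of a letter with two images. -/
theorem const_length_not_rf_of {A : Type} [Finite A] [TopologicalSpace A] [DiscreteTopology A]
    (ϑ : A → Finset (List A)) (L : ℕ) (hϑ : IsRandomSub ϑ) (hlen : ∀ a, ∀ v ∈ ϑ a, v.length = L)
    (hcompat : Compatible ϑ) (hprim : Primitive ϑ) (hne : (subshift ϑ).Nonempty)
    (hap : Aperiodic (subshift ϑ))
    (hcase : Nat.card A = 2 ∨
      ∃ c : A, ∀ n : ℕ, ∀ b : A, b ≠ c → Disjoint (pow ϑ n c) (pow ϑ n b))
    (hnd : ∃ a, ∃ v ∈ ϑ a, ∃ v' ∈ ϑ a, v ≠ v')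
    (huniq : ∀ n : ℕ, 1 ≤ n → ∃ x ∈ subshift (powF ϑ n), ∃! k : ℕ, ∃ y, Desub (powF ϑ n) x y k) :
    ¬ Group.ResiduallyFinite (autRS ϑ) := by
  obtain ⟨c, hD⟩ : ∃ c : A, ∀ n : ℕ, ∀ b : A, b ≠ c → Disjoint (pow ϑ n c) (pow ϑ n b) := by
    rcases hcase with h | h
    · exact sep_two hϑ hprim hlen hne hap h
    · exact h
  obtain ⟨a0, v0, hv0, v1, hv1, h01⟩ := hnd
  have hprim' := hprim
  obtain ⟨p, hp1, hp⟩ := hprim'
  -- pow (p+1) c has two words
  obtain ⟨w0, w1, hw0, hw1, hw01⟩ : ∃ w0 w1 : List A, w0 ∈ pow ϑ (p + 1) c ∧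
      w1 ∈ pow ϑ (p + 1) c ∧ w0 ≠ w1 := by
    obtain ⟨u, hu, hau⟩ := hp a0 c
    obtain ⟨s, t, rfl⟩ := List.append_of_mem hau
    obtain ⟨s', hs'⟩ := imgW_nonempty hϑ s
    obtain ⟨t', ht'⟩ := imgW_nonempty hϑ t
    refine ⟨s' ++ (v0 ++ t'), s' ++ (v1 ++ t'), ⟨_, hu, (imgW_append _ _ _).2
      ⟨s', hs', _, ⟨v0, hv0, t', ht', rfl⟩, rfl⟩⟩, ⟨_, hu, (imgW_append _ _ _).2
      ⟨s', hs', _, ⟨v1, hv1, t', ht', rfl⟩, rfl⟩⟩, ?_⟩
    intro h
    exact h01 (List.append_cancel_right (List.append_cancel_left h))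
  have hother : ∀ w ∈ pow ϑ (p + 1) c, ∃ w' ∈ pow ϑ (p + 1) c, w' ≠ w := by
    intro w hw
    by_cases h : w0 = w
    · exact ⟨w1, hw1, fun e => hw01 (h.trans e.symm)⟩
    · exact ⟨w0, hw0, h⟩
  have hn : 1 ≤ p + (p + 1) := by omega
  intro hRF
  have hRF' : Group.ResiduallyFinite (autRS (powF ϑ (p + (p + 1)))) :=
    rf_congr (subshift_powF hϑ hprim hn).symm (shiftInv_subshift ϑ) (shiftInv_subshift _) hRF
  refine const_not_rf (powF ϑ (p + (p + 1))) (L ^ (p + (p + 1))) (powF_isRandomSub hϑ _)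
    (powF_length hlen _) (powF_compatible hϑ hcompat _) (powF_primitive hϑ hprim hn)
    (by rw [subshift_powF hϑ hprim hn]; exact hap) (huniq _ hn) ⟨c, ?_⟩ hRF'
  intro v hv
  obtain ⟨u, hu, hvu⟩ := (comp (m := p) (n := p + 1) (a := c) (v := v)).1 (mem_powF.1 hv)
  have hcu : c ∈ u := by
    obtain ⟨u', hu', hcu'⟩ := hp c c
    exact (pow_perm hϑ hcompat hu' hu).mem_iff.1 hcu'
  obtain ⟨s, t, rfl⟩ := List.append_of_mem hcu
  obtain ⟨vs, hvs, v2, hv2, rfl⟩ := (imgW_append _ _ _).1 hvu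
  obtain ⟨w, hw, vt, hvt, rfl⟩ := hv2
  obtain ⟨w', hw', hww⟩ := hother w (mem_powF.1 hw)
  refine ⟨vs ++ (w' ++ vt), ?_, ?_⟩
  · intro h
    exact hww (List.append_cancel_right (List.append_cancel_left h))
  · intro a
    have hl := pow_length hlen _ _ _ hu
    have hsl := imgW_length (powF_length hlen (p + 1)) s vs hvs
    rw [mem_powF, mem_powF]
    exact ⟨fun h => block_change hlen (hD (p + 1)) (mem_powF.1 hw) hw' hsl hl h,
      fun h => block_change hlen (hD (p + 1)) hw' (mem_powF.1 hw) hsl hl h⟩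

end H35.RS.Up
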