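import Pool.Agent.H35.RS.Const

/-!
# A lexicographically minimal point which is eventually periodic (abstract Morse-Hedlund lemma)
-/

set_option autoImplicit false

namespace H35.RS.Up

open H35.RS

variable {A : Type*}

/-- a lexicographically minimal point of a closed set -/
theorem lex_min [Finite A] (X : Set (ℤ → A)) (hne : X.Nonempty)
    (hcl : ∀ x : ℤ → A, (∀ n : ℕ, ∃ x' ∈ X, ∀ i : ℤ, |i| ≤ (n : ℤ) → x' i = x i) → x ∈ X)
    (e : A → ℕ) :
    ∃ x ∈ X, ∀ x' ∈ X, ∀ k : ℕ, (∀ i : ℕ, i < k → x' i = x i) → e (x k) ≤ e (x' k) := by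
  classical
  -- one step
  have step : ∀ (S : Set (ℤ → A)) (k : ℕ), S.Nonempty → ∃ a : A, (∃ x ∈ S, x k = a) ∧
      ∀ x ∈ S, e a ≤ e (x k) := by
    intro S k hS
    have hex : ∃ n : ℕ, ∃ x ∈ S, e (x k) = n := by
      obtain ⟨x, hx⟩ := hS
      exact ⟨_, x, hx, rfl⟩
    obtain ⟨x, hx, hxe⟩ := Nat.find_spec hex
    refine ⟨x k, ⟨x, hx, rfl⟩, ?_⟩
    intro x' hx'
    rw [hxe]
    exact Nat.find_min' hex ⟨x', hx', rfl⟩
  have step' : ∀ (S : Set (ℤ → A)) (k : ℕ), ∃ a : A, S.Nonempty → ((∃ x ∈ S, x k = a) ∧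
      ∀ x ∈ S, e a ≤ e (x k)) := by
    intro S k
    by_cases hS : S.Nonempty
    · obtain ⟨a, ha⟩ := step S k hS
      exact ⟨a, fun _ => ha⟩
    · obtain ⟨x, -⟩ := hne
      exact ⟨x 0, fun h => absurd h hS⟩
  choose f hf using step'
  let S : ℕ → Set (ℤ → A) := fun k => Nat.rec X (fun k T => {x | x ∈ T ∧ x k = f T k}) k
  have S0 : S 0 = X := rfl
  have Ss : ∀ k, S (k + 1) = {x | x ∈ S k ∧ x k = f (S k) k} := fun k => rfl
  have Sne : ∀ k, (S k).Nonempty := by
    intro k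
    induction k with
    | zero => exact hne
    | succ k ih =>
      obtain ⟨⟨x, hx, hxa⟩, -⟩ := hf (S k) k ih
      exact ⟨x, hx, hxa⟩
  have SX : ∀ k x, x ∈ S k → x ∈ X := by
    intro k
    induction k with
    | zero => intro x hx; exact hx
    | succ k ih => intro x hx; exact ih x hx.1
  have Sm : ∀ k x, x ∈ S k → ∀ i : ℕ, i < k → x i = f (S i) i := by
    intro k
    induction k with
    | zero => intro x _ i hi; omega
    | succ k ih =>
      intro x hx i hi
      rcases Nat.lt_succ_iff_lt_or_eq.1 hi with h | h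
      · exact ih x hx.1 i h
      · subst h; exact hx.2
  have Sin : ∀ k x, x ∈ X → (∀ i : ℕ, i < k → x i = f (S i) i) → x ∈ S k := by
    intro k
    induction k with
    | zero => intro x hx _; exact hx
    | succ k ih =>
      intro x hx h
      exact ⟨ih x hx (fun i hi => h i (by omega)), h k (by omega)⟩
  obtain ⟨y, hy⟩ := Cst.compact_seq
    (fun n y => (∃ x' ∈ X, ∀ i : ℤ, |i| ≤ (n : ℤ) → x' i = y i) ∧
      ∀ k : ℕ, k < n → y k = f (S k) k)
    (by
      rintro n y ⟨⟨x', hx', h1⟩, h2⟩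
      exact ⟨⟨x', hx', fun i hi => h1 i (by push_cast; linarith)⟩, fun k hk => h2 k (by omega)⟩)
    (by
      intro n
      obtain ⟨x, hx⟩ := Sne n
      exact ⟨x, ⟨x, SX n x hx, fun i _ => rfl⟩, Sm n x hx⟩)
    (by
      intro n
      refine ⟨n, ?_⟩
      rintro y y' hyy ⟨⟨x', hx', h1⟩, h2⟩
      refine ⟨⟨x', hx', fun i hi => (h1 i hi).trans (hyy i hi)⟩, fun k hk => ?_⟩
      rw [← hyy k (by rw [abs_of_nonneg (by positivity)]; exact_mod_cast hk.le)]
      exact h2 k hk)
  refine ⟨y, hcl y (fun n => (hy n).1), ?_⟩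
  intro x' hx' k hk
  have hyk : ∀ i : ℕ, y i = f (S i) i := fun i => (hy (i + 1)).2 i (by omega)
  have h1 : x' ∈ S k := Sin k x' hx' (fun i hi => (hk i hi).trans (hyk i))
  rw [hyk k]
  exact (hf (S k) k (Sne k)).2 x' h1

theorem wd_eq_iff {x y : ℤ → A} {i j : ℤ} {n : ℕ} :
    wd x i n = wd y j n ↔ ∀ k : ℕ, k < n → x (i + k) = y (j + k) := by
  unfold wd
  constructor
  · intro h k hk
    have := List.map_inj_left.1 h
    exact this k (List.mem_range.2 hk)
  · intro h
    exact List.map_congr_left (fun k hk => h k (List.mem_range.1 hk))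

/-- the abstract lemma -/
theorem lex_periodic [Finite A] (X : Set (ℤ → A)) (hne : X.Nonempty)
    (hcl : ∀ x : ℤ → A, (∀ n : ℕ, ∃ x' ∈ X, ∀ i : ℤ, |i| ≤ (n : ℤ) → x' i = x i) → x ∈ X)
    (δ K : ℕ) (hδ : 1 ≤ δ) (hK : Nat.card A ≤ K) (P : A → Set (List A))
    (hP : ∀ x ∈ X, ∀ s : ℕ, ∃ a : A, wd x ((s * δ : ℕ) : ℤ) (K * δ) ∈ P a ∧
      ∀ x' : ℤ → A, (∀ j : ℤ, j < ((s * δ : ℕ) : ℤ) ∨ ((s * δ + K * δ : ℕ) : ℤ) ≤ j →
        x' j = x j) → wd x' ((s * δ : ℕ) : ℤ) (K * δ) ∈ P a → x' ∈ X) :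
    ∃ x ∈ X, ∃ p : ℕ, 1 ≤ p ∧ ∃ i₀ : ℤ, ∀ i : ℤ, i₀ ≤ i → x (i + p) = x i := by
  classical
  obtain ⟨e, he⟩ : ∃ e : A → ℕ, Function.Injective e := by
    obtain ⟨n, ⟨e⟩⟩ := Finite.exists_equiv_fin A
    exact ⟨fun a => (e a : ℕ), fun a b h => e.injective (Fin.ext h)⟩
  obtain ⟨x, hx, hmin⟩ := lex_min X hne hcl e
  choose a ha1 ha2 using hP x hx
  -- the exchange argument
  have one : ∀ s s' t : ℕ, a s = a s' → t < K * δ →
      (∀ t' : ℕ, t' < t → x ((s * δ + t' : ℕ) : ℤ) = x ((s' * δ + t' : ℕ) : ℤ)) →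
      e (x ((s * δ + t : ℕ) : ℤ)) ≤ e (x ((s' * δ + t : ℕ) : ℤ)) := by
    intro s s' t hss ht hlt
    let x' : ℤ → A := fun j => if ((s * δ : ℕ) : ℤ) ≤ j ∧ j < ((s * δ + K * δ : ℕ) : ℤ) then
      x (j - ((s * δ : ℕ) : ℤ) + ((s' * δ : ℕ) : ℤ)) else x j
    have hx'b : ∀ u : ℕ, u < K * δ → x' ((s * δ + u : ℕ) : ℤ) = x ((s' * δ + u : ℕ) : ℤ) := by
      intro u hu
      have hc : ((s * δ : ℕ) : ℤ) ≤ ((s * δ + u : ℕ) : ℤ) ∧
          ((s * δ + u : ℕ) : ℤ) < ((s * δ + K * δ : ℕ) : ℤ) := by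
        constructor
        · exact_mod_cast Nat.le_add_right _ _
        · exact_mod_cast Nat.add_lt_add_left hu _
      show (if ((s * δ : ℕ) : ℤ) ≤ ((s * δ + u : ℕ) : ℤ) ∧
          ((s * δ + u : ℕ) : ℤ) < ((s * δ + K * δ : ℕ) : ℤ) then _ else _) = _
      rw [if_pos hc]
      congr 1
      push_cast
      ring
    have hx'X : x' ∈ X := by
      apply ha2 s x'
      · intro j hj
        show (if ((s * δ : ℕ) : ℤ) ≤ j ∧ j < ((s * δ + K * δ : ℕ) : ℤ) then _ else _) = _
        rw [if_neg (by rintro ⟨h1, h2⟩; rcases hj with hj | hj <;> omega)]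
      · have : wd x' ((s * δ : ℕ) : ℤ) (K * δ) = wd x ((s' * δ : ℕ) : ℤ) (K * δ) := by
          rw [wd_eq_iff]
          intro u hu
          have := hx'b u hu
          push_cast at this ⊢
          exact this
        rw [this, hss]
        exact ha1 s'
    have := hmin x' hx'X (s * δ + t) (by
      intro i hi
      by_cases hi2 : i < s * δ
      · show (if ((s * δ : ℕ) : ℤ) ≤ (i : ℤ) ∧ (i : ℤ) < ((s * δ + K * δ : ℕ) : ℤ) then _ else _) = _
        rw [if_neg (by
          rintro ⟨h1, h2⟩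
          have : s * δ ≤ i := by exact_mod_cast h1
          omega)]
      · obtain ⟨u, rfl⟩ : ∃ u, i = s * δ + u := ⟨i - s * δ, by omega⟩
        rw [hx'b u (by omega)]
        exact (hlt u (by omega)).symm)
    rw [hx'b t ht] at this
    exact this
  have blk : ∀ s s' : ℕ, a s = a s' → ∀ t : ℕ, t < K * δ →
      x ((s * δ + t : ℕ) : ℤ) = x ((s' * δ + t : ℕ) : ℤ) := by
    intro s s' hss t
    induction t using Nat.strong_induction_on with
    | _ t ih =>
      intro ht
      have h1 := one s s' t hss ht (fun t' ht' => ih t' ht' (by omega))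
      have h2 := one s' s t hss.symm ht (fun t' ht' => (ih t' ht' (by omega)).symm)
      exact he (le_antisymm h1 h2)
  -- the words of length m δ
  let f : (m : ℕ) → ℕ → (Fin (m * δ) → A) := fun m s t => x ((s * δ + t : ℕ) : ℤ)
  have feq : ∀ m s s', f m s = f m s' ↔ ∀ t : ℕ, t < m * δ →
      x ((s * δ + t : ℕ) : ℤ) = x ((s' * δ + t : ℕ) : ℤ) := by
    intro m s s'
    constructor
    · intro h t ht
      exact congrFun h ⟨t, ht⟩
    · intro h
      funext t
      exact h t t.2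
  have hfin : ∀ m, Finite (Set.range (f m)) := fun m => inferInstance
  have fres : ∀ m s s', f (m + 1) s = f (m + 1) s' → f m s = f m s' := by
    intro m s s' h
    rw [feq] at h ⊢
    intro t ht
    exact h t (lt_of_lt_of_le ht (Nat.mul_le_mul_right _ (Nat.le_succ m)))
  have fsh : ∀ m s s', f (m + 1) s = f (m + 1) s' → f m (s + 1) = f m (s' + 1) := by
    intro m s s' h
    rw [feq] at h ⊢
    intro t ht
    have h1 := h (δ + t) (by rw [Nat.succ_mul]; omega)
    have e1 : (s + 1) * δ + t = s * δ + (δ + t) := by ring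
    have e2 : (s' + 1) * δ + t = s' * δ + (δ + t) := by ring
    rw [e1, e2]
    exact h1
  -- restriction maps
  have hm : ∃ m, m < K ∧ Nat.card (Set.range (f (m + 1))) ≤ Nat.card (Set.range (f m)) := by
    by_contra hc
    push Not at hc
    have hgrow : ∀ m, m ≤ K → m + 1 ≤ Nat.card (Set.range (f m)) := by
      intro m
      induction m with
      | zero =>
        intro _
        have : Nonempty (Set.range (f 0)) := ⟨⟨f 0 0, 0, rfl⟩⟩
        exact Nat.card_pos
      | succ m ih =>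
        intro hmK
        have h1 := ih (by omega)
        have h2 := hc m (by omega)
        omega
    have h1 := hgrow K le_rfl
    have h2 : Nat.card (Set.range (f K)) ≤ Nat.card A := by
      have hex : ∀ w : Set.range (f K), ∃ s, f K s = w.1 := fun w => w.2
      choose g hg using hex
      apply Nat.card_le_card_of_injective (fun w => a (g w))
      intro w w' hw
      have : f K (g w) = f K (g w') := by
        rw [feq]
        exact blk _ _ hw
      exact Subtype.ext ((hg w).symm.trans (this.trans (hg w')))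
    omega
  obtain ⟨m, hmK, hmc⟩ := hm
  have hinj : ∀ s s', f m s = f m s' → f (m + 1) s = f (m + 1) s' := by
    let ρ : Set.range (f (m + 1)) → Set.range (f m) := fun w =>
      ⟨f m (Classical.choose w.2), _, rfl⟩
    have hρ : ∀ s, (ρ ⟨f (m + 1) s, s, rfl⟩ : Fin (m * δ) → A) = f m s := by
      intro s
      have h1 := Classical.choose_spec (⟨s, rfl⟩ : ∃ s', f (m + 1) s' = f (m + 1) s)
      exact fres m _ _ h1
    have hsurj : Function.Surjective ρ := by
      rintro ⟨w, s, rfl⟩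
      exact ⟨⟨f (m + 1) s, s, rfl⟩, Subtype.ext (hρ s)⟩
    have hbij : Function.Injective ρ := by
      have := (Function.Surjective.bijective_of_nat_card_le hsurj hmc)
      exact this.1
    intro s s' h
    have h1 : ρ ⟨f (m + 1) s, s, rfl⟩ = ρ ⟨f (m + 1) s', s', rfl⟩ := by
      apply Subtype.ext
      rw [hρ, hρ]
      exact h
    exact congrArg Subtype.val (hbij h1)
  obtain ⟨s, s', hss, hsf⟩ : ∃ s s' : ℕ, s < s' ∧ f m s = f m s' := by
    have : ¬ Function.Injective (f m) := not_injective_infinite_finite (f m)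
    unfold Function.Injective at this
    push Not at this
    obtain ⟨s, s', h1, h2⟩ := this
    rcases lt_or_gt_of_ne h2 with h | h
    · exact ⟨s, s', h, h1⟩
    · exact ⟨s', s, h, h1.symm⟩
  have hall : ∀ t, f m (s + t) = f m (s' + t) := by
    intro t
    induction t with
    | zero => exact hsf
    | succ t ih => exact fsh m _ _ (hinj _ _ ih)
  refine ⟨x, hx, (s' - s) * δ, ?_, ((s * δ : ℕ) : ℤ), ?_⟩
  · exact Nat.mul_pos (by omega) hδ
  · intro i hi
    obtain ⟨n, rfl⟩ : ∃ n : ℕ, i = ((s * δ + n : ℕ) : ℤ) := by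
      refine ⟨(i - ((s * δ : ℕ) : ℤ)).toNat, ?_⟩
      push_cast
      rw [Int.toNat_of_nonneg (by push_cast at hi; linarith)]
      ring
    have h1 := (feq _ _ _).1 (hinj _ _ (hall (n / δ))) (n % δ) (by
      have h0 : n % δ < δ := Nat.mod_lt n hδ
      rw [Nat.succ_mul]
      omega)
    have hn : n = (n / δ) * δ + n % δ := (Nat.div_add_mod' n δ).symm
    have e1 : ((s * δ + n : ℕ) : ℤ) + (((s' - s) * δ : ℕ) : ℤ) =
        (((s' + n / δ) * δ + n % δ : ℕ) : ℤ) := by
      have : s * δ + n + (s' - s) * δ = (s' + n / δ) * δ + n % δ := by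
        obtain ⟨d, rfl⟩ : ∃ d, s' = s + d := ⟨s' - s, by omega⟩
        rw [Nat.add_sub_cancel_left]
        conv_lhs => rw [hn]
        ring
      exact_mod_cast this
    have e2 : ((s * δ + n : ℕ) : ℤ) = (((s + n / δ) * δ + n % δ : ℕ) : ℤ) := by
      have : s * δ + n = (s + n / δ) * δ + n % δ := by
        conv_lhs => rw [hn]
        ring
      exact_mod_cast this
    rw [e1, e2]
    exact h1.symm

end H35.RS.Up
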