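import Pool.Agent.H35.RS.Small
import Pool.Agent.H35.RS.Lex

/-! # Some point has exactly one phase -/

namespace H35.RS.Up

open H35.RS

variable {A : Type*}

/-- a sequence which is periodic from some place on gives a periodic point -/
theorem exists_periodic {ϑ : A → Finset (List A)} {x : ℤ → A} (hx : x ∈ subshift ϑ) {p : ℕ}
    (hp : 1 ≤ p) {i₀ : ℤ} (h : ∀ i : ℤ, i₀ ≤ i → x (i + p) = x i) :
    ∃ z ∈ subshift ϑ, sh (p : ℤ) z = z := by
  have hp0 : (0 : ℤ) < p := by exact_mod_cast hp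
  have h1 : ∀ (q : ℕ) (i : ℤ), i₀ ≤ i → x (i + q * p) = x i := by
    intro q
    induction q with
    | zero => intro i _; simp
    | succ q ih =>
      intro i hi
      have e : i + ((q + 1 : ℕ) : ℤ) * p = (i + q * p) + p := by push_cast; ring
      rw [e, h _ (by nlinarith), ih i hi]
  have h2 : ∀ j : ℤ, 0 ≤ j → x (i₀ + j % p) = x (i₀ + j) := by
    intro j hj
    have e := Int.emod_add_mul_ediv j (p : ℤ)
    have hq : 0 ≤ j / (p : ℤ) := Int.ediv_nonneg hj hp0.le
    obtain ⟨q, hq'⟩ := Int.eq_ofNat_of_zero_le hq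
    have hm : 0 ≤ j % (p : ℤ) := Int.emod_nonneg _ hp0.ne'
    rw [hq'] at e
    rw [← h1 q (i₀ + j % p) (by linarith)]
    congr 1
    linarith
  refine ⟨fun i => x (i₀ + i % p), ?_, ?_⟩
  · intro i m
    set q : ℤ := |i| with hq
    have hqi : 0 ≤ i + q * p := by
      have : -|i| ≤ i := neg_abs_le i
      have h3 : |i| ≤ |i| * p := by nlinarith [abs_nonneg i]
      linarith
    have : wd (fun i => x (i₀ + i % p)) i m = wd x (i₀ + i + q * p) m := by
      apply Cst.wd_congr'
      intro k hk hkm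
      have e1 : (i + k) % (p : ℤ) = (i + k + q * p) % p := by
        rw [Int.add_mul_emod_self_right]
      rw [e1, h2 _ (by linarith)]
      congr 1
      ring
    rw [this]
    exact hx _ _
  · funext i
    simp only [sh_apply, Int.add_emod_right]

theorem exists_unique_phase [Finite A] {ϑ : A → Finset (List A)} (hϑ : IsRandomSub ϑ)
    (hp : Primitive ϑ) {L : ℕ} (hlen : ∀ a, ∀ v ∈ ϑ a, v.length = L)
    (hne : (subshift ϑ).Nonempty) (hap : Aperiodic (subshift ϑ)) :
    ∃ x ∈ subshift ϑ, ∃! k : ℕ, ∃ y, Desub ϑ x y k := by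
  classical
  by_contra hcon
  push Not at hcon
  have hL : 1 ≤ L := by
    obtain ⟨x, _⟩ := hne
    obtain ⟨v, hv⟩ := (hϑ (x 0)).1
    rw [← hlen _ _ hv]
    exact List.length_pos_iff.2 ((hϑ (x 0)).2 v hv)
  have hL0 : (0 : ℤ) < L := by exact_mod_cast hL
  -- two phases
  have h2 : ∀ x ∈ subshift ϑ, 2 ≤ (ph ϑ L x).card := by
    intro x hx
    have hval : ∀ k : ℕ, (∃ y, Desub ϑ x y k) ↔ (k < L ∧ Cst.Valid ϑ L x (-(k : ℤ))) :=
      fun k => Cst.desub_iff hϑ hlen x k
    obtain ⟨c, hc⟩ := Cst.exists_valid hϑ hlen hx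
    have hex : ∃ k : ℕ, ∃ y, Desub ϑ x y k := by
      have h0 : 0 ≤ (-c) % (L : ℤ) := Int.emod_nonneg _ hL0.ne'
      have h1 : (-c) % (L : ℤ) < L := Int.emod_lt_of_pos _ hL0
      refine ⟨((-c) % (L : ℤ)).toNat, (hval _).2 ⟨by omega, ?_⟩⟩
      rw [Int.toNat_of_nonneg h0]
      have e := Int.emod_add_mul_ediv (-c) (L : ℤ)
      have h3 := Cst.valid_add hc ((-c) / L)
      rwa [show c + -c / (L : ℤ) * L = -(-c % (L : ℤ)) by linarith] at h3
    obtain ⟨k₀, hk₀⟩ := hex
    have hk₁ : ∃ k₁ : ℕ, (∃ y, Desub ϑ x y k₁) ∧ k₁ ≠ k₀ := by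
      by_contra hno
      push Not at hno
      exact hcon x hx ⟨k₀, hk₀, fun k hk => hno k hk⟩
    obtain ⟨k₁, hk₁, hne1⟩ := hk₁
    rw [hval] at hk₀ hk₁
    have hmem : ∀ k : ℕ, k < L → Cst.Valid ϑ L x (-(k : ℤ)) → (-(k : ℤ)) % L ∈ ph ϑ L x := by
      intro k _ hk
      exact Uv.mem_ph.2 ⟨⟨Int.emod_nonneg _ hL0.ne', Int.emod_lt_of_pos _ hL0⟩,
        Uv.valid_mod.2 hk⟩
    refine Finset.one_lt_card.2 ⟨_, hmem k₀ hk₀.1 hk₀.2, _, hmem k₁ hk₁.1 hk₁.2, ?_⟩
    intro he
    apply hne1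
    have h3 : ((k₁ : ℤ) - k₀) % L = 0 := by
      have := Int.emod_emod_of_dvd
      have h4 : (-(k₀ : ℤ) - -(k₁ : ℤ)) % L = 0 := Int.emod_eq_emod_iff_emod_sub_eq_zero.1 he
      rwa [show -(k₀ : ℤ) - -(k₁ : ℤ) = (k₁ : ℤ) - k₀ by ring] at h4
    have h5 : (L : ℤ) ∣ (k₁ : ℤ) - k₀ := Int.dvd_of_emod_eq_zero h3
    have h6 : ((k₁ : ℤ) - k₀) = 0 := by
      refine Int.eq_zero_of_abs_lt_dvd h5 ?_
      rw [abs_lt]
      have := hk₀.1
      have := hk₁.1
      constructor <;> omega
    omega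
  -- the small shift
  set n : ℕ := Nat.card A + 1 with hn
  have hn1 : 1 ≤ n := by omega
  obtain ⟨δ, K, hδ, hK, hΛ, hsh⟩ := exists_small_shift hϑ hp hL hlen hne h2 hn1
  have hψ := powF_isRandomSub hϑ n
  have hψl := powF_length hlen n
  have hψs := subshift_powF hϑ hp hn1
  have hcard : Nat.card A ≤ K := by
    have : n < 2 ^ n := Nat.lt_two_pow_self
    omega
  have hΛ' : ((L ^ n : ℕ) : ℤ) = K * δ := by
    rw [hΛ]
    push_cast
    rfl
  have hΛ1 : 1 ≤ L ^ n := Nat.one_le_pow _ _ hL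
  have hΛ0 : (0 : ℤ) < ((L ^ n : ℕ) : ℤ) := by exact_mod_cast hΛ1
  obtain ⟨x, hx, p, hp1, i₀, hper⟩ := lex_periodic
    {x | x ∈ subshift ϑ ∧ Cst.Valid (powF ϑ n) (L ^ n) x 0}
    (by
      obtain ⟨x, hx⟩ := hne
      obtain ⟨c, hc⟩ := Cst.exists_valid hψ hψl (x := x) (by rw [hψs]; exact hx)
      refine ⟨sh c x, Cst.sh_mem hx c, ?_⟩
      rw [Cst.valid_sh, zero_add]
      exact hc)
    (by
      intro x h
      refine ⟨mem_subshift_of_local (fun n => ?_), Cst.valid_closed (fun m => ?_)⟩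
      · obtain ⟨x', hx', h'⟩ := h n
        exact ⟨x', hx'.1, h'⟩
      · obtain ⟨x', hx', h'⟩ := h m
        refine ⟨x', fun i hi1 hi2 => h' i ?_, hx'.2⟩
        rw [abs_le]
        constructor <;> omega)
    δ K hδ hcard (fun a => {v | v ∈ powF ϑ n a})
    (by
      rintro x ⟨hx, hx0⟩ s
      have hv := hsh x hx 0 hx0 s
      rw [zero_add] at hv
      obtain ⟨y, hy, hi⟩ := hv
      refine ⟨y 0, ?_, ?_⟩
      · have := hi 0
        rw [zero_mul, add_zero, hΛ] at this
        push_cast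
        exact this
      · intro x' hx' hblock
        have hv' : Cst.Valid (powF ϑ n) (L ^ n) x' (s * δ) := by
          refine ⟨y, hy, fun i => ?_⟩
          rcases lt_trichotomy i 0 with hi0 | hi0 | hi0
          · have e : wd x' ((s : ℤ) * δ + i * ((L ^ n : ℕ) : ℤ)) (L ^ n) =
                wd x ((s : ℤ) * δ + i * ((L ^ n : ℕ) : ℤ)) (L ^ n) := by
              apply Cst.wd_congr'
              intro k hk hk'
              apply hx'
              left
              push_cast at hk' ⊢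
              push_cast at hΛ0
              nlinarith
            rw [e]
            exact hi i
          · subst hi0
            rw [zero_mul, add_zero, hΛ]
            have := hblock
            push_cast at this
            exact this
          · have e : wd x' ((s : ℤ) * δ + i * ((L ^ n : ℕ) : ℤ)) (L ^ n) =
                wd x ((s : ℤ) * δ + i * ((L ^ n : ℕ) : ℤ)) (L ^ n) := by
              apply Cst.wd_congr'
              intro k hk hk'
              apply hx'
              right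
              have : ((s * δ + K * δ : ℕ) : ℤ) = (s : ℤ) * δ + ((L ^ n : ℕ) : ℤ) := by
                rw [hΛ']
                push_cast
                ring
              rw [this]
              nlinarith
            rw [e]
            exact hi i
        have hmem : x' ∈ subshift ϑ := by
          rw [← hψs]
          exact Cst.mem_of_tp hψ hv' (fun i => rfl)
        refine ⟨hmem, ?_⟩
        have := hsh x' hmem _ hv' (-(s : ℤ))
        rwa [show (s : ℤ) * δ + -(s : ℤ) * δ = 0 by ring] at this)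
  obtain ⟨z, hz, hzp⟩ := exists_periodic hx.1 hp1 hper
  exact hap z hz p hp1 hzp

end H35.RS.Up
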