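import Pool.Agent.H35.RS.DetermCore
import Pool.Agent.H35.RS.Unique

/-!
# Aperiodic primitive deterministic substitutions of constant length are recognisable
-/

set_option autoImplicit false

namespace H35.RS.Up

open H35.RS

variable {A : Type*}

theorem recognisable_of_deterministic [Finite A] {ϑ : A → Finset (List A)} (hϑ : IsRandomSub ϑ)
    (hp : Primitive ϑ) {L : ℕ} (hlen : ∀ a, ∀ v ∈ ϑ a, v.length = L)
    (hap : Aperiodic (subshift ϑ)) (hdet : ∀ a, ∀ v ∈ ϑ a, ∀ v' ∈ ϑ a, v = v') :
    Recognisable ϑ := by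
  refine Det.recognisable_core hϑ hp hlen hdet ?_
  intro hne n hn
  have hX : subshift (powF ϑ n) = subshift ϑ := subshift_powF hϑ hp hn
  refine exists_unique_phase (powF_isRandomSub hϑ n) (powF_primitive hϑ hp hn)
    (powF_length hlen n) ?_ ?_
  · rw [hX]
    exact hne
  · rw [hX]
    exact hap

end H35.RS.Up
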