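import Pool.Agent.H35.RS.ConstFin0
import Pool.Agent.H35.RS.Determ

/-!
# The constant length theorem
-/

set_option autoImplicit false

namespace H35.RS.Up

open H35.RS

/-- The constant length theorem. -/
theorem const_length_not_rf {A : Type} [Finite A] [TopologicalSpace A] [DiscreteTopology A]
    (ϑ : A → Finset (List A)) (L : ℕ) (hϑ : IsRandomSub ϑ) (hlen : ∀ a, ∀ v ∈ ϑ a, v.length = L)
    (hcompat : Compatible ϑ) (hprim : Primitive ϑ) (hnr : ¬ Recognisable ϑ)
    (hap : Aperiodic (subshift ϑ))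
    (hcase : Nat.card A = 2 ∨
      ∃ c : A, ∀ n : ℕ, ∀ b : A, b ≠ c → Disjoint (pow ϑ n c) (pow ϑ n b)) :
    ¬ Group.ResiduallyFinite (autRS ϑ) := by
  have hne : (subshift ϑ).Nonempty := by
    by_contra h
    exact hnr (fun x hx => absurd ⟨x, hx⟩ h)
  have hnd : ∃ a, ∃ v ∈ ϑ a, ∃ v' ∈ ϑ a, v ≠ v' := by
    by_contra h
    push_neg at h
    exact hnr (recognisable_of_deterministic hϑ hprim hlen hap h)
  refine const_length_not_rf_of ϑ L hϑ hlen hcompat hprim hne hap hcase hnd ?_
  intro n hn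
  have hX : subshift (powF ϑ n) = subshift ϑ := subshift_powF hϑ hprim hn
  exact exists_unique_phase (powF_isRandomSub hϑ n) (powF_primitive hϑ hprim hn)
    (powF_length hlen n) (by rw [hX]; exact hne) (by rw [hX]; exact hap)

end H35.RS.Up
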