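import Pool.Agent.H35.RS.ConstFin0

/-!
# Twins: words of the same type

If no word belongs to the images (of some level) of three different letters, then at a high level
every word has a twin, i.e. another word belonging to the images of the same letters.
-/

set_option autoImplicit false

namespace H35.RS.Up

open H35.RS

variable {A : Type*}

/-- `v` has a twin of level `n`: another word in the level `n` images of the same letters. -/
def HasTwin (ϑ : A → Finset (List A)) (n : ℕ) (v : List A) : Prop :=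
  ∃ v' : List A, v' ≠ v ∧ ∀ a, v ∈ pow ϑ n a ↔ v' ∈ pow ϑ n a

/-- replacing a block by another one -/
theorem block_change' {ϑ : A → Finset (List A)} {L : ℕ} (hlen : ∀ a, ∀ v ∈ ϑ a, v.length = L)
    {q : ℕ} {w w' : List A} (hwl : w.length = L ^ q)
    (hww : ∀ c, w ∈ pow ϑ q c → w' ∈ pow ϑ q c) {m : ℕ} {a c : A}
    {s t vs vt : List A} (hvs : vs.length = s.length * L ^ q) (hl : (s ++ c :: t).length = L ^ m)
    (hv : vs ++ (w ++ vt) ∈ pow ϑ (m + q) a) : vs ++ (w' ++ vt) ∈ pow ϑ (m + q) a := by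
  rw [comp] at hv ⊢
  obtain ⟨u, hu, hv⟩ := hv
  have hul := pow_length hlen _ _ _ hu
  have hsl : s.length < u.length := by
    rw [hul, ← hl, List.length_append, List.length_cons]
    omega
  obtain ⟨s', c', t', rfl, hs'⟩ : ∃ s' c' t', u = s' ++ c' :: t' ∧ s'.length = s.length := by
    refine ⟨u.take s.length, u[s.length], u.drop (s.length + 1), ?_, ?_⟩
    · rw [← List.drop_eq_getElem_cons hsl, List.take_append_drop]
    · rw [List.length_take]; omega
  refine ⟨s' ++ c' :: t', hu, ?_⟩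
  rw [imgW_append] at hv ⊢
  obtain ⟨v1, hv1, v2, hv2, he⟩ := hv
  obtain ⟨x, hx, y, hy, rfl⟩ := hv2
  have l1 : v1.length = vs.length := by
    rw [imgW_length (powF_length hlen q) s' v1 hv1, hs', hvs]
  obtain ⟨e1, e2⟩ := List.append_inj he l1.symm
  have l2 : x.length = w.length := by
    rw [powF_length hlen q _ x hx, hwl]
  obtain ⟨e3, e4⟩ := List.append_inj e2 l2.symm
  subst e1 e3 e4
  exact ⟨vs, hv1, w' ++ vt, ⟨w', mem_powF.2 (hww c' (mem_powF.1 hx)), vt, hy, rfl⟩, rfl⟩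

/-- If all blocks determine their letters then the word is determined. -/
theorem imgW_unique {ϑ : A → Finset (List A)} {L : ℕ} (hlen : ∀ a, ∀ v ∈ ϑ a, v.length = L)
    {u u' v : List A} (hul : u'.length = u.length) (hv : v ∈ imgW ϑ u) (hv' : v ∈ imgW ϑ u')
    (hdet : ∀ s c t vs w vt, u = s ++ c :: t → vs ∈ imgW ϑ s → w ∈ ϑ c → vt ∈ imgW ϑ t →
      v = vs ++ (w ++ vt) → ∀ c', w ∈ ϑ c' → c' = c) : u' = u := by
  induction u generalizing u' v with
  | nil => exact List.length_eq_zero_iff.1 hul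
  | cons c u ih =>
    cases u' with
    | nil => simp at hul
    | cons c' u' =>
      obtain ⟨w, hw, vt, hvt, rfl⟩ := hv
      obtain ⟨w', hw', vt', hvt', he⟩ := hv'
      have hl : w.length = w'.length := by rw [hlen c w hw, hlen c' w' hw']
      obtain ⟨e1, e2⟩ := List.append_inj he hl
      subst e1 e2
      have hc : c' = c := hdet [] c u [] w vt rfl rfl hw hvt rfl c' hw'
      subst hc
      congr 1
      refine ih (by simpa using hul) hvt hvt' ?_
      intro s d t vs w1 vt1 h1 h2 h3 h4 h5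
      subst h1
      refine hdet (c' :: s) d t (w ++ vs) w1 vt1 rfl ⟨w, hw, vs, h2, rfl⟩ h3 h4 ?_
      rw [h5, List.append_assoc]

/-- Two different images of a non-empty word. -/
theorem imgW_other {ϑ : A → Finset (List A)} (hϑ : IsRandomSub ϑ)
    (h2 : ∀ c, ∃ z ∈ ϑ c, ∃ z' ∈ ϑ c, z ≠ z') {u : List A} (hu : u ≠ []) (v : List A) :
    ∃ z ∈ imgW ϑ u, z ≠ v := by
  cases u with
  | nil => exact absurd rfl hu
  | cons c u =>
    obtain ⟨z, hz, z', hz', hne⟩ := h2 c
    obtain ⟨t, ht⟩ := imgW_nonempty hϑ u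
    by_cases h : z ++ t = v
    · refine ⟨z' ++ t, ⟨z', hz', t, ht, rfl⟩, ?_⟩
      intro h'
      exact hne (List.append_cancel_right (h.trans h'.symm))
    · exact ⟨z ++ t, ⟨z, hz, t, ht, rfl⟩, h⟩

/-- The letter of a twinless word is determined. -/
theorem twinless_type {ϑ : A → Finset (List A)} (hϑ : IsRandomSub ϑ)
    (hT : ∀ n v a b c, v ∈ pow ϑ n a → v ∈ pow ϑ n b → v ∈ pow ϑ n c → a = b ∨ a = c ∨ b = c)
    {k : ℕ} (hk : ∀ x x' m w, w ∈ pow ϑ m x → w ∈ pow ϑ m x' →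
      ∃ w', w' ∈ pow ϑ k x ∧ w' ∈ pow ϑ k x')
    {q : ℕ} (h2 : ∀ c, ∃ z ∈ powF ϑ q c, ∃ z' ∈ powF ϑ q c, z ≠ z')
    {v : List A} (hv : ¬ HasTwin ϑ (k + q) v) {b b' : A} (hb : v ∈ pow ϑ (k + q) b)
    (hb' : v ∈ pow ϑ (k + q) b') : b' = b := by
  by_contra hne
  obtain ⟨w, hw, hw'⟩ := hk b b' _ v hb hb'
  obtain ⟨z, hz, hzv⟩ := imgW_other (powF_isRandomSub hϑ q) h2 (pow_ne_nil hϑ k b w hw) v
  have hzb : z ∈ pow ϑ (k + q) b := comp.2 ⟨w, hw, hz⟩
  have hzb' : z ∈ pow ϑ (k + q) b' := comp.2 ⟨w, hw', hz⟩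
  refine hv ⟨z, hzv, fun a => ⟨fun ha => ?_, fun ha => ?_⟩⟩
  · rcases hT _ _ _ _ _ ha hb hb' with h | h | h
    · rw [h]; exact hzb
    · rw [h]; exact hzb'
    · exact absurd h.symm hne
  · rcases hT _ _ _ _ _ ha hzb hzb' with h | h | h
    · rw [h]; exact hb
    · rw [h]; exact hb'
    · exact absurd h.symm hne

/-- At a high level every word has a twin. -/
theorem twins_core {ϑ : A → Finset (List A)} {L : ℕ} (hϑ : IsRandomSub ϑ)
    (hlen : ∀ a, ∀ v ∈ ϑ a, v.length = L) (hc : Compatible ϑ)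
    (hT : ∀ n v a b c, v ∈ pow ϑ n a → v ∈ pow ϑ n b → v ∈ pow ϑ n c → a = b ∨ a = c ∨ b = c)
    {k : ℕ} (hk : ∀ x x' m w, w ∈ pow ϑ m x → w ∈ pow ϑ m x' →
      ∃ w', w' ∈ pow ϑ k x ∧ w' ∈ pow ϑ k x')
    {q : ℕ} (h2 : ∀ c, ∃ z ∈ powF ϑ q c, ∃ z' ∈ powF ϑ q c, z ≠ z')
    {b : A} {v : List A} (hb : v ∈ pow ϑ (k + (k + q)) b) : HasTwin ϑ (k + (k + q)) v := by
  by_contra hv
  set M := k + q with hM
  -- two words at level M
  have h2M : ∀ c, ∃ z ∈ powF ϑ M c, ∃ z' ∈ powF ϑ M c, z ≠ z' := by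
    intro c
    obtain ⟨w, hw⟩ := pow_nonempty hϑ k c
    have hw0 := pow_ne_nil hϑ k c w hw
    obtain ⟨z, hz, -⟩ := imgW_other (powF_isRandomSub hϑ q) h2 hw0 []
    obtain ⟨z', hz', hne⟩ := imgW_other (powF_isRandomSub hϑ q) h2 hw0 z
    exact ⟨z, mem_powF.2 (comp.2 ⟨w, hw, hz⟩), z', mem_powF.2 (comp.2 ⟨w, hw, hz'⟩), hne.symm⟩
  obtain ⟨u, hu, hvu⟩ := comp.1 hb
  have hul := pow_length hlen _ _ _ hu
  -- blocks are twinless
  have hblock : ∀ s c t vs w vt, u = s ++ c :: t → vs ∈ imgW (powF ϑ M) s → w ∈ powF ϑ M c →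
      vt ∈ imgW (powF ϑ M) t → v = vs ++ (w ++ vt) → ¬ HasTwin ϑ M w := by
    rintro s c t vs w vt rfl hvs hw hvt rfl ⟨w', hne, hww⟩
    refine hv ⟨vs ++ (w' ++ vt), ?_, ?_⟩
    · intro h
      exact hne (List.append_cancel_right (List.append_cancel_left h))
    · intro a
      have hsl := imgW_length (powF_length hlen M) s vs hvs
      have hwl := powF_length hlen M c w hw
      have hwl' := powF_length hlen M c w' (mem_powF.2 ((hww c).1 (mem_powF.1 hw)))
      exact ⟨fun h => block_change' hlen hwl (fun c' => (hww c').1) hsl hul h,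
        fun h => block_change' hlen hwl' (fun c' => (hww c').2) hsl hul h⟩
  have hdet : ∀ s c t vs w vt, u = s ++ c :: t → vs ∈ imgW (powF ϑ M) s → w ∈ powF ϑ M c →
      vt ∈ imgW (powF ϑ M) t → v = vs ++ (w ++ vt) → ∀ c', w ∈ powF ϑ M c' → c' = c := by
    intro s c t vs w vt h1 h2' h3 h4 h5 c' h6
    exact twinless_type hϑ hT hk h2 (hblock s c t vs w vt h1 h2' h3 h4 h5) (mem_powF.1 h3)
      (mem_powF.1 h6)
  -- the first block
  cases hu' : u with
  | nil => exact pow_ne_nil hϑ k b u hu hu'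
  | cons c t =>
    subst hu'
    obtain ⟨w, hw, vt, hvt, rfl⟩ := hvu
    obtain ⟨z, hz, hzw⟩ : ∃ z ∈ powF ϑ M c, z ≠ w := by
      obtain ⟨z, hz, z', hz', hne⟩ := h2M c
      by_cases h : z = w
      · exact ⟨z', hz', fun h' => hne (h.trans h'.symm)⟩
      · exact ⟨z, hz, h⟩
    have hzb : z ++ vt ∈ pow ϑ (k + M) b := comp.2 ⟨_, hu, ⟨z, hz, vt, hvt, rfl⟩⟩
    -- another letter
    obtain ⟨b', hb', hnb'⟩ : ∃ b', z ++ vt ∈ pow ϑ (k + M) b' ∧ w ++ vt ∉ pow ϑ (k + M) b' := by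
      by_contra hcon
      push Not at hcon
      refine hv ⟨z ++ vt, ?_, fun a => ⟨fun ha => ?_, fun ha => hcon a ha⟩⟩
      · intro h
        exact hzw (List.append_cancel_right h)
      · rw [twinless_type hϑ hT hk h2M hv hb ha]
        exact hzb
    obtain ⟨u', hu', hv'⟩ := comp.1 hb'
    cases hu'' : u' with
    | nil => exact pow_ne_nil hϑ k b' u' hu' hu''
    | cons c' t' =>
      subst hu''
      obtain ⟨z', hz', vt', hvt', he⟩ := hv'
      have hl : z.length = z'.length := by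
        rw [powF_length hlen M _ z hz, powF_length hlen M _ z' hz']
      obtain ⟨e1, e2⟩ := List.append_inj he hl
      subst e1 e2
      have htl : t'.length = t.length := by
        have h1 := pow_length hlen _ _ _ hu
        have h3 := pow_length hlen _ _ _ hu'
        simp only [List.length_cons] at h1 h3
        omega
      have ht : t' = t := by
        refine imgW_unique (powF_length hlen M) htl hvt hvt' ?_
        intro s d t1 vs w1 vt1 h1 h3 h4 h5 h6
        subst h1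
        refine hdet (c :: s) d t1 (w ++ vs) w1 vt1 rfl ⟨w, hw, vs, h3, rfl⟩ h4 h5 ?_
        rw [h6, List.append_assoc]
      subst ht
      -- the two letters are equal by compatibility
      obtain ⟨y, hy, hy'⟩ := hk b b' _ _ hzb hb'
      have hperm : (c :: t').Perm (c' :: t') :=
        (pow_perm hϑ hc hu hy).trans (pow_perm hϑ hc hy' hu')
      have hcc : c = c' := by
        classical
        have h := hperm.count_eq c
        rw [List.count_cons_self, List.count_cons] at h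
        by_contra hne
        have : (c' == c) = false := by simpa using fun h' : c' = c => hne h'.symm
        rw [this] at h
        simp at h
      subst hcc
      exact hnb' (comp.2 ⟨_, hu', ⟨w, hw, vt, hvt, rfl⟩⟩)

/-- A level at which all pairs of letters which ever share a word share a word. -/
theorem exists_share_level [Finite A] {ϑ : A → Finset (List A)} (hϑ : IsRandomSub ϑ) :
    ∃ k : ℕ, ∀ x x' m w, w ∈ pow ϑ m x → w ∈ pow ϑ m x' →
      ∃ w', w' ∈ pow ϑ k x ∧ w' ∈ pow ϑ k x' := by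
  classical
  have mono : ∀ (x x' : A) (m j : ℕ) (w : List A), w ∈ pow ϑ m x → w ∈ pow ϑ m x' →
      ∃ w', w' ∈ pow ϑ (m + j) x ∧ w' ∈ pow ϑ (m + j) x' := by
    intro x x' m j w h h'
    obtain ⟨w', hw'⟩ := imgW_nonempty (powF_isRandomSub hϑ j) w
    exact ⟨w', comp.2 ⟨w, h, hw'⟩, comp.2 ⟨w, h', hw'⟩⟩
  let f : A × A → ℕ := fun p =>
    if h : ∃ m, ∃ w, w ∈ pow ϑ m p.1 ∧ w ∈ pow ϑ m p.2 then h.choose else 0
  obtain ⟨k, hk⟩ := (Set.finite_range f).bddAbove
  refine ⟨k, fun x x' m w h h' => ?_⟩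
  have hex : ∃ m, ∃ w, w ∈ pow ϑ m (x, x').1 ∧ w ∈ pow ϑ m (x, x').2 := ⟨m, w, h, h'⟩
  have hf : f (x, x') = hex.choose := dif_pos hex
  have hle : hex.choose ≤ k := by
    rw [← hf]
    exact hk ⟨(x, x'), rfl⟩
  obtain ⟨w0, h1, h2⟩ := hex.choose_spec
  obtain ⟨w', h3, h4⟩ := mono x x' _ (k - hex.choose) w0 h1 h2
  rw [Nat.add_sub_cancel' hle] at h3 h4
  exact ⟨w', h3, h4⟩

/-- Two words at some level for all letters. -/
theorem exists_two_words {ϑ : A → Finset (List A)} (hϑ : IsRandomSub ϑ) (hprim : Primitive ϑ)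
    (hnd : ∃ a, ∃ v ∈ ϑ a, ∃ v' ∈ ϑ a, v ≠ v') :
    ∃ q, 1 ≤ q ∧ ∀ c, ∃ z ∈ powF ϑ q c, ∃ z' ∈ powF ϑ q c, z ≠ z' := by
  obtain ⟨a0, v0, hv0, v1, hv1, h01⟩ := hnd
  obtain ⟨p, hp1, hp⟩ := hprim
  refine ⟨p + 1, by omega, fun c => ?_⟩
  obtain ⟨u, hu, hau⟩ := hp a0 c
  obtain ⟨s, t, rfl⟩ := List.append_of_mem hau
  obtain ⟨s', hs'⟩ := imgW_nonempty hϑ s
  obtain ⟨t', ht'⟩ := imgW_nonempty hϑ t
  refine ⟨s' ++ (v0 ++ t'), mem_powF.2 ⟨_, hu, (imgW_append _ _ _).2
    ⟨s', hs', _, ⟨v0, hv0, t', ht', rfl⟩, rfl⟩⟩, s' ++ (v1 ++ t'),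
    mem_powF.2 ⟨_, hu, (imgW_append _ _ _).2
    ⟨s', hs', _, ⟨v1, hv1, t', ht', rfl⟩, rfl⟩⟩, ?_⟩
  intro h
  exact h01 (List.append_cancel_right (List.append_cancel_left h))

/-- If no word is shared by three letters: at a high level every word has a twin. -/
theorem twins_of_pairs [Finite A] {ϑ : A → Finset (List A)} (hϑ : IsRandomSub ϑ)
    (hp : Primitive ϑ) {L : ℕ} (hlen : ∀ a, ∀ v ∈ ϑ a, v.length = L) (hc : Compatible ϑ)
    (hnd : ∃ a, ∃ v ∈ ϑ a, ∃ v' ∈ ϑ a, v ≠ v')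
    (hT : ∀ n v a b c, v ∈ pow ϑ n a → v ∈ pow ϑ n b → v ∈ pow ϑ n c →
      a = b ∨ a = c ∨ b = c) :
    ∃ n, 1 ≤ n ∧ ∀ b, ∀ v ∈ pow ϑ n b, HasTwin ϑ n v := by
  obtain ⟨k, hk⟩ := exists_share_level hϑ
  obtain ⟨q, hq, h2⟩ := exists_two_words hϑ hp hnd
  exact ⟨k + (k + q), by omega, fun b v hv => twins_core hϑ hlen hc hT hk h2 hv⟩

/-- At most three letters: no word is shared by three letters. -/
theorem pairs_of_three [Finite A] {ϑ : A → Finset (List A)} (hϑ : IsRandomSub ϑ)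
    (hp : Primitive ϑ) {L : ℕ} (hlen : ∀ a, ∀ v ∈ ϑ a, v.length = L)
    (hne : (subshift ϑ).Nonempty) (hap : Aperiodic (subshift ϑ)) (h3 : Nat.card A ≤ 3) :
    ∀ n v a b c, v ∈ pow ϑ n a → v ∈ pow ϑ n b → v ∈ pow ϑ n c →
      a = b ∨ a = c ∨ b = c := by
  intro n v a b c ha hb hc'
  by_contra hcon
  push Not at hcon
  obtain ⟨hab, hac, hbc⟩ := hcon
  rcases Nat.eq_zero_or_pos n with rfl | hn
  · have h1 : v = [a] := ha
    have h2 : v = [b] := hb
    rw [h1] at h2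
    exact hab (List.cons.inj h2).1
  · refine no_common hϑ hp hlen hne hap hn (v := v) ?_
    intro d
    have hcov : d = a ∨ d = b ∨ d = c := by
      classical
      have : Fintype A := Fintype.ofFinite A
      by_contra hcon
      push Not at hcon
      obtain ⟨h1, h2, h4⟩ := hcon
      have h5 : ({a, b, c} : Finset A).card = 3 :=
        Finset.card_eq_three.2 ⟨a, b, c, hab, hac, hbc, rfl⟩
      have h6 : (insert d ({a, b, c} : Finset A)).card = 4 := by
        rw [Finset.card_insert_of_notMem, h5]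
        simp [h1, h2, h4]
      have h7 : (insert d ({a, b, c} : Finset A)).card ≤ Fintype.card A :=
        Finset.card_le_univ _
      rw [h6, ← Nat.card_eq_fintype_card] at h7
      omega
    rcases hcov with rfl | rfl | rfl
    · exact ha
    · exact hb
    · exact hc'

end H35.RS.Up
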