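import Pool.Agent.H35.RS.ConstFinal
import Pool.Agent.H35.RS.Three

/-!
# The constant length theorem, final form
-/

set_option autoImplicit false

namespace H35.RS.Up

open H35.RS

/-- The constant length theorem for at most three letters, for images of which no three share a
word, and for a letter all of whose images of some level have twins. -/
theorem const_length_not_rf3 {A : Type} [Finite A] [TopologicalSpace A] [DiscreteTopology A]
    (ϑ : A → Finset (List A)) (L : ℕ) (hϑ : IsRandomSub ϑ) (hlen : ∀ a, ∀ v ∈ ϑ a, v.length = L)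
    (hcompat : Compatible ϑ) (hprim : Primitive ϑ) (hnr : ¬ Recognisable ϑ)
    (hap : Aperiodic (subshift ϑ))
    (hcase : Nat.card A ≤ 3 ∨
      (∀ (n : ℕ) (v : List A) (a b c : A), v ∈ pow ϑ n a → v ∈ pow ϑ n b → v ∈ pow ϑ n c →
        a = b ∨ a = c ∨ b = c) ∨
      ∃ n : ℕ, 1 ≤ n ∧ ∃ b : A, ∀ v ∈ pow ϑ n b, ∃ v' : List A, v' ≠ v ∧
        ∀ a : A, v ∈ pow ϑ n a ↔ v' ∈ pow ϑ n a) :
    ¬ Group.ResiduallyFinite (autRS ϑ) := by
  have hne : (subshift ϑ).Nonempty := by
    by_contra h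
    exact hnr (fun x hx => absurd ⟨x, hx⟩ h)
  have hnd : ∃ a, ∃ v ∈ ϑ a, ∃ v' ∈ ϑ a, v ≠ v' := by
    by_contra h
    push Not at h
    exact hnr (recognisable_of_deterministic hϑ hprim hlen hap h)
  have key : (∃ n : ℕ, 1 ≤ n ∧ ∃ b : A, ∀ v ∈ pow ϑ n b, ∃ v' : List A, v' ≠ v ∧
      ∀ a : A, v ∈ pow ϑ n a ↔ v' ∈ pow ϑ n a) → ¬ Group.ResiduallyFinite (autRS ϑ) := by
    rintro ⟨n, hn, b, hb⟩ hRF
    have hX : subshift (powF ϑ n) = subshift ϑ := subshift_powF hϑ hprim hn
    have hRF' : Group.ResiduallyFinite (autRS (powF ϑ n)) :=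
      rf_congr hX.symm (shiftInv_subshift ϑ) (shiftInv_subshift _) hRF
    refine const_not_rf (powF ϑ n) (L ^ n) (powF_isRandomSub hϑ n)
      (powF_length hlen n) (powF_compatible hϑ hcompat n) (powF_primitive hϑ hprim hn)
      (by rw [hX]; exact hap) ?_ ⟨b, ?_⟩ hRF'
    · exact exists_unique_phase (powF_isRandomSub hϑ n) (powF_primitive hϑ hprim hn)
        (powF_length hlen n) (by rw [hX]; exact hne) (by rw [hX]; exact hap)
    · intro v hv
      obtain ⟨v', h1, h2⟩ := hb v (mem_powF.1 hv)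
      refine ⟨v', h1, fun a => ?_⟩
      rw [mem_powF, mem_powF]
      exact h2 a
  have key2 : (∀ (n : ℕ) (v : List A) (a b c : A), v ∈ pow ϑ n a → v ∈ pow ϑ n b →
      v ∈ pow ϑ n c → a = b ∨ a = c ∨ b = c) → ¬ Group.ResiduallyFinite (autRS ϑ) := by
    intro h
    obtain ⟨n, hn, hall⟩ := twins_of_pairs hϑ hprim hlen hcompat hnd h
    obtain ⟨y, -⟩ := id hne
    exact key ⟨n, hn, y 0, hall (y 0)⟩
  rcases hcase with h | h | h
  · exact key2 (pairs_of_three hϑ hprim hlen hne hap h)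
  · exact key2 h
  · exact key h

end H35.RS.Up
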