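import Mathlib

/-!
# Random substitutions, their subshifts and automorphism groups (definitions)

Everything follows `problems/MP_de5306_an/problem.md`.
-/

namespace H35.RS

variable {A : Type*}

/-- `sh k x = σ^k x`, i.e. `(sh k x) i = x (i + k)`; the left shift is `sh 1`. -/
def sh (k : ℤ) (x : ℤ → A) : ℤ → A := fun i => x (i + k)

/-- The finite subword `x_i x_{i+1} ⋯ x_{i+n-1}` of a bi-infinite sequence. -/
def wd (x : ℤ → A) (i : ℤ) (n : ℕ) : List A := (List.range n).map (fun k : ℕ => x (i + k))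

/-- `ϑ` assigns to each letter a non-empty finite set of non-empty words. -/
def IsRandomSub (ϑ : A → Finset (List A)) : Prop :=
  ∀ a, (ϑ a).Nonempty ∧ ∀ v ∈ ϑ a, v ≠ []

/-- The set `ϑ(u)` of a finite word `u` (set concatenation). -/
def imgW (ϑ : A → Finset (List A)) : List A → Set (List A)
  | [] => {[]}
  | a :: u => {v | ∃ s ∈ ϑ a, ∃ t ∈ imgW ϑ u, v = s ++ t}

/-- The powers `ϑ^p(a)`. -/
def pow (ϑ : A → Finset (List A)) : ℕ → A → Set (List A)
  | 0, a => {[a]}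
  | p + 1, a => {v | ∃ u ∈ pow ϑ p a, v ∈ imgW ϑ u}

/-- Legal words: subwords of elements of `ϑ^p(a)`. -/
def Legal (ϑ : A → Finset (List A)) (w : List A) : Prop :=
  ∃ (p : ℕ) (a : A), ∃ v ∈ pow ϑ p a, w <:+: v

/-- The subshift `X_ϑ` of the random substitution. -/
def subshift (ϑ : A → Finset (List A)) : Set (ℤ → A) :=
  {x | ∀ (i : ℤ) (n : ℕ), Legal ϑ (wd x i n)}

/-- `ϑ` is compatible: all words in `ϑ(a)` have the same number of occurrences of each letter,
i.e. they are rearrangements of each other. -/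
def Compatible (ϑ : A → Finset (List A)) : Prop :=
  ∀ a, ∀ v ∈ ϑ a, ∀ v' ∈ ϑ a, v.Perm v'

/-- `ϑ` is primitive: for some `p ≥ 1` every letter `a` occurs in some word of `ϑ^p(b)`,
for every letter `b`. -/
def Primitive (ϑ : A → Finset (List A)) : Prop :=
  ∃ p : ℕ, 1 ≤ p ∧ ∀ a b : A, ∃ v ∈ pow ϑ p b, a ∈ v

/-- `x ∈ ϑ(y)` for bi-infinite sequences: `x` is the concatenation of words `u i ∈ ϑ(y i)`, the
word `u i` occupying the coordinates `c i, …, c (i+1) - 1`, and `c 0 = 0`. -/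
def ImgSeq (ϑ : A → Finset (List A)) (y x : ℤ → A) : Prop :=
  ∃ (u : ℤ → List A) (c : ℤ → ℤ), (∀ i, u i ∈ ϑ (y i)) ∧ c 0 = 0 ∧
    (∀ i, c (i + 1) = c i + (u i).length) ∧ ∀ i, wd x (c i) (u i).length = u i

/-- `(y, k)` is a desubstitution of `x`: `y ∈ X_ϑ`, `0 ≤ k ≤ |ϑ(y_0)| - 1` and
`σ^{-k}(x) ∈ ϑ(y)`. (For compatible `ϑ` all words of `ϑ(y_0)` have the same length.) -/
def Desub (ϑ : A → Finset (List A)) (x : ℤ → A) (y : ℤ → A) (k : ℕ) : Prop :=
  y ∈ subshift ϑ ∧ (∃ v ∈ ϑ (y 0), k < v.length) ∧ ImgSeq ϑ y (sh (-(k : ℤ)) x)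

/-- `ϑ` is recognisable: every `x ∈ X_ϑ` has exactly one desubstitution. -/
def Recognisable (ϑ : A → Finset (List A)) : Prop :=
  ∀ x ∈ subshift ϑ, ∃! q : (ℤ → A) × ℕ, Desub ϑ x q.1 q.2

/-- A set of sequences is aperiodic: it contains no `x` with `σ^n x = x` for some `n ≥ 1`. -/
def Aperiodic (X : Set (ℤ → A)) : Prop :=
  ∀ x ∈ X, ∀ n : ℕ, 1 ≤ n → sh (n : ℤ) x ≠ x

/-- Invariance under the shift. -/
def ShiftInv (X : Set (ℤ → A)) : Prop := ∀ x, sh 1 x ∈ X ↔ x ∈ X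

/-- The automorphism group of a shift-invariant set `X ⊆ A^ℤ` (with the subspace topology of the
product topology): the homeomorphisms of `X` commuting with the shift. -/
def autGroup [TopologicalSpace A] (X : Set (ℤ → A)) (hX : ShiftInv X) : Subgroup (X ≃ₜ X) where
  carrier := {h | ∀ x : X, ((h ⟨sh 1 x.1, (hX x.1).2 x.2⟩ : X) : ℤ → A) = sh 1 (h x : ℤ → A)}
  mul_mem' := by
    intro f g hf hg x
    have h1 : (g ⟨sh 1 x.1, (hX x.1).2 x.2⟩ : X)
        = ⟨sh 1 (g x : ℤ → A), (hX _).2 (g x).2⟩ := Subtype.ext (hg x)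
    simp only [Homeomorph.mul_apply, h1]
    exact hf (g x)
  one_mem' := by
    intro x
    rfl
  inv_mem' := by
    intro f hf x
    have h1 := hf (f⁻¹ x)
    have h2 : f (f⁻¹ x) = x := by
      simp
    have h3 : f ⟨sh 1 ((f⁻¹ x : X) : ℤ → A), (hX _).2 (f⁻¹ x).2⟩
        = ⟨sh 1 x.1, (hX x.1).2 x.2⟩ := by
      apply Subtype.ext
      rw [h1, h2]
    rw [← h3]
    simp

theorem sh_apply (k : ℤ) (x : ℤ → A) (i : ℤ) : sh k x i = x (i + k) := rfl

theorem sh_sh (k l : ℤ) (x : ℤ → A) : sh k (sh l x) = sh (k + l) x := by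
  funext i
  simp only [sh_apply]
  congr 1
  ring

theorem sh_zero (x : ℤ → A) : sh 0 x = x := by
  funext i
  simp [sh_apply]

theorem wd_sh (k : ℤ) (x : ℤ → A) (i : ℤ) (n : ℕ) : wd (sh k x) i n = wd x (i + k) n := by
  unfold wd
  apply List.map_congr_left
  intro j _
  simp only [sh_apply]
  congr 1
  ring

theorem shiftInv_subshift (ϑ : A → Finset (List A)) : ShiftInv (subshift ϑ) := by
  intro x
  constructor
  · intro h i n
    have := h (i - 1) n
    rw [wd_sh] at this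
    simpa using this
  · intro h i n
    rw [wd_sh]
    exact h _ n

/-- The automorphism group `Aut(X_ϑ)`. -/
abbrev autRS [TopologicalSpace A] (ϑ : A → Finset (List A)) : Subgroup (subshift ϑ ≃ₜ subshift ϑ) :=
  autGroup (subshift ϑ) (shiftInv_subshift ϑ)

end H35.RS
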