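import Pool.Agent.H35.RS.Const

/-! # Two words in one point; the set of differences of phases is universal -/

namespace H35.RS.Up

open H35.RS

variable {A : Type*}

namespace Uv

/-- Iterated images of words. -/
def itI (ϑ : A → Finset (List A)) : ℕ → List A → Set (List A)
  | 0, u => {u}
  | N + 1, u => {v | ∃ w ∈ itI ϑ N u, v ∈ imgW ϑ w}

theorem itI_pow {ϑ : A → Finset (List A)} {N : ℕ} {a : A} {v : List A} :
    v ∈ itI ϑ N [a] ↔ v ∈ pow ϑ N a := by
  induction N generalizing v with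
  | zero => exact Iff.rfl
  | succ N ih =>
    constructor
    · rintro ⟨w, hw, hv⟩
      exact ⟨w, ih.1 hw, hv⟩
    · rintro ⟨w, hw, hv⟩
      exact ⟨w, ih.2 hw, hv⟩

theorem itI_append {ϑ : A → Finset (List A)} {N : ℕ} {u₁ u₂ v₁ v₂ : List A}
    (h₁ : v₁ ∈ itI ϑ N u₁) (h₂ : v₂ ∈ itI ϑ N u₂) : v₁ ++ v₂ ∈ itI ϑ N (u₁ ++ u₂) := by
  induction N generalizing v₁ v₂ with
  | zero =>
    have e1 : v₁ = u₁ := h₁
    have e2 : v₂ = u₂ := h₂
    subst e1
    subst e2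
    exact rfl
  | succ N ih =>
    obtain ⟨w₁, hw₁, h₁⟩ := h₁
    obtain ⟨w₂, hw₂, h₂⟩ := h₂
    exact ⟨w₁ ++ w₂, ih hw₁ hw₂, (imgW_append _ _ _).2 ⟨v₁, h₁, v₂, h₂, rfl⟩⟩

theorem itI_nonempty {ϑ : A → Finset (List A)} (hϑ : IsRandomSub ϑ) (N : ℕ) (u : List A) :
    ∃ v, v ∈ itI ϑ N u := by
  induction N with
  | zero => exact ⟨u, rfl⟩
  | succ N ih =>
    obtain ⟨w, hw⟩ := ih
    obtain ⟨v, hv⟩ := imgW_nonempty hϑ w
    exact ⟨v, w, hw, hv⟩

theorem imgW_ne_nil {ϑ : A → Finset (List A)} (hϑ : IsRandomSub ϑ) {u v : List A} (hu : u ≠ [])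
    (hv : v ∈ imgW ϑ u) : v ≠ [] := by
  cases u with
  | nil => exact absurd rfl hu
  | cons a u =>
    obtain ⟨s, hs, t, ht, rfl⟩ := hv
    intro h
    exact (hϑ a).2 s hs (List.append_eq_nil_iff.1 h).1

theorem itI_ne_nil {ϑ : A → Finset (List A)} (hϑ : IsRandomSub ϑ) {N : ℕ} {u v : List A}
    (hu : u ≠ []) (hv : v ∈ itI ϑ N u) : v ≠ [] := by
  induction N generalizing v with
  | zero =>
    have e1 : v = u := hv
    rw [e1]
    exact hu
  | succ N ih =>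
    obtain ⟨w, hw, hv⟩ := hv
    exact imgW_ne_nil hϑ (ih hw) hv

theorem itI_add {ϑ : A → Finset (List A)} {M N : ℕ} {u w v : List A} (hw : w ∈ itI ϑ M u)
    (hv : v ∈ itI ϑ N w) : v ∈ itI ϑ (M + N) u := by
  induction N generalizing v with
  | zero =>
    have e1 : v = w := hv
    rw [e1]
    exact hw
  | succ N ih =>
    obtain ⟨w', hw', hv⟩ := hv
    exact ⟨w', ih hw', hv⟩

theorem itI_infix {ϑ : A → Finset (List A)} (hϑ : IsRandomSub ϑ) {N : ℕ} {w u v : List A}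
    (hw : w <:+: u) (hv : v ∈ itI ϑ N w) : ∃ v' ∈ itI ϑ N u, v <:+: v' := by
  obtain ⟨s, t, rfl⟩ := hw
  obtain ⟨s', hs'⟩ := itI_nonempty hϑ N s
  obtain ⟨t', ht'⟩ := itI_nonempty hϑ N t
  exact ⟨s' ++ v ++ t', itI_append (itI_append hs' hv) ht', ⟨s', t', rfl⟩⟩

theorem legal_itI {ϑ : A → Finset (List A)} (hϑ : IsRandomSub ϑ) {N : ℕ} {w v : List A}
    (h : Legal ϑ w) (hv : v ∈ itI ϑ N w) : Legal ϑ v := by
  induction N generalizing v with
  | zero =>
    have e1 : v = w := hv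
    rw [e1]
    exact h
  | succ N ih =>
    obtain ⟨w', hw', hv⟩ := hv
    exact (ih hw').img hϑ hv

/-- Every legal word occurs in some word of `ϑ^N(b)`, for all `b` and all large `N`. -/
theorem reach {ϑ : A → Finset (List A)} (hϑ : IsRandomSub ϑ) (hp : Primitive ϑ) {w : List A}
    (h : Legal ϑ w) : ∃ N₀ : ℕ, ∀ N, N₀ ≤ N → ∀ b : A, ∃ v ∈ pow ϑ N b, w <:+: v := by
  obtain ⟨p, a, v, hv, hwv⟩ := h
  obtain ⟨q, -, hq⟩ := hp
  refine ⟨q + p, fun N hN b => ?_⟩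
  obtain ⟨t, rfl⟩ : ∃ t, N = t + q + p := ⟨N - (q + p), by omega⟩
  obtain ⟨v1, hv1⟩ := itI_nonempty hϑ t [b]
  have hne : v1 ≠ [] := itI_ne_nil hϑ (by simp) hv1
  obtain ⟨b', hb'⟩ := List.exists_mem_of_ne_nil v1 hne
  obtain ⟨u, hu, hau⟩ := hq a b'
  have h1 : [b'] <:+: v1 := by
    obtain ⟨s, t, rfl⟩ := List.append_of_mem hb'
    exact ⟨s, t, by simp⟩
  obtain ⟨v2, hv2, huv2⟩ := itI_infix hϑ h1 (itI_pow.2 hu)
  have h2 : [a] <:+: v2 := by
    refine List.IsInfix.trans ?_ huv2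
    obtain ⟨s, t, rfl⟩ := List.append_of_mem hau
    exact ⟨s, t, by simp⟩
  obtain ⟨v3, hv3, hvv3⟩ := itI_infix hϑ h2 (itI_pow.2 hv)
  exact ⟨v3, itI_pow.1 (itI_add (itI_add hv1 hv2) hv3), hwv.trans hvv3⟩

theorem wd_of_append {x : ℤ → A} {i : ℤ} {s w t : List A}
    (h : wd x i (s ++ w ++ t).length = s ++ w ++ t) : wd x (i + s.length) w.length = w := by
  rw [List.length_append, List.length_append, wd_add, wd_add] at h
  have h1 := List.append_inj h (by simp [wd_length])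
  have h2 := List.append_inj h1.1 (by simp [wd_length])
  exact h2.2

/-- Every legal word occurs in a point. -/
theorem exists_point {ϑ : A → Finset (List A)} (hϑ : IsRandomSub ϑ) (hp : Primitive ϑ)
    (hne : (subshift ϑ).Nonempty) {w : List A} (h : Legal ϑ w) :
    ∃ y ∈ subshift ϑ, ∃ i : ℤ, wd y i w.length = w := by
  obtain ⟨z, hz⟩ := hne
  obtain ⟨N₀, hN₀⟩ := reach hϑ hp h
  obtain ⟨v, hv, s, t, rfl⟩ := hN₀ N₀ le_rfl (z 0)
  obtain ⟨x, hx, i, hi⟩ := exists_point_with hϑ hz 0 N₀ hv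
  exact ⟨x, hx, i + s.length, wd_of_append hi⟩

end Uv

open Uv

/-- Two legal words occur in one point, the second one to the right of the first one. -/
theorem exists_two [Finite A] {ϑ : A → Finset (List A)} (hϑ : IsRandomSub ϑ) (hp : Primitive ϑ)
    (hne : (subshift ϑ).Nonempty) {u₀ u : List A} (h₀ : Legal ϑ u₀) (h : Legal ϑ u) :
    ∃ y ∈ subshift ϑ, ∃ i j : ℤ, wd y i u₀.length = u₀ ∧ wd y j u.length = u ∧
      i + u₀.length ≤ j := by
  obtain ⟨z, hz⟩ := hne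
  obtain ⟨N₁, h₁⟩ := reach hϑ hp h₀
  obtain ⟨N₂, h₂⟩ := reach hϑ hp h
  obtain ⟨v₀, hv₀, s₀, t₀, e₀⟩ := h₁ (N₁ + N₂) (by omega) (z 0)
  obtain ⟨v, hv, s, t, e⟩ := h₂ (N₁ + N₂) (by omega) (z 1)
  have hl : Legal ϑ ([z 0] ++ [z 1]) := by
    have := hz 0 2
    have e2 : wd z 0 2 = [z 0] ++ [z 1] := by
      rw [show (2 : ℕ) = 1 + 1 from rfl, wd_add, wd_one, wd_one]
      simp
    rwa [e2] at this
  have hl2 : Legal ϑ (v₀ ++ v) :=
    legal_itI hϑ hl (itI_append (itI_pow.2 hv₀) (itI_pow.2 hv))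
  obtain ⟨y, hy, i, hi⟩ := exists_point hϑ hp ⟨z, hz⟩ hl2
  rw [List.length_append, wd_add] at hi
  obtain ⟨ha, hb⟩ := List.append_inj hi (by simp [wd_length])
  refine ⟨y, hy, i + s₀.length, i + v₀.length + s.length, ?_, ?_, ?_⟩
  · rw [← e₀] at ha
    exact wd_of_append ha
  · rw [← e] at hb
    exact wd_of_append hb
  · rw [← e₀]
    simp only [List.length_append]
    push_cast
    omega

open Classical in
/-- The valid phases in `[0, L)`. -/
noncomputable def ph (ϑ : A → Finset (List A)) (L : ℕ) (x : ℤ → A) : Finset ℤ :=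
  (Finset.Ico (0 : ℤ) L).filter (fun c => Cst.Valid ϑ L x c)

namespace Uv

theorem mem_ph {ϑ : A → Finset (List A)} {L : ℕ} {x : ℤ → A} {c : ℤ} :
    c ∈ ph ϑ L x ↔ (0 ≤ c ∧ c < L) ∧ Cst.Valid ϑ L x c := by
  unfold ph
  simp only [Finset.mem_filter, Finset.mem_Ico]

theorem valid_mod {ϑ : A → Finset (List A)} {L : ℕ} {x : ℤ → A} {c : ℤ} :
    Cst.Valid ϑ L x (c % L) ↔ Cst.Valid ϑ L x c := by
  have h := Int.emod_add_mul_ediv c (L : ℤ)
  constructor
  · intro hv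
    have := Cst.valid_add hv (c / L)
    rwa [show c % L + c / L * L = c by linarith] at this
  · intro hv
    have := Cst.valid_add hv (-(c / L))
    rwa [show c + -(c / L) * L = c % L by linarith] at this

/-- A window of a point with the least number of phases forces all its phases. -/
theorem exists_window [Finite A] {ϑ : A → Finset (List A)} {L : ℕ} (hL : 1 ≤ L) {x₀ : ℤ → A}
    (hmin : ∀ x ∈ subshift ϑ, (ph ϑ L x₀).card ≤ (ph ϑ L x).card) :
    ∃ r : ℕ, ∀ x ∈ subshift ϑ, (∀ i : ℤ, -(r : ℤ) ≤ i → i < r → x i = x₀ i) →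
      ∀ c, Cst.Valid ϑ L x₀ c → Cst.Valid ϑ L x c := by
  classical
  have hL0 : (0 : ℤ) < L := by exact_mod_cast hL
  have hrad : ∀ c : ℤ, ¬ Cst.Valid ϑ L x₀ c → ∃ n : ℕ, ∀ x : ℤ → A,
      (∀ i : ℤ, -(n : ℤ) ≤ i → i < n → x i = x₀ i) → ¬ Cst.Valid ϑ L x c := by
    intro c hc
    by_contra hcon
    push Not at hcon
    exact hc (Cst.valid_closed hcon)
  choose! N hN using hrad
  refine ⟨(Finset.Ico (0 : ℤ) L).sup N, fun x hx hag => ?_⟩
  have hsub : ph ϑ L x ⊆ ph ϑ L x₀ := by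
    intro c hc
    rw [mem_ph] at hc ⊢
    refine ⟨hc.1, ?_⟩
    by_contra hnv
    have hle : N c ≤ (Finset.Ico (0 : ℤ) L).sup N :=
      Finset.le_sup (f := N) (Finset.mem_Ico.2 hc.1)
    exact hN c hnv x (fun i hi1 hi2 => hag i (by omega) (by omega)) hc.2
  have heq : ph ϑ L x = ph ϑ L x₀ := Finset.eq_of_subset_of_card_le hsub (hmin x hx)
  intro c hc
  rw [← valid_mod] at hc ⊢
  have h1 : c % (L : ℤ) ∈ ph ϑ L x₀ :=
    mem_ph.2 ⟨⟨Int.emod_nonneg _ (by omega), Int.emod_lt_of_pos _ hL0⟩, hc⟩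
  rw [← heq] at h1
  exact (mem_ph.1 h1).2

end Uv

theorem univ_shift [Finite A] {ϑ : A → Finset (List A)} (hϑ : IsRandomSub ϑ) (hp : Primitive ϑ)
    {L : ℕ} (hL : 1 ≤ L) (hlen : ∀ a, ∀ v ∈ ϑ a, v.length = L) {x₀ : ℤ → A}
    (hx₀ : x₀ ∈ subshift ϑ) (hmin : ∀ x ∈ subshift ϑ, (ph ϑ L x₀).card ≤ (ph ϑ L x).card)
    {c₀ c₁ : ℤ} (h₀ : Cst.Valid ϑ L x₀ c₀) (h₁ : Cst.Valid ϑ L x₀ c₁) {x : ℤ → A}
    (hx : x ∈ subshift ϑ) {c : ℤ} (h : Cst.Valid ϑ L x c) :
    Cst.Valid ϑ L x (c + (c₁ - c₀)) := by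
  classical
  have hL0 : (0 : ℤ) < L := by exact_mod_cast hL
  obtain ⟨r, hr⟩ := exists_window hL hmin
  obtain ⟨y, hy, hyt⟩ := h
  obtain ⟨y₀, hy₀, hyt₀⟩ := h₀
  apply Cst.valid_closed
  intro n
  -- large windows
  obtain ⟨m₀, hm₀⟩ : ∃ m₀ : ℕ, m₀ = c₀.natAbs + r + 1 := ⟨_, rfl⟩
  obtain ⟨m, hm⟩ : ∃ m : ℕ, m = c.natAbs + n + 1 := ⟨_, rfl⟩
  obtain ⟨yh, hyh, i, j, hi, hj, hij⟩ := exists_two hϑ hp ⟨x₀, hx₀⟩
    (hy₀ (-(m₀ : ℤ)) (2 * m₀)) (hy (-(m : ℤ)) (2 * m))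
  rw [wd_length] at hi hj hij
  have hi' := Cst.wd_eq_iff hi
  have hj' := Cst.wd_eq_iff hj
  push_cast at hi' hj' hij
  choose f hf using fun k => (hϑ (yh k)).1
  have hfl : ∀ k, (f k).length = L := fun k => hlen _ _ (hf k)
  have hmod : ∀ p : ℤ, (p % (L : ℤ)).toNat < L := by
    intro p
    have h1 := Int.emod_nonneg p (by omega : (L : ℤ) ≠ 0)
    have h2 := Int.emod_lt_of_pos p hL0
    omega
  let xh : ℤ → A := fun p =>
    if i ≤ p / L ∧ p / L < i + 2 * m₀ then x₀ (c₀ + (p / L - i - m₀) * L + p % L)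
    else if j ≤ p / L ∧ p / L < j + 2 * m then x (c + (p / L - j - m) * L + p % L)
    else (f (p / L))[(p % (L : ℤ)).toNat]'(by rw [hfl]; exact hmod p)
  have hdiv : ∀ k e : ℤ, 0 ≤ e → e < L → (k * L + e) / (L : ℤ) = k := by
    intro k e h1 h2
    rw [add_comm, Int.add_mul_ediv_right _ _ (by omega : (L : ℤ) ≠ 0),
      Int.ediv_eq_zero_of_lt h1 h2, zero_add]
  have hmd : ∀ k e : ℤ, 0 ≤ e → e < L → (k * L + e) % (L : ℤ) = e := by
    intro k e h1 h2
    rw [add_comm, Int.add_mul_emod_self_right, Int.emod_eq_of_lt h1 h2]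
  have hx1 : ∀ k e : ℤ, 0 ≤ e → e < L → i ≤ k → k < i + 2 * m₀ →
      xh (k * L + e) = x₀ (c₀ + (k - i - m₀) * L + e) := by
    intro k e he1 he2 hk1 hk2
    simp only [xh, hdiv k e he1 he2, hmd k e he1 he2]
    rw [if_pos ⟨hk1, hk2⟩]
  have hx2 : ∀ k e : ℤ, 0 ≤ e → e < L → j ≤ k → k < j + 2 * m →
      xh (k * L + e) = x (c + (k - j - m) * L + e) := by
    intro k e he1 he2 hk1 hk2
    simp only [xh, hdiv k e he1 he2, hmd k e he1 he2]
    rw [if_neg (by omega), if_pos ⟨hk1, hk2⟩]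
  have htile : ∀ k : ℤ, wd xh (0 + k * L) L ∈ ϑ (yh k) := by
    intro k
    rw [zero_add]
    by_cases hk : i ≤ k ∧ k < i + 2 * m₀
    · have e1 : wd xh (k * L) L = wd x₀ (c₀ + (k - i - m₀) * L) L :=
        Cst.wd_congr' (fun e he1 he2 => hx1 k e he1 he2 hk.1 hk.2)
      have e2 := hi' (k - i) (by omega) (by omega)
      rw [show i + (k - i) = k by ring, show -(m₀ : ℤ) + (k - i) = k - i - m₀ by ring] at e2
      rw [e1, e2]
      exact hyt₀ _
    · by_cases hk' : j ≤ k ∧ k < j + 2 * m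
      · have e1 : wd xh (k * L) L = wd x (c + (k - j - m) * L) L :=
          Cst.wd_congr' (fun e he1 he2 => hx2 k e he1 he2 hk'.1 hk'.2)
        have e2 := hj' (k - j) (by omega) (by omega)
        rw [show j + (k - j) = k by ring, show -(m : ℤ) + (k - j) = k - j - m by ring] at e2
        rw [e1, e2]
        exact hyt _
      · have e1 : wd xh (k * L) L = f k := by
          apply List.ext_getElem
          · rw [wd_length, hfl]
          · intro e he1 he2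
            rw [wd_length] at he1
            rw [B2.wd_getElem]
            have e3 := hdiv k (e : ℤ) (by omega) (by omega)
            have e4 := hmd k (e : ℤ) (by omega) (by omega)
            simp only [xh, e3, e4]
            rw [if_neg hk, if_neg hk']
            simp only [Int.toNat_natCast]
        rw [e1]
        exact hf k
  have hxh : xh ∈ subshift ϑ := by
    refine mem_subshift_of_tiles hϑ hyh (fun k => wd xh (0 + k * L) L) (fun k => 0 + k * L) htile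
      ?_ ?_
    · intro k
      simp only [wd_length]
      ring
    · intro k
      simp only [wd_length]
  -- every integer
  have hdec : ∀ p : ℤ, p / (L : ℤ) * L + p % L = p := by
    intro p
    have := Int.emod_add_mul_ediv p (L : ℤ)
    linarith
  -- agreement with `x₀`
  have hm₀L : (m₀ : ℤ) ≤ m₀ * L := by nlinarith [(Nat.cast_nonneg m₀ : (0 : ℤ) ≤ m₀)]
  have hmL : (m : ℤ) ≤ m * L := by nlinarith [(Nat.cast_nonneg m : (0 : ℤ) ≤ m)]
  have hv1 : Cst.Valid ϑ L (sh ((i + m₀) * L - c₀) xh) c₁ := by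
    refine hr _ (Cst.sh_mem hxh _) ?_ c₁ h₁
    intro p hp1 hp2
    rw [sh_apply]
    set P : ℤ := p + ((i + m₀) * L - c₀) with hP
    have h1 := Int.emod_nonneg P (by omega : (L : ℤ) ≠ 0)
    have h2 := Int.emod_lt_of_pos P hL0
    have h3 : i ≤ P / L := by
      rw [Int.le_ediv_iff_mul_le hL0, hP]
      have : 0 ≤ p + (m₀ * L - c₀) := by omega
      nlinarith
    have h4 : P / L < i + 2 * m₀ := by
      rw [Int.ediv_lt_iff_lt_mul hL0, hP]
      have : p < c₀ + m₀ * L := by omega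
      nlinarith
    rw [← hdec P, hx1 _ _ h1 h2 h3 h4]
    congr 1
    have h5 := hdec P
    have h6 : c₀ + (P / L - i - m₀) * L + P % L = c₀ + (P / L * L + P % L) - (i + m₀) * L := by
      ring
    rw [h6, h5, hP]
    ring
  rw [Cst.valid_sh] at hv1
  refine ⟨sh ((j + m) * L - c) xh, ?_, ?_⟩
  · intro p hp1 hp2
    rw [sh_apply]
    set P : ℤ := p + ((j + m) * L - c) with hP
    have h1 := Int.emod_nonneg P (by omega : (L : ℤ) ≠ 0)
    have h2 := Int.emod_lt_of_pos P hL0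
    have h3 : j ≤ P / L := by
      rw [Int.le_ediv_iff_mul_le hL0, hP]
      have : 0 ≤ p + (m * L - c) := by omega
      nlinarith
    have h4 : P / L < j + 2 * m := by
      rw [Int.ediv_lt_iff_lt_mul hL0, hP]
      have : p < c + m * L := by omega
      nlinarith
    rw [← hdec P, hx2 _ _ h1 h2 h3 h4]
    congr 1
    have h5 := hdec P
    have h6 : c + (P / L - j - m) * L + P % L = c + (P / L * L + P % L) - (j + m) * L := by
      ring
    rw [h6, h5, hP]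
    ring
  · rw [Cst.valid_sh]
    have := Cst.valid_add hv1 (j + m - (i + m₀))
    convert this using 1
    ring

end H35.RS.Up
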