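import Pool.Agent.H35.RS.PowF
import Pool.Agent.H35.RS.Univ

/-!
# Deterministic substitutions of constant length: recognisability from a unique phase
-/

set_option autoImplicit false

namespace H35.RS.Up

open H35.RS

variable {A : Type*}

namespace Det

theorem imgW_det {ϑ : A → Finset (List A)} (hdet : ∀ a, ∀ v ∈ ϑ a, ∀ v' ∈ ϑ a, v = v')
    (u : List A) : ∀ v ∈ imgW ϑ u, ∀ v' ∈ imgW ϑ u, v = v' := by
  induction u with
  | nil =>
    intro v hv v' hv'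
    have h1 : v = [] := hv
    have h2 : v' = [] := hv'
    rw [h1, h2]
  | cons a u ih =>
    rintro v ⟨s, hs, t, ht, rfl⟩ v' ⟨s', hs', t', ht', rfl⟩
    rw [hdet a s hs s' hs', ih t ht t' ht']

theorem pow_det {ϑ : A → Finset (List A)} (hdet : ∀ a, ∀ v ∈ ϑ a, ∀ v' ∈ ϑ a, v = v')
    (n : ℕ) (a : A) : ∀ v ∈ pow ϑ n a, ∀ v' ∈ pow ϑ n a, v = v' := by
  induction n with
  | zero =>
    intro v hv v' hv'
    have h1 : v = [a] := hv
    have h2 : v' = [a] := hv'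
    rw [h1, h2]
  | succ n ih =>
    rintro v ⟨u, hu, hv⟩ v' ⟨u', hu', hv'⟩
    have h := ih u hu u' hu'
    subst h
    exact imgW_det hdet u v hv v' hv'

/-- Every legal word occurs in every point. -/
theorem occurs [Finite A] {ϑ : A → Finset (List A)} (hϑ : IsRandomSub ϑ) (hp : Primitive ϑ)
    {L : ℕ} (hlen : ∀ a, ∀ v ∈ ϑ a, v.length = L) (hdet : ∀ a, ∀ v ∈ ϑ a, ∀ v' ∈ ϑ a, v = v')
    {x : ℤ → A} (hx : x ∈ subshift ϑ) {w : List A} (hw : Legal ϑ w) :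
    ∃ i : ℤ, wd x i w.length = w := by
  obtain ⟨N, hN⟩ := reach hϑ hp hw
  obtain ⟨y, hy, c, ht⟩ := Syn.exists_tiles_pow hϑ L hlen N hx
  obtain ⟨v, hv, s, t, hst⟩ := hN N le_rfl (y 0)
  have h := pow_det hdet N (y 0) _ (ht 0) _ hv
  subst hst
  have hl : (s ++ w ++ t).length = L ^ N := pow_length hlen N (y 0) _ hv
  rw [← hl] at h
  exact ⟨_, Uv.wd_of_append h⟩

/-- If some point has a unique phase then every point in which all legal words occur has a unique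
phase modulo the length. -/
theorem phase_unique [Finite A] {ψ : A → Finset (List A)} (hψ : IsRandomSub ψ) {Λ : ℕ}
    (hΛ : 1 ≤ Λ) (hlen : ∀ a, ∀ v ∈ ψ a, v.length = Λ) {x0 : ℤ → A} (hx0 : x0 ∈ subshift ψ)
    (hu : ∃! k : ℕ, ∃ y, Desub ψ x0 y k) {x : ℤ → A}
    (hocc : ∀ w, Legal ψ w → ∃ i : ℤ, wd x i w.length = w) {c c' : ℤ}
    (h : Cst.Valid ψ Λ x c) (h' : Cst.Valid ψ Λ x c') : (Λ : ℤ) ∣ c - c' := by
  have hΛ0 : (0 : ℤ) < Λ := by exact_mod_cast hΛ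
  obtain ⟨k, hk, huniq⟩ := hu
  -- the phases of `x0`
  have hA : ∀ c : ℤ, Cst.Valid ψ Λ x0 c → (Λ : ℤ) ∣ c + k := by
    intro c hc
    have h1 : 0 ≤ (-c) % (Λ : ℤ) := Int.emod_nonneg _ hΛ0.ne'
    have h2 : (-c) % (Λ : ℤ) < Λ := Int.emod_lt_of_pos _ hΛ0
    have h3 : (Λ : ℤ) * ((-c) / Λ) + (-c) % Λ = -c := Int.mul_ediv_add_emod _ _
    obtain ⟨m, hm⟩ : ∃ m : ℕ, (m : ℤ) = (-c) % (Λ : ℤ) := ⟨((-c) % (Λ : ℤ)).toNat, by omega⟩
    have h4 : Cst.Valid ψ Λ x0 (-(m : ℤ)) := by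
      have h5 := Cst.valid_add hc ((-c) / (Λ : ℤ))
      have h6 : c + (-c) / (Λ : ℤ) * Λ = -(m : ℤ) := by
        rw [hm]
        linarith
      rw [h6] at h5
      exact h5
    have h7 : m = k := huniq m ((Cst.desub_iff hψ hlen x0 m).2 ⟨by omega, h4⟩)
    subst h7
    exact ⟨-((-c) / (Λ : ℤ)), by rw [hm]; linarith⟩
  -- a window of `x0` decides the phase
  have hB : ∃ r : ℕ, ∀ x' : ℤ → A, (∀ i : ℤ, -(r : ℤ) ≤ i → i < r → x' i = x0 i) →
      ∀ c : ℤ, Cst.Valid ψ Λ x' c → (Λ : ℤ) ∣ c + k := by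
    have h1 : ∀ c : ℕ, ∃ n : ℕ, ¬ (Λ : ℤ) ∣ (c : ℤ) + k → ∀ x' : ℤ → A,
        (∀ i : ℤ, -(n : ℤ) ≤ i → i < n → x' i = x0 i) → ¬ Cst.Valid ψ Λ x' c := by
      intro c
      by_cases hc : (Λ : ℤ) ∣ (c : ℤ) + k
      · exact ⟨0, fun h => absurd hc h⟩
      · by_contra hcon
        have h2 : ∀ n : ℕ, ∃ x' : ℤ → A, (∀ i : ℤ, -(n : ℤ) ≤ i → i < n → x' i = x0 i) ∧
            Cst.Valid ψ Λ x' c := by
          intro n
          by_contra hn
          apply hcon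
          refine ⟨n, fun _ x' hx' hv => hn ⟨x', hx', hv⟩⟩
        exact hc (hA c (Cst.valid_closed h2))
    choose n hn using h1
    refine ⟨(Finset.range Λ).sup n, ?_⟩
    intro x' hx' c hc
    by_contra hcon
    have h1 : 0 ≤ c % (Λ : ℤ) := Int.emod_nonneg _ hΛ0.ne'
    have h2 : c % (Λ : ℤ) < Λ := Int.emod_lt_of_pos _ hΛ0
    have h3 : (Λ : ℤ) * (c / Λ) + c % Λ = c := Int.mul_ediv_add_emod _ _
    obtain ⟨m, hm⟩ : ∃ m : ℕ, (m : ℤ) = c % (Λ : ℤ) := ⟨(c % (Λ : ℤ)).toNat, by omega⟩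
    have h4 : Cst.Valid ψ Λ x' m := by
      have h5 := Cst.valid_add hc (-(c / (Λ : ℤ)))
      have h6 : c + -(c / (Λ : ℤ)) * Λ = m := by
        rw [hm]
        linarith
      rw [h6] at h5
      exact h5
    have h5 : ¬ (Λ : ℤ) ∣ (m : ℤ) + k := by
      intro h6
      apply hcon
      have h7 : c + k = ((m : ℤ) + k) + Λ * (c / Λ) := by
        rw [hm]
        linarith
      rw [h7]
      exact dvd_add h6 (dvd_mul_right _ _)
    have h6 : n m ≤ (Finset.range Λ).sup n := Finset.le_sup (f := n) (Finset.mem_range.2 (by omega))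
    refine hn m h5 x' ?_ h4
    intro i hi1 hi2
    exact hx' i (by omega) (by omega)
  obtain ⟨r, hr⟩ := hB
  obtain ⟨i, hi⟩ := hocc (wd x0 (-(r : ℤ)) (2 * r)) (hx0 _ _)
  rw [wd_length] at hi
  have hagree : ∀ j : ℤ, -(r : ℤ) ≤ j → j < r → sh (i + r) x j = x0 j := by
    intro j hj1 hj2
    have h1 := Cst.wd_eq_iff hi (j + r) (by omega) (by push_cast; omega)
    rw [sh_apply]
    rw [show j + (i + r) = i + (j + r) by ring, h1]
    congr 1
    ring
  have hC : ∀ c : ℤ, Cst.Valid ψ Λ x c → (Λ : ℤ) ∣ c - (i + r) + k := by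
    intro c hc
    apply hr (sh (i + r) x) hagree
    rw [Cst.valid_sh, sub_add_cancel]
    exact hc
  have h8 := dvd_sub (hC c h) (hC c' h')
  have h9 : c - (i + r) + k - (c' - (i + r) + k) = c - c' := by ring
  rwa [h9] at h8

/-- Desubstitutions give parsings. -/
theorem parse_of_desub {ϑ : A → Finset (List A)} {L : ℕ}
    (hlen : ∀ a, ∀ v ∈ ϑ a, v.length = L) {x y : ℤ → A} {k : ℕ} (h : Desub ϑ x y k) :
    y ∈ subshift ϑ ∧ k < L ∧ ∀ i : ℤ, wd x (-(k : ℤ) + i * L) L ∈ ϑ (y i) := by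
  obtain ⟨hy, ⟨v, hv, hkv⟩, u, c, hu, hc0, hc, hx⟩ := h
  refine ⟨hy, by rw [hlen _ _ hv] at hkv; exact hkv, fun i => ?_⟩
  have hl : ∀ i, (u i).length = L := fun i => hlen _ _ (hu i)
  have hc' : ∀ i : ℤ, c i = i * L := by
    intro i
    induction i using Int.induction_on with
    | zero => simp [hc0]
    | succ i ih => rw [hc, ih, hl]; ring
    | pred i ih =>
        have := hc (-(i : ℤ) - 1)
        rw [sub_add_cancel, ih, hl] at this
        have h2 : c (-(i : ℤ) - 1) = -(i : ℤ) * L - L := by linarith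
        rw [h2]; ring
  have h1 := hx i
  rw [hl, wd_sh, hc'] at h1
  have h2 : -(k : ℤ) + i * L = i * L + -(k : ℤ) := by ring
  rw [h2, h1]
  exact hu i

/-- The letters which are identified by `ϑ^n`. -/
def E (ϑ : A → Finset (List A)) (n : ℕ) : Set (A × A) :=
  {q | ∃ v, v ∈ pow ϑ n q.1 ∧ v ∈ pow ϑ n q.2}

theorem E_mono {ϑ : A → Finset (List A)} (hϑ : IsRandomSub ϑ) (n : ℕ) : E ϑ n ⊆ E ϑ (n + 1) := by
  rintro q ⟨v, h1, h2⟩
  obtain ⟨w, hw⟩ := imgW_nonempty hϑ v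
  exact ⟨w, ⟨v, h1, hw⟩, ⟨v, h2, hw⟩⟩

theorem recognisable_core [Finite A] {ϑ : A → Finset (List A)} (hϑ : IsRandomSub ϑ)
    (hp : Primitive ϑ) {L : ℕ} (hlen : ∀ a, ∀ v ∈ ϑ a, v.length = L)
    (hdet : ∀ a, ∀ v ∈ ϑ a, ∀ v' ∈ ϑ a, v = v')
    (hU : (subshift ϑ).Nonempty → ∀ n : ℕ, 1 ≤ n →
      ∃ x ∈ subshift (powF ϑ n), ∃! k : ℕ, ∃ y, Desub (powF ϑ n) x y k) :
    Recognisable ϑ := by
  intro x hx
  have hU := hU ⟨x, hx⟩
  have hL : 1 ≤ L := by
    obtain ⟨v, hv⟩ := (hϑ (x 0)).1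
    have h1 := (hϑ (x 0)).2 v hv
    have h2 := hlen (x 0) v hv
    have h3 := List.length_pos_iff.2 h1
    omega
  have hLpos : (0 : ℤ) < L := by exact_mod_cast hL
  -- phases
  have hph : ∀ n : ℕ, 1 ≤ n → ∀ x ∈ subshift ϑ, ∀ c c' : ℤ,
      Cst.Valid (powF ϑ n) (L ^ n) x c → Cst.Valid (powF ϑ n) (L ^ n) x c' →
        ((L ^ n : ℕ) : ℤ) ∣ c - c' := by
    intro n hn x hx c c' h h'
    obtain ⟨x0, hx0, hu⟩ := hU n hn
    refine phase_unique (powF_isRandomSub hϑ n) (Nat.one_le_pow _ _ hL) (powF_length hlen n)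
      hx0 hu ?_ h h'
    intro w hw
    exact occurs hϑ hp hlen hdet hx ((legal_powF hϑ hp hn).1 hw)
  have hph1 : ∀ c c' : ℤ, Cst.Valid ϑ L x c → Cst.Valid ϑ L x c' → (L : ℤ) ∣ c - c' := by
    have h := hph 1 le_rfl x hx
    rw [powF_one, pow_one] at h
    exact h
  -- existence
  obtain ⟨c, hc⟩ := Cst.exists_valid hϑ hlen hx
  have h1 : 0 ≤ (-c) % (L : ℤ) := Int.emod_nonneg _ hLpos.ne'
  have h2 : (-c) % (L : ℤ) < L := Int.emod_lt_of_pos _ hLpos
  have h3 : (L : ℤ) * ((-c) / L) + (-c) % L = -c := Int.mul_ediv_add_emod _ _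
  obtain ⟨m, hm⟩ : ∃ m : ℕ, (m : ℤ) = (-c) % (L : ℤ) := ⟨((-c) % (L : ℤ)).toNat, by omega⟩
  have h4 : Cst.Valid ϑ L x (-(m : ℤ)) := by
    have h5 := Cst.valid_add hc ((-c) / (L : ℤ))
    have h6 : c + (-c) / (L : ℤ) * L = -(m : ℤ) := by
      rw [hm]
      linarith
    rw [h6] at h5
    exact h5
  obtain ⟨y, hy⟩ := (Cst.desub_iff hϑ hlen x m).2 ⟨by omega, h4⟩
  refine ⟨(y, m), hy, ?_⟩
  rintro ⟨y', m'⟩ hy'
  obtain ⟨hyX, hmL, hyp⟩ := parse_of_desub hlen hy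
  obtain ⟨hyX', hmL', hyp'⟩ := parse_of_desub hlen hy'
  -- the phases agree
  have hmm : m' = m := by
    have h5 := hph1 (-(m : ℤ)) (-(m' : ℤ)) h4 ⟨y', hyX', hyp'⟩
    obtain ⟨d, hd⟩ := h5
    have h6 : d = 0 := by
      rcases lt_trichotomy d 0 with h | h | h
      · have : (L : ℤ) * d ≤ (L : ℤ) * (-1) := mul_le_mul_of_nonneg_left (by omega) hLpos.le
        simp only [] at hmL hmL'
        omega
      · exact h
      · have : (L : ℤ) * 1 ≤ (L : ℤ) * d := mul_le_mul_of_nonneg_left (by omega) hLpos.le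
        simp only [] at hmL hmL'
        omega
    rw [h6] at hd
    omega
  subst hmm
  -- the letters agree
  have hyy : y' = y := by
    by_contra hne
    obtain ⟨j, hj⟩ : ∃ j, y j ≠ y' j := by
      by_contra hcon
      push Not at hcon
      exact hne (funext fun j => (hcon j).symm)
    have hstrict : ∀ n : ℕ, 1 ≤ n → ∃ q, q ∈ E ϑ (n + 1) ∧ q ∉ E ϑ n := by
      intro n hn
      have hXn : subshift (powF ϑ n) = subshift ϑ := subshift_powF hϑ hp hn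
      obtain ⟨c, hc⟩ := Cst.exists_valid (powF_isRandomSub hϑ n) (powF_length hlen n)
        (x := y) (by rw [hXn]; exact hyX)
      obtain ⟨c', hc'⟩ := Cst.exists_valid (powF_isRandomSub hϑ n) (powF_length hlen n)
        (x := y') (by rw [hXn]; exact hyX')
      have hv := valid_succ hϑ hp hlen hn hyp hc
      have hv' := valid_succ hϑ hp hlen hn hyp' hc'
      obtain ⟨d, hd⟩ := hph (n + 1) (by omega) x hx _ _ hv' hv
      have hd' : c' = c + d * ((L ^ n : ℕ) : ℤ) := by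
        have h5 : (c' - c) * (L : ℤ) = (d * ((L ^ n : ℕ) : ℤ)) * L := by
          push_cast at hd ⊢
          rw [pow_succ] at hd
          linarith
        have h6 := mul_right_cancel₀ hLpos.ne' h5
        linarith
      have hc'' : Cst.Valid (powF ϑ n) (L ^ n) y' c := by
        have h5 := Cst.valid_add hc' (-d)
        have h6 : c' + -d * ((L ^ n : ℕ) : ℤ) = c := by
          rw [hd']
          ring
        rw [h6] at h5
        exact h5
      obtain ⟨z, -, hz⟩ := hc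
      obtain ⟨z', -, hz'⟩ := hc''
      have hN : (0 : ℤ) < ((L ^ n : ℕ) : ℤ) := by
        exact_mod_cast Nat.pow_pos hL
      set i : ℤ := (j - c) / ((L ^ n : ℕ) : ℤ) with hi
      have e1 : 0 ≤ (j - c) % ((L ^ n : ℕ) : ℤ) := Int.emod_nonneg _ hN.ne'
      have e2 : (j - c) % ((L ^ n : ℕ) : ℤ) < ((L ^ n : ℕ) : ℤ) := Int.emod_lt_of_pos _ hN
      have e3 : ((L ^ n : ℕ) : ℤ) * i + (j - c) % ((L ^ n : ℕ) : ℤ) = j - c :=
        Int.mul_ediv_add_emod _ _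
      refine ⟨(z i, z' i), ?_, ?_⟩
      · refine ⟨wd x (-(m' : ℤ) + (c + i * ((L ^ n : ℕ) : ℤ)) * L) (L ^ n * L), ?_, ?_⟩
        · exact ⟨_, mem_powF.1 (hz i), Syn.wd_mem_imgW L hyp (L ^ n) _⟩
        · exact ⟨_, mem_powF.1 (hz' i), Syn.wd_mem_imgW L hyp' (L ^ n) _⟩
      · rintro ⟨v, hv1, hv2⟩
        have e4 := pow_det hdet n (z i) _ (mem_powF.1 (hz i)) _ hv1
        have e5 := pow_det hdet n (z' i) _ (mem_powF.1 (hz' i)) _ hv2
        rw [← e5] at e4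
        apply hj
        have e6 := Cst.wd_eq_iff e4 ((j - c) % ((L ^ n : ℕ) : ℤ)) e1 e2
        have e7 : c + i * ((L ^ n : ℕ) : ℤ) + (j - c) % ((L ^ n : ℕ) : ℤ) = j := by
          linarith
        rw [e7] at e6
        exact e6
    -- a strictly increasing chain of subsets of a finite set
    have hcard : ∀ n : ℕ, n ≤ (E ϑ (n + 1)).ncard := by
      intro n
      induction n with
      | zero => exact Nat.zero_le _
      | succ n ih =>
        have h5 : E ϑ (n + 1) ⊂ E ϑ (n + 1 + 1) := by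
          refine ⟨E_mono hϑ (n + 1), ?_⟩
          intro hsub
          obtain ⟨q, hq1, hq2⟩ := hstrict (n + 1) (by omega)
          exact hq2 (hsub hq1)
        have h6 := Set.ncard_lt_ncard h5 (Set.toFinite _)
        omega
    have h7 := hcard (Nat.card (A × A) + 1)
    have h8 : (E ϑ (Nat.card (A × A) + 1 + 1)).ncard ≤ Nat.card (A × A) := by
      rw [← Set.ncard_univ]
      exact Set.ncard_le_ncard (Set.subset_univ _) (Set.toFinite _)
    omega
  rw [hyy]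

end Det

end H35.RS.Up
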