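import Pool.Agent.H35.RS.Defs

/-!
# Existence of tilings: every point of `X_ϑ` is a concatenation of inflation words

`exists_tiles`: compactness by local states.
-/

namespace H35.RS

variable {A : Type*}

/-! ### Words of sequences -/

theorem tl_wd_length {B : Type*} (x : ℤ → B) (i : ℤ) (n : ℕ) : (wd x i n).length = n := by
  simp [wd]

theorem tl_wd_add {B : Type*} (x : ℤ → B) (i : ℤ) (m n : ℕ) :
    wd x i (m + n) = wd x i m ++ wd x (i + m) n := by
  unfold wd
  rw [List.range_add, List.map_append, List.map_map]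
  congr 1
  apply List.map_congr_left
  intro k _
  simp only [Function.comp]
  congr 1
  push_cast
  ring

theorem tl_wd_congr {B : Type*} {x y : ℤ → B} {i : ℤ} {n : ℕ}
    (h : ∀ j, i ≤ j → j < i + n → x j = y j) : wd x i n = wd y i n := by
  unfold wd
  apply List.map_congr_left
  intro k hk
  have hk' := List.mem_range.1 hk
  apply h <;> omega

theorem tl_wd_sub {B : Type*} (x : ℤ → B) (i : ℤ) (n a b : ℕ) (h : a + b ≤ n) :
    wd x (i + a) b <:+: wd x i n := by
  obtain ⟨c, rfl⟩ : ∃ c, n = a + (b + c) := ⟨n - (a + b), by omega⟩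
  rw [tl_wd_add x i a (b + c), tl_wd_add x (i + a) b c]
  exact ⟨wd x i a, wd x (i + a + b) c, by simp⟩

theorem tl_wd_sub' {B : Type*} (x : ℤ → B) {i j : ℤ} {n m : ℕ} (h1 : i ≤ j)
    (h2 : j + m ≤ i + n) : wd x j m <:+: wd x i n := by
  have h := tl_wd_sub x i n (j - i).toNat m (by omega)
  have h3 : i + ((j - i).toNat : ℤ) = j := by omega
  rwa [h3] at h

/-! ### Compactness -/

/-- König's lemma in the form used here. -/
theorem tl_compact {S : Type*} (F : Set S) (hF : F.Finite) (P : ℕ → (ℤ → S) → Prop)
    (hloc : ∀ (n : ℕ) (s s' : ℤ → S), (∀ j : ℤ, -(n : ℤ) ≤ j → j ≤ n → s j = s' j) → P n s → P n s')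
    (hmono : ∀ (n : ℕ) (s : ℤ → S), P (n + 1) s → P n s)
    (hne : ∀ n : ℕ, ∃ s : ℤ → S, (∀ j, s j ∈ F) ∧ P n s) : ∃ s, ∀ n, P n s := by
  classical
  have : Finite F := hF
  let _ : TopologicalSpace F := ⊥
  have : DiscreteTopology F := ⟨rfl⟩
  let K : ℕ → Set (ℤ → F) := fun n => {s | P n (fun j => (s j : S))}
  have hopen : ∀ (n : ℕ) (U : Set (ℤ → F)),
      (∀ s s' : ℤ → F, (∀ j : ℤ, -(n : ℤ) ≤ j → j ≤ n → s j = s' j) → s ∈ U → s' ∈ U) →
      IsOpen U := by
    intro n U hU
    rw [isOpen_iff_forall_mem_open]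
    intro s hs
    refine ⟨Set.pi (Set.Icc (-(n : ℤ)) n) (fun j => {s j}), ?_, ?_, ?_⟩
    · intro s' hs'
      apply hU s s' _ hs
      intro j h1 h2
      exact (hs' j ⟨h1, h2⟩).symm
    · exact isOpen_set_pi (Set.finite_Icc _ _) (fun j _ => isOpen_discrete _)
    · intro j _
      rfl
  have hclosed : ∀ n, IsClosed (K n) := by
    intro n
    rw [← isOpen_compl_iff]
    apply hopen n
    intro s s' h hs hs'
    apply hs
    apply hloc n _ _ _ hs'
    intro j h1 h2
    rw [h j h1 h2]
  have hanti : ∀ n, K (n + 1) ⊆ K n := fun n s hs => hmono n _ hs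
  have hnon : ∀ n, (K n).Nonempty := by
    intro n
    obtain ⟨s, h1, h2⟩ := hne n
    exact ⟨fun j => ⟨s j, h1 j⟩, h2⟩
  obtain ⟨s, hs⟩ := IsCompact.nonempty_iInter_of_sequence_nonempty_isCompact_isClosed K hanti hnon
    ((hclosed 0).isCompact) hclosed
  exact ⟨fun j => (s j : S), fun n => Set.mem_iInter.1 hs n⟩

/-! ### Local states -/

/-- The block of the states of the word `w ∈ ϑ b`. -/
def tlBlk (b : A) (w : List A) : List (A × List A × ℕ) :=
  (List.range w.length).map (fun k => (b, w, k))

/-- Decorated images of words. -/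
inductive TlDec (ϑ : A → Finset (List A)) : List A → List (A × List A × ℕ) → Prop
  | nil : TlDec ϑ [] []
  | cons (b : A) (w : List A) (hw : w ∈ ϑ b) (u : List A) (z : List (A × List A × ℕ))
      (h : TlDec ϑ u z) : TlDec ϑ (b :: u) (tlBlk b w ++ z)

/-- The letter of a state. -/
def tlLet (p : A × List A × ℕ) : Option A := p.2.1[p.2.2]?

/-- The letters of the blocks which start in a list of states. -/
def tlUn (z : List (A × List A × ℕ)) : List A := (z.filter (fun p => p.2.2 = 0)).map Prod.fst

/-- The successor rule. -/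
def TlR (p q : A × List A × ℕ) : Prop :=
  (p.2.2 + 1 < p.2.1.length → q = (p.1, p.2.1, p.2.2 + 1)) ∧
    (p.2.2 + 1 = p.2.1.length → q.2.2 = 0)

theorem tlBlk_let (b : A) (w : List A) : (tlBlk b w).map tlLet = w.map some := by
  unfold tlBlk
  rw [List.map_map]
  apply List.ext_getElem
  · simp
  · intro i h1 h2
    simp at h1 h2
    simp [tlLet, h2]

theorem tlUn_append (z z' : List (A × List A × ℕ)) : tlUn (z ++ z') = tlUn z ++ tlUn z' := by
  simp [tlUn]

theorem tlUn_blk (b : A) (w : List A) (hw : w ≠ []) : tlUn (tlBlk b w) = [b] := by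
  cases w with
  | nil => exact absurd rfl hw
  | cons a w =>
    unfold tlUn tlBlk
    rw [List.length_cons, List.range_succ_eq_map]
    simp [List.filter_map, Function.comp_def]

theorem tl_exists_dec (ϑ : A → Finset (List A)) : ∀ (u v : List A), v ∈ imgW ϑ u →
    ∃ z, TlDec ϑ u z ∧ z.map tlLet = v.map some := by
  intro u
  induction u with
  | nil =>
    intro v hv
    have : v = [] := hv
    subst this
    exact ⟨[], TlDec.nil, rfl⟩
  | cons b u ih =>
    rintro v ⟨w, hw, t, ht, rfl⟩
    obtain ⟨z, hz, hz'⟩ := ih t ht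
    refine ⟨tlBlk b w ++ z, TlDec.cons b w hw u z hz, ?_⟩
    rw [List.map_append, List.map_append, tlBlk_let, hz']

theorem tl_dec_mem {ϑ : A → Finset (List A)} {u : List A} {z : List (A × List A × ℕ)}
    (h : TlDec ϑ u z) : ∀ p ∈ z, p.2.1 ∈ ϑ p.1 ∧ p.2.2 < p.2.1.length := by
  induction h with
  | nil => simp
  | cons b w hw u z _ ih =>
    intro p hp
    rcases List.mem_append.1 hp with hp | hp
    · obtain ⟨k, hk, rfl⟩ := List.mem_map.1 hp
      exact ⟨hw, List.mem_range.1 hk⟩
    · exact ih p hp

theorem tl_dec_un {ϑ : A → Finset (List A)} (hϑ : IsRandomSub ϑ) {u : List A}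
    {z : List (A × List A × ℕ)} (h : TlDec ϑ u z) : tlUn z = u := by
  induction h with
  | nil => rfl
  | cons b w hw u z _ ih =>
    rw [tlUn_append, tlUn_blk b w ((hϑ b).2 w hw), ih]
    rfl

theorem tl_dec_head {ϑ : A → Finset (List A)} (hϑ : IsRandomSub ϑ) {u : List A}
    {z : List (A × List A × ℕ)} (h : TlDec ϑ u z) : ∀ p ∈ z.head?, p.2.2 = 0 := by
  cases h with
  | nil => simp
  | cons b w hw u z _ =>
    have hw' := (hϑ b).2 w hw
    cases w with
    | nil => exact absurd rfl hw'
    | cons a w =>
      intro p hp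
      simp [tlBlk, List.range_succ_eq_map] at hp
      rw [← hp]

theorem tl_chain_blk (b : A) (w : List A) : (tlBlk b w).IsChain TlR := by
  rw [List.isChain_iff_getElem]
  intro i hi
  simp only [tlBlk, List.length_map, List.length_range] at hi
  simp only [tlBlk, List.getElem_map, List.getElem_range]
  constructor
  · intro _
    rfl
  · intro h
    simp only at h
    omega

theorem tl_dec_chain {ϑ : A → Finset (List A)} (hϑ : IsRandomSub ϑ) {u : List A}
    {z : List (A × List A × ℕ)} (h : TlDec ϑ u z) : z.IsChain TlR := by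
  induction h with
  | nil => exact List.isChain_nil
  | cons b w hw u z hz ih =>
    rw [List.isChain_append]
    refine ⟨tl_chain_blk b w, ih, ?_⟩
    intro p hp q hq
    have hw' := (hϑ b).2 w hw
    have hpos : 0 < w.length := List.length_pos_of_ne_nil hw'
    have hp2 : p = (b, w, w.length - 1) := by
      simp only [tlBlk, List.getLast?_map, List.getLast?_range] at hp
      simp [hw'] at hp
      rw [← hp]
    have hq2 := tl_dec_head hϑ hz q hq
    subst hp2
    constructor
    · intro h
      simp only at h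
      omega
    · intro _
      exact hq2

/-! ### The tiling -/

theorem exists_tiles [Finite A] {ϑ : A → Finset (List A)} (hϑ : IsRandomSub ϑ) (ℓ : A → ℕ)
    (hℓ : ∀ a, ∀ v ∈ ϑ a, v.length = ℓ a) {x : ℤ → A} (hx : x ∈ subshift ϑ) :
    ∃ y ∈ subshift ϑ, ∃ c : ℤ → ℤ, (∀ i, c (i + 1) = c i + ℓ (y i)) ∧
      (∀ i, wd x (c i) (ℓ (y i)) ∈ ϑ (y i)) ∧ c 0 ≤ 0 ∧ 0 < c 1 := by
  classical
  -- the finite set of the states
  let F : Set (A × List A × ℕ) := {p | p.2.1 ∈ ϑ p.1 ∧ p.2.2 < p.2.1.length}
  have hF : F.Finite := by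
    have h1 : (⋃ b : A, ⋃ w ∈ ((ϑ b : Finset (List A)) : Set (List A)),
        (fun k : ℕ => ((b, w, k) : A × List A × ℕ)) '' (Set.Iio w.length)).Finite := by
      apply Set.finite_iUnion
      intro b
      apply Set.Finite.biUnion (Finset.finite_toSet _)
      intro w _
      exact (Set.finite_Iio _).image _
    apply h1.subset
    rintro ⟨b, w, k⟩ ⟨h2, h3⟩
    simp only [Set.mem_iUnion]
    exact ⟨b, w, h2, k, h3, rfl⟩
  let P : ℕ → (ℤ → A × List A × ℕ) → Prop := fun (n : ℕ) s =>
    (∃ u z, Legal ϑ u ∧ TlDec ϑ u z ∧ wd s (-(n : ℤ)) (2 * n + 1) <:+: z) ∧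
      ∀ j : ℤ, -(n : ℤ) ≤ j → j ≤ n → tlLet (s j) = some (x j)
  obtain ⟨s, hs⟩ : ∃ s, ∀ n, P n s := by
    apply tl_compact F hF P
    · rintro n s s' h ⟨⟨u, z, h1, h2, h3⟩, h4⟩
      refine ⟨⟨u, z, h1, h2, ?_⟩, ?_⟩
      · have : wd s (-(n : ℤ)) (2 * n + 1) = wd s' (-(n : ℤ)) (2 * n + 1) := by
          apply tl_wd_congr
          intro j h5 h6
          apply h j h5
          push_cast at h6
          omega
        rwa [← this]
      · intro j h5 h6
        rw [← h j h5 h6]
        exact h4 j h5 h6
    · rintro n s ⟨⟨u, z, h1, h2, h3⟩, h4⟩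
      refine ⟨⟨u, z, h1, h2, ?_⟩, ?_⟩
      · refine List.IsInfix.trans (tl_wd_sub' s ?_ ?_) h3
        · push_cast
          omega
        · push_cast
          omega
      · intro j h5 h6
        apply h4 j <;> push_cast <;> omega
    · intro n
      obtain ⟨p, a, v, hv, hw⟩ := hx (-((n + 1 : ℕ) : ℤ)) (2 * (n + 1) + 1)
      cases p with
      | zero =>
        exfalso
        have hv' : v = [a] := hv
        subst hv'
        have := hw.length_le
        rw [tl_wd_length] at this
        simp at this
      | succ p =>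
        obtain ⟨u, hu, hvu⟩ := hv
        obtain ⟨z, hz, hz'⟩ := tl_exists_dec ϑ u v hvu
        have hin : wd x (-(n : ℤ)) (2 * n + 1) <:+: v := by
          refine List.IsInfix.trans (tl_wd_sub' x ?_ ?_) hw
          · push_cast
            omega
          · push_cast
            omega
        obtain ⟨v1, v3, hv13⟩ := hin
        rw [← hv13, List.map_append, List.map_append] at hz'
        obtain ⟨z12, z3, hz1, hz2, hz3⟩ := List.map_eq_append_iff.1 hz'
        obtain ⟨z1, z2, hz4, hz5, hz6⟩ := List.map_eq_append_iff.1 hz2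
        have hlen : z2.length = 2 * n + 1 := by
          have := congrArg List.length hz6
          simpa [tl_wd_length] using this
        have h0 : 0 < z2.length := by omega
        let s : ℤ → A × List A × ℕ := fun j => z2.getD (j + n).toNat z2[0]
        have hsz : wd s (-(n : ℤ)) (2 * n + 1) = z2 := by
          apply List.ext_getElem
          · rw [tl_wd_length, hlen]
          · intro i h1 h2
            have h3 : (-(n : ℤ) + (i : ℤ) + n).toNat = i := by omega
            simp only [wd, List.getElem_map, List.getElem_range, s, h3]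
            rw [List.getD_eq_getElem _ _ h2]
        have hmem : ∀ p ∈ z2, p ∈ z := by
          intro p hp
          rw [hz1, hz4]
          simp [hp]
        refine ⟨s, ?_, ⟨u, z, ⟨p, a, u, hu, ⟨[], [], by simp⟩⟩, hz, ?_⟩, ?_⟩
        · intro j
          apply tl_dec_mem hz
          apply hmem
          by_cases hj : (j + n).toNat < z2.length
          · simp only [s]
            rw [List.getD_eq_getElem _ _ hj]
            exact List.getElem_mem _
          · simp only [s]
            rw [List.getD_eq_default _ _ (by omega)]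
            exact List.getElem_mem _
        · rw [hsz, hz1, hz4]
          exact ⟨z1, z3, rfl⟩
        · intro j h1 h2
          have h3 : (j + n).toNat < z2.length := by omega
          have h4 := hz6
          rw [← hsz] at h4
          have h5 := congrArg (fun l => l[(j + n).toNat]?) h4
          have h6 : (j + n).toNat < 2 * n + 1 := by omega
          have h7 : -(n : ℤ) + (((j + n).toNat : ℕ) : ℤ) = j := by omega
          simp only [wd, List.map_map, List.getElem?_map, List.getElem?_range h6,
            Option.map_some, Function.comp, h7] at h5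
          exact Option.some.inj h5
  -- the local rules
  have hwin : ∀ (j : ℤ) (m : ℕ), ∃ u z, Legal ϑ u ∧ TlDec ϑ u z ∧ wd s j m <:+: z := by
    intro j m
    obtain ⟨⟨u, z, h1, h2, h3⟩, -⟩ := hs (j.natAbs + m)
    exact ⟨u, z, h1, h2, List.IsInfix.trans (tl_wd_sub' s (by omega) (by omega)) h3⟩
  have hmem : ∀ j, (s j).2.1 ∈ ϑ (s j).1 ∧ (s j).2.2 < (s j).2.1.length := by
    intro j
    obtain ⟨u, z, -, h2, h3⟩ := hwin j 1
    apply tl_dec_mem h2
    apply h3.subset
    simp [wd]
  have hR : ∀ j, TlR (s j) (s (j + 1)) := by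
    intro j
    obtain ⟨u, z, -, h2, h3⟩ := hwin j 2
    have h4 : (wd s j 2).IsChain TlR := by
      obtain ⟨z1, z3, h6⟩ := h3
      have h7 := tl_dec_chain hϑ h2
      rw [← h6, List.isChain_append, List.isChain_append] at h7
      exact h7.1.2.1
    have h5 : wd s j 2 = [s j, s (j + 1)] := by
      simp [wd, List.range_succ]
    rw [h5] at h4
    simpa using h4
  have hlet : ∀ j, tlLet (s j) = some (x j) := by
    intro j
    exact (hs j.natAbs).2 j (by omega) (by omega)
  have hlegal : ∀ j m, Legal ϑ (tlUn (wd s j m)) := by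
    intro j m
    obtain ⟨u, z, h1, h2, h3⟩ := hwin j m
    obtain ⟨p, a, v, hv, hw⟩ := h1
    refine ⟨p, a, v, hv, List.IsInfix.trans ?_ hw⟩
    rw [← tl_dec_un hϑ h2]
    obtain ⟨z1, z3, h4⟩ := h3
    rw [← h4, tlUn_append, tlUn_append]
    exact ⟨_, _, rfl⟩
  -- forward
  have hfwd : ∀ j, (s j).2.2 = 0 → ∀ k : ℕ, k < (s j).2.1.length →
      s (j + k) = ((s j).1, (s j).2.1, k) := by
    intro j hj k
    induction k with
    | zero =>
      intro _
      simp only [Nat.cast_zero, add_zero]
      rw [← hj]
    | succ k ih =>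
      intro hk
      have h1 := ih (by omega)
      have h2 := (hR (j + k)).1
      rw [h1] at h2
      have h3 := h2 hk
      have h4 : j + ((k + 1 : ℕ) : ℤ) = j + k + 1 := by
        push_cast
        ring
      rw [h4, h3]
  have hnext : ∀ j, (s j).2.2 = 0 → (s (j + (s j).2.1.length)).2.2 = 0 := by
    intro j hj
    have h0 := (hmem j).2
    have h1 := hfwd j hj ((s j).2.1.length - 1) (by omega)
    have h2 := (hR (j + ((s j).2.1.length - 1 : ℕ))).2
    rw [h1] at h2
    have h3 := h2 (by simp only; omega)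
    have h4 : j + ((s j).2.1.length : ℤ) = j + (((s j).2.1.length - 1 : ℕ) : ℤ) + 1 := by omega
    rw [h4]
    exact h3
  -- backward
  have hback : ∀ (k : ℕ) (j : ℤ), (s j).2.2 = k → s (j - k) = ((s j).1, (s j).2.1, 0) := by
    intro k
    induction k with
    | zero =>
      intro j hj
      simp only [Nat.cast_zero, sub_zero]
      rw [← hj]
    | succ k ih =>
      intro j hj
      have h1 := hR (j - 1)
      rw [sub_add_cancel] at h1
      have h2 := (hmem (j - 1)).2
      have h3 : (s (j - 1)).2.2 + 1 < (s (j - 1)).2.1.length := by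
        rcases Nat.lt_or_ge ((s (j - 1)).2.2 + 1) (s (j - 1)).2.1.length with h | h
        · exact h
        · have := h1.2 (by omega)
          omega
      have h4 := h1.1 h3
      have h5 : (s (j - 1)).2.2 = k := by
        rw [h4] at hj
        simp only at hj
        omega
      have h6 := ih (j - 1) h5
      have h7 : j - ((k + 1 : ℕ) : ℤ) = j - 1 - k := by
        push_cast
        ring
      rw [h7, h6, h4]
  -- the shift of the tile starts
  let e : Equiv.Perm {j : ℤ // (s j).2.2 = 0} :=
    { toFun := fun j => ⟨j.1 + (s j.1).2.1.length, hnext j.1 j.2⟩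
      invFun := fun j => ⟨j.1 - 1 - (s (j.1 - 1)).2.2, by
        rw [hback _ _ rfl]⟩
      left_inv := by
        rintro ⟨j, hj⟩
        apply Subtype.ext
        simp only
        have h0 := (hmem j).2
        have h1 := hfwd j hj ((s j).2.1.length - 1) (by omega)
        have h4 : j + ((s j).2.1.length : ℤ) - 1 = j + (((s j).2.1.length - 1 : ℕ) : ℤ) := by omega
        rw [h4, h1]
        simp only
        omega
      right_inv := by
        rintro ⟨j, hj⟩
        apply Subtype.ext
        simp only
        rw [hback _ (j - 1) rfl]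
        simp only
        have h1 := hR (j - 1)
        rw [sub_add_cancel] at h1
        have h2 := (hmem (j - 1)).2
        rcases Nat.lt_or_ge ((s (j - 1)).2.2 + 1) (s (j - 1)).2.1.length with h | h
        · have h3 := h1.1 h
          rw [h3] at hj
          simp at hj
        · omega }
  let t0 : {j : ℤ // (s j).2.2 = 0} := ⟨0 - ((s 0).2.2 : ℤ), by rw [hback _ _ rfl]⟩
  let c : ℤ → ℤ := fun i => ((e ^ i) t0).1
  have hc0 : ∀ i, (s (c i)).2.2 = 0 := fun i => ((e ^ i) t0).2
  have hc1 : ∀ i, c (i + 1) = c i + (s (c i)).2.1.length := by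
    intro i
    have h1 : e ^ (i + 1) = e * e ^ i := by
      rw [add_comm, zpow_one_add]
    simp only [c]
    rw [h1, Equiv.Perm.mul_apply]
    rfl
  let y : ℤ → A := fun i => (s (c i)).1
  have hlen : ∀ i, (s (c i)).2.1.length = ℓ (y i) := fun i => hℓ _ _ (hmem (c i)).1
  have hblk : ∀ i, wd s (c i) (s (c i)).2.1.length = tlBlk (y i) (s (c i)).2.1 := by
    intro i
    unfold wd tlBlk
    apply List.map_congr_left
    intro k hk
    exact hfwd (c i) (hc0 i) k (List.mem_range.1 hk)
  refine ⟨y, ?_, c, ?_, ?_, ?_, ?_⟩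
  · intro i n
    have hkey : ∀ n : ℕ, ∃ m : ℕ, c (i + n) = c i + m ∧ tlUn (wd s (c i) m) = wd y i n := by
      intro n
      induction n with
      | zero => exact ⟨0, by simp, rfl⟩
      | succ n ih =>
        obtain ⟨m, h1, h2⟩ := ih
        refine ⟨m + (s (c (i + n))).2.1.length, ?_, ?_⟩
        · have h3 : i + ((n + 1 : ℕ) : ℤ) = i + n + 1 := by
            push_cast
            ring
          rw [h3, hc1, h1]
          push_cast
          ring
        · rw [tl_wd_add, tlUn_append, h2, ← h1, hblk, tlUn_blk, tl_wd_add y i n 1]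
          · simp [wd]
          · exact (hϑ _).2 _ (hmem _).1
    obtain ⟨m, -, h2⟩ := hkey n
    rw [← h2]
    exact hlegal _ _
  · intro i
    rw [hc1, hlen]
  · intro i
    have h1 : wd x (c i) (ℓ (y i)) = (s (c i)).2.1 := by
      apply List.ext_getElem
      · rw [tl_wd_length, hlen]
      · intro k h2 h3
        simp only [wd, List.getElem_map, List.getElem_range]
        have h4 := hlet (c i + k)
        rw [hfwd (c i) (hc0 i) k h3] at h4
        simp only [tlLet, List.getElem?_eq_getElem h3, Option.some.injEq] at h4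
        exact h4.symm
    rw [h1]
    exact (hmem (c i)).1
  · simp only [c, t0, zpow_zero, Equiv.Perm.one_apply]
    omega
  · have h1 := hc1 0
    rw [zero_add] at h1
    rw [h1]
    have h2 : c 0 = 0 - ((s 0).2.2 : ℤ) := by
      simp only [c, t0, zpow_zero, Equiv.Perm.one_apply]
    have h3 := hback _ 0 rfl
    rw [h2, h3]
    have h4 := (hmem 0).2
    simp only
    omega

end H35.RS
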