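import Pool.Agent.H35.RS.Basic2
import Pool.Agent.H35.RS.Tiles

/-!
# The example of the problem file

`a ↦ {abaa, aaba}`, `b ↦ {abab, baba}` (`a = false`, `b = true`).
-/

namespace H35.RS.Ex

open H35.RS

/-- The random substitution `a ↦ {abaa, aaba}`, `b ↦ {abab, baba}` (`a = false`, `b = true`). -/
def ex : Bool → Finset (List Bool)
  | false => {[false, true, false, false], [false, false, true, false]}
  | true => {[false, true, false, true], [true, false, true, false]}

theorem mem_ex_false {v : List Bool} : v ∈ ex false ↔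
    v = [false, true, false, false] ∨ v = [false, false, true, false] := by
  simp [ex]

theorem mem_ex_true {v : List Bool} : v ∈ ex true ↔
    v = [false, true, false, true] ∨ v = [true, false, true, false] := by
  simp [ex]

theorem ex_isRandomSub : IsRandomSub ex := by
  intro a
  cases a
  · refine ⟨⟨_, mem_ex_false.2 (Or.inl rfl)⟩, ?_⟩
    intro v hv
    rcases mem_ex_false.1 hv with rfl | rfl <;> simp
  · refine ⟨⟨_, mem_ex_true.2 (Or.inl rfl)⟩, ?_⟩
    intro v hv
    rcases mem_ex_true.1 hv with rfl | rfl <;> simp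

theorem ex_length : ∀ a, ∀ v ∈ ex a, v.length = 4 := by
  intro a v hv
  cases a
  · rcases mem_ex_false.1 hv with rfl | rfl <;> rfl
  · rcases mem_ex_true.1 hv with rfl | rfl <;> rfl

theorem ex_compatible : Compatible ex := by
  intro a v hv v' hv'
  cases a
  · rcases mem_ex_false.1 hv with rfl | rfl <;> rcases mem_ex_false.1 hv' with rfl | rfl <;> decide
  · rcases mem_ex_true.1 hv with rfl | rfl <;> rcases mem_ex_true.1 hv' with rfl | rfl <;> decide

theorem ex_primitive : Primitive ex := by
  refine ⟨1, le_rfl, ?_⟩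
  have key : ∀ b, ∀ v ∈ ex b, v ∈ pow ex 1 b := by
    intro b v hv
    exact ⟨[b], rfl, v, hv, [], rfl, (List.append_nil v).symm⟩
  intro a b
  cases b
  · exact ⟨_, key false _ (mem_ex_false.2 (Or.inl rfl)), by cases a <;> simp⟩
  · exact ⟨_, key true _ (mem_ex_true.2 (Or.inl rfl)), by cases a <;> simp⟩

theorem ex_two : ∃ b, ∀ v ∈ ex b, ∃ v', v' ≠ v ∧ ∀ a, v ∈ ex a ↔ v' ∈ ex a := by
  refine ⟨false, ?_⟩
  intro v hv
  rcases mem_ex_false.1 hv with rfl | rfl
  · refine ⟨[false, false, true, false], by decide, ?_⟩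
    decide
  · refine ⟨[false, true, false, false], by decide, ?_⟩
    decide

theorem wd4 (x : ℤ → Bool) (p : ℤ) : wd x p 4 = [x p, x (p + 1), x (p + 2), x (p + 3)] := by
  simp [wd, List.range_succ]

/-- parsing into blocks of length four -/
theorem ex_tiles {x : ℤ → Bool} (hx : x ∈ subshift ex) : ∃ y ∈ subshift ex, ∃ c : ℤ,
    ∀ i : ℤ, wd x (c + 4 * i) 4 ∈ ex (y i) := by
  obtain ⟨y, hy, c, hc, hw, -, -⟩ := exists_tiles ex_isRandomSub (fun _ => 4)
    (fun a v hv => ex_length a v hv) hx
  have h1 : ∀ i : ℤ, c i = c 0 + 4 * i := by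
    intro i
    induction i using Int.induction_on with
    | zero => ring
    | succ i ih =>
      have := hc i
      push_cast at this
      rw [this, ih]
      ring
    | pred i ih =>
      have := hc (-i - 1)
      push_cast at this
      rw [show (-(i : ℤ) - 1 + 1) = -i by ring, ih] at this
      linarith
  refine ⟨y, hy, c 0, fun i => ?_⟩
  rw [← h1 i]
  exact hw i

/-- images of points of the subshift with blocks of length four -/
theorem ex_img {x y : ℤ → Bool} (hy : y ∈ subshift ex) (c : ℤ)
    (h : ∀ i : ℤ, wd x (c + 4 * i) 4 ∈ ex (y i)) : x ∈ subshift ex := by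
  refine mem_subshift_of_tiles ex_isRandomSub hy (fun i => wd x (c + 4 * i) 4)
    (fun i => c + 4 * i) h ?_ ?_
  · intro i
    simp only [wd, List.length_map, List.length_range]
    push_cast
    ring
  · intro i
    simp only [wd, List.length_map, List.length_range]

theorem ex_nonempty : (subshift ex).Nonempty := by
  apply subshift_nonempty
  have hl : ∀ u : List Bool, ∀ v ∈ imgW ex u, v.length = 4 * u.length := by
    intro u
    induction u with
    | nil =>
      intro v hv
      have : v = [] := hv
      subst this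
      rfl
    | cons a u ih =>
      rintro v ⟨s, hs, t, ht, rfl⟩
      rw [List.length_append, ex_length a s hs, ih t ht, List.length_cons]
      ring
  have h1 : ∀ n : ℕ, ∃ v ∈ pow ex n false, n ≤ v.length ∧ 1 ≤ v.length := by
    intro n
    induction n with
    | zero => exact ⟨[false], rfl, by simp, by simp⟩
    | succ n ih =>
      obtain ⟨u, hu, hn, h1⟩ := ih
      obtain ⟨v, hv⟩ := imgW_nonempty ex_isRandomSub u
      refine ⟨v, ⟨u, hu, hv⟩, ?_, ?_⟩ <;> rw [hl u v hv] <;> omega
  intro n
  obtain ⟨v, hv, hn, -⟩ := h1 n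
  exact ⟨v, ⟨n, false, v, hv, List.infix_refl v⟩, hn⟩

/-- a block determines its letter -/
theorem ex_inj {v : List Bool} {a b : Bool} (ha : v ∈ ex a) (hb : v ∈ ex b) : a = b := by
  cases a <;> cases b <;> try rfl
  · rcases mem_ex_false.1 ha with rfl | rfl <;> rcases mem_ex_true.1 hb with h | h <;> simp at h
  · rcases mem_ex_true.1 ha with rfl | rfl <;> rcases mem_ex_false.1 hb with h | h <;> simp at h

theorem sh_mul {x : ℤ → Bool} {n : ℤ} (h : sh n x = x) (m : ℤ) (i : ℤ) : x (i + m * n) = x i := by
  have h0 : ∀ i, x (i + n) = x i := fun i => congrFun h i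
  induction m using Int.induction_on with
  | zero => simp
  | succ m ih =>
    rw [← ih, ← h0 (i + m * n)]
    congr 1
    ring
  | pred m ih =>
    rw [← ih, ← h0 (i + (-m - 1) * n)]
    congr 1
    ring

theorem ex_aperiodic_aux : ∀ n : ℕ, 1 ≤ n → ∀ x ∈ subshift ex, sh (n : ℤ) x ≠ x := by
  intro n
  induction n using Nat.strong_induction_on with
  | _ n ih =>
    intro hn x hx hper
    obtain ⟨y, hy, c, hc⟩ := ex_tiles hx
    rcases Nat.even_or_odd n with ⟨m, hm⟩ | ⟨m, hm⟩
    · -- `n = m + m`, so `4 m` is a period of `x` and `m` is a period of `y`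
      refine ih m (by omega) (by omega) y hy ?_
      funext i
      rw [sh_apply]
      refine ex_inj (hc (i + m)) ?_
      have h1 : wd x (c + 4 * (i + m)) 4 = wd x (c + 4 * i) 4 := by
        rw [wd4, wd4]
        have h2 : ∀ j : ℤ, x (j + 4 * m) = x j := by
          intro j
          have h3 := sh_mul hper 2 j
          rw [← h3]
          congr 1
          rw [hm]
          push_cast
          ring
        rw [show c + 4 * (i + (m : ℤ)) = (c + 4 * i) + 4 * m by ring, h2,
          show c + 4 * i + 4 * (m : ℤ) + 1 = (c + 4 * i + 1) + 4 * m by ring, h2,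
          show c + 4 * i + 4 * (m : ℤ) + 2 = (c + 4 * i + 2) + 4 * m by ring, h2,
          show c + 4 * i + 4 * (m : ℤ) + 3 = (c + 4 * i + 3) + 4 * m by ring, h2]
      rw [h1]
      exact hc i
    · -- `n` odd: every factor of length four is a block
      have hall : ∀ p : ℤ, ∃ a, wd x p 4 ∈ ex a := by
        intro p
        -- find `i, t` with `c + 4 i + t n = p`
        have hcop : IsCoprime (4 : ℤ) (n : ℤ) := by
          rw [hm]
          have h2 : IsCoprime (2 : ℤ) ((2 * m + 1 : ℕ) : ℤ) := ⟨-m, 1, by push_cast; ring⟩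
          have h4 : (4 : ℤ) = 2 * 2 := by norm_num
          rw [h4]
          exact IsCoprime.mul_left h2 h2
        obtain ⟨s, t, hst⟩ := hcop
        refine ⟨y ((p - c) * s), ?_⟩
        have h1 := hc ((p - c) * s)
        have h2 : wd x p 4 = wd x (c + 4 * ((p - c) * s)) 4 := by
          have h3 : ∀ j : ℤ, x (p + j) = x (c + 4 * ((p - c) * s) + j) := by
            intro j
            rw [← sh_mul hper ((p - c) * t) (c + 4 * ((p - c) * s) + j)]
            congr 1
            linear_combination (-(p - c)) * hst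
          rw [wd4, wd4, ← h3 1, ← h3 2, ← h3 3]
          have h4 := h3 0
          rw [add_zero, add_zero] at h4
          rw [h4]
        rw [h2]
        exact h1
      have hcase : ∀ p : ℤ, (x p = false ∧ x (p + 1) = true ∧ x (p + 2) = false ∧
          x (p + 3) = false) ∨ (x p = false ∧ x (p + 1) = false ∧ x (p + 2) = true ∧
          x (p + 3) = false) ∨ (x p = false ∧ x (p + 1) = true ∧ x (p + 2) = false ∧
          x (p + 3) = true) ∨ (x p = true ∧ x (p + 1) = false ∧ x (p + 2) = true ∧
          x (p + 3) = false) := by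
        intro p
        obtain ⟨a, ha⟩ := hall p
        rw [wd4] at ha
        cases a
        · rcases mem_ex_false.1 ha with h | h <;> simp only [List.cons.injEq, and_true] at h <;>
            tauto
        · rcases mem_ex_true.1 ha with h | h <;> simp only [List.cons.injEq, and_true] at h <;>
            tauto
      have hne : ∀ p : ℤ, x (p + 1) = !(x p) := by
        intro p
        have h0 := hcase (p - 2)
        have h1 := hcase (p - 1)
        have h2 := hcase p
        have h3 := hcase (p + 1)
        rw [show p - 2 + 1 = p - 1 by ring, show p - 2 + 2 = p by ring,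
          show p - 2 + 3 = p + 1 by ring] at h0
        rw [show p - 1 + 1 = p by ring, show p - 1 + 2 = p + 1 by ring,
          show p - 1 + 3 = p + 2 by ring] at h1
        rw [show p + 1 + 1 = p + 2 by ring, show p + 1 + 2 = p + 3 by ring,
          show p + 1 + 3 = p + 4 by ring] at h3
        cases hx0 : x p <;> cases hx1 : x (p + 1) <;> simp_all
      have hmul : ∀ k : ℕ, x ((2 * k : ℕ) : ℤ) = x 0 := by
        intro k
        induction k with
        | zero => rfl
        | succ k ihk =>
          rw [← ihk, show (((2 * (k + 1) : ℕ)) : ℤ) = ((2 * k : ℕ) : ℤ) + 1 + 1 by push_cast; ring,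
            hne, hne, Bool.not_not]
      have h1 := congrFun hper 0
      rw [sh_apply, zero_add, hm] at h1
      have h2 := hne ((2 * m : ℕ) : ℤ)
      rw [hmul m] at h2
      push_cast at h1 h2
      rw [h2] at h1
      cases hx0 : x 0 <;> simp_all

theorem ex_aperiodic : Aperiodic (subshift ex) := fun x hx n hn => ex_aperiodic_aux n hn x hx

/-- imaging with blocks of length four -/
theorem ex_desub {x y : ℤ → Bool} (hy : y ∈ subshift ex) (k : ℕ) (hk : k < 4)
    (h : ∀ i : ℤ, wd x (4 * i - k) 4 ∈ ex (y i)) : Desub ex x y k := by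
  refine ⟨hy, ?_, ?_⟩
  · obtain ⟨v, hv⟩ := (ex_isRandomSub (y 0)).1
    exact ⟨v, hv, by rw [ex_length _ v hv]; exact hk⟩
  · refine ⟨fun i => wd x (4 * i - k) 4, fun i => 4 * i, h, rfl, ?_, ?_⟩
    · intro i
      simp only [wd, List.length_map, List.length_range]
      push_cast
      ring
    · intro i
      simp only [wd_sh]
      have : (wd x (4 * i - k) 4).length = 4 := by
        simp only [wd, List.length_map, List.length_range]
      rw [this, sub_eq_add_neg]

theorem desub_tiles {x y : ℤ → Bool} {k : ℕ} (h : Desub ex x y k) :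
    k < 4 ∧ ∀ i : ℤ, wd x (4 * i - k) 4 ∈ ex (y i) := by
  obtain ⟨-, ⟨v, hv, hk⟩, u, c, hu, hc0, hc, hw⟩ := h
  rw [ex_length _ v hv] at hk
  refine ⟨hk, ?_⟩
  have h1 : ∀ i : ℤ, c i = 4 * i := by
    intro i
    induction i using Int.induction_on with
    | zero => simpa using hc0
    | succ i ih =>
      have := hc i
      rw [ex_length _ _ (hu i), ih] at this
      rw [this]
      push_cast
      ring
    | pred i ih =>
      have := hc (-i - 1)
      rw [ex_length _ _ (hu _), show (-(i : ℤ) - 1 + 1) = -i by ring, ih] at this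
      push_cast at this
      linarith
  intro i
  have h2 := hw i
  rw [ex_length _ _ (hu i), wd_sh, h1 i] at h2
  rw [show 4 * i - (k : ℤ) = 4 * i + -(k : ℤ) by ring, h2]
  exact hu i

/-- blocks of a sequence given by its residues modulo four -/
theorem ex_not_recognisable : ¬ Recognisable ex := by
  intro hrec
  obtain ⟨y, hy⟩ := ex_nonempty
  let x : ℤ → Bool := fun j => if j % 4 = 0 then y (j / 4) else if j % 4 = 2 then true else false
  have hx0 : ∀ i : ℤ, x (4 * i) = y i := by
    intro i
    have h1 : (4 * i) % 4 = 0 := by omega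
    have h2 : (4 * i) / 4 = i := by omega
    simp only [x, h1, h2, if_true]
  have hx1 : ∀ i : ℤ, x (4 * i + 1) = false := by
    intro i
    have h1 : (4 * i + 1) % 4 = 1 := by omega
    simp [x, h1]
  have hx2 : ∀ i : ℤ, x (4 * i + 2) = true := by
    intro i
    have h1 : (4 * i + 2) % 4 = 2 := by omega
    simp [x, h1]
  have hx3 : ∀ i : ℤ, x (4 * i + 3) = false := by
    intro i
    have h1 : (4 * i + 3) % 4 = 3 := by omega
    simp [x, h1]
  have ht0 : ∀ i : ℤ, wd x (4 * i - (0 : ℕ)) 4 ∈ ex (y i) := by
    intro i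
    rw [Nat.cast_zero, sub_zero, wd4, hx0, hx1, hx2, hx3]
    cases y i <;> simp [ex]
  have ht3 : ∀ i : ℤ, wd x (4 * i - (3 : ℕ)) 4 ∈ ex (y i) := by
    intro i
    rw [wd4, show 4 * i - ((3 : ℕ) : ℤ) = 4 * (i - 1) + 1 by push_cast; ring,
      show 4 * (i - 1) + 1 + 1 = 4 * (i - 1) + 2 by ring,
      show 4 * (i - 1) + 1 + 2 = 4 * (i - 1) + 3 by ring,
      show 4 * (i - 1) + 1 + 3 = 4 * i by ring, hx0, hx1, hx2, hx3]
    cases y i <;> simp [ex]
  have hxX : x ∈ subshift ex := by
    refine ex_img hy 0 (fun i => ?_)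
    have := ht0 i
    rwa [Nat.cast_zero, sub_zero, ← zero_add (4 * i)] at this
  obtain ⟨q, -, hq⟩ := hrec x hxX
  have h1 := hq (y, 0) (ex_desub hy 0 (by norm_num) ht0)
  have h2 := hq (y, 3) (ex_desub hy 3 (by norm_num) ht3)
  have h3 := h1.trans h2.symm
  simp at h3

theorem ex_sh_mem {x : ℤ → Bool} (hx : x ∈ subshift ex) (k : ℤ) : sh k x ∈ subshift ex := by
  intro i n
  rw [wd_sh]
  exact hx _ n

theorem ex_unique_phase : ∃ x ∈ subshift ex, ∃! k : ℕ, ∃ y, Desub ex x y k := by
  -- a point with `z 0 = z 1 = a`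
  obtain ⟨z, hz, hz0, hz1⟩ : ∃ z ∈ subshift ex, z 0 = false ∧ z 1 = false := by
    obtain ⟨w, hw⟩ := ex_nonempty
    obtain ⟨y', -, c, hc⟩ := ex_tiles hw
    obtain ⟨j, hj⟩ : ∃ j, w j = false := by
      have h1 := hc 0
      rw [wd4] at h1
      cases hy : y' 0
      · rw [hy] at h1
        rcases mem_ex_false.1 h1 with h | h <;> simp only [List.cons.injEq, and_true] at h <;>
          exact ⟨_, h.1⟩
      · rw [hy] at h1
        rcases mem_ex_true.1 h1 with h | h <;> simp only [List.cons.injEq, and_true] at h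
        · exact ⟨_, h.1⟩
        · exact ⟨_, h.2.1⟩
    let x : ℤ → Bool := fun j => if j % 4 = 0 then false else if j % 4 = 1 then true else
      if j % 4 = 2 then false else w (j / 4)
    have hx0 : ∀ i : ℤ, x (4 * i) = false := by
      intro i
      have h1 : (4 * i) % 4 = 0 := by omega
      simp [x, h1]
    have hx1 : ∀ i : ℤ, x (4 * i + 1) = true := by
      intro i
      have h1 : (4 * i + 1) % 4 = 1 := by omega
      simp [x, h1]
    have hx2 : ∀ i : ℤ, x (4 * i + 2) = false := by
      intro i
      have h1 : (4 * i + 2) % 4 = 2 := by omega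
      simp [x, h1]
    have hx3 : ∀ i : ℤ, x (4 * i + 3) = w i := by
      intro i
      have h1 : (4 * i + 3) % 4 = 3 := by omega
      have h2 : (4 * i + 3) / 4 = i := by omega
      simp [x, h1, h2]
    have hxX : x ∈ subshift ex := by
      refine ex_img hw 0 (fun i => ?_)
      rw [zero_add, wd4, hx0, hx1, hx2, hx3]
      cases w i <;> simp [ex]
    refine ⟨sh (4 * j + 2) x, ex_sh_mem hxX _, ?_, ?_⟩
    · rw [sh_apply, zero_add, hx2]
    · rw [sh_apply, show (1 : ℤ) + (4 * j + 2) = 4 * j + 3 by ring, hx3, hj]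
  let u : ℤ → List Bool := fun i => if i = 0 then [false, true, false, false] else
    if z i = false then [false, false, true, false] else [true, false, true, false]
  let x : ℤ → Bool := fun j => (u (j / 4)).getD (j % 4).toNat false
  have hu : ∀ i, u i ∈ ex (z i) := by
    intro i
    by_cases hi : i = 0
    · subst hi
      rw [hz0]
      simp [u, ex]
    · cases hzi : z i
      · simp [u, hi, hzi, ex]
      · simp [u, hi, hzi, ex]
  have hx : ∀ i : ℤ, wd x (4 * i) 4 = u i := by
    intro i
    have h0 : x (4 * i) = (u i).getD 0 false := by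
      have h1 : (4 * i) / 4 = i := by omega
      have h2 : ((4 * i) % 4).toNat = 0 := by omega
      simp only [x, h1, h2]
    have h1 : x (4 * i + 1) = (u i).getD 1 false := by
      have h1 : (4 * i + 1) / 4 = i := by omega
      have h2 : ((4 * i + 1) % 4).toNat = 1 := by omega
      simp only [x, h1, h2]
    have h2 : x (4 * i + 2) = (u i).getD 2 false := by
      have h1 : (4 * i + 2) / 4 = i := by omega
      have h2 : ((4 * i + 2) % 4).toNat = 2 := by omega
      simp only [x, h1, h2]
    have h3 : x (4 * i + 3) = (u i).getD 3 false := by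
      have h1 : (4 * i + 3) / 4 = i := by omega
      have h2 : ((4 * i + 3) % 4).toNat = 3 := by omega
      simp only [x, h1, h2]
    rw [wd4, h0, h1, h2, h3]
    have hl := ex_length _ _ (hu i)
    obtain ⟨a, b, c, e, habc⟩ : ∃ a b c e, u i = [a, b, c, e] := by
      rcases hui : u i with _ | ⟨a, _ | ⟨b, _ | ⟨c, _ | ⟨e, _ | ⟨f, l⟩⟩⟩⟩⟩
      · rw [hui] at hl; simp at hl
      · rw [hui] at hl; simp at hl
      · rw [hui] at hl; simp at hl
      · rw [hui] at hl; simp at hl
      · exact ⟨a, b, c, e, rfl⟩
      · rw [hui] at hl; simp at hl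
    rw [habc]
    rfl
  have hxX : x ∈ subshift ex := by
    refine ex_img hz 0 (fun i => ?_)
    rw [zero_add, hx]
    exact hu i
  have hv0 := hx 0
  have hv1 := hx 1
  rw [wd4] at hv0 hv1
  have hu0 : u 0 = [false, true, false, false] := by simp [u]
  have hu1 : u 1 = [false, false, true, false] := by simp [u, hz1]
  rw [hu0] at hv0
  rw [hu1] at hv1
  simp only [List.cons.injEq, and_true, mul_zero, zero_add, mul_one] at hv0 hv1
  refine ⟨x, hxX, 0, ⟨z, ex_desub hz 0 (by norm_num) (fun i => ?_)⟩, ?_⟩
  · rw [Nat.cast_zero, sub_zero, hx]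
    exact hu i
  · rintro k ⟨y, hy⟩
    obtain ⟨hk, ht⟩ := desub_tiles hy
    have hex : ∀ (a : Bool) (p q r s : Bool), [p, q, r, s] ∈ ex a →
        ¬ (p = false ∧ q = false ∧ r = false) ∧ ¬ (q = false ∧ r = false ∧ s = false) := by
      decide
    rcases Nat.lt_or_ge k 1 with h | h
    · omega
    · exfalso
      have h1 := ht 1
      rw [wd4] at h1
      have h2 := hex _ _ _ _ _ h1
      obtain ⟨hv00, hv01, hv02, hv03⟩ := hv0
      obtain ⟨hv10, hv11, hv12, hv13⟩ := hv1
      norm_num at hv11 hv12 hv13
      interval_cases k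
      · norm_num at h2
        simp_all
      · norm_num at h2
        simp_all
      · norm_num at h2
        simp_all

end H35.RS.Ex
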