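import Pool.Agent.H35.RS.FibDefs

/-!
# The random Fibonacci substitution: a flippable vertex in every window of 12 vertices
-/

namespace H35.RS.Fib

open H35.RS

theorem h97_core (g : ℝ) (hg1 : 0.618 < g) (hg2 : g < 0.6181) (w0 w1 w2 w3 w4 w5 w6 w7 w8 w9 : Bool)
    (u0 u1 u2 u3 u4 u5 u6 u7 u8 u9 u10 : ℝ)
    (L0 : -(2 + 2 * g) < u0) (U0 : u0 < 10 - 16 * g)
    (L1 : -(2 + 2 * g) < u1) (U1 : u1 < 10 - 16 * g)
    (L2 : -(2 + 2 * g) < u2) (U2 : u2 < 10 - 16 * g)
    (L3 : -(2 + 2 * g) < u3) (U3 : u3 < 10 - 16 * g)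
    (L4 : -(2 + 2 * g) < u4) (U4 : u4 < 10 - 16 * g)
    (L5 : -(2 + 2 * g) < u5) (U5 : u5 < 10 - 16 * g)
    (L6 : -(2 + 2 * g) < u6) (U6 : u6 < 10 - 16 * g)
    (L7 : -(2 + 2 * g) < u7) (U7 : u7 < 10 - 16 * g)
    (L8 : -(2 + 2 * g) < u8) (U8 : u8 < 10 - 16 * g)
    (L9 : -(2 + 2 * g) < u9) (U9 : u9 < 10 - 16 * g)
    (L10 : -(2 + 2 * g) < u10) (U10 : u10 < 10 - 16 * g)
    (H0 : (w0 = true ∧ u1 = u0 + 1) ∨ (w0 = false ∧ u1 = u0 - g))
    (H1 : (w1 = true ∧ u2 = u1 + 1) ∨ (w1 = false ∧ u2 = u1 - g))
    (H2 : (w2 = true ∧ u3 = u2 + 1) ∨ (w2 = false ∧ u3 = u2 - g))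
    (H3 : (w3 = true ∧ u4 = u3 + 1) ∨ (w3 = false ∧ u4 = u3 - g))
    (H4 : (w4 = true ∧ u5 = u4 + 1) ∨ (w4 = false ∧ u5 = u4 - g))
    (H5 : (w5 = true ∧ u6 = u5 + 1) ∨ (w5 = false ∧ u6 = u5 - g))
    (H6 : (w6 = true ∧ u7 = u6 + 1) ∨ (w6 = false ∧ u7 = u6 - g))
    (H7 : (w7 = true ∧ u8 = u7 + 1) ∨ (w7 = false ∧ u8 = u7 - g))
    (H8 : (w8 = true ∧ u9 = u8 + 1) ∨ (w8 = false ∧ u9 = u8 - g))
    (H9 : (w9 = true ∧ u10 = u9 + 1) ∨ (w9 = false ∧ u10 = u9 - g))
    (V1 : w0 = false → w1 = true → (u1 < 7 - 16 * g ∨ -3 * g < u1))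
    (P1 : w0 = true → w1 = false → (u1 < 8 - 15 * g ∨ 1 - 2 * g < u1))
    (V2 : w1 = false → w2 = true → (u2 < 7 - 16 * g ∨ -3 * g < u2))
    (P2 : w1 = true → w2 = false → (u2 < 8 - 15 * g ∨ 1 - 2 * g < u2))
    (V3 : w2 = false → w3 = true → (u3 < 7 - 16 * g ∨ -3 * g < u3))
    (P3 : w2 = true → w3 = false → (u3 < 8 - 15 * g ∨ 1 - 2 * g < u3))
    (V4 : w3 = false → w4 = true → (u4 < 7 - 16 * g ∨ -3 * g < u4))
    (P4 : w3 = true → w4 = false → (u4 < 8 - 15 * g ∨ 1 - 2 * g < u4))
    (V5 : w4 = false → w5 = true → (u5 < 7 - 16 * g ∨ -3 * g < u5))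
    (P5 : w4 = true → w5 = false → (u5 < 8 - 15 * g ∨ 1 - 2 * g < u5))
    (V6 : w5 = false → w6 = true → (u6 < 7 - 16 * g ∨ -3 * g < u6))
    (P6 : w5 = true → w6 = false → (u6 < 8 - 15 * g ∨ 1 - 2 * g < u6))
    (V7 : w6 = false → w7 = true → (u7 < 7 - 16 * g ∨ -3 * g < u7))
    (P7 : w6 = true → w7 = false → (u7 < 8 - 15 * g ∨ 1 - 2 * g < u7))
    (V8 : w7 = false → w8 = true → (u8 < 7 - 16 * g ∨ -3 * g < u8))
    (P8 : w7 = true → w8 = false → (u8 < 8 - 15 * g ∨ 1 - 2 * g < u8))
    (V9 : w8 = false → w9 = true → (u9 < 7 - 16 * g ∨ -3 * g < u9))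
    (P9 : w8 = true → w9 = false → (u9 < 8 - 15 * g ∨ 1 - 2 * g < u9))
    (T0 : ¬ (w0 = true ∧ w1 = true ∧ w2 = true))
    (T1 : ¬ (w1 = true ∧ w2 = true ∧ w3 = true))
    (T2 : ¬ (w2 = true ∧ w3 = true ∧ w4 = true))
    (T3 : ¬ (w3 = true ∧ w4 = true ∧ w5 = true))
    (T4 : ¬ (w4 = true ∧ w5 = true ∧ w6 = true))
    (T5 : ¬ (w5 = true ∧ w6 = true ∧ w7 = true))
    (T6 : ¬ (w6 = true ∧ w7 = true ∧ w8 = true))
    (T7 : ¬ (w7 = true ∧ w8 = true ∧ w9 = true))
    (F0 : ¬ (w0 = false ∧ w1 = false ∧ w2 = false ∧ w3 = false ∧ w4 = false))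
    (F1 : ¬ (w1 = false ∧ w2 = false ∧ w3 = false ∧ w4 = false ∧ w5 = false))
    (F2 : ¬ (w2 = false ∧ w3 = false ∧ w4 = false ∧ w5 = false ∧ w6 = false))
    (F3 : ¬ (w3 = false ∧ w4 = false ∧ w5 = false ∧ w6 = false ∧ w7 = false))
    (F4 : ¬ (w4 = false ∧ w5 = false ∧ w6 = false ∧ w7 = false ∧ w8 = false))
    (F5 : ¬ (w5 = false ∧ w6 = false ∧ w7 = false ∧ w8 = false ∧ w9 = false))
    : False := by
  rcases H0 with ⟨a0, e0⟩ | ⟨a0, e0⟩
  · rcases H1 with ⟨a1, e1⟩ | ⟨a1, e1⟩
    · rcases H2 with ⟨a2, e2⟩ | ⟨a2, e2⟩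
      · exact T0 ⟨a0, a1, a2⟩
      · rcases P2 a1 a2 with n2 | n2
        · linarith only [hg1, hg2, L0, n2, e0, e1]
        · rcases H3 with ⟨a3, e3⟩ | ⟨a3, e3⟩
          · rcases V3 a2 a3 with n3 | n3
            · linarith only [hg1, hg2, L0, n3, e0, e1, e2]
            · linarith only [hg1, hg2, n2, U4, e2, e3]
          · rcases H4 with ⟨a4, e4⟩ | ⟨a4, e4⟩
            · rcases V4 a3 a4 with n4 | n4
              · linarith only [hg1, hg2, L0, n4, e0, e1, e2, e3]
              · rcases H5 with ⟨a5, e5⟩ | ⟨a5, e5⟩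
                · linarith only [hg1, hg2, n2, U6, e2, e3, e4, e5]
                · rcases P5 a4 a5 with n5 | n5
                  · linarith only [hg1, hg2, n2, n5, e2, e3, e4]
                  · rcases H6 with ⟨a6, e6⟩ | ⟨a6, e6⟩
                    · rcases V6 a5 a6 with n6 | n6
                      · linarith only [hg1, hg2, L0, n6, e0, e1, e2, e3, e4, e5]
                      · linarith only [hg1, hg2, n5, U7, e5, e6]
                    · rcases H7 with ⟨a7, e7⟩ | ⟨a7, e7⟩
                      · rcases V7 a6 a7 with n7 | n7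
                        · linarith only [hg1, hg2, L0, n7, e0, e1, e2, e3, e4, e5, e6]
                        · rcases H8 with ⟨a8, e8⟩ | ⟨a8, e8⟩
                          · linarith only [hg1, hg2, n2, U9, e2, e3, e4, e5, e6, e7, e8]
                          · rcases P8 a7 a8 with n8 | n8
                            · linarith only [hg1, hg2, n2, n8, e2, e3, e4, e5, e6, e7]
                            · linarith only [hg1, hg2, n8, U2, e2, e3, e4, e5, e6, e7]
                      · rcases H8 with ⟨a8, e8⟩ | ⟨a8, e8⟩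
                        · rcases V8 a7 a8 with n8 | n8
                          · linarith only [hg1, hg2, n2, n8, e2, e3, e4, e5, e6, e7]
                          · linarith only [hg1, hg2, n8, U2, e2, e3, e4, e5, e6, e7]
                        · rcases H9 with ⟨a9, e9⟩ | ⟨a9, e9⟩
                          · rcases V9 a8 a9 with n9 | n9
                            · linarith only [hg1, hg2, n5, n9, e5, e6, e7, e8]
                            · linarith only [hg1, hg2, n9, U2, e2, e3, e4, e5, e6, e7, e8]
                          · exact F5 ⟨a5, a6, a7, a8, a9⟩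
            · rcases H5 with ⟨a5, e5⟩ | ⟨a5, e5⟩
              · rcases V5 a4 a5 with n5 | n5
                · linarith only [hg1, hg2, n2, n5, e2, e3, e4]
                · rcases H6 with ⟨a6, e6⟩ | ⟨a6, e6⟩
                  · linarith only [hg1, hg2, n5, U7, e5, e6]
                  · rcases P6 a5 a6 with n6 | n6
                    · linarith only [hg1, hg2, n2, n6, e2, e3, e4, e5]
                    · linarith only [hg1, hg2, n6, U2, e2, e3, e4, e5]
              · rcases H6 with ⟨a6, e6⟩ | ⟨a6, e6⟩
                · rcases V6 a5 a6 with n6 | n6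
                  · linarith only [hg1, hg2, n2, n6, e2, e3, e4, e5]
                  · linarith only [hg1, hg2, n6, U2, e2, e3, e4, e5]
                · exact F2 ⟨a2, a3, a4, a5, a6⟩
    · rcases P1 a0 a1 with n1 | n1
      · rcases H2 with ⟨a2, e2⟩ | ⟨a2, e2⟩
        · rcases V2 a1 a2 with n2 | n2
          · linarith only [hg1, hg2, L0, n2, e0, e1]
          · linarith only [hg1, hg2, n2, n1, e1]
        · rcases H3 with ⟨a3, e3⟩ | ⟨a3, e3⟩
          · rcases V3 a2 a3 with n3 | n3
            · rcases H4 with ⟨a4, e4⟩ | ⟨a4, e4⟩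
              · rcases H5 with ⟨a5, e5⟩ | ⟨a5, e5⟩
                · exact T3 ⟨a3, a4, a5⟩
                · rcases P5 a4 a5 with n5 | n5
                  · linarith only [hg1, hg2, L3, n5, e3, e4]
                  · linarith only [hg1, hg2, n5, n1, e1, e2, e3, e4]
              · rcases P4 a3 a4 with n4 | n4
                · rcases H5 with ⟨a5, e5⟩ | ⟨a5, e5⟩
                  · rcases V5 a4 a5 with n5 | n5
                    · linarith only [hg1, hg2, L3, n5, e3, e4]
                    · linarith only [hg1, hg2, n5, n1, e1, e2, e3, e4]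
                  · rcases H6 with ⟨a6, e6⟩ | ⟨a6, e6⟩
                    · rcases V6 a5 a6 with n6 | n6
                      · rcases H7 with ⟨a7, e7⟩ | ⟨a7, e7⟩
                        · rcases H8 with ⟨a8, e8⟩ | ⟨a8, e8⟩
                          · exact T6 ⟨a6, a7, a8⟩
                          · rcases P8 a7 a8 with n8 | n8
                            · linarith only [hg1, hg2, L6, n8, e6, e7]
                            · linarith only [hg1, hg2, n8, n1, e1, e2, e3, e4, e5, e6, e7]
                        · rcases P7 a6 a7 with n7 | n7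
                          · rcases H8 with ⟨a8, e8⟩ | ⟨a8, e8⟩
                            · rcases V8 a7 a8 with n8 | n8
                              · linarith only [hg1, hg2, L6, n8, e6, e7]
                              · linarith only [hg1, hg2, n8, n1, e1, e2, e3, e4, e5, e6, e7]
                            · linarith only [hg1, hg2, L9, n3, e3, e4, e5, e6, e7, e8]
                          · linarith only [hg1, hg2, n7, U1, e1, e2, e3, e4, e5, e6]
                      · linarith only [hg1, hg2, n6, n1, e1, e2, e3, e4, e5]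
                    · linarith only [hg1, hg2, L7, n1, e1, e2, e3, e4, e5, e6]
                · linarith only [hg1, hg2, n4, n1, e1, e2, e3]
            · linarith only [hg1, hg2, n3, n1, e1, e2]
          · rcases H4 with ⟨a4, e4⟩ | ⟨a4, e4⟩
            · rcases V4 a3 a4 with n4 | n4
              · rcases H5 with ⟨a5, e5⟩ | ⟨a5, e5⟩
                · rcases H6 with ⟨a6, e6⟩ | ⟨a6, e6⟩
                  · exact T4 ⟨a4, a5, a6⟩
                  · rcases P6 a5 a6 with n6 | n6
                    · linarith only [hg1, hg2, L4, n6, e4, e5]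
                    · linarith only [hg1, hg2, n6, n1, e1, e2, e3, e4, e5]
                · rcases P5 a4 a5 with n5 | n5
                  · rcases H6 with ⟨a6, e6⟩ | ⟨a6, e6⟩
                    · rcases V6 a5 a6 with n6 | n6
                      · linarith only [hg1, hg2, L4, n6, e4, e5]
                      · linarith only [hg1, hg2, n6, n1, e1, e2, e3, e4, e5]
                    · linarith only [hg1, hg2, L7, n1, e1, e2, e3, e4, e5, e6]
                  · linarith only [hg1, hg2, n5, U1, e1, e2, e3, e4]
              · linarith only [hg1, hg2, n4, n1, e1, e2, e3]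
            · linarith only [hg1, hg2, L5, n1, e1, e2, e3, e4]
      · rcases H2 with ⟨a2, e2⟩ | ⟨a2, e2⟩
        · rcases V2 a1 a2 with n2 | n2
          · linarith only [hg1, hg2, L0, n2, e0, e1]
          · linarith only [hg1, hg2, n1, U3, e1, e2]
        · rcases H3 with ⟨a3, e3⟩ | ⟨a3, e3⟩
          · rcases V3 a2 a3 with n3 | n3
            · linarith only [hg1, hg2, n1, n3, e1, e2]
            · rcases H4 with ⟨a4, e4⟩ | ⟨a4, e4⟩
              · linarith only [hg1, hg2, n1, U5, e1, e2, e3, e4]
              · rcases P4 a3 a4 with n4 | n4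
                · linarith only [hg1, hg2, n1, n4, e1, e2, e3]
                · rcases H5 with ⟨a5, e5⟩ | ⟨a5, e5⟩
                  · rcases V5 a4 a5 with n5 | n5
                    · linarith only [hg1, hg2, n1, n5, e1, e2, e3, e4]
                    · linarith only [hg1, hg2, n4, U6, e4, e5]
                  · rcases H6 with ⟨a6, e6⟩ | ⟨a6, e6⟩
                    · rcases V6 a5 a6 with n6 | n6
                      · linarith only [hg1, hg2, n1, n6, e1, e2, e3, e4, e5]
                      · rcases H7 with ⟨a7, e7⟩ | ⟨a7, e7⟩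
                        · linarith only [hg1, hg2, n1, U8, e1, e2, e3, e4, e5, e6, e7]
                        · rcases P7 a6 a7 with n7 | n7
                          · linarith only [hg1, hg2, n1, n7, e1, e2, e3, e4, e5, e6]
                          · linarith only [hg1, hg2, n7, U1, e1, e2, e3, e4, e5, e6]
                    · rcases H7 with ⟨a7, e7⟩ | ⟨a7, e7⟩
                      · rcases V7 a6 a7 with n7 | n7
                        · linarith only [hg1, hg2, n1, n7, e1, e2, e3, e4, e5, e6]
                        · linarith only [hg1, hg2, n7, U1, e1, e2, e3, e4, e5, e6]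
                      · rcases H8 with ⟨a8, e8⟩ | ⟨a8, e8⟩
                        · rcases V8 a7 a8 with n8 | n8
                          · linarith only [hg1, hg2, n4, n8, e4, e5, e6, e7]
                          · linarith only [hg1, hg2, n8, U1, e1, e2, e3, e4, e5, e6, e7]
                        · exact F4 ⟨a4, a5, a6, a7, a8⟩
          · rcases H4 with ⟨a4, e4⟩ | ⟨a4, e4⟩
            · rcases V4 a3 a4 with n4 | n4
              · linarith only [hg1, hg2, n1, n4, e1, e2, e3]
              · rcases H5 with ⟨a5, e5⟩ | ⟨a5, e5⟩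
                · linarith only [hg1, hg2, n4, U6, e4, e5]
                · rcases P5 a4 a5 with n5 | n5
                  · linarith only [hg1, hg2, n1, n5, e1, e2, e3, e4]
                  · linarith only [hg1, hg2, n5, U1, e1, e2, e3, e4]
            · rcases H5 with ⟨a5, e5⟩ | ⟨a5, e5⟩
              · rcases V5 a4 a5 with n5 | n5
                · linarith only [hg1, hg2, n1, n5, e1, e2, e3, e4]
                · linarith only [hg1, hg2, n5, U1, e1, e2, e3, e4]
              · exact F1 ⟨a1, a2, a3, a4, a5⟩
  · rcases H1 with ⟨a1, e1⟩ | ⟨a1, e1⟩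
    · rcases V1 a0 a1 with n1 | n1
      · rcases H2 with ⟨a2, e2⟩ | ⟨a2, e2⟩
        · rcases H3 with ⟨a3, e3⟩ | ⟨a3, e3⟩
          · exact T1 ⟨a1, a2, a3⟩
          · rcases P3 a2 a3 with n3 | n3
            · linarith only [hg1, hg2, L1, n3, e1, e2]
            · linarith only [hg1, hg2, n3, n1, e1, e2]
        · rcases P2 a1 a2 with n2 | n2
          · rcases H3 with ⟨a3, e3⟩ | ⟨a3, e3⟩
            · rcases V3 a2 a3 with n3 | n3
              · linarith only [hg1, hg2, L1, n3, e1, e2]
              · linarith only [hg1, hg2, n3, n1, e1, e2]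
            · rcases H4 with ⟨a4, e4⟩ | ⟨a4, e4⟩
              · rcases V4 a3 a4 with n4 | n4
                · rcases H5 with ⟨a5, e5⟩ | ⟨a5, e5⟩
                  · rcases H6 with ⟨a6, e6⟩ | ⟨a6, e6⟩
                    · exact T4 ⟨a4, a5, a6⟩
                    · rcases P6 a5 a6 with n6 | n6
                      · linarith only [hg1, hg2, L4, n6, e4, e5]
                      · linarith only [hg1, hg2, n6, n1, e1, e2, e3, e4, e5]
                  · rcases P5 a4 a5 with n5 | n5
                    · rcases H6 with ⟨a6, e6⟩ | ⟨a6, e6⟩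
                      · rcases V6 a5 a6 with n6 | n6
                        · linarith only [hg1, hg2, L4, n6, e4, e5]
                        · linarith only [hg1, hg2, n6, n1, e1, e2, e3, e4, e5]
                      · linarith only [hg1, hg2, L7, n1, e1, e2, e3, e4, e5, e6]
                    · linarith only [hg1, hg2, n5, n1, e1, e2, e3, e4]
                · linarith only [hg1, hg2, n4, n1, e1, e2, e3]
              · linarith only [hg1, hg2, L5, n1, e1, e2, e3, e4]
          · linarith only [hg1, hg2, n2, n1, e1]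
      · rcases H2 with ⟨a2, e2⟩ | ⟨a2, e2⟩
        · linarith only [hg1, hg2, n1, U3, e1, e2]
        · rcases P2 a1 a2 with n2 | n2
          · linarith only [hg1, hg2, n1, n2, e1]
          · rcases H3 with ⟨a3, e3⟩ | ⟨a3, e3⟩
            · rcases V3 a2 a3 with n3 | n3
              · linarith only [hg1, hg2, L1, n3, e1, e2]
              · linarith only [hg1, hg2, n2, U4, e2, e3]
            · rcases H4 with ⟨a4, e4⟩ | ⟨a4, e4⟩
              · rcases V4 a3 a4 with n4 | n4
                · linarith only [hg1, hg2, n1, n4, e1, e2, e3]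
                · rcases H5 with ⟨a5, e5⟩ | ⟨a5, e5⟩
                  · linarith only [hg1, hg2, n2, U6, e2, e3, e4, e5]
                  · rcases P5 a4 a5 with n5 | n5
                    · linarith only [hg1, hg2, n1, n5, e1, e2, e3, e4]
                    · rcases H6 with ⟨a6, e6⟩ | ⟨a6, e6⟩
                      · rcases V6 a5 a6 with n6 | n6
                        · linarith only [hg1, hg2, n1, n6, e1, e2, e3, e4, e5]
                        · linarith only [hg1, hg2, n5, U7, e5, e6]
                      · rcases H7 with ⟨a7, e7⟩ | ⟨a7, e7⟩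
                        · rcases V7 a6 a7 with n7 | n7
                          · linarith only [hg1, hg2, n1, n7, e1, e2, e3, e4, e5, e6]
                          · rcases H8 with ⟨a8, e8⟩ | ⟨a8, e8⟩
                            · linarith only [hg1, hg2, n2, U9, e2, e3, e4, e5, e6, e7, e8]
                            · rcases P8 a7 a8 with n8 | n8
                              · linarith only [hg1, hg2, n2, n8, e2, e3, e4, e5, e6, e7]
                              · linarith only [hg1, hg2, n8, U2, e2, e3, e4, e5, e6, e7]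
                        · rcases H8 with ⟨a8, e8⟩ | ⟨a8, e8⟩
                          · rcases V8 a7 a8 with n8 | n8
                            · linarith only [hg1, hg2, n2, n8, e2, e3, e4, e5, e6, e7]
                            · linarith only [hg1, hg2, n8, U2, e2, e3, e4, e5, e6, e7]
                          · rcases H9 with ⟨a9, e9⟩ | ⟨a9, e9⟩
                            · rcases V9 a8 a9 with n9 | n9
                              · linarith only [hg1, hg2, n5, n9, e5, e6, e7, e8]
                              · linarith only [hg1, hg2, n9, U0, e0, e1, e2, e3, e4, e5, e6, e7, e8]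
                            · exact F5 ⟨a5, a6, a7, a8, a9⟩
              · rcases H5 with ⟨a5, e5⟩ | ⟨a5, e5⟩
                · rcases V5 a4 a5 with n5 | n5
                  · linarith only [hg1, hg2, n1, n5, e1, e2, e3, e4]
                  · rcases H6 with ⟨a6, e6⟩ | ⟨a6, e6⟩
                    · linarith only [hg1, hg2, n5, U7, e5, e6]
                    · rcases P6 a5 a6 with n6 | n6
                      · linarith only [hg1, hg2, n2, n6, e2, e3, e4, e5]
                      · linarith only [hg1, hg2, n6, U0, e0, e1, e2, e3, e4, e5]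
                · rcases H6 with ⟨a6, e6⟩ | ⟨a6, e6⟩
                  · rcases V6 a5 a6 with n6 | n6
                    · linarith only [hg1, hg2, n2, n6, e2, e3, e4, e5]
                    · linarith only [hg1, hg2, n6, U0, e0, e1, e2, e3, e4, e5]
                  · exact F2 ⟨a2, a3, a4, a5, a6⟩
    · rcases H2 with ⟨a2, e2⟩ | ⟨a2, e2⟩
      · rcases V2 a1 a2 with n2 | n2
        · rcases H3 with ⟨a3, e3⟩ | ⟨a3, e3⟩
          · rcases H4 with ⟨a4, e4⟩ | ⟨a4, e4⟩
            · exact T2 ⟨a2, a3, a4⟩
            · rcases P4 a3 a4 with n4 | n4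
              · linarith only [hg1, hg2, L2, n4, e2, e3]
              · linarith only [hg1, hg2, n4, n2, e2, e3]
          · rcases P3 a2 a3 with n3 | n3
            · rcases H4 with ⟨a4, e4⟩ | ⟨a4, e4⟩
              · rcases V4 a3 a4 with n4 | n4
                · linarith only [hg1, hg2, L2, n4, e2, e3]
                · linarith only [hg1, hg2, n4, n2, e2, e3]
              · rcases H5 with ⟨a5, e5⟩ | ⟨a5, e5⟩
                · rcases V5 a4 a5 with n5 | n5
                  · rcases H6 with ⟨a6, e6⟩ | ⟨a6, e6⟩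
                    · rcases H7 with ⟨a7, e7⟩ | ⟨a7, e7⟩
                      · exact T5 ⟨a5, a6, a7⟩
                      · rcases P7 a6 a7 with n7 | n7
                        · linarith only [hg1, hg2, L5, n7, e5, e6]
                        · linarith only [hg1, hg2, n7, n2, e2, e3, e4, e5, e6]
                    · rcases P6 a5 a6 with n6 | n6
                      · rcases H7 with ⟨a7, e7⟩ | ⟨a7, e7⟩
                        · rcases V7 a6 a7 with n7 | n7
                          · linarith only [hg1, hg2, L5, n7, e5, e6]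
                          · linarith only [hg1, hg2, n7, n2, e2, e3, e4, e5, e6]
                        · linarith only [hg1, hg2, L8, n2, e2, e3, e4, e5, e6, e7]
                      · linarith only [hg1, hg2, n6, U0, e0, e1, e2, e3, e4, e5]
                  · linarith only [hg1, hg2, n5, n2, e2, e3, e4]
                · linarith only [hg1, hg2, L6, n2, e2, e3, e4, e5]
            · linarith only [hg1, hg2, n3, n2, e2]
        · rcases H3 with ⟨a3, e3⟩ | ⟨a3, e3⟩
          · linarith only [hg1, hg2, n2, U4, e2, e3]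
          · rcases P3 a2 a3 with n3 | n3
            · linarith only [hg1, hg2, n2, n3, e2]
            · rcases H4 with ⟨a4, e4⟩ | ⟨a4, e4⟩
              · rcases V4 a3 a4 with n4 | n4
                · linarith only [hg1, hg2, L2, n4, e2, e3]
                · linarith only [hg1, hg2, n3, U5, e3, e4]
              · rcases H5 with ⟨a5, e5⟩ | ⟨a5, e5⟩
                · rcases V5 a4 a5 with n5 | n5
                  · linarith only [hg1, hg2, n2, n5, e2, e3, e4]
                  · rcases H6 with ⟨a6, e6⟩ | ⟨a6, e6⟩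
                    · linarith only [hg1, hg2, n3, U7, e3, e4, e5, e6]
                    · rcases P6 a5 a6 with n6 | n6
                      · linarith only [hg1, hg2, n2, n6, e2, e3, e4, e5]
                      · linarith only [hg1, hg2, n6, U0, e0, e1, e2, e3, e4, e5]
                · rcases H6 with ⟨a6, e6⟩ | ⟨a6, e6⟩
                  · rcases V6 a5 a6 with n6 | n6
                    · linarith only [hg1, hg2, n2, n6, e2, e3, e4, e5]
                    · linarith only [hg1, hg2, n6, U0, e0, e1, e2, e3, e4, e5]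
                  · rcases H7 with ⟨a7, e7⟩ | ⟨a7, e7⟩
                    · rcases V7 a6 a7 with n7 | n7
                      · linarith only [hg1, hg2, n3, n7, e3, e4, e5, e6]
                      · linarith only [hg1, hg2, n7, U0, e0, e1, e2, e3, e4, e5, e6]
                    · exact F3 ⟨a3, a4, a5, a6, a7⟩
      · rcases H3 with ⟨a3, e3⟩ | ⟨a3, e3⟩
        · rcases V3 a2 a3 with n3 | n3
          · rcases H4 with ⟨a4, e4⟩ | ⟨a4, e4⟩
            · rcases H5 with ⟨a5, e5⟩ | ⟨a5, e5⟩
              · exact T3 ⟨a3, a4, a5⟩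
              · rcases P5 a4 a5 with n5 | n5
                · linarith only [hg1, hg2, L3, n5, e3, e4]
                · linarith only [hg1, hg2, n5, n3, e3, e4]
            · rcases P4 a3 a4 with n4 | n4
              · rcases H5 with ⟨a5, e5⟩ | ⟨a5, e5⟩
                · rcases V5 a4 a5 with n5 | n5
                  · linarith only [hg1, hg2, L3, n5, e3, e4]
                  · linarith only [hg1, hg2, n5, n3, e3, e4]
                · rcases H6 with ⟨a6, e6⟩ | ⟨a6, e6⟩
                  · rcases V6 a5 a6 with n6 | n6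
                    · rcases H7 with ⟨a7, e7⟩ | ⟨a7, e7⟩
                      · rcases H8 with ⟨a8, e8⟩ | ⟨a8, e8⟩
                        · exact T6 ⟨a6, a7, a8⟩
                        · rcases P8 a7 a8 with n8 | n8
                          · linarith only [hg1, hg2, L6, n8, e6, e7]
                          · linarith only [hg1, hg2, n8, n3, e3, e4, e5, e6, e7]
                      · rcases P7 a6 a7 with n7 | n7
                        · rcases H8 with ⟨a8, e8⟩ | ⟨a8, e8⟩
                          · rcases V8 a7 a8 with n8 | n8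
                            · linarith only [hg1, hg2, L6, n8, e6, e7]
                            · linarith only [hg1, hg2, n8, n3, e3, e4, e5, e6, e7]
                          · linarith only [hg1, hg2, L9, n3, e3, e4, e5, e6, e7, e8]
                        · linarith only [hg1, hg2, n7, U0, e0, e1, e2, e3, e4, e5, e6]
                    · linarith only [hg1, hg2, n6, U0, e0, e1, e2, e3, e4, e5]
                  · linarith only [hg1, hg2, L7, n3, e3, e4, e5, e6]
              · linarith only [hg1, hg2, n4, U0, e0, e1, e2, e3]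
          · rcases H4 with ⟨a4, e4⟩ | ⟨a4, e4⟩
            · linarith only [hg1, hg2, n3, U5, e3, e4]
            · rcases P4 a3 a4 with n4 | n4
              · linarith only [hg1, hg2, n3, n4, e3]
              · linarith only [hg1, hg2, n4, U0, e0, e1, e2, e3]
        · rcases H4 with ⟨a4, e4⟩ | ⟨a4, e4⟩
          · rcases V4 a3 a4 with n4 | n4
            · rcases H5 with ⟨a5, e5⟩ | ⟨a5, e5⟩
              · rcases H6 with ⟨a6, e6⟩ | ⟨a6, e6⟩
                · exact T4 ⟨a4, a5, a6⟩
                · rcases P6 a5 a6 with n6 | n6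
                  · linarith only [hg1, hg2, L4, n6, e4, e5]
                  · linarith only [hg1, hg2, n6, U0, e0, e1, e2, e3, e4, e5]
              · rcases P5 a4 a5 with n5 | n5
                · rcases H6 with ⟨a6, e6⟩ | ⟨a6, e6⟩
                  · rcases V6 a5 a6 with n6 | n6
                    · linarith only [hg1, hg2, L4, n6, e4, e5]
                    · linarith only [hg1, hg2, n6, U0, e0, e1, e2, e3, e4, e5]
                  · rcases H7 with ⟨a7, e7⟩ | ⟨a7, e7⟩
                    · rcases V7 a6 a7 with n7 | n7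
                      · rcases H8 with ⟨a8, e8⟩ | ⟨a8, e8⟩
                        · rcases H9 with ⟨a9, e9⟩ | ⟨a9, e9⟩
                          · exact T7 ⟨a7, a8, a9⟩
                          · rcases P9 a8 a9 with n9 | n9
                            · linarith only [hg1, hg2, L7, n9, e7, e8]
                            · linarith only [hg1, hg2, n9, U0, e0, e1, e2, e3, e4, e5, e6, e7, e8]
                        · rcases P8 a7 a8 with n8 | n8
                          · rcases H9 with ⟨a9, e9⟩ | ⟨a9, e9⟩
                            · rcases V9 a8 a9 with n9 | n9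
                              · linarith only [hg1, hg2, L7, n9, e7, e8]
                              · linarith only [hg1, hg2, n9, U0, e0, e1, e2, e3, e4, e5, e6, e7, e8]
                            · linarith only [hg1, hg2, L10, n4, e4, e5, e6, e7, e8, e9]
                          · linarith only [hg1, hg2, n8, U0, e0, e1, e2, e3, e4, e5, e6, e7]
                      · linarith only [hg1, hg2, n7, U0, e0, e1, e2, e3, e4, e5, e6]
                    · linarith only [hg1, hg2, L8, n4, e4, e5, e6, e7]
                · linarith only [hg1, hg2, n5, U0, e0, e1, e2, e3, e4]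
            · linarith only [hg1, hg2, n4, U0, e0, e1, e2, e3]
          · exact F0 ⟨a0, a1, a2, a3, a4⟩


/-- `T` is the height of the anchor. -/
theorem avail {x : ℤ → Bool}
    (h3 : ∀ i, ¬ (x i = true ∧ x (i + 1) = true ∧ x (i + 2) = true))
    (h5 : ∀ i, ¬ (x i = false ∧ x (i + 1) = false ∧ x (i + 2) = false ∧ x (i + 3) = false ∧
      x (i + 4) = false))
    (T : ℝ) (hlo : ∀ i, T - (2 + 2 * g) < S x i) (hhi : ∀ i, S x i < T + (10 - 16 * g)) (k : ℤ) :
    ∃ i, k ≤ i ∧ i < k + 12 ∧ x (i - 1) ≠ x i ∧
      T - (18 * g - 8) + (2 * g - 1) ≤ S x i ∧ S x i ≤ T - (2 * g - 1) ∧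
      T - (18 * g - 8) + (2 * g - 1) ≤ S x (i - 1) + ht (x i) ∧
      S x (i - 1) + ht (x i) ≤ T - (2 * g - 1) := by
  by_contra hcon
  have hg1 := g_lower
  have hg2 := g_upper
  have hlo1 : ∀ i, -(2 + 2 * g) < S x i - T := fun i => by linarith [hlo i]
  have hhi1 : ∀ i, S x i - T < 10 - 16 * g := fun i => by linarith [hhi i]
  have hst : ∀ i, (x i = true ∧ S x (i + 1) - T = S x i - T + 1) ∨
      (x i = false ∧ S x (i + 1) - T = S x i - T - g) := by
    intro i
    rw [S_succ]
    cases hx : x i with
    | true => left; exact ⟨rfl, by simp only [ht]; ring⟩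
    | false => right; exact ⟨rfl, by simp only [ht]; ring⟩
  have h3a : ∀ i, ¬ (x i = true ∧ x (i + 1) = true ∧ x (i + 1 + 1) = true) := by
    intro i
    have := h3 i
    rwa [show i + 2 = i + 1 + 1 by ring] at this
  have h5a : ∀ i, ¬ (x i = false ∧ x (i + 1) = false ∧ x (i + 1 + 1) = false ∧
      x (i + 1 + 1 + 1) = false ∧ x (i + 1 + 1 + 1 + 1) = false) := by
    intro i
    have := h5 i
    rwa [show i + 2 = i + 1 + 1 by ring, show i + 3 = i + 1 + 1 + 1 by ring,
      show i + 4 = i + 1 + 1 + 1 + 1 by ring] at this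
  have hV : ∀ p, k ≤ p + 1 → p + 1 < k + 12 → x p = false → x (p + 1) = true →
      (S x (p + 1) - T < 7 - 16 * g ∨ -3 * g < S x (p + 1) - T) := by
    intro p h1 h2 hp hp1
    by_contra hh
    push Not at hh
    apply hcon
    have hs : S x (p + 1) = S x p - g := by rw [S_succ, hp]; simp only [ht]; ring
    refine ⟨p + 1, h1, h2, ?_, by linarith [hh.1], by linarith [hh.2], ?_, ?_⟩
    · rw [add_sub_cancel_right, hp, hp1]
      decide
    · rw [add_sub_cancel_right, hp1]
      simp only [ht]
      linarith [hh.1]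
    · rw [add_sub_cancel_right, hp1]
      simp only [ht]
      linarith [hh.2]
  have hP : ∀ p, k ≤ p + 1 → p + 1 < k + 12 → x p = true → x (p + 1) = false →
      (S x (p + 1) - T < 8 - 15 * g ∨ 1 - 2 * g < S x (p + 1) - T) := by
    intro p h1 h2 hp hp1
    by_contra hh
    push Not at hh
    apply hcon
    have hs : S x (p + 1) = S x p + 1 := by rw [S_succ, hp]; simp only [ht]
    refine ⟨p + 1, h1, h2, ?_, by linarith [hh.1], by linarith [hh.2], ?_, ?_⟩
    · rw [add_sub_cancel_right, hp, hp1]
      decide
    · rw [add_sub_cancel_right, hp1]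
      simp only [ht]
      linarith [hh.1]
    · rw [add_sub_cancel_right, hp1]
      simp only [ht]
      linarith [hh.2]
  exact h97_core g g_lower g_upper
    (x (k - 1)) (x (k - 1 + 1)) (x (k - 1 + 1 + 1)) (x (k - 1 + 1 + 1 + 1)) (x (k - 1 + 1 + 1 + 1 + 1)) (x (k - 1 + 1 + 1 + 1 + 1 + 1)) (x (k - 1 + 1 + 1 + 1 + 1 + 1 + 1)) (x (k - 1 + 1 + 1 + 1 + 1 + 1 + 1 + 1)) (x (k - 1 + 1 + 1 + 1 + 1 + 1 + 1 + 1 + 1)) (x (k - 1 + 1 + 1 + 1 + 1 + 1 + 1 + 1 + 1 + 1))
    (S x (k - 1) - T) (S x (k - 1 + 1) - T) (S x (k - 1 + 1 + 1) - T) (S x (k - 1 + 1 + 1 + 1) - T) (S x (k - 1 + 1 + 1 + 1 + 1) - T) (S x (k - 1 + 1 + 1 + 1 + 1 + 1) - T) (S x (k - 1 + 1 + 1 + 1 + 1 + 1 + 1) - T) (S x (k - 1 + 1 + 1 + 1 + 1 + 1 + 1 + 1) - T) (S x (k - 1 + 1 + 1 + 1 + 1 + 1 + 1 + 1 + 1) - T) (S x (k - 1 + 1 + 1 + 1 + 1 + 1 + 1 + 1 + 1 + 1) - T) (S x (k - 1 + 1 + 1 + 1 + 1 + 1 + 1 + 1 + 1 + 1 + 1) - T)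
    (hlo1 _) (hhi1 _) (hlo1 _) (hhi1 _) (hlo1 _) (hhi1 _) (hlo1 _) (hhi1 _) (hlo1 _) (hhi1 _) (hlo1 _) (hhi1 _) (hlo1 _) (hhi1 _) (hlo1 _) (hhi1 _) (hlo1 _) (hhi1 _) (hlo1 _) (hhi1 _) (hlo1 _) (hhi1 _)
    (hst _) (hst _) (hst _) (hst _) (hst _) (hst _) (hst _) (hst _) (hst _) (hst _)
    (hV _ (by omega) (by omega)) (hP _ (by omega) (by omega)) (hV _ (by omega) (by omega)) (hP _ (by omega) (by omega)) (hV _ (by omega) (by omega)) (hP _ (by omega) (by omega)) (hV _ (by omega) (by omega)) (hP _ (by omega) (by omega)) (hV _ (by omega) (by omega)) (hP _ (by omega) (by omega)) (hV _ (by omega) (by omega)) (hP _ (by omega) (by omega)) (hV _ (by omega) (by omega)) (hP _ (by omega) (by omega)) (hV _ (by omega) (by omega)) (hP _ (by omega) (by omega)) (hV _ (by omega) (by omega)) (hP _ (by omega) (by omega))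
    (h3a _) (h3a _) (h3a _) (h3a _) (h3a _) (h3a _) (h3a _) (h3a _)
    (h5a _) (h5a _) (h5a _) (h5a _) (h5a _) (h5a _)

end H35.RS.Fib
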