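import Pool.Agent.H35.RS.FibCore
import Pool.Agent.H35.RS.Basic
import Pool.Agent.H35.RS.Basic2
import Pool.Agent.H35.RS.Tiles

/-!
# The random Fibonacci substitution: parsings, forbidden words and a marked point
-/

namespace H35.RS.Fib

open H35.RS

theorem exists_parse {x : ℤ → Bool} (hx : x ∈ subshift fib) :
    ∃ y ∈ subshift fib, ∃ c, Parse x y c := by
  obtain ⟨y, hy, c, hc, ht, -, -⟩ := exists_tiles isRandomSub_fib len length_fib hx
  refine ⟨y, hy, c, fun i => ?_⟩
  have h1 := hc i
  have h2 := ht i
  rcases hyi : y i with _ | _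
  · right
    rw [hyi] at h1 h2
    simp only [len] at h1 h2
    rw [wd_two] at h2
    simp only [fib, Finset.mem_insert, Finset.mem_singleton, List.cons.injEq, and_true] at h2
    exact ⟨rfl, by simpa using h1, h2⟩
  · left
    rw [hyi] at h1 h2
    simp only [len] at h1 h2
    rw [wd_one] at h2
    simp only [fib, Finset.mem_singleton, List.cons.injEq, and_true] at h2
    exact ⟨rfl, by simpa using h1, h2⟩

theorem mem_of_parse {x y : ℤ → Bool} {c : ℤ → ℤ} (hy : y ∈ subshift fib) (h : Parse x y c) :
    x ∈ subshift fib := by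
  refine mem_subshift_of_tiles isRandomSub_fib hy (fun i => wd x (c i) (len (y i))) c ?_ ?_ ?_
  · intro i
    rcases h i with ⟨h1, h2, h3⟩ | ⟨h1, h2, h3⟩
    · simp only [h1, len, wd_one, h3]
      simp [fib]
    · simp only [h1, len, wd_two]
      rcases h3 with ⟨h4, h5⟩ | ⟨h4, h5⟩ <;> simp [fib, h4, h5]
  · intro i
    have hl : ∀ n, (wd x (c i) n).length = n := fun n => by simp [wd]
    rw [hl]
    rcases h i with ⟨h1, h2, h3⟩ | ⟨h1, h2, h3⟩
    · rw [h1, h2]; rfl
    · rw [h1, h2]; rfl
  · intro i
    have hl : ∀ n, (wd x (c i) n).length = n := fun n => by simp [wd]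
    simp only [hl]

theorem no_bbb {x : ℤ → Bool} (hx : x ∈ subshift fib) (i : ℤ) :
    ¬ (x i = true ∧ x (i + 1) = true ∧ x (i + 2) = true) := by
  rintro ⟨h1, h2, h3⟩
  obtain ⟨y, -, c, hp⟩ := exists_parse hx
  obtain ⟨j, hj | ⟨hj, hy⟩⟩ := parse_cover hp (i + 1)
  · have e : c j + 1 = i + 2 := by omega
    rcases hp j with ⟨-, -, h5⟩ | ⟨-, -, h5⟩
    · rw [← hj, h2] at h5
      simp at h5
    · rw [e, ← hj, h2, h3] at h5
      simp at h5
  · have e : c j = i := by omega
    rcases hp j with ⟨-, -, h5⟩ | ⟨-, -, h5⟩
    · rw [e, h1] at h5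
      simp at h5
    · rw [e, h1, h2] at h5
      simp at h5

theorem no_aaaaa {x : ℤ → Bool} (hx : x ∈ subshift fib) (i : ℤ) :
    ¬ (x i = false ∧ x (i + 1) = false ∧ x (i + 2) = false ∧ x (i + 3) = false ∧
      x (i + 4) = false) := by
  rintro ⟨h0, h1, h2, h3, h4⟩
  obtain ⟨y, hy, c, hp⟩ := exists_parse hx
  have key : ∀ j, (x (c j) = false ∧ x (c j + 1) = false) → y j = true ∧ c (j + 1) = c j + 1 := by
    rintro j ⟨h5, h6⟩
    rcases hp j with ⟨h7, h8, h9⟩ | ⟨h7, h8, h9⟩
    · exact ⟨h7, h8⟩
    · rw [h5, h6] at h9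
      simp at h9
  obtain ⟨j, hj | ⟨hj, hyj⟩⟩ := parse_cover hp (i + 1)
  · obtain ⟨k1, k2⟩ := key j ⟨by rw [← hj, h1], by rw [← hj, show i + 1 + 1 = i + 2 by ring, h2]⟩
    have e1 : c (j + 1) = i + 2 := by omega
    obtain ⟨k3, k4⟩ := key (j + 1) ⟨by rw [e1, h2], by rw [e1, show i + 2 + 1 = i + 3 by ring, h3]⟩
    have e2 : c (j + 1 + 1) = i + 3 := by omega
    obtain ⟨k5, k6⟩ := key (j + 1 + 1)
      ⟨by rw [e2, h3], by rw [e2, show i + 3 + 1 = i + 4 by ring, h4]⟩
    exact no_bbb hy j ⟨k1, k3, by rw [show j + 2 = j + 1 + 1 by ring, k5]⟩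
  · have e : c j = i := by omega
    rcases hp j with ⟨h5, -, -⟩ | ⟨-, -, h5⟩
    · rw [hyj] at h5
      simp at h5
    · rw [e, h0, h1] at h5
      simp at h5

theorem legal_wM : Legal fib wM := by
  have s0 : Legal fib [false] := ⟨0, false, [false], rfl, List.infix_refl _⟩
  have s1 : Legal fib
      [false, true] :=
    s0.img isRandomSub_fib (chk_sound _ _ (by decide))
  have s2 : Legal fib
      [true, false, false] :=
    s1.img isRandomSub_fib (chk_sound _ _ (by decide))
  have s3 : Legal fib
      [false, false, true, true, false] :=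
    s2.img isRandomSub_fib (chk_sound _ _ (by decide))
  have s4 : Legal fib
      [true, false, true, false, false, false, false, true] :=
    s3.img isRandomSub_fib (chk_sound _ _ (by decide))
  have s5 : Legal fib
      [false, false, true, false, false, true, false, true, false, true, true, false, false] :=
    s4.img isRandomSub_fib (chk_sound _ _ (by decide))
  have t1 : Legal fib
      [false, true, false, true, false, true, true, false] :=
    s5.of_infix ⟨[false, false, true, false], [false], by decide⟩
  have t2 : Legal fib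
      [true, false, false, true, false, false, true, false, false, false, false, true] :=
    t1.img isRandomSub_fib (chk_sound _ _ (by decide))
  have t3 : Legal fib
      [false, false, true, false, false, true, false, false, false, false] :=
    t2.of_infix ⟨[true], [true], by decide⟩
  have t4 : Legal fib
      [false, true, false, true, false, false, true, false, true, false, false, true, true,
        false, true, false, true, false] :=
    t3.img isRandomSub_fib (chk_sound _ _ (by decide))
  have t5 : Legal fib
      [true, false, false, true, false, false, true, false, true, false, false, true, false,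
        false, true, false, true, false, false, false, false, true, false, false, true, false,
        false, true] :=
    t4.img isRandomSub_fib (chk_sound _ _ (by decide))
  exact t5.of_infix ⟨[true], [true], by decide⟩

theorem exists_mark : ∃ x ∈ subshift fib, Mark x 0 := by
  obtain ⟨y, hy⟩ : (subshift fib).Nonempty := by
    apply subshift_nonempty
    intro n
    obtain ⟨v, hv, h1, -⟩ := exists_long n
    exact ⟨v, ⟨n, false, v, hv, List.infix_refl _⟩, by omega⟩
  obtain ⟨p, a, v, hv, s, t, h⟩ := legal_wM
  have ha : ∃ j, y j = a := by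
    by_contra hcon
    push Not at hcon
    cases a
    · have hb : ∀ j, y j = true := fun j => by simpa using hcon j
      exact no_bbb hy 0 ⟨hb _, hb _, hb _⟩
    · have hb : ∀ j, y j = false := fun j => by simpa using hcon j
      exact no_aaaaa hy 0 ⟨hb _, hb _, hb _, hb _, hb _⟩
  obtain ⟨j, rfl⟩ := ha
  obtain ⟨x, hx, i, hi⟩ := exists_point_with isRandomSub_fib hy j p hv
  refine ⟨sh (i + s.length) x, sh_mem hx _, ?_⟩
  have hlen : v.length = s.length + (wM.length + t.length) := by
    rw [← h]; simp
  rw [hlen, wd_add, wd_add, ← h, List.append_assoc] at hi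
  have hl : ∀ (k : ℤ) n, (wd x k n).length = n := fun k n => by simp [wd]
  have h1 := (List.append_inj hi (hl _ _)).2
  have h2 := (List.append_inj h1 (hl _ _)).1
  have h3 : wd x (i + s.length) 26 = wM := h2
  unfold Mark
  rw [wd_sh, zero_add, h3]
  decide

end H35.RS.Fib
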