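import Pool.Agent.H35.RS.FibDefs

/-!
# The random Fibonacci substitution: facts that use the definitions only

Heights along a parsing, oscillation, reversal, a checker for images of words.
-/

namespace H35.RS.Fib

open H35.RS

theorem isRandomSub_fib : IsRandomSub fib := by
  intro a
  cases a <;> simp [fib]

/-- The length of the tiles. -/
def len : Bool → ℕ
  | false => 2
  | true => 1

theorem length_fib (a : Bool) : ∀ v ∈ fib a, v.length = len a := by
  cases a <;> simp [fib, len]

theorem wd_one {A : Type*} (x : ℤ → A) (i : ℤ) : wd x i 1 = [x i] := by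
  simp [wd]

theorem wd_two {A : Type*} (x : ℤ → A) (i : ℤ) : wd x i 2 = [x i, x (i + 1)] := by
  simp [wd, List.range_succ]

theorem parse_height {x y : ℤ → Bool} {c : ℤ → ℤ} (h : Parse x y c) (i j : ℤ) :
    S x (c i) - S x (c j) = -g * (S y i - S y j) := by
  have hstep : ∀ i, S x (c (i + 1)) + g * S y (i + 1) = S x (c i) + g * S y i := by
    intro i
    rcases h i with ⟨h1, h2, h3⟩ | ⟨h1, h2, h3⟩
    · rw [h2, S_succ, S_succ, h1, h3]
      simp only [ht]
      ring
    · have h4 : S x (c (i + 1)) = S x (c i) + (1 - g) := by
        rw [h2, show c i + 2 = c i + 1 + 1 by ring, S_succ, S_succ]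
        rcases h3 with ⟨h4, h5⟩ | ⟨h4, h5⟩ <;> rw [h4, h5] <;> simp only [ht] <;> ring
      rw [h4, S_succ, h1]
      simp only [ht]
      have := g_sq
      nlinarith
  have hconst : ∀ i, S x (c i) + g * S y i = S x (c 0) + g * S y 0 := by
    intro i
    induction i using Int.induction_on with
    | zero => rfl
    | succ n ih => rw [hstep, ih]
    | pred n ih =>
      have := hstep (-(n : ℤ) - 1)
      rw [show -(n : ℤ) - 1 + 1 = -(n : ℤ) by ring] at this
      rw [← this, ih]
  have h1 := hconst i
  have h2 := hconst j
  linarith

theorem parse_next {x y : ℤ → Bool} {c : ℤ → ℤ} (h : Parse x y c) (i : ℤ) :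
    c i < c (i + 1) ∧ c (i + 1) ≤ c i + 2 := by
  rcases h i with ⟨h1, h2, h3⟩ | ⟨h1, h2, h3⟩ <;> omega

theorem parse_between {x y : ℤ → Bool} {c : ℤ → ℤ} (h : Parse x y c) (v : ℤ) :
    ∃ i, c i ≤ v ∧ v < c (i + 1) := by
  refine Int.inductionOn' v (c 0) ?_ ?_ ?_
  · exact ⟨0, le_refl _, by simpa using (parse_next h 0).1⟩
  · intro k _ ih
    obtain ⟨i, h1, h2⟩ := ih
    by_cases h3 : k + 1 < c (i + 1)
    · exact ⟨i, by omega, h3⟩
    · refine ⟨i + 1, by omega, ?_⟩
      have := (parse_next h (i + 1)).1
      omega
  · intro k _ ih
    obtain ⟨i, h1, h2⟩ := ih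
    by_cases h3 : c i ≤ k - 1
    · exact ⟨i, h3, by omega⟩
    · refine ⟨i - 1, ?_, ?_⟩
      · have := (parse_next h (i - 1)).1
        rw [show i - 1 + 1 = i by ring] at this
        omega
      · rw [show i - 1 + 1 = i by ring]
        omega

theorem parse_cover {x y : ℤ → Bool} {c : ℤ → ℤ} (h : Parse x y c) (v : ℤ) :
    ∃ i, v = c i ∨ (v = c i + 1 ∧ y i = false) := by
  obtain ⟨i, h1, h2⟩ := parse_between h v
  refine ⟨i, ?_⟩
  rcases h i with ⟨h3, h4, h5⟩ | ⟨h3, h4, h5⟩
  · left; omega
  · by_cases h6 : v = c i
    · left; exact h6
    · right; exact ⟨by omega, h3⟩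

/-! ### Oscillation -/

/-- The height of a word. -/
noncomputable def hs (w : List Bool) : ℝ := (w.map ht).sum

theorem hs_nil : hs [] = 0 := by simp [hs]

theorem hs_cons (a : Bool) (w : List Bool) : hs (a :: w) = ht a + hs w := by simp [hs]

theorem hs_append (u v : List Bool) : hs (u ++ v) = hs u + hs v := by simp [hs]

theorem g_abs {Y : ℝ} (h : |Y| < 1 + g) : |g * Y| < 1 := by
  have h1 := g_sq
  have h2 := g_lower
  rw [abs_mul, abs_of_pos (by linarith)]
  nlinarith

theorem osc_img (u : List Bool) : ∀ (Y : ℝ) (v : List Bool), v ∈ imgW fib u →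
    (∀ k, |Y + hs (u.take k)| < 1 + g) → ∀ k, |-g * Y + hs (v.take k)| < 1 + g := by
  have hg1 := g_sq
  have hg2 := g_lower
  have hg3 := g_upper
  induction u with
  | nil =>
    intro Y v hv hY k
    have hv' : v = [] := hv
    subst hv'
    have h1 := hY 0
    simp only [List.take_nil, hs_nil, add_zero] at h1 ⊢
    have h2 := g_abs h1
    rw [neg_mul, abs_neg]
    linarith
  | cons a u ih =>
    rintro Y v ⟨s, hs', t, ht', rfl⟩ hY k
    have h0 : |Y| < 1 + g := by
      have := hY 0
      simpa [hs_nil] using this
    have h1 : |Y + ht a| < 1 + g := by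
      have := hY 1
      simpa [hs_nil, hs_cons] using this
    have hih := ih (Y + ht a) t ht' (fun k => by
      have := hY (k + 1)
      rw [List.take_succ_cons, hs_cons] at this
      rw [add_assoc]
      exact this)
    have h0' := abs_lt.1 (g_abs h0)
    have h1' := abs_lt.1 (g_abs h1)
    have hgen : ∀ k, |-g * Y + hs s + hs (t.take k)| < 1 + g := by
      intro k
      have h3 : hs s = -g * ht a := by
        cases a
        · simp only [fib, Finset.mem_insert, Finset.mem_singleton] at hs'
          rcases hs' with rfl | rfl <;> simp only [hs_cons, hs_nil, ht] <;> nlinarith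
        · simp only [fib, Finset.mem_singleton] at hs'
          subst hs'
          simp only [hs_cons, hs_nil, ht]; ring
      rw [h3]
      have := hih k
      rw [show -g * Y + -g * ht a + hs (t.take k) = -g * (Y + ht a) + hs (t.take k) by ring]
      exact this
    cases a
    · simp only [fib, Finset.mem_insert, Finset.mem_singleton] at hs'
      simp only [ht] at h1'
      rcases hs' with rfl | rfl
      · match k with
        | 0 =>
          simp only [List.take_zero, hs_nil, add_zero]
          rw [abs_lt]; constructor <;> linarith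
        | 1 =>
          simp only [List.cons_append, List.nil_append, List.take_succ_cons, List.take_zero,
            hs_cons, hs_nil, ht]
          rw [abs_lt]; constructor <;> linarith
        | k + 2 =>
          have := hgen k
          simp only [List.cons_append, List.nil_append, List.take_succ_cons,
            hs_cons, hs_nil] at this ⊢
          rw [show -g * Y + (ht false + (ht true + hs (t.take k)))
            = -g * Y + (ht false + (ht true + 0)) + hs (t.take k) by ring]
          exact this
      · match k with
        | 0 =>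
          simp only [List.take_zero, hs_nil, add_zero]
          rw [abs_lt]; constructor <;> linarith
        | 1 =>
          simp only [List.cons_append, List.nil_append, List.take_succ_cons, List.take_zero,
            hs_cons, hs_nil, ht]
          rw [abs_lt]; constructor <;> nlinarith
        | k + 2 =>
          have := hgen k
          simp only [List.cons_append, List.nil_append, List.take_succ_cons,
            hs_cons, hs_nil] at this ⊢
          rw [show -g * Y + (ht true + (ht false + hs (t.take k)))
            = -g * Y + (ht true + (ht false + 0)) + hs (t.take k) by ring]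
          exact this
    · simp only [fib, Finset.mem_singleton] at hs'
      subst hs'
      match k with
      | 0 =>
        simp only [List.take_zero, hs_nil, add_zero]
        rw [abs_lt]; constructor <;> linarith
      | k + 1 =>
        have := hgen k
        simp only [List.cons_append, List.nil_append, List.take_succ_cons,
          hs_cons, hs_nil] at this ⊢
        rw [show -g * Y + (ht false + hs (t.take k))
          = -g * Y + (ht false + 0) + hs (t.take k) by ring]
        exact this

theorem osc_pow (p : ℕ) (a : Bool) : ∀ v ∈ pow fib p a, ∃ τ, ∀ k, |τ + hs (v.take k)| < 1 + g := by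
  have hg2 := g_lower
  have hg3 := g_upper
  induction p with
  | zero =>
    intro v hv
    have hv' : v = [a] := hv
    subst hv'
    refine ⟨0, fun k => ?_⟩
    match k with
    | 0 =>
      simp only [List.take_zero, hs_nil, add_zero, abs_zero]
      linarith
    | k + 1 =>
      simp only [List.take_succ_cons, List.take_nil, hs_cons, hs_nil]
      cases a <;> simp only [ht] <;> rw [abs_lt] <;> constructor <;> linarith
  | succ p ih =>
    rintro v ⟨u, hu, hv⟩
    obtain ⟨τ, hτ⟩ := ih u hu
    exact ⟨-g * τ, osc_img u τ v hv hτ⟩

theorem osc_legal {w : List Bool} (hw : Legal fib w) : |hs w| < 2 + 2 * g := by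
  obtain ⟨p, a, v, hv, s, t, h⟩ := hw
  obtain ⟨τ, hτ⟩ := osc_pow p a v hv
  have h1 := abs_lt.1 (hτ s.length)
  have h2 := abs_lt.1 (hτ (s.length + w.length))
  have e1 : v.take s.length = s := by
    rw [← h, List.append_assoc, List.take_left']
    rfl
  have e2 : v.take (s.length + w.length) = s ++ w := by
    rw [← h, List.take_left']
    simp
  rw [e1] at h1
  rw [e2, hs_append] at h2
  rw [abs_lt]
  constructor <;> linarith [h1.1, h1.2, h2.1, h2.2]

theorem wd_succ {A : Type*} (x : ℤ → A) (i : ℤ) (n : ℕ) :
    wd x i (n + 1) = wd x i n ++ [x (i + n)] := by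
  simp [wd, List.range_succ]

theorem hs_wd (x : ℤ → Bool) (i : ℤ) (n : ℕ) : hs (wd x i n) = S x (i + n) - S x i := by
  induction n with
  | zero => simp [wd, hs]
  | succ n ih =>
    rw [wd_succ, hs_append, ih, hs_cons, hs_nil,
      show i + ((n + 1 : ℕ) : ℤ) = i + n + 1 by push_cast; ring, S_succ]
    ring

theorem osc {x : ℤ → Bool} (hx : x ∈ subshift fib) (i j : ℤ) : S x i - S x j < 2 + 2 * g := by
  rcases le_total j i with h | h
  · obtain ⟨n, rfl⟩ := Int.le.dest h
    have h1 := (abs_lt.1 (osc_legal (hx j n))).2
    rw [hs_wd] at h1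
    exact h1
  · obtain ⟨n, rfl⟩ := Int.le.dest h
    have h1 := (abs_lt.1 (osc_legal (hx i n))).1
    rw [hs_wd] at h1
    linarith

/-! ### Reversal -/

theorem imgW_append_mem {A : Type*} {ϑ : A → Finset (List A)} {u₁ u₂ v₁ v₂ : List A}
    (h₁ : v₁ ∈ imgW ϑ u₁) (h₂ : v₂ ∈ imgW ϑ u₂) : v₁ ++ v₂ ∈ imgW ϑ (u₁ ++ u₂) := by
  induction u₁ generalizing v₁ with
  | nil =>
    have : v₁ = [] := h₁
    subst this
    exact h₂
  | cons a u ih =>
    obtain ⟨s, hs, t, ht, rfl⟩ := h₁
    exact ⟨s, hs, t ++ v₂, ih ht, by rw [List.append_assoc]⟩

theorem imgW_singleton_mem {A : Type*} {ϑ : A → Finset (List A)} {a : A} {s : List A}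
    (h : s ∈ ϑ a) : s ∈ imgW ϑ [a] :=
  ⟨s, h, [], rfl, by simp⟩

theorem fib_reverse {a : Bool} {s : List Bool} (h : s ∈ fib a) : s.reverse ∈ fib a := by
  cases a
  · simp only [fib, Finset.mem_insert, Finset.mem_singleton] at h ⊢
    rcases h with rfl | rfl <;> simp
  · simp only [fib, Finset.mem_singleton] at h ⊢
    subst h
    simp

theorem imgW_reverse (u : List Bool) : ∀ v ∈ imgW fib u, v.reverse ∈ imgW fib u.reverse := by
  induction u with
  | nil =>
    intro v hv
    have : v = [] := hv
    subst this
    exact hv
  | cons a u ih =>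
    rintro v ⟨s, hs, t, ht, rfl⟩
    rw [List.reverse_append, List.reverse_cons]
    exact imgW_append_mem (ih t ht) (imgW_singleton_mem (fib_reverse hs))

theorem pow_reverse (p : ℕ) (a : Bool) : ∀ v ∈ pow fib p a, v.reverse ∈ pow fib p a := by
  induction p with
  | zero =>
    intro v hv
    have : v = [a] := hv
    subst this
    exact hv
  | succ p ih =>
    rintro v ⟨u, hu, hv⟩
    exact ⟨u.reverse, ih u hu, imgW_reverse u v hv⟩

theorem legal_reverse {w : List Bool} (hw : Legal fib w) : Legal fib w.reverse := by
  obtain ⟨p, a, v, hv, h⟩ := hw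
  exact ⟨p, a, v.reverse, pow_reverse p a v hv, List.reverse_infix.2 h⟩

theorem wd_reverse {A : Type*} (x : ℤ → A) (i : ℤ) (n : ℕ) :
    wd (fun i => x (-1 - i)) i n = (wd x (-i - n) n).reverse := by
  apply List.ext_getElem
  · simp [wd]
  · intro k h1 h2
    have hk : k < n := by simpa [wd] using h1
    simp only [wd, List.getElem_map, List.getElem_range, List.getElem_reverse, List.length_map,
      List.length_range]
    congr 1
    omega

theorem rev_mem {x : ℤ → Bool} (hx : x ∈ subshift fib) :
    (fun i => x (-1 - i)) ∈ subshift fib := by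
  intro i n
  rw [wd_reverse]
  exact legal_reverse (hx _ _)

/-- A checker for membership in the image of a word. -/
def chk : List Bool → List Bool → Bool
  | [], v => v.isEmpty
  | true :: u, false :: v => chk u v
  | false :: u, a :: b :: v => (a != b) && chk u v
  | _, _ => false

theorem chk_sound : ∀ u v, chk u v = true → v ∈ imgW fib u
  | [], v, h => by
    cases v
    · rfl
    · simp [chk] at h
  | true :: u, [], h => by simp [chk] at h
  | true :: u, true :: v, h => by simp [chk] at h
  | true :: u, false :: v, h =>
    ⟨[false], by simp [fib], v, chk_sound u v (by simpa [chk] using h), rfl⟩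
  | false :: u, [], h => by simp [chk] at h
  | false :: u, [_], h => by simp [chk] at h
  | false :: u, a :: b :: v, h => by
    have h' : (a != b) = true ∧ chk u v = true := by simpa [chk] using h
    refine ⟨[a, b], ?_, v, chk_sound u v h'.2, rfl⟩
    cases a <;> cases b <;> simp_all [fib]

/-- The word of the anchor: `aabaababaabaababaaaabaabaa`. -/
def wM : List Bool :=
  [false, false, true, false, false, true, false, true, false, false, true, false, false, true,
    false, true, false, false, false, false, true, false, false, true, false, false]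

/-- A canonical image of a word. -/
def canon : List Bool → List Bool
  | [] => []
  | true :: u => false :: canon u
  | false :: u => false :: true :: canon u

theorem canon_mem : ∀ u, canon u ∈ imgW fib u
  | [] => rfl
  | true :: u => ⟨[false], by simp [fib], canon u, canon_mem u, rfl⟩
  | false :: u => ⟨[false, true], by simp [fib], canon u, canon_mem u, rfl⟩

theorem length_canon_le : ∀ u, u.length ≤ (canon u).length
  | [] => le_refl _
  | true :: u => by
    have := length_canon_le u
    simpa [canon] using this
  | false :: u => by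
    have := length_canon_le u
    simp only [canon, List.length_cons]
    omega

theorem length_canon_lt : ∀ u, false ∈ u → u.length < (canon u).length
  | [], h => by simp at h
  | true :: u, h => by
    have := length_canon_lt u (by simpa using h)
    simpa [canon] using this
  | false :: u, _ => by
    have := length_canon_le u
    simp only [canon, List.length_cons]
    omega

theorem false_mem_canon : ∀ u, u ≠ [] → false ∈ canon u
  | [], h => by simp at h
  | true :: u, _ => by simp [canon]
  | false :: u, _ => by simp [canon]

theorem exists_long (n : ℕ) : ∃ v ∈ pow fib n false, n + 1 ≤ v.length ∧ false ∈ v := by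
  induction n with
  | zero => exact ⟨[false], rfl, by simp, by simp⟩
  | succ n ih =>
    obtain ⟨v, hv, h1, h2⟩ := ih
    refine ⟨canon v, ⟨v, hv, canon_mem v⟩, ?_, false_mem_canon v ?_⟩
    · have := length_canon_lt v h2
      omega
    · rintro rfl
      simp at h2

theorem sh_mem {x : ℤ → Bool} (hx : x ∈ subshift fib) (k : ℤ) : sh k x ∈ subshift fib := by
  intro i n
  rw [wd_sh]
  exact hx _ _

theorem wd_add {A : Type*} (x : ℤ → A) (i : ℤ) (m n : ℕ) :
    wd x i (m + n) = wd x i m ++ wd x (i + m) n := by
  induction n with
  | zero => simp [wd]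
  | succ n ih =>
    rw [← Nat.add_assoc, wd_succ, wd_succ, ih, List.append_assoc]
    congr 3
    push_cast
    ring_nf

end H35.RS.Fib
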