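import Pool.Agent.H35.RS.Defs

/-!
# The random Fibonacci substitution: definitions

Letters: `false = a`, `true = b`.  `ϑ(a) = {ab, ba}`, `ϑ(b) = {a}`.
-/

namespace H35.RS.Fib

open H35.RS

/-- The random Fibonacci substitution `a ↦ {ab, ba}`, `b ↦ {a}` (`a = false`, `b = true`). -/
def fib : Bool → Finset (List Bool)
  | false => {[false, true], [true, false]}
  | true => {[false]}

/-- `g = 1/φ = (√5 - 1)/2`. -/
noncomputable def g : ℝ := (Real.sqrt 5 - 1) / 2

/-- Heights of the letters: `h(a) = -g`, `h(b) = 1`. -/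
noncomputable def ht : Bool → ℝ
  | false => -g
  | true => 1

/-- Heights of the vertices of a bi-infinite path: `S x 0 = 0`, `S x (i+1) = S x i + ht (x i)`. -/
noncomputable def S (x : ℤ → Bool) (i : ℤ) : ℝ :=
  (∑ j ∈ Finset.Ico 0 i, ht (x j)) - ∑ j ∈ Finset.Ico i 0, ht (x j)

/-- Swap the letters `x (i-1)` and `x i` (the two letters around the vertex `i`). -/
def flip (x : ℤ → Bool) (i : ℤ) : ℤ → Bool :=
  fun j => if j = i - 1 then x i else if j = i then x (i - 1) else x j

/-- `(y, c)` is a parsing of `x` into tiles: tile `i` starts at coordinate `c i`; it is `a` if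
`y i = b` and it is `ab` or `ba` if `y i = a`. -/
def Parse (x y : ℤ → Bool) (c : ℤ → ℤ) : Prop :=
  ∀ i, (y i = true ∧ c (i + 1) = c i + 1 ∧ x (c i) = false) ∨
    (y i = false ∧ c (i + 1) = c i + 2 ∧
      ((x (c i) = false ∧ x (c i + 1) = true) ∨ (x (c i) = true ∧ x (c i + 1) = false)))

/-- An anchor at `p`: among the 26 letters `x_p, …, x_{p+25}` exactly 8 are `b`; the path descends
by `18 g - 8 = 3.1246…` from the vertex `p` to the vertex `p + 26`. -/
def Mark (x : ℤ → Bool) (p : ℤ) : Prop := (wd x p 26).count true = 8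

theorem g_sq : g * g = 1 - g := by
  unfold g
  have h : Real.sqrt 5 * Real.sqrt 5 = 5 := Real.mul_self_sqrt (by norm_num)
  nlinarith [h]

theorem g_lower : (0.618 : ℝ) < g := by
  unfold g
  have : (2.236 : ℝ) < Real.sqrt 5 := by
    rw [show (2.236 : ℝ) = Real.sqrt (2.236 ^ 2) by rw [Real.sqrt_sq]; norm_num]
    exact Real.sqrt_lt_sqrt (by norm_num) (by norm_num)
  linarith

theorem g_upper : g < (0.6181 : ℝ) := by
  unfold g
  have : Real.sqrt 5 < (2.2362 : ℝ) := by
    rw [show (2.2362 : ℝ) = Real.sqrt (2.2362 ^ 2) by rw [Real.sqrt_sq]; norm_num]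
    exact Real.sqrt_lt_sqrt (by norm_num) (by norm_num)
  linarith

theorem S_zero (x : ℤ → Bool) : S x 0 = 0 := by
  simp [S]

theorem S_succ (x : ℤ → Bool) (i : ℤ) : S x (i + 1) = S x i + ht (x i) := by
  unfold S
  by_cases hi : 0 ≤ i
  · have h1 : Finset.Ico 0 (i + 1) = insert i (Finset.Ico 0 i) := by
      ext j
      simp only [Finset.mem_Ico, Finset.mem_insert]
      omega
    have h2 : Finset.Ico (i + 1) 0 = ∅ := Finset.Ico_eq_empty (by omega)
    have h3 : Finset.Ico i 0 = ∅ := Finset.Ico_eq_empty (by omega)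
    rw [h1, h2, h3, Finset.sum_insert (by simp)]
    simp only [Finset.sum_empty]
    ring
  · have h1 : Finset.Ico i 0 = insert i (Finset.Ico (i + 1) 0) := by
      ext j
      simp only [Finset.mem_Ico, Finset.mem_insert]
      omega
    have h2 : Finset.Ico 0 (i + 1) = ∅ := Finset.Ico_eq_empty (by omega)
    have h3 : Finset.Ico 0 i = ∅ := Finset.Ico_eq_empty (by omega)
    rw [h1, h2, h3, Finset.sum_insert (by simp)]
    simp only [Finset.sum_empty]
    ring

end H35.RS.Fib
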