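import Pool.Agent.H35.RS.FibBasic

/-!
# The random Fibonacci substitution: primitive, compatible, aperiodic, not recognisable
-/

namespace H35.RS.Fib

open H35.RS

/-! ### Primitivity and compatibility -/

theorem fib_primitive : Primitive fib := by
  refine ⟨2, by norm_num, ?_⟩
  have h1 : [false, true, false] ∈ pow fib 2 false :=
    ⟨[false, true], ⟨[false], rfl, chk_sound _ _ (by decide)⟩, chk_sound _ _ (by decide)⟩
  have h2 : [false, true] ∈ pow fib 2 true :=
    ⟨[false], ⟨[true], rfl, chk_sound _ _ (by decide)⟩, chk_sound _ _ (by decide)⟩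
  intro a b
  cases b
  · exact ⟨_, h1, by cases a <;> simp⟩
  · exact ⟨_, h2, by cases a <;> simp⟩

theorem fib_compatible : Compatible fib := by
  intro a v hv v' hv'
  cases a
  · simp only [fib, Finset.mem_insert, Finset.mem_singleton] at hv hv'
    rcases hv with rfl | rfl <;> rcases hv' with rfl | rfl
    · exact List.Perm.refl _
    · exact List.Perm.swap _ _ _
    · exact List.Perm.swap _ _ _
    · exact List.Perm.refl _
  · simp only [fib, Finset.mem_singleton] at hv hv'
    rw [hv, hv']

/-! ### Aperiodicity -/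

theorem hs_count (w : List Bool) :
    hs w = (w.count true : ℝ) - g * ((w.length : ℝ) - (w.count true : ℝ)) := by
  induction w with
  | nil => simp [hs]
  | cons a w ih =>
    rw [hs_cons, ih]
    cases a
    · simp [ht]; ring
    · simp [ht]; ring

theorem g_irrational : Irrational g := by
  have h5 : Irrational (Real.sqrt 5) := by
    have := Nat.Prime.irrational_sqrt (show Nat.Prime 5 by norm_num)
    exact_mod_cast this
  intro h
  obtain ⟨q, hq⟩ := h
  apply h5
  refine ⟨2 * q + 1, ?_⟩
  have : g = (Real.sqrt 5 - 1) / 2 := rfl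
  push_cast
  rw [hq, this]
  ring

theorem hs_ne_zero {w : List Bool} (hw : w ≠ []) : hs w ≠ 0 := by
  intro h
  rw [hs_count] at h
  have hle : w.count true ≤ w.length := List.count_le_length
  by_cases h1 : w.count true = w.length
  · rw [h1] at h
    have h2 : (w.length : ℝ) = 0 := by simpa using h
    have h3 : w.length = 0 := by exact_mod_cast h2
    exact hw (List.length_eq_zero_iff.1 h3)
  · have h2 : (w.count true : ℝ) < w.length := by
      exact_mod_cast lt_of_le_of_ne hle h1
    apply g_irrational
    refine ⟨(w.count true : ℚ) / ((w.length : ℚ) - (w.count true : ℚ)), ?_⟩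
    push_cast
    rw [div_eq_iff (by linarith)]
    linarith

theorem fib_aperiodic : Aperiodic (subshift fib) := by
  intro x hx n hn h
  have hper : ∀ i, wd x (i + n) n = wd x i n := by
    intro i
    rw [← wd_sh, h]
  have hper' : ∀ m : ℕ, wd x ((m : ℤ) * n) n = wd x 0 n := by
    intro m
    induction m with
    | zero => simp
    | succ m ih =>
      rw [show ((m + 1 : ℕ) : ℤ) * n = (m : ℤ) * n + n by push_cast; ring, hper, ih]
  have hS : ∀ m : ℕ, S x ((m : ℤ) * n) = m * hs (wd x 0 n) := by
    intro m
    induction m with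
    | zero => simp [S_zero]
    | succ m ih =>
      have h1 := hs_wd x ((m : ℤ) * n) n
      rw [hper', ih] at h1
      rw [show ((m + 1 : ℕ) : ℤ) * n = (m : ℤ) * n + n by push_cast; ring]
      push_cast
      linarith
  have hd : hs (wd x 0 n) ≠ 0 := by
    apply hs_ne_zero
    intro h1
    have h2 := congrArg List.length h1
    simp [wd] at h2
    omega
  have hpos : 0 < |hs (wd x 0 n)| := abs_pos.2 hd
  obtain ⟨m, hm⟩ := exists_nat_gt ((2 + 2 * g) / |hs (wd x 0 n)|)
  rw [div_lt_iff₀ hpos] at hm
  have h1 := osc hx ((m : ℤ) * n) 0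
  have h2 := osc hx 0 ((m : ℤ) * n)
  rw [hS, S_zero] at h1 h2
  rcases abs_cases (hs (wd x 0 n)) with ⟨h3, h4⟩ | ⟨h3, h4⟩
  · rw [h3] at hm
    linarith
  · rw [h3] at hm
    linarith

/-! ### Non-recognisability -/

/-- Two sided partial sums of the lengths of the tiles. -/
noncomputable def cs (y : ℤ → Bool) (i : ℤ) : ℤ :=
  (∑ j ∈ Finset.Ico 0 i, (len (y j) : ℤ)) - ∑ j ∈ Finset.Ico i 0, (len (y j) : ℤ)

theorem cs_zero (y : ℤ → Bool) : cs y 0 = 0 := by simp [cs]

theorem cs_succ (y : ℤ → Bool) (i : ℤ) : cs y (i + 1) = cs y i + len (y i) := by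
  unfold cs
  by_cases hi : 0 ≤ i
  · have h1 : Finset.Ico 0 (i + 1) = insert i (Finset.Ico 0 i) := by
      ext j
      simp only [Finset.mem_Ico, Finset.mem_insert]
      omega
    have h2 : Finset.Ico (i + 1) 0 = ∅ := Finset.Ico_eq_empty (by omega)
    have h3 : Finset.Ico i 0 = ∅ := Finset.Ico_eq_empty (by omega)
    rw [h1, h2, h3, Finset.sum_insert (by simp)]
    simp only [Finset.sum_empty]
    ring
  · have h1 : Finset.Ico i 0 = insert i (Finset.Ico (i + 1) 0) := by
      ext j
      simp only [Finset.mem_Ico, Finset.mem_insert]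
      omega
    have h2 : Finset.Ico 0 (i + 1) = ∅ := Finset.Ico_eq_empty (by omega)
    have h3 : Finset.Ico 0 i = ∅ := Finset.Ico_eq_empty (by omega)
    rw [h1, h2, h3, Finset.sum_insert (by simp)]
    simp only [Finset.sum_empty]
    ring

theorem cs_strictMono (y : ℤ → Bool) : StrictMono (cs y) := by
  apply strictMono_int_of_lt_succ
  intro i
  rw [cs_succ]
  have : 1 ≤ len (y i) := by cases y i <;> simp [len]
  omega

open Classical in
/-- The image of `y` with the tiles `ab` and `a`. -/
noncomputable def im (y : ℤ → Bool) : ℤ → Bool :=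
  fun v => decide (∃ i, y i = false ∧ v = cs y i + 1)

theorem im_start (y : ℤ → Bool) (i : ℤ) : im y (cs y i) = false := by
  unfold im
  rw [decide_eq_false_iff_not]
  rintro ⟨j, hj, h⟩
  have h1 : j < i := (cs_strictMono y).lt_iff_lt.1 (by omega)
  have h2 : cs y (j + 1) ≤ cs y i := (cs_strictMono y).monotone (by omega)
  rw [cs_succ, hj] at h2
  simp only [len] at h2
  omega

theorem im_second (y : ℤ → Bool) {i : ℤ} (h : y i = false) : im y (cs y i + 1) = true := by
  unfold im
  exact @decide_eq_true _ (Classical.propDecidable _) ⟨i, h, rfl⟩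

theorem parse_im (y : ℤ → Bool) : Parse (im y) y (cs y) := by
  intro i
  rcases hi : y i with _ | _
  · right
    refine ⟨rfl, ?_, Or.inl ⟨im_start y i, im_second y hi⟩⟩
    rw [cs_succ, hi]; rfl
  · left
    refine ⟨rfl, ?_, im_start y i⟩
    rw [cs_succ, hi]; rfl

theorem imgSeq_of_parse {x y : ℤ → Bool} {c : ℤ → ℤ} (h : Parse x y c) (h0 : c 0 = 0) :
    ImgSeq fib y x := by
  have hl : ∀ i n, (wd x i n).length = n := fun i n => by simp [wd]
  refine ⟨fun i => wd x (c i) (len (y i)), c, ?_, h0, ?_, ?_⟩
  · intro i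
    rcases h i with ⟨h1, h2, h3⟩ | ⟨h1, h2, h3⟩
    · simp only [h1, len]
      simp [wd, h3, fib]
    · simp only [h1, len]
      rcases h3 with ⟨h4, h5⟩ | ⟨h4, h5⟩ <;> simp [wd, List.range_succ, fib, h4, h5]
  · intro i
    simp only [hl]
    rcases h i with ⟨h1, h2, h3⟩ | ⟨h1, h2, h3⟩
    · rw [h1, h2]; rfl
    · rw [h1, h2]; rfl
  · intro i
    simp only [hl]

theorem desub_of_parse {x y : ℤ → Bool} {c : ℤ → ℤ} (hy : y ∈ subshift fib) (h : Parse x y c)
    (h0 : c 0 = 0) : Desub fib x y 0 := by
  refine ⟨hy, ?_, ?_⟩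
  · cases y 0
    · exact ⟨[false, true], by simp [fib], by simp⟩
    · exact ⟨[false], by simp [fib], by simp⟩
  · have : sh (-((0 : ℕ) : ℤ)) x = x := by
      rw [Nat.cast_zero, neg_zero, sh_zero]
    rw [this]
    exact imgSeq_of_parse h h0

theorem exists_false : ∃ z ∈ subshift fib, z 0 = false := by
  obtain ⟨x, hx, -⟩ := exists_mark
  have : ∃ i, x i = false := by
    by_contra hcon
    push Not at hcon
    have hb : ∀ j, x j = true := fun j => by simpa using hcon j
    exact no_bbb hx 0 ⟨hb _, hb _, hb _⟩
  obtain ⟨i, hi⟩ := this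
  refine ⟨sh i x, ?_, by simpa [sh_apply] using hi⟩
  intro j n
  rw [wd_sh]
  exact hx _ _

theorem fib_not_recognisable : ¬ Recognisable fib := by
  intro hrec
  obtain ⟨z, hz, hz0⟩ := exists_false
  -- the images of `z`
  have hp := parse_im z
  have hy : im z ∈ subshift fib := mem_of_parse hz hp
  have e0 : cs z 0 = 0 := cs_zero z
  have hy0 : im z 0 = false := by simpa [e0] using im_start z 0
  have hy1 : im z 1 = true := by simpa [e0] using im_second z hz0
  set y := im z with hydef
  let y' : ℤ → Bool := fun j => if j = 0 then true else if j = 1 then false else y j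
  have hy'0 : y' 0 = true := by simp [y']
  have hy'1 : y' 1 = false := by simp [y']
  have hy'2 : ∀ j, j ≠ 0 → j ≠ 1 → y' j = y j := by
    intro j h1 h2
    simp [y', h1, h2]
  have e1 : cs z 1 = 2 := by
    have := cs_succ z 0
    rw [zero_add, e0, hz0] at this
    simpa [len] using this
  have hp' : Parse y' z (cs z) := by
    intro i
    by_cases hi : i = 0
    · subst hi
      right
      refine ⟨hz0, by rw [zero_add, e0, e1]; rfl, Or.inr ?_⟩
      rw [e0]
      exact ⟨hy'0, by rw [zero_add]; exact hy'1⟩
    · have hne : ∀ v, (v = cs z i ∨ (v = cs z i + 1 ∧ z i = false)) → y' v = y v := by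
        intro v hv
        apply hy'2
        · rcases lt_or_gt_of_ne hi with h | h
          · have h2 : cs z (i + 1) ≤ cs z 0 := (cs_strictMono z).monotone (by omega)
            rw [cs_succ, e0] at h2
            rcases hv with hv | ⟨hv, hzi⟩
            · have : 1 ≤ len (z i) := by cases z i <;> simp [len]
              omega
            · rw [hzi] at h2
              simp only [len] at h2
              omega
          · have h2 : cs z 1 ≤ cs z i := (cs_strictMono z).monotone (by omega)
            rcases hv with hv | ⟨hv, -⟩ <;> omega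
        · rcases lt_or_gt_of_ne hi with h | h
          · have h2 : cs z (i + 1) ≤ cs z 0 := (cs_strictMono z).monotone (by omega)
            rw [cs_succ, e0] at h2
            rcases hv with hv | ⟨hv, hzi⟩
            · have : 1 ≤ len (z i) := by cases z i <;> simp [len]
              omega
            · rw [hzi] at h2
              simp only [len] at h2
              omega
          · have h2 : cs z 1 ≤ cs z i := (cs_strictMono z).monotone (by omega)
            rcases hv with hv | ⟨hv, -⟩ <;> omega
      rcases hp i with ⟨h1, h2, h3⟩ | ⟨h1, h2, h3⟩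
      · left
        exact ⟨h1, h2, by rw [hne _ (Or.inl rfl)]; exact h3⟩
      · right
        refine ⟨h1, h2, ?_⟩
        rw [hne _ (Or.inl rfl), hne _ (Or.inr ⟨rfl, h1⟩)]
        exact h3
  have hy' : y' ∈ subshift fib := mem_of_parse hz hp'
  -- the image of `y`
  have hq := parse_im y
  have hx : im y ∈ subshift fib := mem_of_parse hy hq
  have f0 : cs y 0 = 0 := cs_zero y
  have f1 : cs y 1 = 2 := by
    have := cs_succ y 0
    rw [zero_add, f0, hy0] at this
    simpa [len] using this
  have f2 : cs y 2 = 3 := by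
    have := cs_succ y 1
    rw [f1, hy1] at this
    simpa [len] using this
  have x0 : im y 0 = false := by simpa [f0] using im_start y 0
  have x1 : im y 1 = true := by simpa [f0] using im_second y hy0
  have x2 : im y 2 = false := by simpa [f1] using im_start y 1
  let c' : ℤ → ℤ := fun i => if i = 1 then 1 else cs y i
  have c'1 : c' 1 = 1 := by simp [c']
  have c'n : ∀ i, i ≠ 1 → c' i = cs y i := by
    intro i hi
    simp [c', hi]
  have hq' : Parse (im y) y' c' := by
    intro i
    by_cases hi : i = 0
    · subst hi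
      left
      refine ⟨hy'0, ?_, ?_⟩
      · rw [zero_add, c'1, c'n 0 (by norm_num), f0]; rfl
      · rw [c'n 0 (by norm_num), f0]; exact x0
    · by_cases hi1 : i = 1
      · subst hi1
        right
        refine ⟨hy'1, ?_, Or.inr ?_⟩
        · rw [c'1, show (1 : ℤ) + 1 = 2 by norm_num, c'n 2 (by norm_num), f2]
          norm_num
        · rw [c'1]
          exact ⟨x1, x2⟩
      · rw [c'n i hi1, c'n (i + 1) (by omega), hy'2 i hi hi1]
        exact hq i
  have d1 : Desub fib (im y) y 0 := desub_of_parse hy hq f0
  have d2 : Desub fib (im y) y' 0 :=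
    desub_of_parse hy' hq' (by rw [c'n 0 (by norm_num), f0])
  have := (hrec (im y) hx).unique (y₁ := (y, 0)) (y₂ := (y', 0)) d1 d2
  have h3 := congrFun (congrArg Prod.fst this) 0
  simp only at h3
  rw [hy0, hy'0] at h3
  simp at h3

end H35.RS.Fib
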