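import Pool.Agent.H35.RS.FibFlipCore
import Pool.Agent.H35.RS.FibBasic

/-!
# The random Fibonacci substitution: flips
-/

namespace H35.RS.Fib

open H35.RS

theorem facts : Facts where
  exists_parse := exists_parse
  mem_of_parse := mem_of_parse
  parse_height := parse_height
  parse_cover := parse_cover
  osc := osc
  rev_mem := rev_mem

theorem flip_up {x : ℤ → Bool} (hx : x ∈ subshift fib) (i P : ℤ) (h1 : x (i - 1) = false)
    (h2 : x i = true) (hP : S x (i - 1) + 1 + (2 * g - 1) ≤ S x P) :
    flip x i ∈ subshift fib :=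
  facts.flip_up hx i P h1 h2 hP

theorem flip_down {x : ℤ → Bool} (hx : x ∈ subshift fib) (i Q : ℤ) (h1 : x (i - 1) = true)
    (h2 : x i = false) (hQ : S x Q + (2 * g - 1) ≤ S x (i - 1) - g) :
    flip x i ∈ subshift fib :=
  facts.flip_down hx i Q h1 h2 hQ

end H35.RS.Fib
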