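import Pool.Agent.H35.RS.FibDefs

/-!
# The random Fibonacci substitution: flips (core)

The facts of `FibBasic.lean` enter as the fields of the structure `Facts`.
-/

namespace H35.RS.Fib

open H35.RS

/-- The facts of `FibBasic.lean` that are used here. -/
structure Facts : Prop where
  exists_parse : ∀ {x : ℤ → Bool}, x ∈ subshift fib → ∃ y ∈ subshift fib, ∃ c, Parse x y c
  mem_of_parse : ∀ {x y : ℤ → Bool} {c : ℤ → ℤ}, y ∈ subshift fib → Parse x y c →
    x ∈ subshift fib
  parse_height : ∀ {x y : ℤ → Bool} {c : ℤ → ℤ}, Parse x y c → ∀ i j : ℤ,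
    S x (c i) - S x (c j) = -g * (S y i - S y j)
  parse_cover : ∀ {x y : ℤ → Bool} {c : ℤ → ℤ}, Parse x y c → ∀ v : ℤ,
    ∃ i, v = c i ∨ (v = c i + 1 ∧ y i = false)
  osc : ∀ {x : ℤ → Bool}, x ∈ subshift fib → ∀ i j : ℤ, S x i - S x j < 2 + 2 * g
  rev_mem : ∀ {x : ℤ → Bool}, x ∈ subshift fib → (fun i => x (-1 - i)) ∈ subshift fib

/-- A valley at `i` can be flipped if the new vertex is at least `d` below some vertex. -/
def Up (d : ℝ) : Prop :=
  ∀ x ∈ subshift fib, ∀ i P : ℤ, x (i - 1) = false → x i = true →
    S x (i - 1) + 1 + d ≤ S x P → flip x i ∈ subshift fib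

/-- A peak at `i` can be flipped if the new vertex is at least `d` above some vertex. -/
def Down (d : ℝ) : Prop :=
  ∀ x ∈ subshift fib, ∀ i Q : ℤ, x (i - 1) = true → x i = false →
    S x Q + d ≤ S x (i - 1) - g → flip x i ∈ subshift fib

theorem ht_false : ht false = -g := rfl

theorem ht_true : ht true = 1 := rfl

theorem S_pred (x : ℤ → Bool) (i : ℤ) : S x i = S x (i - 1) + ht (x (i - 1)) := by
  have := S_succ x (i - 1)
  simpa using this

theorem S_rev (x : ℤ → Bool) (i : ℤ) : S (fun i => x (-1 - i)) i = - S x (-i) := by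
  induction i using Int.induction_on with
  | zero => simp [S_zero]
  | succ n ih =>
    have h1 := S_succ (fun i => x (-1 - i)) (n : ℤ)
    have h2 := S_succ x (-((n : ℤ) + 1))
    rw [show -((n : ℤ) + 1) + 1 = -(n : ℤ) by ring] at h2
    rw [h1, ih, h2, show (-1 - (n : ℤ)) = -((n : ℤ) + 1) by ring]
    ring
  | pred n ih =>
    have h1 := S_succ (fun i => x (-1 - i)) (-(n : ℤ) - 1)
    have h2 := S_succ x (-(-(n : ℤ)))
    rw [show -(n : ℤ) - 1 + 1 = -(n : ℤ) by ring, ih] at h1
    rw [show -(-(n : ℤ)) + 1 = -(-(n : ℤ) - 1) by ring] at h2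
    rw [h2]
    rw [show (-1 - (-(n : ℤ) - 1)) = -(-(n : ℤ)) by ring] at h1
    linarith

theorem flip_rev (x : ℤ → Bool) (i : ℤ) :
    (fun j => flip (fun k => x (-1 - k)) (-i) (-1 - j)) = flip x i := by
  funext j
  unfold flip
  simp only
  by_cases h1 : j = i - 1
  · subst h1
    rw [if_neg (by omega), if_pos (by omega), if_pos rfl]
    congr 1
    ring
  · by_cases h2 : j = i
    · subst h2
      rw [if_pos (by omega), if_neg (by omega), if_pos rfl]
      congr 1
      ring
    · rw [if_neg (by omega), if_neg (by omega), if_neg h1, if_neg h2]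
      congr 1
      ring

theorem Facts.down_of_up (F : Facts) {d : ℝ} (h : Up d) : Down d := by
  intro x hx i Q h1 h2 hQ
  have hx' := F.rev_mem hx
  have key := h _ hx' (-i) (-Q)
    (by rw [show (-1 - (-i - 1)) = i by ring]; exact h2)
    (by rw [show (-1 - (-i)) = i - 1 by ring]; exact h1)
    (by
      rw [S_rev, S_rev, neg_neg]
      rw [show -(-i - 1) = i + 1 by ring, S_succ, h2, ht_false, S_pred, h1, ht_true]
      linarith)
  have := F.rev_mem key
  rwa [flip_rev] at this

/-- A cut which is at most `g` below a given vertex. -/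
theorem Facts.cut_near (F : Facts) {x y : ℤ → Bool} {c : ℤ → ℤ} (hp : Parse x y c) (P : ℤ) :
    ∃ m, S x P - g ≤ S x (c m) := by
  have hg := g_lower
  obtain ⟨m, hm | ⟨hm, hy⟩⟩ := F.parse_cover hp P
  · exact ⟨m, by rw [hm]; linarith⟩
  · rcases hp m with ⟨h1, _, _⟩ | ⟨_, h2, h3⟩
    · rw [h1] at hy
      exact absurd hy (by simp)
    · rcases h3 with ⟨h3, h4⟩ | ⟨h3, h4⟩
      · refine ⟨m, ?_⟩
        rw [hm, S_succ, h3, ht_false]
        linarith
      · refine ⟨m + 1, ?_⟩
        rw [h2, hm, show c m + 2 = (c m + 1) + 1 by ring, S_succ x (c m + 1), h4, ht_false]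
        linarith

theorem parse_mono {x y : ℤ → Bool} {c : ℤ → ℤ} (hp : Parse x y c) : StrictMono c := by
  apply strictMono_int_of_lt_succ
  intro i
  rcases hp i with ⟨_, h, _⟩ | ⟨_, h, _⟩ <;> omega

/-- Case: `i` is the middle of a tile `ab`. -/
theorem parse_flip_mid {x y : ℤ → Bool} {c : ℤ → ℤ} (hp : Parse x y c) {j : ℤ}
    (hy : y j = false) : Parse (flip x (c j + 1)) y c := by
  have hmono := parse_mono hp
  intro l
  have hj : c (j + 1) = c j + 2 := by
    rcases hp j with ⟨h, _, _⟩ | ⟨_, h, _⟩
    · rw [h] at hy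
      exact absurd hy (by simp)
    · exact h
  by_cases hl : l = j
  · subst hl
    rcases hp l with ⟨h, _, _⟩ | ⟨_, h, h3⟩
    · rw [h] at hy
      exact absurd hy (by simp)
    · right
      refine ⟨hy, h, ?_⟩
      unfold flip
      rw [if_pos (by omega), if_neg (by omega), if_pos rfl]
      rw [show c l + 1 - 1 = c l by ring]
      tauto
  · have hfar : ∀ t, (t = c l ∨ (t = c l + 1 ∧ y l = false)) → flip x (c j + 1) t = x t := by
      intro t ht
      have hne : t ≠ c j ∧ t ≠ c j + 1 := by
        rcases lt_or_gt_of_ne hl with hlt | hgt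
        · have h1 : c (l + 1) ≤ c j := hmono.monotone (by omega)
          rcases hp l with ⟨h, h2, _⟩ | ⟨_, h2, _⟩
          · rcases ht with ht | ⟨_, ht⟩
            · constructor <;> omega
            · rw [h] at ht
              exact absurd ht (by simp)
          · rcases ht with ht | ⟨ht, _⟩ <;> constructor <;> omega
        · have h1 : c (j + 1) ≤ c l := hmono.monotone (by omega)
          rcases ht with ht | ⟨ht, _⟩ <;> constructor <;> omega
      unfold flip
      rw [if_neg (by omega), if_neg (by omega)]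
    rcases hp l with ⟨h, h2, h3⟩ | ⟨h, h2, h3⟩
    · left
      refine ⟨h, h2, ?_⟩
      rw [hfar _ (Or.inl rfl)]
      exact h3
    · right
      refine ⟨h, h2, ?_⟩
      rw [hfar _ (Or.inl rfl), hfar _ (Or.inr ⟨rfl, h⟩)]
      exact h3

/-- Case `n = 0`: a tile `a` followed by a tile `ba`; after the flip at the cut it is `ba.a`. -/
theorem parse_flip_cut {x y : ℤ → Bool} {c : ℤ → ℤ} (hp : Parse x y c) {j : ℤ}
    (hy1 : y (j - 1) = true) (hx2 : x (c j) = true) :
    Parse (flip x (c j)) (flip y j) (fun l => if l = j then c j + 1 else c l) := by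
  have hmono := parse_mono hp
  have h0 : c j = c (j - 1) + 1 ∧ x (c (j - 1)) = false := by
    rcases hp (j - 1) with ⟨_, h, h'⟩ | ⟨h, _, _⟩
    · rw [show j - 1 + 1 = j by ring] at h
      exact ⟨h, h'⟩
    · rw [h] at hy1
      exact absurd hy1 (by simp)
  have h1 : y j = false ∧ c (j + 1) = c j + 2 ∧ x (c j + 1) = false := by
    rcases hp j with ⟨_, _, h⟩ | ⟨h, h', h''⟩
    · rw [h] at hx2
      exact absurd hx2 (by simp)
    · refine ⟨h, h', ?_⟩
      rcases h'' with ⟨h3, _⟩ | ⟨_, h4⟩
      · rw [h3] at hx2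
        exact absurd hx2 (by simp)
      · exact h4
  intro l
  by_cases hl : l = j - 1
  · subst hl
    right
    have e1 : flip y j (j - 1) = y j := by simp [flip]
    refine ⟨by rw [e1]; exact h1.1, ?_, ?_⟩
    · simp only
      rw [if_pos (by omega), if_neg (by omega)]
      omega
    · right
      simp only
      rw [if_neg (show ¬ (j - 1 = j) by omega)]
      unfold flip
      constructor
      · rw [if_pos (by omega)]
        exact hx2
      · rw [if_neg (by omega), if_pos (by omega), show c j - 1 = c (j - 1) by omega]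
        exact h0.2
  · by_cases hl' : l = j
    · subst hl'
      left
      refine ⟨?_, ?_, ?_⟩
      · unfold flip
        rw [if_neg (by omega), if_pos rfl]
        exact hy1
      · simp only [if_true]
        rw [if_neg (by omega)]
        omega
      · simp only [if_true]
        unfold flip
        rw [if_neg (by omega), if_neg (by omega)]
        exact h1.2.2
    · have hyl : flip y j l = y l := by
        unfold flip
        rw [if_neg hl, if_neg hl']
      have hfar : ∀ t, (t = c l ∨ (t = c l + 1 ∧ y l = false)) → flip x (c j) t = x t := by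
        intro t ht
        have hne : t ≠ c j ∧ t ≠ c j - 1 := by
          rcases lt_or_gt_of_ne hl' with hlt | hgt
          · have h2 : c (l + 1) ≤ c (j - 1) := hmono.monotone (by omega)
            rcases hp l with ⟨h, h2, _⟩ | ⟨_, h2, _⟩
            · rcases ht with ht | ⟨_, ht⟩
              · constructor <;> omega
              · rw [h] at ht
                exact absurd ht (by simp)
            · rcases ht with ht | ⟨ht, _⟩ <;> constructor <;> omega
          · have h2 : c (j + 1) ≤ c l := hmono.monotone (by omega)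
            rcases ht with ht | ⟨ht, _⟩ <;> constructor <;> omega
        unfold flip
        rw [if_neg (by omega), if_neg (by omega)]
      simp only
      rw [if_neg hl', if_neg (show ¬ (l + 1 = j) by omega), hyl]
      rcases hp l with ⟨h, h2, h3⟩ | ⟨h, h2, h3⟩
      · left
        refine ⟨h, h2, ?_⟩
        rw [hfar _ (Or.inl rfl)]
        exact h3
      · right
        refine ⟨h, h2, ?_⟩
        rw [hfar _ (Or.inl rfl), hfar _ (Or.inr ⟨rfl, h⟩)]
        exact h3

/-- Case `n > 0`: a tile `a` followed by a tile `ba`, re-cut as `ab` and `a`. -/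
theorem parse_recut {x y : ℤ → Bool} {c : ℤ → ℤ} (hp : Parse x y c) {j : ℤ}
    (hy1 : y (j - 1) = true) (hx2 : x (c j) = true) :
    Parse x (flip y j) (fun l => if l = j then c j + 1 else c l) := by
  have h0 : c j = c (j - 1) + 1 ∧ x (c (j - 1)) = false := by
    rcases hp (j - 1) with ⟨_, h, h'⟩ | ⟨h, _, _⟩
    · rw [show j - 1 + 1 = j by ring] at h
      exact ⟨h, h'⟩
    · rw [h] at hy1
      exact absurd hy1 (by simp)
  have h1 : y j = false ∧ c (j + 1) = c j + 2 ∧ x (c j + 1) = false := by
    rcases hp j with ⟨_, _, h⟩ | ⟨h, h', h''⟩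
    · rw [h] at hx2
      exact absurd hx2 (by simp)
    · refine ⟨h, h', ?_⟩
      rcases h'' with ⟨h3, _⟩ | ⟨_, h4⟩
      · rw [h3] at hx2
        exact absurd hx2 (by simp)
      · exact h4
  intro l
  by_cases hl : l = j - 1
  · subst hl
    right
    have e1 : flip y j (j - 1) = y j := by simp [flip]
    refine ⟨by rw [e1]; exact h1.1, ?_, ?_⟩
    · simp only
      rw [if_pos (by omega), if_neg (by omega)]
      omega
    · left
      simp only
      rw [if_neg (show ¬ (j - 1 = j) by omega)]
      constructor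
      · exact h0.2
      · rw [← h0.1]
        exact hx2
  · by_cases hl' : l = j
    · subst hl'
      left
      refine ⟨?_, ?_, ?_⟩
      · unfold flip
        rw [if_neg (by omega), if_pos rfl]
        exact hy1
      · simp only [if_true]
        rw [if_neg (by omega)]
        omega
      · simp only [if_true]
        exact h1.2.2
    · have hyl : flip y j l = y l := by
        unfold flip
        rw [if_neg hl, if_neg hl']
      simp only
      rw [if_neg hl', if_neg (show ¬ (l + 1 = j) by omega), hyl]
      exact hp l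

/-- The height along a run of `ba` tiles. -/
theorem run_height {x y : ℤ → Bool} {c : ℤ → ℤ} (hp : Parse x y c) (j : ℤ) (n : ℕ)
    (hrun : ∀ l : ℕ, 1 ≤ l → l ≤ n → y (j - l) = false ∧ x (c (j - l)) = true) :
    S x (c j) = S x (c (j - n)) + n * (1 - g) := by
  induction n with
  | zero => simp
  | succ n ih =>
    rw [ih (fun l h1 h2 => hrun l h1 (by omega))]
    obtain ⟨h1, h2⟩ := hrun (n + 1) (by omega) le_rfl
    have h3 : c (j - n) = c (j - (n + 1 : ℕ)) + 2 ∧ x (c (j - (n + 1 : ℕ)) + 1) = false := by
      rcases hp (j - (n + 1 : ℕ)) with ⟨h, _, _⟩ | ⟨_, h, h'⟩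
      · rw [h] at h1
        exact absurd h1 (by simp)
      · rw [show j - ((n + 1 : ℕ) : ℤ) + 1 = j - n by push_cast; ring] at h
        refine ⟨h, ?_⟩
        rcases h' with ⟨h', _⟩ | ⟨_, h'⟩
        · rw [h'] at h2
          exact absurd h2 (by simp)
        · exact h'
    rw [h3.1, show c (j - ((n + 1 : ℕ) : ℤ)) + 2 = (c (j - ((n + 1 : ℕ) : ℤ)) + 1) + 1 by ring,
      S_succ, h3.2, S_succ, h2, ht_true, ht_false]
    push_cast
    ring

/-- The claim of the step, by induction on the length `n` of the run of `ba` tiles. -/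
theorem Facts.claim (F : Facts) {d : ℝ} (hD : Down (d / g)) {x : ℤ → Bool} (i P : ℤ)
    (hxi : x i = true)
    (hP : S x i + g + 1 + d ≤ S x P) (n : ℕ) :
    ∀ (y : ℤ → Bool) (c : ℤ → ℤ) (j : ℤ), y ∈ subshift fib → Parse x y c → i = c j →
      (∀ l : ℕ, 1 ≤ l → l ≤ n → y (j - l) = false ∧ x (c (j - l)) = true) →
      y (j - n - 1) = true → flip x i ∈ subshift fib := by
  have hg := g_lower
  have hg2 := g_sq
  induction n with
  | zero =>
    intro y c j hy hp hij hrun hya
    simp only [Nat.cast_zero, sub_zero] at hya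
    subst hij
    -- estimate
    obtain ⟨m, hm⟩ := F.cut_near hp P
    have h0 : c j = c (j - 1) + 1 ∧ x (c (j - 1)) = false := by
      rcases hp (j - 1) with ⟨_, h, h'⟩ | ⟨h, _, _⟩
      · rw [show j - 1 + 1 = j by ring] at h
        exact ⟨h, h'⟩
      · rw [h] at hya
        exact absurd hya (by simp)
    have h1 : y j = false := by
      rcases hp j with ⟨_, _, h⟩ | ⟨h, _, _⟩
      · rw [h] at hxi
        exact absurd hxi (by simp)
      · exact h
    have h2 := F.parse_height hp m (j - 1)
    have h3 : S x (c j) = S x (c (j - 1)) - g := by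
      rw [h0.1, S_succ, h0.2, ht_false]
      ring
    have h4 : S y m + d / g ≤ S y (j - 1) - g := by
      have h5 : g * (S y m + d / g) ≤ g * (S y (j - 1) - g) := by
        rw [mul_add, mul_div_cancel₀ d (by linarith : g ≠ 0), mul_sub, hg2]
        linarith
      exact le_of_mul_le_mul_left h5 (by linarith)
    have h6 := hD y hy j m hya h1 h4
    exact F.mem_of_parse h6 (parse_flip_cut hp hya hxi)
  | succ n ih =>
    intro y c j hy hp hij hrun hya
    have hrun1 := hrun (n + 1) (by omega) le_rfl
    -- j0 + 1 = j - (n+1)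
    obtain ⟨k, hk⟩ : ∃ k : ℤ, k = j - ((n + 1 : ℕ) : ℤ) := ⟨_, rfl⟩
    rw [← hk] at hrun1 hya
    obtain ⟨m, hm⟩ := F.cut_near hp P
    have h0 : c k = c (k - 1) + 1 ∧ x (c (k - 1)) = false := by
      rcases hp (k - 1) with ⟨_, h, h'⟩ | ⟨h, _, _⟩
      · rw [show k - 1 + 1 = k by ring] at h
        exact ⟨h, h'⟩
      · rw [h] at hya
        exact absurd hya (by simp)
    have h2 := F.parse_height hp m (k - 1)
    have h3 : S x (c k) = S x (c (k - 1)) - g := by
      rw [h0.1, S_succ, h0.2, ht_false]
      ring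
    have h7 := run_height hp j (n + 1) hrun
    rw [← hk, ← hij] at h7
    have h4 : S y m + d / g ≤ S y (k - 1) - g := by
      have h5 : g * (S y m + d / g) ≤ g * (S y (k - 1) - g) := by
        rw [mul_add, mul_div_cancel₀ d (by linarith : g ≠ 0), mul_sub, hg2]
        have h8 : 0 ≤ ((n + 1 : ℕ) : ℝ) * (1 - g) := by
          apply mul_nonneg (Nat.cast_nonneg _)
          linarith [g_upper]
        linarith
      exact le_of_mul_le_mul_left h5 (by linarith)
    have h6 := hD y hy k m hya hrun1.1 h4
    refine ih (flip y k) (fun l => if l = k then c k + 1 else c l) j h6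
      (parse_recut hp hya hrun1.2) ?_ ?_ ?_
    · rw [if_neg (by omega)]
      exact hij
    · intro l hl1 hl2
      have hne : j - (l : ℤ) ≠ k := by omega
      have hne' : j - (l : ℤ) ≠ k - 1 := by omega
      rw [if_neg hne]
      have := hrun l hl1 (by omega)
      refine ⟨?_, this.2⟩
      unfold flip
      rw [if_neg hne', if_neg hne]
      exact this.1
    · have : j - (n : ℤ) - 1 = k := by omega
      rw [this]
      unfold flip
      rw [if_neg (by omega), if_pos rfl]
      exact hya

/-- The step. -/
theorem Facts.step (F : Facts) {d : ℝ} (hd : 2 * g - 1 ≤ d) (hD : Down (d / g)) : Up d := by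
  have hg := g_lower
  have hg' := g_upper
  intro x hx i P h1 h2 hP
  have hSi : S x i = S x (i - 1) - g := by
    rw [S_pred x i, h1, ht_false]
    ring
  have hP' : S x i + g + 1 + d ≤ S x P := by
    rw [hSi]
    linarith
  obtain ⟨y, hy, c, hp⟩ := F.exists_parse hx
  obtain ⟨j, hj | ⟨hj, hyj⟩⟩ := F.parse_cover hp i
  · -- `i` is a cut
    by_cases hex : ∃ n : ℕ, ¬ (y (j - n - 1) = false ∧ x (c (j - n - 1)) = true)
    · classical
      have hspec := Nat.find_spec hex
      have hmin := fun (m : ℕ) (hm : m < Nat.find hex) => Nat.find_min hex hm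
      obtain ⟨n, hn⟩ : ∃ n, n = Nat.find hex := ⟨_, rfl⟩
      rw [← hn] at hspec hmin
      have hrun : ∀ l : ℕ, 1 ≤ l → l ≤ n → y (j - l) = false ∧ x (c (j - l)) = true := by
        intro l hl1 hl2
        have := hmin (l - 1) (by omega)
        rw [not_not] at this
        have e : j - ((l - 1 : ℕ) : ℤ) - 1 = j - l := by omega
        rw [e] at this
        exact this
      rcases hp (j - n - 1) with ⟨h3, _, _⟩ | ⟨h3, h4, h5⟩
      · exact F.claim hD i P h2 hP' n y c j hy hp hj hrun h3
      · exfalso
        rcases h5 with ⟨h5, h6⟩ | ⟨h5, _⟩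
        · rw [show j - (n : ℤ) - 1 + 1 = j - n by ring] at h4
          rcases Nat.eq_zero_or_pos n with hn0 | hn0
          · subst hn0
            simp only [Nat.cast_zero, sub_zero] at h4 h6
            have : c (j - 1) + 1 = i - 1 := by omega
            rw [this, h1] at h6
            exact absurd h6 (by simp)
          · have h7 := run_height hp j n hrun
            rw [← hj] at h7
            have h8 : S x (c (j - n)) = S x (c (j - n - 1) + 1) + 1 := by
              rw [h4, show c (j - (n : ℤ) - 1) + 2 = (c (j - (n : ℤ) - 1) + 1) + 1 by ring, S_succ,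
                h6, ht_true]
            have h9 := F.osc hx P (c (j - n - 1) + 1)
            have h10 : (1 : ℝ) * (1 - g) ≤ (n : ℝ) * (1 - g) := by
              apply mul_le_mul_of_nonneg_right
              · exact_mod_cast hn0
              · linarith
            linarith
        · exact hspec ⟨h3, h5⟩
    · exfalso
      push Not at hex
      obtain ⟨n, hn⟩ := exists_nat_gt ((2 + 2 * g) / (1 - g))
      have h3 := run_height hp j n (fun l hl1 hl2 => by
        have := hex (l - 1)
        have e : j - ((l - 1 : ℕ) : ℤ) - 1 = j - l := by omega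
        rw [e] at this
        exact this)
      have h4 := F.osc hx (c j) (c (j - n))
      rw [div_lt_iff₀ (by linarith)] at hn
      linarith
  · -- the middle of a tile
    subst hj
    exact F.mem_of_parse hy (parse_flip_mid hp hyj)

theorem Facts.up_big (F : Facts) {d : ℝ} (hd : 1 + g ≤ d) : Up d := by
  intro x hx i P h1 h2 hP
  exfalso
  have hSi : S x i = S x (i - 1) - g := by
    rw [S_pred x i, h1, ht_false]
    ring
  have := F.osc hx P i
  linarith

theorem Facts.up_all (F : Facts) (k : ℕ) : ∀ d : ℝ, 2 * g - 1 ≤ d → (1 + g) * g ^ k ≤ d →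
    Up d := by
  have hg := g_lower
  have hg' := g_upper
  induction k with
  | zero =>
    intro d _ h
    exact F.up_big (by simpa using h)
  | succ k ih =>
    intro d hd h
    have hd0 : 0 < d := by linarith
    have h1 : 2 * g - 1 ≤ d / g := by
      rw [le_div_iff₀ (by linarith)]
      nlinarith
    have h2 : (1 + g) * g ^ k ≤ d / g := by
      rw [le_div_iff₀ (by linarith)]
      calc (1 + g) * g ^ k * g = (1 + g) * g ^ (k + 1) := by ring
        _ ≤ d := h
    exact F.step hd (F.down_of_up (ih _ h1 h2))

theorem Facts.up_final (F : Facts) : Up (2 * g - 1) := by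
  have hg := g_lower
  have hg' := g_upper
  obtain ⟨k, hk⟩ := exists_pow_lt_of_lt_one (show (0 : ℝ) < (2 * g - 1) / (1 + g) by
    apply div_pos <;> linarith) (show g < 1 by linarith)
  refine F.up_all k _ le_rfl ?_
  rw [lt_div_iff₀ (by linarith)] at hk
  linarith

theorem Facts.flip_up (F : Facts) {x : ℤ → Bool} (hx : x ∈ subshift fib) (i P : ℤ)
    (h1 : x (i - 1) = false) (h2 : x i = true) (hP : S x (i - 1) + 1 + (2 * g - 1) ≤ S x P) :
    flip x i ∈ subshift fib :=
  F.up_final x hx i P h1 h2 hP

theorem Facts.flip_down (F : Facts) {x : ℤ → Bool} (hx : x ∈ subshift fib) (i Q : ℤ)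
    (h1 : x (i - 1) = true) (h2 : x i = false) (hQ : S x Q + (2 * g - 1) ≤ S x (i - 1) - g) :
    flip x i ∈ subshift fib :=
  F.down_of_up F.up_final x hx i Q h1 h2 hQ

end H35.RS.Fib
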