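import Pool.Agent.H35.RS.FibCore

/-!
# The random Fibonacci substitution: heights of flipped paths, separation of the anchors
-/

set_option autoImplicit false

namespace H35.RS.Fib

open H35.RS

/-- Equal letters give equal height differences. -/
theorem h72_S_congr (x y : ℤ → Bool) (a : ℤ) (n : ℕ) (h : ∀ j, a ≤ j → j < a + n → x j = y j) :
    S x (a + n) - S x a = S y (a + n) - S y a := by
  induction n with
  | zero => simp
  | succ n ih =>
    have h1 := ih fun j h2 h3 => h j h2 (by push_cast; omega)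
    have h4 : a + ((n + 1 : ℕ) : ℤ) = a + n + 1 := by push_cast; ring
    rw [h4, S_succ, S_succ, h (a + n) (by omega) (by push_cast; omega)]
    linarith

theorem S_flip_self (x : ℤ → Bool) (i : ℤ) :
    S (Fib.flip x i) i - S (Fib.flip x i) (i - 1) = ht (x i) := by
  have h := S_succ (Fib.flip x i) (i - 1)
  rw [sub_add_cancel] at h
  rw [h]
  have h2 : Fib.flip x i (i - 1) = x i := if_pos rfl
  rw [h2]
  ring

theorem S_flip (x : ℤ → Bool) (i j : ℤ) (hj : j ≠ i) :
    S (Fib.flip x i) j - S (Fib.flip x i) (i - 1) = S x j - S x (i - 1) := by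
  have hoff : ∀ k, k ≠ i - 1 → k ≠ i → Fib.flip x i k = x k := by
    intro k h1 h2
    unfold Fib.flip
    rw [if_neg h1, if_neg h2]
  rcases lt_or_gt_of_ne hj with h | h
  · obtain ⟨n, hn⟩ : ∃ n : ℕ, i - 1 = j + n := ⟨(i - 1 - j).toNat, by omega⟩
    have h1 := h72_S_congr (Fib.flip x i) x j n
      (fun k h2 h3 => hoff k (by omega) (by omega))
    rw [hn]
    linarith
  · obtain ⟨n, hn⟩ : ∃ n : ℕ, j = (i + 1) + n := ⟨(j - (i + 1)).toNat, by omega⟩
    have h1 := h72_S_congr (Fib.flip x i) x (i + 1) n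
      (fun k h2 h3 => hoff k (by omega) (by omega))
    have h2 := S_succ (Fib.flip x i) i
    have h3 := S_succ x i
    have h4 := S_succ x (i - 1)
    rw [sub_add_cancel] at h4
    have h5 := S_flip_self x i
    have h6 : Fib.flip x i i = x (i - 1) := by
      unfold Fib.flip
      rw [if_neg (by omega), if_pos rfl]
    rw [h6] at h2
    rw [hn]
    linarith

theorem S_add (x : ℤ → Bool) (p : ℤ) (n : ℕ) :
    S x (p + n) - S x p = ((wd x p n).count true : ℝ) * (1 + g) - g * n := by
  induction n with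
  | zero => simp [wd]
  | succ n ih =>
    have h4 : p + ((n + 1 : ℕ) : ℤ) = p + n + 1 := by push_cast; ring
    have h5 : wd x p (n + 1) = wd x p n ++ [x (p + n)] := by
      unfold wd
      rw [List.range_succ, List.map_append]
      rfl
    rw [h4, S_succ, h5, List.count_append]
    cases hx : x (p + n)
    · have h6 : List.count true [false] = 0 := rfl
      rw [h6]
      push_cast
      simp only [ht]
      linarith
    · have h6 : List.count true [true] = 1 := rfl
      rw [h6]
      push_cast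
      simp only [ht]
      linarith

theorem mark_height {x : ℤ → Bool} {p : ℤ} (h : Mark x p) :
    S x p - S x (p + 26) = 18 * g - 8 := by
  have h1 := S_add x p 26
  unfold Mark at h
  rw [h] at h1
  push_cast at h1
  linarith

theorem h72_mark_close {x : ℤ → Bool} (hx : x ∈ subshift fib) {p p' : ℤ}
    (h' : Mark x p') : S x p - S x p' < 10 - 16 * g := by
  have h1 := osc hx p (p' + 26)
  have h2 := mark_height h'
  linarith

theorem h72_irr {n d : ℕ} (hd : 1 ≤ d) : (n : ℝ) * (1 + g) - g * d ≠ 0 := by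
  intro h
  have h5 : Irrational (Real.sqrt 5) := by
    have := Nat.Prime.irrational_sqrt (p := 5) (by norm_num)
    exact_mod_cast this
  by_cases hnd : (n : ℝ) - d = 0
  · have h1 : (n : ℝ) = 0 := by
      have h2 : (n : ℝ) * (1 + g) - g * d = n + ((n : ℝ) - d) * g := by ring
      rw [h2, hnd] at h
      linarith
    have h3 : (d : ℝ) = 0 := by linarith
    have h4 : d = 0 := by exact_mod_cast h3
    omega
  · apply h5
    refine ⟨2 * (-(n : ℚ) / ((n : ℚ) - d)) + 1, ?_⟩
    push_cast
    have hg : g = -(n : ℝ) / ((n : ℝ) - d) := by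
      rw [eq_div_iff hnd]
      linarith
    rw [← hg]
    unfold g
    ring

/-- Marks in an arithmetic progression. -/
theorem sep_mark (d : ℕ) (hd : 1 ≤ d) :
    ∃ J : ℕ, ∀ x ∈ subshift fib, ∀ p : ℤ, ¬ (∀ j : ℕ, j ≤ J → Mark x (p + j * d)) := by
  have hg1 := g_lower
  have hg2 := g_upper
  have hstep : ∀ x ∈ subshift fib, ∀ p : ℤ, ∀ J : ℕ, (∀ j : ℕ, j ≤ J → Mark x (p + j * d)) →
      ∀ j, j + 1 ≤ J → ∃ n : ℕ, |(n : ℝ) * (1 + g) - g * d| < 10 - 16 * g ∧
        S x (p + ((j + 1 : ℕ) : ℤ) * d) - S x (p + (j : ℤ) * d) = (n : ℝ) * (1 + g) - g * d := by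
    intro x hx p J hJ j hj
    have e1 : p + ((j + 1 : ℕ) : ℤ) * d = (p + (j : ℤ) * d) + d := by push_cast; ring
    have h1 := S_add x (p + (j : ℤ) * d) d
    refine ⟨(wd x (p + (j : ℤ) * d) d).count true, ?_, ?_⟩
    · rw [← h1, ← e1, abs_lt]
      have m1 := hJ j (by omega)
      have m2 := hJ (j + 1) hj
      have c1 := h72_mark_close hx (p := p + (j : ℤ) * d) m2
      have c2 := h72_mark_close hx (p := p + ((j + 1 : ℕ) : ℤ) * d) m1
      constructor <;> linarith
    · rw [e1, h1]
  by_cases hex : ∃ n : ℕ, |(n : ℝ) * (1 + g) - g * d| < 10 - 16 * g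
  · obtain ⟨n, hn⟩ := hex
    have huniq : ∀ n' : ℕ, |(n' : ℝ) * (1 + g) - g * d| < 10 - 16 * g → n' = n := by
      intro n' hn'
      rw [abs_lt] at hn hn'
      by_contra hne
      have hcase : (n' : ℝ) + 1 ≤ n ∨ (n : ℝ) + 1 ≤ n' := by
        rcases lt_or_gt_of_ne hne with h | h
        · left; exact_mod_cast h
        · right; exact_mod_cast h
      rcases hcase with h | h
      · nlinarith
      · nlinarith
    obtain ⟨D, hD⟩ : ∃ D : ℝ, D = (n : ℝ) * (1 + g) - g * d := ⟨_, rfl⟩
    have hD0 : D ≠ 0 := by rw [hD]; exact h72_irr hd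
    have hDpos : 0 < |D| := abs_pos.mpr hD0
    obtain ⟨J, hJ⟩ := exists_nat_ge ((10 - 16 * g) / |D|)
    rw [div_le_iff₀ hDpos] at hJ
    refine ⟨J, fun x hx p hm => ?_⟩
    have hsum : ∀ j : ℕ, j ≤ J → S x (p + (j : ℤ) * d) - S x p = j * D := by
      intro j
      induction j with
      | zero => intro _; simp
      | succ j ih =>
        intro hj
        obtain ⟨n', h1, h2⟩ := hstep x hx p J hm j hj
        rw [huniq n' h1, ← hD] at h2
        have h3 := ih (by omega)
        push_cast at h2 h3 ⊢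
        linarith
    have h1 := hsum J le_rfl
    have m0 := hm 0 (Nat.zero_le _)
    have mJ := hm J le_rfl
    have e0 : p + ((0 : ℕ) : ℤ) * d = p := by simp
    rw [e0] at m0
    have c1 := h72_mark_close hx (p := p) mJ
    have c2 := h72_mark_close hx (p := p + (J : ℤ) * d) m0
    have h2 : |(J : ℝ) * D| < 10 - 16 * g := by
      rw [← h1, abs_lt]
      constructor <;> linarith
    rw [abs_mul, Nat.abs_cast] at h2
    linarith
  · refine ⟨1, fun x hx p hm => ?_⟩
    obtain ⟨n, h1, -⟩ := hstep x hx p 1 hm 0 le_rfl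
    exact hex ⟨n, h1⟩

/-- A flip which does not straddle an end of the anchor keeps the anchor. -/
theorem flip_mark {x : ℤ → Bool} {i p : ℤ} (_hne : x (i - 1) ≠ x i) (h1 : i ≠ p)
    (h2 : i ≠ p + 26) :
    Mark (Fib.flip x i) p ↔ Mark x p := by
  have e1 := S_flip x i p (Ne.symm h1)
  have e2 := S_flip x i (p + 26) (Ne.symm h2)
  have e3 := S_add x p 26
  have e4 := S_add (Fib.flip x i) p 26
  have hg := g_lower
  have h3 : ((wd (Fib.flip x i) p 26).count true : ℝ) = ((wd x p 26).count true : ℝ) := by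
    have h4 : ((wd (Fib.flip x i) p 26).count true : ℝ) * (1 + g) =
        ((wd x p 26).count true : ℝ) * (1 + g) := by
      push_cast at e3 e4
      linarith
    have h5 : (1 + g) ≠ 0 := by linarith
    exact mul_right_cancel₀ h5 h4
  have h6 : (wd (Fib.flip x i) p 26).count true = (wd x p 26).count true := by exact_mod_cast h3
  unfold Mark
  rw [h6]

end H35.RS.Fib
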