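import Pool.Agent.H35.RS.GateRF
import Pool.Agent.H35.RS.FibAvail
import Pool.Agent.H35.RS.FibFlip
import Pool.Agent.H35.RS.FibSep
import Pool.Agent.H35.RS.FibBasic
import Pool.Agent.H35.RS.Basic2

/-!
# The automorphism group of the random Fibonacci subshift is not residually finite
-/

namespace H35.RS.Fib

open H35.RS

/-- Put the content `V` into the window around `0`. -/
noncomputable def put {A : Type*} {r : ℕ} (V : Cont A r) (z : ℤ → A) : ℤ → A :=
  open Classical in
  fun j => if h : j ∈ Finset.Ico (-(r : ℤ)) (r : ℤ) then V ⟨j, h⟩ else z j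

theorem put_in {A : Type*} {r : ℕ} (V : Cont A r) (z : ℤ → A) {j : ℤ}
    (h : j ∈ Finset.Ico (-(r : ℤ)) (r : ℤ)) : put V z j = V ⟨j, h⟩ := by
  unfold put
  rw [dif_pos h]

theorem put_out {A : Type*} {r : ℕ} (V : Cont A r) (z : ℤ → A) {j : ℤ}
    (h : j ∉ Finset.Ico (-(r : ℤ)) (r : ℤ)) : put V z j = z j := by
  unfold put
  rw [dif_neg h]

theorem put_cont {A : Type*} {r : ℕ} (x : ℤ → A) (p : ℤ) : put (cont r x p) (sh p x) = sh p x := by
  funext j
  by_cases h : j ∈ Finset.Ico (-(r : ℤ)) (r : ℤ)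
  · rw [put_in _ _ h]
    show x (p + j) = x (j + p)
    rw [add_comm]
  · rw [put_out _ _ h]

/-- Admissible points: points of the subshift with an anchor at `0`. -/
def Adm (z : ℤ → Bool) : Prop := z ∈ subshift fib ∧ Mark z 0

/-- Interchangeable contents. -/
def RR (q : ℕ) (V V' : Cont Bool (q * 1)) : Prop :=
  ∀ z : ℤ → Bool, (Adm (put V z) ↔ Adm (put V' z)) ∧
    (Adm (put V z) → ∀ p, Mark (put V z) p ↔ Mark (put V' z) p)

theorem RR_equiv (q : ℕ) : Equivalence (RR q) where
  refl _ _ := ⟨Iff.rfl, fun _ _ => Iff.rfl⟩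
  symm h z := ⟨(h z).1.symm, fun hz p => ((h z).2 ((h z).1.2 hz) p).symm⟩
  trans h h' z := ⟨(h z).1.trans (h' z).1, fun hz p =>
    ((h z).2 hz p).trans ((h' z).2 ((h z).1.1 hz) p)⟩

theorem mark_sh' (x : ℤ → Bool) (k p : ℤ) : Mark (sh k x) p ↔ Mark x (p + k) := by
  unfold Mark
  rw [wd_sh]

theorem mark_congr {x x' : ℤ → Bool} {p : ℤ}
    (h : ∀ i : ℤ, 0 ≤ i → i < 26 → x (p + i) = x' (p + i)) : Mark x p ↔ Mark x' p := by
  unfold Mark
  have : wd x p 26 = wd x' p 26 := by
    unfold wd
    apply List.map_congr_left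
    intro k hk
    rw [List.mem_range] at hk
    exact h k (by positivity) (by exact_mod_cast hk)
  rw [this]

theorem sh_mem_iff {x : ℤ → Bool} (k : ℤ) : sh k x ∈ subshift fib ↔ x ∈ subshift fib := by
  constructor
  · intro h i n
    have := h (i - k) n
    rw [wd_sh] at this
    simpa using this
  · intro h i n
    rw [wd_sh]
    exact h _ n

/-- Types: the pattern of anchors. -/
def tyF (N : ℕ) (x : ℤ → Bool) (p : ℤ) : {i : ℤ // i ∈ Finset.Ico (-(N : ℤ)) (N : ℤ)} → Prop :=
  fun i => Mark x (p + i.1)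

/-! ### Finitely many windows -/

theorem fin_windows {q : ℕ} {S : ℤ → Prop} {x : ℤ → Bool} (hS : Sep (q * 1) S)
    (hx : x ∈ subshift fib) (c : ℤ → Cont Bool (q * 1)) (hM : ∀ p, S p → Mark x p)
    (hc : ∀ p, S p → RR q (cont (q * 1) x p) (c p)) (F : Finset ℤ) :
    modif (q * 1) (fun p => S p ∧ p ∈ F) c x ∈ subshift fib ∧
      ∀ p, Mark (modif (q * 1) (fun p => S p ∧ p ∈ F) c x) p ↔ Mark x p := by
  induction F using Finset.induction_on with
  | empty =>
    have : modif (q * 1) (fun p => S p ∧ p ∈ (∅ : Finset ℤ)) c x = x := by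
      funext j
      apply modif_out
      rintro p ⟨_, hp⟩
      simp at hp
    rw [this]
    exact ⟨hx, fun p => Iff.rfl⟩
  | insert p F hpF ih =>
    set y := modif (q * 1) (fun p => S p ∧ p ∈ F) c x with hy
    have hSF : Sep (q * 1) (fun p => S p ∧ p ∈ F) := fun a b ha hb hne => hS a b ha.1 hb.1 hne
    have hSI : Sep (q * 1) (fun p' => S p' ∧ p' ∈ insert p F) :=
      fun a b ha hb hne => hS a b ha.1 hb.1 hne
    by_cases hSp : S p
    · have hcy : cont (q * 1) y p = cont (q * 1) x p := by
        funext k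
        apply modif_out
        rintro p2 ⟨hp2, hp2F⟩ hk
        have hk' : p + k.1 - p ∈ Finset.Ico (-((q * 1 : ℕ) : ℤ)) ((q * 1 : ℕ) : ℤ) := by
          rw [add_sub_cancel_left]
          exact k.2
        have := hS.eq hSp hp2 hk' hk
        subst this
        exact hpF hp2F
      have hR := hc p hSp
      rw [← hcy] at hR
      have hz := hR (sh p y)
      rw [put_cont] at hz
      have hadm : Adm (sh p y) := by
        refine ⟨(sh_mem_iff p).2 ih.1, ?_⟩
        rw [mark_sh', zero_add, ih.2]
        exact hM p hSp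
      have hnew : put (c p) (sh p y)
          = sh p (modif (q * 1) (fun p' => S p' ∧ p' ∈ insert p F) c x) := by
        funext j
        rw [sh_apply]
        by_cases hj : j ∈ Finset.Ico (-((q * 1 : ℕ) : ℤ)) ((q * 1 : ℕ) : ℤ)
        · rw [put_in _ _ hj]
          have hj' : j + p - p ∈ Finset.Ico (-((q * 1 : ℕ) : ℤ)) ((q * 1 : ℕ) : ℤ) := by
            rw [add_sub_cancel_right]
            exact hj
          rw [modif_in hSI c x ⟨hSp, Finset.mem_insert_self _ _⟩ hj']
          congr 1
          apply Subtype.ext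
          simp
        · rw [put_out _ _ hj, sh_apply]
          have hj2 : j + p - p ∉ Finset.Ico (-((q * 1 : ℕ) : ℤ)) ((q * 1 : ℕ) : ℤ) := by
            rw [add_sub_cancel_right]
            exact hj
          rcases cases_window (q * 1) (fun p => S p ∧ p ∈ F) (j + p) with ⟨p2, hp2, hj3⟩ | hout
          · rw [hy, modif_in hSF c x hp2 hj3,
              modif_in hSI c x ⟨hp2.1, Finset.mem_insert_of_mem hp2.2⟩ hj3]
          · rw [hy, modif_out c x hout, modif_out]
            rintro p2 ⟨hp2, hp2F⟩ hj3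
            rcases Finset.mem_insert.1 hp2F with h | h
            · subst h
              exact hj2 hj3
            · exact hout p2 ⟨hp2, h⟩ hj3
      rw [hnew] at hz
      have h1 := hz.1.1 hadm
      refine ⟨(sh_mem_iff p).1 h1.1, ?_⟩
      intro p'
      have h2 := hz.2 hadm (p' - p)
      rw [mark_sh', mark_sh'] at h2
      rw [sub_add_cancel] at h2
      rw [← h2]
      exact ih.2 p'
    · have : modif (q * 1) (fun p' => S p' ∧ p' ∈ insert p F) c x = y := by
        have : (fun p' => S p' ∧ p' ∈ insert p F) = fun p' => S p' ∧ p' ∈ F := by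
          funext p'
          apply propext
          rw [Finset.mem_insert]
          constructor
          · rintro ⟨h1, h2 | h2⟩
            · subst h2
              exact absurd h1 hSp
            · exact ⟨h1, h2⟩
          · rintro ⟨h1, h2⟩
            exact ⟨h1, Or.inr h2⟩
        rw [this]
      rw [this]
      exact ih

theorem all_windows {q : ℕ} {S : ℤ → Prop} {x : ℤ → Bool} (hS : Sep (q * 1) S)
    (hx : x ∈ subshift fib) (c : ℤ → Cont Bool (q * 1)) (hM : ∀ p, S p → Mark x p)
    (hc : ∀ p, S p → RR q (cont (q * 1) x p) (c p)) :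
    modif (q * 1) S c x ∈ subshift fib ∧ ∀ p, Mark (modif (q * 1) S c x) p ↔ Mark x p := by
  have key : ∀ n : ℕ, ∀ i : ℤ, |i| ≤ (n : ℤ) →
      modif (q * 1) (fun p => S p ∧ p ∈ Finset.Icc (-(n : ℤ) - q) (n + q)) c x i
        = modif (q * 1) S c x i := by
    intro n i hi
    have hSF : Sep (q * 1) (fun p => S p ∧ p ∈ Finset.Icc (-(n : ℤ) - q) (n + q)) :=
      fun a b ha hb hne => hS a b ha.1 hb.1 hne
    rw [abs_le] at hi
    rcases cases_window (q * 1) S i with ⟨p, hp, hj⟩ | hout
    · have hpF : p ∈ Finset.Icc (-(n : ℤ) - q) (n + q) := by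
        rw [Finset.mem_Ico] at hj
        rw [Finset.mem_Icc]
        push_cast at hj
        omega
      rw [modif_in hS c x hp hj, modif_in hSF c x ⟨hp, hpF⟩ hj]
    · rw [modif_out c x hout, modif_out]
      rintro p ⟨hp, _⟩
      exact hout p hp
  constructor
  · apply mem_subshift_of_local
    intro n
    exact ⟨_, (fin_windows hS hx c hM hc (Finset.Icc (-(n : ℤ) - q) (n + q))).1, key n⟩
  · intro p
    rw [← (fin_windows hS hx c hM hc
      (Finset.Icc (-((p.natAbs + 26 : ℕ) : ℤ) - q) ((p.natAbs + 26 : ℕ) + q))).2 p]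
    apply mark_congr
    intro i h0 h1
    symm
    apply key
    have h5 := neg_abs_le p
    have h6 := le_abs_self p
    rw [abs_le]
    push_cast
    omega

/-! ### Safe flips -/

theorem safe_flip {z : ℤ → Bool} (hz : Adm z) {i : ℤ} (hi : 27 ≤ i) (hne : z (i - 1) ≠ z i)
    (h1 : S z 0 - (18 * g - 8) + (2 * g - 1) ≤ S z i) (h2 : S z i ≤ S z 0 - (2 * g - 1))
    (h3 : S z 0 - (18 * g - 8) + (2 * g - 1) ≤ S z (i - 1) + ht (z i))
    (h4 : S z (i - 1) + ht (z i) ≤ S z 0 - (2 * g - 1)) :
    Adm (flip z i) ∧ ∀ p, Mark z p ↔ Mark (flip z i) p := by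
  have hg1 := g_lower
  have hg2 := g_upper
  have hmh := mark_height hz.2
  rw [zero_add] at hmh
  have hmem : flip z i ∈ subshift fib := by
    cases ha : z (i - 1) with
    | false =>
      have hb : z i = true := by
        cases hb : z i with
        | false => exact absurd (ha.trans hb.symm) hne
        | true => rfl
      apply flip_up hz.1 i 0 ha hb
      rw [hb] at h4
      simp only [ht] at h4
      linarith
    | true =>
      have hb : z i = false := by
        cases hb : z i with
        | true => exact absurd (ha.trans hb.symm) hne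
        | false => rfl
      apply flip_down hz.1 i 26 ha hb
      rw [hb] at h3
      simp only [ht] at h3
      linarith
  have hsame : ∀ j : ℤ, 0 ≤ j → j < 26 → flip z i (0 + j) = z (0 + j) := by
    intro j hj0 hj1
    unfold flip
    rw [if_neg (by omega), if_neg (by omega)]
  have hmark0 : Mark (flip z i) 0 := (mark_congr hsame).2 hz.2
  refine ⟨⟨hmem, hmark0⟩, ?_⟩
  -- heights in the flipped point
  have hS0 := S_flip z i 0 (by omega)
  have hSi := S_flip_self z i
  -- exclusion of marks at i and i - 26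
  have excl : ∀ w : ℤ → Bool, w ∈ subshift fib → Mark w 0 →
      S w 0 - (18 * g - 8) + (2 * g - 1) ≤ S w i → S w i ≤ S w 0 - (2 * g - 1) →
      ¬ Mark w i ∧ ¬ Mark w (i - 26) := by
    intro w hw hw0 k1 k2
    have hm0 := mark_height hw0
    rw [zero_add] at hm0
    constructor
    · intro hm
      have e1 := mark_height hm
      have e2 := osc hw 0 (i + 26)
      linarith
    · intro hm
      have e1 := mark_height hm
      rw [sub_add_cancel] at e1
      have e2 := osc hw (i - 26) 26
      linarith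
  have ex1 := excl z hz.1 hz.2 h1 h2
  have ex2 := excl (flip z i) hmem hmark0 (by linarith) (by linarith)
  intro p
  by_cases hp1 : i = p
  · subst hp1
    exact ⟨fun h => absurd h ex1.1, fun h => absurd h ex2.1⟩
  · by_cases hp2 : i = p + 26
    · have : p = i - 26 := by omega
      subst this
      exact ⟨fun h => absurd h ex1.2, fun h => absurd h ex2.2⟩
    · exact (flip_mark hne hp1 hp2).symm

theorem flip_flip (x : ℤ → Bool) (i : ℤ) : flip (flip x i) i = x := by
  funext j
  unfold flip
  by_cases h1 : j = i - 1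
  · subst h1
    rw [if_pos rfl, if_neg (by omega), if_pos rfl]
  · by_cases h2 : j = i
    · subst h2
      rw [if_neg h1, if_pos rfl, if_pos rfl]
    · rw [if_neg h1, if_neg h2, if_neg h1, if_neg h2]

theorem S_diff_congr {x z : ℤ → Bool} {p : ℤ} (n : ℕ)
    (h : ∀ j : ℤ, 0 ≤ j → j < n → z j = x (p + j)) : S z n - S z 0 = S x (p + n) - S x p := by
  induction n with
  | zero => simp
  | succ n ih =>
    have ih' := ih (fun j h0 h1 => h j h0 (by push_cast; omega))
    push_cast
    rw [S_succ, ← add_assoc, S_succ, h n (by positivity) (by push_cast; omega)]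
    linarith

/-- Two contents which differ by a safe flip are interchangeable. -/
theorem RR_flip {q : ℕ} {x : ℤ → Bool} {p : ℤ} {i : ℤ}
    (hi : p + 27 ≤ i) (hiq : i < p + q) (hne : x (i - 1) ≠ x i)
    (h1 : S x p - (18 * g - 8) + (2 * g - 1) ≤ S x i) (h2 : S x i ≤ S x p - (2 * g - 1))
    (h3 : S x p - (18 * g - 8) + (2 * g - 1) ≤ S x (i - 1) + ht (x i))
    (h4 : S x (i - 1) + ht (x i) ≤ S x p - (2 * g - 1)) :
    RR q (cont (q * 1) x p) (cont (q * 1) (flip x i) p) := by
  intro z
  -- the index relative to the anchor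
  obtain ⟨k, hk⟩ : ∃ k : ℕ, i = p + k := ⟨(i - p).toNat, by omega⟩
  have hk27 : (27 : ℤ) ≤ k := by omega
  have hkq : (k : ℤ) < q := by omega
  set z1 := put (cont (q * 1) x p) z with hz1
  set z2 := put (cont (q * 1) (flip x i) p) z with hz2
  have hin : ∀ j : ℤ, -(q : ℤ) ≤ j → j < q →
      j ∈ Finset.Ico (-((q * 1 : ℕ) : ℤ)) ((q * 1 : ℕ) : ℤ) := by
    intro j h h'
    rw [Finset.mem_Ico]
    push_cast
    omega
  have hz1in : ∀ j : ℤ, -(q : ℤ) ≤ j → j < q → z1 j = x (p + j) := by
    intro j h h'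
    rw [hz1, put_in _ _ (hin j h h')]
    rfl
  have hz2in : ∀ j : ℤ, -(q : ℤ) ≤ j → j < q → z2 j = flip x i (p + j) := by
    intro j h h'
    rw [hz2, put_in _ _ (hin j h h')]
    rfl
  have hzout : ∀ j : ℤ, ¬ (-(q : ℤ) ≤ j ∧ j < q) → z2 j = z1 j := by
    intro j h
    have h' : j ∉ Finset.Ico (-((q * 1 : ℕ) : ℤ)) ((q * 1 : ℕ) : ℤ) := by
      rw [Finset.mem_Ico]
      push_cast
      simpa using h
    rw [hz1, hz2, put_out _ _ h', put_out _ _ h']
  have hflip : z2 = flip z1 k := by
    funext j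
    by_cases hj : -(q : ℤ) ≤ j ∧ j < q
    · rw [hz2in j hj.1 hj.2]
      unfold flip
      rw [hz1in k (by omega) (by omega), hz1in (k - 1) (by omega) (by omega),
        hz1in j hj.1 hj.2, hk]
      by_cases a1 : j = k - 1
      · subst a1
        rw [if_pos (by ring), if_pos rfl]
      · by_cases a2 : j = k
        · subst a2
          rw [if_neg (by omega), if_pos rfl, if_neg (by omega), if_pos rfl]
          congr 1
          ring
        · rw [if_neg (by omega), if_neg (by omega), if_neg a1, if_neg a2]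
    · rw [hzout j hj]
      unfold flip
      rw [if_neg (by omega), if_neg (by omega)]
  have hflip' : z1 = flip z2 k := by
    rw [hflip, flip_flip]
  have hS1 : S z1 k - S z1 0 = S x i - S x p := by
    rw [hk]
    exact S_diff_congr k (fun j h0 h1 => hz1in j (by omega) (by omega))
  have hS1' : S z1 (k - 1) - S z1 0 = S x (i - 1) - S x p := by
    obtain ⟨m, hm⟩ : ∃ m : ℕ, k = m + 1 := ⟨k - 1, by omega⟩
    subst hm
    have := S_diff_congr (x := x) (z := z1) (p := p) m
      (fun j h0 h1 => hz1in j (by omega) (by push_cast at *; omega))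
    rw [show i - 1 = p + (m : ℤ) by push_cast at *; omega]
    rw [← this]
    push_cast
    rw [add_sub_cancel_right]
  have hzk : z1 k = x i := by
    rw [hz1in k (by omega) (by omega), hk]
  have hzk1 : z1 (k - 1) = x (i - 1) := by
    rw [hz1in (k - 1) (by omega) (by omega)]
    congr 1
    omega
  have hne1 : z1 (k - 1) ≠ z1 k := by
    rw [hzk, hzk1]
    exact hne
  -- forward
  have fwd : Adm z1 → Adm z2 ∧ ∀ p, Mark z1 p ↔ Mark z2 p := by
    intro h
    rw [hflip]
    apply safe_flip h hk27 hne1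
    · linarith
    · linarith
    · rw [hzk]
      linarith
    · rw [hzk]
      linarith
  have hz2k : z2 k = z1 (k - 1) := by
    rw [hflip]
    unfold flip
    rw [if_neg (by omega), if_pos rfl]
  have hz2k1 : z2 (k - 1) = z1 k := by
    rw [hflip]
    unfold flip
    rw [if_pos rfl]
  have bwd : Adm z2 → Adm z1 := by
    intro h
    have e0 := S_flip z1 k 0 (by omega)
    have ei := S_flip_self z1 k
    rw [← hflip] at e0 ei
    have es : S z1 k = S z1 (k - 1) + ht (z1 (k - 1)) := by
      have := S_succ z1 (k - 1)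
      rwa [sub_add_cancel] at this
    rw [hflip']
    apply (safe_flip h hk27 _ _ _ _ _).1
    · rw [hz2k, hz2k1]
      exact fun h => hne1 h.symm
    · rw [hzk] at ei
      linarith
    · rw [hzk] at ei
      linarith
    · rw [hz2k]
      linarith
    · rw [hz2k]
      linarith
  exact ⟨⟨fun h => (fwd h).1, bwd⟩, fun h => (fwd h).2⟩

/-! ### The theorem -/

theorem sepF (q : ℕ) : ∃ N : ℕ, ∀ x ∈ subshift fib, ∀ p p', Mark x p → Mark x p' →
    tyF N x p = tyF N x p' → p ≠ p' → 2 * ((q * 1 : ℕ) : ℤ) ≤ |p - p'| := by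
  have hJ : ∀ d : ℕ, ∃ J : ℕ, 1 ≤ d → ∀ x ∈ subshift fib, ∀ p : ℤ,
      ¬ (∀ j : ℕ, j ≤ J → Mark x (p + j * d)) := by
    intro d
    by_cases hd : 1 ≤ d
    · obtain ⟨J, hJ⟩ := sep_mark d hd
      exact ⟨J, fun _ => hJ⟩
    · exact ⟨0, fun h => absurd h hd⟩
  choose J hJ using hJ
  refine ⟨∑ d ∈ Finset.range (2 * q + 1), (J d + 1) * (d + 1), ?_⟩
  -- wlog
  have main : ∀ x ∈ subshift fib, ∀ p p', Mark x p → Mark x p' →
      tyF (∑ d ∈ Finset.range (2 * q + 1), (J d + 1) * (d + 1)) x p
        = tyF (∑ d ∈ Finset.range (2 * q + 1), (J d + 1) * (d + 1)) x p' → p < p' →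
      2 * ((q * 1 : ℕ) : ℤ) ≤ p' - p := by
    intro x hx p p' hp hp' hty hlt
    by_contra hcon
    rw [not_le] at hcon
    obtain ⟨d, hd⟩ : ∃ d : ℕ, p' = p + d := ⟨(p' - p).toNat, by omega⟩
    subst hd
    have hd1 : 1 ≤ d := by omega
    have hdq : d < 2 * q + 1 := by
      push_cast at hcon
      omega
    have hN : (J d + 1) * (d + 1) ≤ ∑ d ∈ Finset.range (2 * q + 1), (J d + 1) * (d + 1) :=
      Finset.single_le_sum (f := fun d => (J d + 1) * (d + 1)) (fun _ _ => Nat.zero_le _)
        (Finset.mem_range.2 hdq)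
    apply hJ d hd1 x hx p
    intro j
    induction j with
    | zero =>
      intro _
      simpa using hp
    | succ j ih =>
      intro hj
      have ih' := ih (by omega)
      have hb : ((j : ℤ) * d) < ((∑ d ∈ Finset.range (2 * q + 1), (J d + 1) * (d + 1) : ℕ) : ℤ) := by
        have h5 : j * d < (J d + 1) * (d + 1) := by
          have h6 : j * d ≤ J d * d := Nat.mul_le_mul_right _ (by omega)
          nlinarith
        exact_mod_cast lt_of_lt_of_le h5 hN
      have hmem : ((j : ℤ) * d) ∈ Finset.Ico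
          (-((∑ d ∈ Finset.range (2 * q + 1), (J d + 1) * (d + 1) : ℕ) : ℤ))
          ((∑ d ∈ Finset.range (2 * q + 1), (J d + 1) * (d + 1) : ℕ) : ℤ) := by
        rw [Finset.mem_Ico]
        refine ⟨?_, hb⟩
        have : (0 : ℤ) ≤ (j : ℤ) * d := by positivity
        omega
      have h7 := congrFun hty ⟨(j : ℤ) * d, hmem⟩
      have h8 : Mark x (p + (j : ℤ) * d) = Mark x (p + d + (j : ℤ) * d) := h7
      have h9 : p + ((j + 1 : ℕ) : ℤ) * d = p + d + (j : ℤ) * d := by
        push_cast
        ring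
      rw [h9, ← h8]
      exact ih'
  intro x hx p p' hp hp' hty hne
  rcases lt_or_gt_of_ne hne with h | h
  · have := main x hx p p' hp hp' hty h
    rw [abs_sub_comm, abs_of_pos (by omega)]
    exact this
  · have := main x hx p' p hp' hp hty.symm h
    rw [abs_of_pos (by omega)]
    exact this

theorem freeF (M q1 : ℕ) : ∃ q, q1 ≤ q ∧ 27 ≤ q ∧ ∀ x ∈ subshift fib, ∀ p, Mark x p →
    ∃ s : Finset (Cont Bool (q * 1)), M ≤ s.card ∧ ∀ V ∈ s, RR q (cont (q * 1) x p) V := by
  refine ⟨q1 + 40 + 12 * M, by omega, by omega, ?_⟩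
  intro x hx p hp
  set q := q1 + 40 + 12 * M with hq
  have hg1 := g_lower
  have hg2 := g_upper
  have hmh := mark_height hp
  have hlo : ∀ i, S x p - (2 + 2 * g) < S x i := by
    intro i
    have := osc hx p i
    linarith
  have hhi : ∀ i, S x i < S x p + (10 - 16 * g) := by
    intro i
    have := osc hx i (p + 26)
    linarith
  have hav := fun k : ℤ => avail (no_bbb hx) (no_aaaaa hx) (S x p) hlo hhi k
  choose v hv1 hv2 hv3 hv4 hv5 hv6 hv7 using hav
  let w : ℕ → ℤ := fun k => v (p + 28 + 12 * k)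
  have hw1 : ∀ k : ℕ, p + 28 + 12 * k ≤ w k := fun k => hv1 _
  have hw2 : ∀ k : ℕ, w k < p + 28 + 12 * k + 12 := fun k => hv2 _
  have hlt : ∀ k l : ℕ, k < l → w k < w l := by
    intro k l hkl
    have a1 := hw2 k
    have a2 := hw1 l
    have : (k : ℤ) + 1 ≤ l := by exact_mod_cast hkl
    omega
  let V : ℕ → Cont Bool (q * 1) := fun k => cont (q * 1) (flip x (w k)) p
  have hVinj : ∀ k l : ℕ, l < M → k < l → V k ≠ V l := by
    intro k l hl hkl hV
    have a1 := hw1 k
    have a2 := hw2 k
    have a3 := hlt k l hkl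
    have hkM : (k : ℤ) + 1 ≤ M := by exact_mod_cast (by omega : k + 1 ≤ M)
    have hmem : w k - 1 - p ∈ Finset.Ico (-((q * 1 : ℕ) : ℤ)) ((q * 1 : ℕ) : ℤ) := by
      rw [Finset.mem_Ico]
      push_cast
      omega
    have h := congrFun hV ⟨w k - 1 - p, hmem⟩
    have h' : flip x (w k) (p + (w k - 1 - p)) = flip x (w l) (p + (w k - 1 - p)) := h
    rw [show p + (w k - 1 - p) = w k - 1 by ring] at h'
    unfold flip at h'
    rw [if_pos rfl, if_neg (by omega), if_neg (by omega)] at h'
    exact hv3 _ h'.symm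
  refine ⟨(Finset.range M).image V, ?_, ?_⟩
  · rw [Finset.card_image_of_injOn]
    · simp
    · intro k hk l hl hV
      have hk' : k < M := by simpa using hk
      have hl' : l < M := by simpa using hl
      rcases lt_trichotomy k l with h | h | h
      · exact absurd hV (hVinj k l hl' h)
      · exact h
      · exact absurd hV.symm (hVinj l k hk' h)
  · intro W hW
    obtain ⟨k, hk, rfl⟩ := Finset.mem_image.1 hW
    have hkM : (k : ℤ) + 1 ≤ M := by
      have := Finset.mem_range.1 hk
      exact_mod_cast this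
    have a1 := hw1 k
    have a2 := hw2 k
    apply RR_flip (i := w k)
    · omega
    · omega
    · exact hv3 _
    · exact hv4 _
    · exact hv5 _
    · exact hv6 _
    · exact hv7 _

theorem fib_not_rf : ¬ Group.ResiduallyFinite (autRS fib) := by
  apply not_residuallyFinite_of_gates (subshift fib) (shiftInv_subshift fib) 1 27
    Mark (fun N => {i : ℤ // i ∈ Finset.Ico (-(N : ℤ)) (N : ℤ)} → Prop)
    (fun N => inferInstance) tyF RR
  · intro x p
    exact mark_sh' x 1 p
  · refine ⟨26, ?_⟩
    intro x x' p h hm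
    refine (mark_congr ?_).1 hm
    intro i h0 h1
    apply h
    rw [abs_le]
    push_cast
    omega
  · intro N x p
    funext i
    apply propext
    show Mark (sh 1 x) (p + i.1) ↔ Mark x (p + 1 + i.1)
    rw [mark_sh', show p + i.1 + 1 = p + 1 + i.1 by ring]
  · intro N
    refine ⟨N + 26, ?_⟩
    intro x x' p h
    funext i
    apply propext
    apply mark_congr
    intro j h0 h1
    have hi := Finset.mem_Ico.1 i.2
    have := h (i.1 + j) (by
      rw [abs_le]
      push_cast
      omega)
    rw [← add_assoc] at this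
    exact this
  · intro N N' hNN x x' p p' h
    funext i
    have hi : i.1 ∈ Finset.Ico (-(N' : ℤ)) (N' : ℤ) := ico_mono hNN i.2
    exact congrFun h ⟨i.1, hi⟩
  · exact RR_equiv
  · exact sepF
  · intro q _ N e hs x hx c hc
    have hS : Sep (q * 1) (fun p => Mark x p ∧ tyF N x p = e) := by
      intro p p' hp hp' hne
      exact hs x hx p p' hp.1 hp.2 hp'.1 hp'.2 hne
    have h := all_windows hS hx c (fun p hp => hp.1) (fun p hp => hc p hp.1 hp.2)
    have hty : ∀ N' : ℕ, ∀ p, tyF N' (modif (q * 1) (fun p => Mark x p ∧ tyF N x p = e) c x) p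
        = tyF N' x p := by
      intro N' p
      funext i
      exact propext (h.2 _)
    refine ⟨h.1, ?_, fun N' _ p _ _ => hty N' p⟩
    intro p
    rw [h.2, hty]
  · intro q q' hqq x x' p hout hR z
    set w1 := put (cont (q' * 1) x p) z with hw1
    have h1 : put (cont (q * 1) x p) w1 = w1 := by
      funext j
      by_cases hj : j ∈ Finset.Ico (-((q * 1 : ℕ) : ℤ)) ((q * 1 : ℕ) : ℤ)
      · rw [put_in _ _ hj, hw1, put_in _ _ (ico_mono (Nat.mul_le_mul_right 1 hqq) hj)]
        rfl
      · rw [put_out _ _ hj]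
    have h2 : put (cont (q * 1) x' p) w1 = put (cont (q' * 1) x' p) z := by
      funext j
      by_cases hj : j ∈ Finset.Ico (-((q * 1 : ℕ) : ℤ)) ((q * 1 : ℕ) : ℤ)
      · rw [put_in _ _ hj, put_in _ _ (ico_mono (Nat.mul_le_mul_right 1 hqq) hj)]
        rfl
      · rw [put_out _ _ hj]
        by_cases hj' : j ∈ Finset.Ico (-((q' * 1 : ℕ) : ℤ)) ((q' * 1 : ℕ) : ℤ)
        · rw [put_in _ _ hj', hw1, put_in _ _ hj']
          show x (p + j) = x' (p + j)
          symm
          apply hout
          rw [add_sub_cancel_left]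
          exact hj
        · rw [put_out _ _ hj', hw1, put_out _ _ hj']
    have h := hR w1
    rw [h1, h2] at h
    exact h
  · exact freeF
  · exact exists_mark

end H35.RS.Fib
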