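import Pool.Agent.H35.RS.Defs

/-!
# Gates: a criterion for automorphism groups of subshifts not to be residually finite
-/

namespace H35.RS

variable {A : Type*}

/-- Contents of a window `[p - r, p + r)`. -/
abbrev Cont (A : Type*) (r : ℕ) := {k : ℤ // k ∈ Finset.Ico (-(r : ℤ)) (r : ℤ)} → A

/-- The content of `x` in the window `[p - r, p + r)`. -/
def cont (r : ℕ) (x : ℤ → A) (p : ℤ) : Cont A r := fun k => x (p + k.1)

open Classical in
/-- Replace the contents of the windows `[p - r, p + r)`, `p ∈ S`, by `c p`. -/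
noncomputable def modif (r : ℕ) (S : ℤ → Prop) (c : ℤ → Cont A r) (x : ℤ → A) : ℤ → A :=
  fun j => if h : ∃ p, S p ∧ j - p ∈ Finset.Ico (-(r : ℤ)) (r : ℤ) then
    c h.choose ⟨j - h.choose, h.choose_spec.2⟩ else x j

/-- Windows of radius `r` around the points of `S` are pairwise disjoint. -/
def Sep (r : ℕ) (S : ℤ → Prop) : Prop :=
  ∀ p p', S p → S p' → p ≠ p' → 2 * (r : ℤ) ≤ |p - p'|

theorem Sep.eq {r : ℕ} {S : ℤ → Prop} (hS : Sep r S) {p p' j : ℤ} (hp : S p) (hp' : S p')
    (hj : j - p ∈ Finset.Ico (-(r : ℤ)) (r : ℤ)) (hj' : j - p' ∈ Finset.Ico (-(r : ℤ)) (r : ℤ)) :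
    p = p' := by
  by_contra hne
  have h := hS p p' hp hp' hne
  rw [Finset.mem_Ico] at hj hj'
  rcases le_abs.1 h with h | h <;> omega

theorem modif_in {r : ℕ} {S : ℤ → Prop}
    (hS : ∀ p p', S p → S p' → p ≠ p' → 2 * (r : ℤ) ≤ |p - p'|) (c : ℤ → Cont A r) (x : ℤ → A)
    {p : ℤ} (hp : S p) {j : ℤ} (hj : j - p ∈ Finset.Ico (-(r : ℤ)) (r : ℤ)) :
    modif r S c x j = c p ⟨j - p, hj⟩ := by
  have hex : ∃ p, S p ∧ j - p ∈ Finset.Ico (-(r : ℤ)) (r : ℤ) := ⟨p, hp, hj⟩
  have hq : hex.choose = p := Sep.eq hS hex.choose_spec.1 hp hex.choose_spec.2 hj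
  have key : ∀ q (h : j - q ∈ Finset.Ico (-(r : ℤ)) (r : ℤ)), q = p →
      c q ⟨j - q, h⟩ = c p ⟨j - p, hj⟩ := by
    rintro q h rfl
    rfl
  unfold modif
  rw [dif_pos hex]
  exact key _ _ hq

theorem modif_out {r : ℕ} {S : ℤ → Prop} (c : ℤ → Cont A r) (x : ℤ → A) {j : ℤ}
    (hj : ∀ p, S p → j - p ∉ Finset.Ico (-(r : ℤ)) (r : ℤ)) : modif r S c x j = x j := by
  unfold modif
  rw [dif_neg]
  rintro ⟨p, hp, h⟩
  exact hj p hp h

theorem cont_modif {r : ℕ} {S : ℤ → Prop}
    (hS : ∀ p p', S p → S p' → p ≠ p' → 2 * (r : ℤ) ≤ |p - p'|) (c : ℤ → Cont A r) (x : ℤ → A)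
    {p : ℤ} (hp : S p) : cont r (modif r S c x) p = c p := by
  funext k
  have hk : p + k.1 - p ∈ Finset.Ico (-(r : ℤ)) (r : ℤ) := by
    have := k.2
    rwa [add_sub_cancel_left]
  show modif r S c x (p + k.1) = c p k
  rw [modif_in hS c x hp hk]
  congr 1
  apply Subtype.ext
  simp

theorem cases_window (r : ℕ) (S : ℤ → Prop) (j : ℤ) :
    (∃ p, S p ∧ j - p ∈ Finset.Ico (-(r : ℤ)) (r : ℤ)) ∨
      (∀ p, S p → j - p ∉ Finset.Ico (-(r : ℤ)) (r : ℤ)) := by
  by_cases h : ∃ p, S p ∧ j - p ∈ Finset.Ico (-(r : ℤ)) (r : ℤ)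
  · exact Or.inl h
  · right
    intro p hp hj
    exact h ⟨p, hp, hj⟩

theorem modif_self {r : ℕ} {S : ℤ → Prop} (hS : Sep r S) (x : ℤ → A) :
    modif r S (fun p => cont r x p) x = x := by
  funext j
  rcases cases_window r S j with ⟨p, hp, hj⟩ | h
  · rw [modif_in hS _ x hp hj]
    show x (p + (j - p)) = x j
    congr 1
    ring
  · exact modif_out _ x h

theorem modif_modif {r : ℕ} {S : ℤ → Prop} (hS : Sep r S) (c c' : ℤ → Cont A r) (x : ℤ → A) :
    modif r S c' (modif r S c x) = modif r S c' x := by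
  funext j
  rcases cases_window r S j with ⟨p, hp, hj⟩ | h
  · rw [modif_in hS _ _ hp hj, modif_in hS _ _ hp hj]
  · rw [modif_out _ _ h, modif_out _ _ h, modif_out _ _ h]

theorem modif_congr {r : ℕ} {S S' : ℤ → Prop} (hS : Sep r S) (h : ∀ p, S p ↔ S' p)
    {c c' : ℤ → Cont A r} (hc : ∀ p, S p → c p = c' p) (x : ℤ → A) :
    modif r S c x = modif r S' c' x := by
  have hSS : S = S' := funext fun p => propext (h p)
  subst hSS
  funext j
  rcases cases_window r S j with ⟨p, hp, hj⟩ | h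
  · rw [modif_in hS _ _ hp hj, modif_in hS _ _ hp hj, hc p hp]
  · rw [modif_out _ _ h, modif_out _ _ h]

theorem modif_restrict {r : ℕ} {S S' : ℤ → Prop} [DecidablePred S'] (hS : Sep r S)
    (h : ∀ p, S' p → S p)
    (c : ℤ → Cont A r) (x : ℤ → A) :
    modif r S' c x = modif r S (fun p => if S' p then c p else cont r x p) x := by
  have hS' : Sep r S' := fun p p' hp hp' hne => hS p p' (h p hp) (h p' hp') hne
  funext j
  rcases cases_window r S j with ⟨p, hp, hj⟩ | hout
  · rw [modif_in hS _ _ hp hj]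
    by_cases hp' : S' p
    · rw [modif_in hS' _ _ hp' hj]
      simp [hp']
    · rw [modif_out]
      · simp only [hp', if_false]
        show x j = x (p + (j - p))
        congr 1
        ring
      · intro p2 hp2 hj2
        have := hS.eq hp (h p2 hp2) hj hj2
        exact hp' (this ▸ hp2)
  · rw [modif_out _ _ hout, modif_out]
    intro p hp
    exact hout p (h p hp)

/-- The action of a map `τ` of contents at the anchors `P x`. -/
noncomputable def act (r : ℕ) (P : (ℤ → A) → ℤ → Prop) (τ : Cont A r → Cont A r) (x : ℤ → A) :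
    ℤ → A :=
  modif r (P x) (fun p => τ (cont r x p)) x

theorem act_act {r : ℕ} {P : (ℤ → A) → ℤ → Prop} {x : ℤ → A} (hS : Sep r (P x))
    (τ τ' : Cont A r → Cont A r) (hP : ∀ p, P (act r P τ x) p ↔ P x p) :
    act r P τ' (act r P τ x) = act r P (τ' ∘ τ) x := by
  have hPe : P (act r P τ x) = P x := funext fun p => propext (hP p)
  have h1 : act r P τ' (act r P τ x)
      = modif r (P x) (fun p => τ' (cont r (act r P τ x) p)) (act r P τ x) := by
    conv_lhs => unfold act
    rw [show P (modif r (P x) (fun p => τ (cont r x p)) x) = P x from hPe]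
    rfl
  rw [h1]
  have h2 : act r P τ x = modif r (P x) (fun p => τ (cont r x p)) x := rfl
  rw [h2, modif_modif hS]
  apply modif_congr hS (fun p => Iff.rfl)
  intro p hp
  rw [cont_modif hS _ _ hp]
  rfl

theorem act_id {r : ℕ} {P : (ℤ → A) → ℤ → Prop} {x : ℤ → A} (hS : Sep r (P x)) :
    act r P (fun V => V) x = x := modif_self hS x

section Topology

theorem continuous_of_local [TopologicalSpace A] [DiscreteTopology A] {X : Set (ℤ → A)}
    (F : (ℤ → A) → (ℤ → A)) (R : ℕ)
    (hF : ∀ x ∈ X, ∀ x' ∈ X, ∀ j : ℤ, (∀ i : ℤ, |i - j| ≤ (R : ℤ) → x i = x' i) → F x j = F x' j) :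
    Continuous (fun x : X => F x.1) := by
  apply continuous_pi
  intro j
  apply IsLocallyConstant.continuous
  rw [IsLocallyConstant.iff_exists_open]
  intro x
  refine ⟨{x' : X | ∀ i ∈ Finset.Icc (j - R) (j + R), x'.1 i = x.1 i}, ?_, ?_, ?_⟩
  · have : {x' : X | ∀ i ∈ Finset.Icc (j - R) (j + R), x'.1 i = x.1 i}
        = ⋂ i ∈ Finset.Icc (j - R) (j + R), (fun x' : X => x'.1 i) ⁻¹' {x.1 i} := by
      ext x'
      simp
    rw [this]
    apply isOpen_biInter_finset
    intro i _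
    apply IsOpen.preimage
    · exact (continuous_apply i).comp continuous_subtype_val
    · exact isOpen_discrete _
  · intro i _
    rfl
  · intro x' hx'
    apply hF x'.1 x'.2 x.1 x.2 j
    intro i hi
    apply hx'
    rw [Finset.mem_Icc]
    rw [abs_le] at hi
    constructor <;> linarith [hi.1, hi.2]

end Topology

/-- A gate: a shift-commuting local anchor predicate together with a group of permutations of the
contents of the windows around the anchors. -/
structure Gate (X : Set (ℤ → A)) (r : ℕ) where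
  P : (ℤ → A) → ℤ → Prop
  Γ : Subgroup (Equiv.Perm (Cont A r))
  P_sh : ∀ x p, P (sh 1 x) p ↔ P x (p + 1)
  P_loc : ∃ R : ℕ, ∀ x x' p, (∀ i : ℤ, |i| ≤ (R : ℤ) → x (p + i) = x' (p + i)) → P x p → P x' p
  sep : ∀ x ∈ X, Sep r (P x)
  mem : ∀ x ∈ X, ∀ τ ∈ Γ, act r P τ x ∈ X
  inv : ∀ x ∈ X, ∀ τ ∈ Γ, ∀ p, P (act r P τ x) p ↔ P x p

namespace Gate

variable {X : Set (ℤ → A)} {r : ℕ}

theorem act_mul (G : Gate X r) {x : ℤ → A} (hx : x ∈ X) (τ : Equiv.Perm (Cont A r))
    (hτ : τ ∈ G.Γ) (τ' : Equiv.Perm (Cont A r)) :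
    act r G.P τ' (act r G.P τ x) = act r G.P (τ' * τ : Equiv.Perm (Cont A r)) x := by
  rw [act_act (G.sep x hx) _ _ (G.inv x hx τ hτ)]
  rfl

theorem act_one (G : Gate X r) {x : ℤ → A} (hx : x ∈ X) :
    act r G.P (1 : Equiv.Perm (Cont A r)) x = x :=
  act_id (G.sep x hx)

theorem act_local (G : Gate X r) (τ : Cont A r → Cont A r) :
    ∃ R : ℕ, ∀ x ∈ X, ∀ x' ∈ X, ∀ j : ℤ, (∀ i : ℤ, |i - j| ≤ (R : ℤ) → x i = x' i) →
      act r G.P τ x j = act r G.P τ x' j := by
  obtain ⟨R, hR⟩ := G.P_loc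
  refine ⟨R + 2 * r, ?_⟩
  intro x hx x' hx' j hj
  have hP : ∀ p, j - p ∈ Finset.Ico (-(r : ℤ)) (r : ℤ) → (G.P x p ↔ G.P x' p) := by
    intro p hp
    rw [Finset.mem_Ico] at hp
    constructor
    · apply hR
      intro i hi
      apply hj
      rw [abs_le] at hi ⊢
      push_cast
      omega
    · apply hR
      intro i hi
      symm
      apply hj
      rw [abs_le] at hi ⊢
      push_cast
      omega
  rcases cases_window r (G.P x) j with ⟨p, hp, hjp⟩ | hout
  · have hp' : G.P x' p := (hP p hjp).1 hp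
    unfold act
    rw [modif_in (G.sep x hx) _ _ hp hjp, modif_in (G.sep x' hx') _ _ hp' hjp]
    have : cont r x p = cont r x' p := by
      funext k
      apply hj
      have hk := k.2
      rw [Finset.mem_Ico] at hk hjp
      rw [abs_le]
      push_cast
      omega
    rw [this]
  · have hout' : ∀ p, G.P x' p → j - p ∉ Finset.Ico (-(r : ℤ)) (r : ℤ) := by
      intro p hp hj2
      exact hout p ((hP p hj2).2 hp) hj2
    unfold act
    rw [modif_out _ _ hout, modif_out _ _ hout']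
    apply hj
    simp only [sub_self, abs_zero]
    positivity

theorem act_sh (G : Gate X r) (hX : ShiftInv X) {x : ℤ → A} (hx : x ∈ X)
    (τ : Cont A r → Cont A r) : act r G.P τ (sh 1 x) = sh 1 (act r G.P τ x) := by
  have hx1 : sh 1 x ∈ X := (hX x).2 hx
  have hcont : ∀ p, cont r (sh 1 x) p = cont r x (p + 1) := by
    intro p
    funext k
    show x (p + k.1 + 1) = x (p + 1 + k.1)
    congr 1
    ring
  funext j
  rw [sh_apply]
  rcases cases_window r (G.P (sh 1 x)) j with ⟨p, hp, hjp⟩ | hout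
  · have hp' : G.P x (p + 1) := (G.P_sh x p).1 hp
    have hjp' : j + 1 - (p + 1) ∈ Finset.Ico (-(r : ℤ)) (r : ℤ) := by
      have : j + 1 - (p + 1) = j - p := by ring
      rw [this]
      exact hjp
    unfold act
    rw [modif_in (G.sep _ hx1) _ _ hp hjp, modif_in (G.sep x hx) _ _ hp' hjp', hcont]
    congr 1
    apply Subtype.ext
    show j - p = j + 1 - (p + 1)
    ring
  · have hout' : ∀ p, G.P x p → j + 1 - p ∉ Finset.Ico (-(r : ℤ)) (r : ℤ) := by
      intro p hp hj2
      apply hout (p - 1) ((G.P_sh x (p - 1)).2 (by simpa using hp))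
      have : j - (p - 1) = j + 1 - p := by ring
      rw [this]
      exact hj2
    unfold act
    rw [modif_out _ _ hout, modif_out _ _ hout']
    rfl

variable [TopologicalSpace A] [DiscreteTopology A]

/-- The homeomorphism given by an element of the group of a gate. -/
noncomputable def homeo (G : Gate X r) (τ : G.Γ) : X ≃ₜ X where
  toFun x := ⟨act r G.P τ.1 x.1, G.mem x.1 x.2 _ τ.2⟩
  invFun x := ⟨act r G.P (τ⁻¹).1 x.1, G.mem x.1 x.2 _ (τ⁻¹).2⟩
  left_inv x := by
    apply Subtype.ext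
    show act r G.P (τ⁻¹).1 (act r G.P τ.1 x.1) = x.1
    rw [G.act_mul x.2 _ τ.2]
    have : ((τ⁻¹).1 * τ.1 : Equiv.Perm (Cont A r)) = 1 := by
      simp
    rw [this]
    exact G.act_one x.2
  right_inv x := by
    apply Subtype.ext
    show act r G.P τ.1 (act r G.P (τ⁻¹).1 x.1) = x.1
    rw [G.act_mul x.2 _ (τ⁻¹).2]
    have : (τ.1 * (τ⁻¹).1 : Equiv.Perm (Cont A r)) = 1 := by
      simp
    rw [this]
    exact G.act_one x.2
  continuous_toFun := by
    obtain ⟨R, hR⟩ := G.act_local τ.1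
    exact Continuous.subtype_mk (continuous_of_local _ R hR) _
  continuous_invFun := by
    obtain ⟨R, hR⟩ := G.act_local (τ⁻¹).1
    exact Continuous.subtype_mk (continuous_of_local _ R hR) _

/-- The homomorphism to the automorphism group given by a gate. -/
noncomputable def hom (G : Gate X r) (hX : ShiftInv X) : G.Γ →* autGroup X hX where
  toFun τ := ⟨G.homeo τ, fun x => G.act_sh hX x.2 _⟩
  map_one' := by
    apply Subtype.ext
    apply Homeomorph.ext
    intro x
    apply Subtype.ext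
    exact G.act_one x.2
  map_mul' τ τ' := by
    apply Subtype.ext
    apply Homeomorph.ext
    intro x
    apply Subtype.ext
    exact (G.act_mul x.2 _ τ'.2 _).symm

theorem hom_apply (G : Gate X r) (hX : ShiftInv X) (τ : G.Γ) (x : X) :
    (((G.hom hX τ : X ≃ₜ X) x : X) : ℤ → A) = act r G.P τ.1 x.1 := rfl

end Gate

end H35.RS
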