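import Pool.Agent.H35.RS.Defs

/-!
# The random noble means substitutions: definitions

Letters: `false = a`, `true = b`.  For `m ≥ 1`:
`ϑ(a) = {a^m b, a^(m-1) b a, …, b a^m}` and `ϑ(b) = {a}`.  (`m = 1` is the random Fibonacci
substitution.)
-/

namespace H35.RS.Nm

open H35.RS

/-- The random noble means substitution `a ↦ {a^(m-i) b a^i : 0 ≤ i ≤ m}`, `b ↦ {a}`
(`a = false`, `b = true`). -/
def nm (m : ℕ) : Bool → Finset (List Bool)
  | false => (Finset.range (m + 1)).image
      (fun i => List.replicate (m - i) false ++ true :: List.replicate i false)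
  | true => {[false]}

/-- Heights of the letters: `h(a) = -g`, `h(b) = 1`. -/
noncomputable def ht (g : ℝ) : Bool → ℝ
  | false => -g
  | true => 1

/-- Heights of the vertices of a bi-infinite path: `S g x 0 = 0`,
`S g x (i+1) = S g x i + ht g (x i)`. -/
noncomputable def S (g : ℝ) (x : ℤ → Bool) (i : ℤ) : ℝ :=
  (∑ j ∈ Finset.Ico 0 i, ht g (x j)) - ∑ j ∈ Finset.Ico i 0, ht g (x j)

/-- Swap the letters `x (i-1)` and `x i` (the two letters around the vertex `i`). -/
def flip (x : ℤ → Bool) (i : ℤ) : ℤ → Bool :=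
  fun j => if j = i - 1 then x i else if j = i then x (i - 1) else x j

/-- `(y, c)` is a parsing of `x` into tiles: tile `i` starts at coordinate `c i`; it is `a` if
`y i = b`, and it is `a^l b a^(m-l)` (with some `l ≤ m`) if `y i = a`. -/
def Parse (m : ℕ) (x y : ℤ → Bool) (c : ℤ → ℤ) : Prop :=
  ∀ i, (y i = true ∧ c (i + 1) = c i + 1 ∧ x (c i) = false) ∨
    (y i = false ∧ c (i + 1) = c i + (m + 1) ∧
      ∃ l : ℕ, l ≤ m ∧ ∀ k : ℕ, k ≤ m → x (c i + k) = decide (k = l))

/-- The positive root of `g² + m g = 1`. -/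
noncomputable def gm (m : ℕ) : ℝ := (Real.sqrt ((m : ℝ) ^ 2 + 4) - m) / 2

/-- An anchor at `p`: among the `n₀` letters `x_p, …, x_{p+n₀-1}` exactly `k₀` are `b`. -/
def Mark (n₀ k₀ : ℕ) (x : ℤ → Bool) (p : ℤ) : Prop := (wd x p n₀).count true = k₀

theorem gm_sq (m : ℕ) : gm m * gm m + m * gm m = 1 := by
  unfold gm
  have h : Real.sqrt ((m : ℝ) ^ 2 + 4) * Real.sqrt ((m : ℝ) ^ 2 + 4) = (m : ℝ) ^ 2 + 4 :=
    Real.mul_self_sqrt (by positivity)
  nlinarith [h]

theorem gm_pos (m : ℕ) : 0 < gm m := by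
  unfold gm
  have h : (m : ℝ) < Real.sqrt ((m : ℝ) ^ 2 + 4) := by
    rw [Real.lt_sqrt (by positivity)]
    linarith
  linarith

theorem gm_lt_one {m : ℕ} (hm : 1 ≤ m) : gm m < 1 := by
  have h1 := gm_sq m
  have h2 := gm_pos m
  have h3 : (1 : ℝ) ≤ m := by exact_mod_cast hm
  nlinarith

theorem gm_lt_half {m : ℕ} (hm : 2 ≤ m) : gm m < 1 / 2 := by
  have h1 := gm_sq m
  have h2 := gm_pos m
  have h3 : (2 : ℝ) ≤ m := by exact_mod_cast hm
  nlinarith

theorem gm_irrational {m : ℕ} (hm : 1 ≤ m) : Irrational (gm m) := by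
  have h1 : Irrational (Real.sqrt ((m ^ 2 + 4 : ℕ) : ℝ)) := by
    rw [irrational_sqrt_natCast_iff]
    rintro ⟨k, hk⟩
    have h2 : m < k := by
      by_contra h
      rw [not_lt] at h
      have := Nat.mul_le_mul h h
      nlinarith
    have h3 : k < m + 2 := by
      by_contra h
      rw [not_lt] at h
      have := Nat.mul_le_mul h h
      nlinarith
    obtain rfl : k = m + 1 := by omega
    have h4 : 2 * m = 3 := by nlinarith
    omega
  push_cast at h1
  intro h
  obtain ⟨q, hq⟩ := h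
  apply h1
  refine ⟨2 * q + m, ?_⟩
  push_cast
  rw [hq]
  unfold gm
  ring

theorem S_zero (g : ℝ) (x : ℤ → Bool) : S g x 0 = 0 := by
  simp [S]

theorem S_succ (g : ℝ) (x : ℤ → Bool) (i : ℤ) : S g x (i + 1) = S g x i + ht g (x i) := by
  unfold S
  by_cases hi : 0 ≤ i
  · have h1 : Finset.Ico 0 (i + 1) = insert i (Finset.Ico 0 i) := by
      ext j
      simp only [Finset.mem_Ico, Finset.mem_insert]
      omega
    have h2 : Finset.Ico (i + 1) 0 = ∅ := Finset.Ico_eq_empty (by omega)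
    have h3 : Finset.Ico i 0 = ∅ := Finset.Ico_eq_empty (by omega)
    rw [h1, h2, h3, Finset.sum_insert (by simp)]
    simp only [Finset.sum_empty]
    ring
  · have h1 : Finset.Ico i 0 = insert i (Finset.Ico (i + 1) 0) := by
      ext j
      simp only [Finset.mem_Ico, Finset.mem_insert]
      omega
    have h2 : Finset.Ico 0 (i + 1) = ∅ := Finset.Ico_eq_empty (by omega)
    have h3 : Finset.Ico 0 i = ∅ := Finset.Ico_eq_empty (by omega)
    rw [h1, h2, h3, Finset.sum_insert (by simp)]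
    simp only [Finset.sum_empty]
    ring

end H35.RS.Nm
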