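import Pool.Agent.H35.RS.GateRF
import Pool.Agent.H35.RS.NmDefs

/-!
# Height functions and gates: an abstract criterion

A shift space of paths with bounded oscillation of the heights in which flips in the middle zone
are allowed has an automorphism group which is not residually finite.
-/

set_option autoImplicit false

namespace H35.RS.Nm

open H35.RS

namespace HGate

/-- The hypotheses of `not_rf_of_heights`. -/
structure Cfg (g : ℝ) (X : Set (ℤ → Bool)) (D δ e : ℝ) (n₀ k₀ K : ℕ) : Prop where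
  g0 : 0 < g
  irr : Irrational g
  inv : ShiftInv X
  loc : ∀ x : ℤ → Bool,
    (∀ n : ℕ, ∃ x' ∈ X, ∀ i : ℤ, |i| ≤ (n : ℤ) → x' i = x i) → x ∈ X
  e0 : 0 < e
  eδ : e < δ
  e1 : 2 * e ≤ 1 + g
  hD : D = g * n₀ - (1 + g) * k₀ + e
  osc : ∀ x ∈ X, ∀ i j : ℤ, S g x i - S g x j < D
  up : ∀ x ∈ X, ∀ i P : ℤ, x (i - 1) = false → x i = true →
    S g x (i - 1) + 1 + δ ≤ S g x P → flip x i ∈ X
  down : ∀ x ∈ X, ∀ i Q : ℤ, x (i - 1) = true → x i = false →
    S g x Q + δ ≤ S g x (i - 1) - g → flip x i ∈ X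
  K1 : 1 ≤ K
  avail : ∀ x ∈ X, ∀ T : ℝ, (∀ i, T - D < S g x i) → (∀ i, S g x i < T + e) →
    ∀ k : ℤ, ∃ i, k ≤ i ∧ i < k + K ∧ x (i - 1) ≠ x i ∧
      T - (D - e) + δ ≤ S g x i ∧ S g x i ≤ T - δ ∧
      T - (D - e) + δ ≤ S g x (i - 1) + ht g (x i) ∧
      S g x (i - 1) + ht g (x i) ≤ T - δ

/-! ### Heights -/

/-- Equal letters give equal height differences. -/
theorem S_congr (g : ℝ) (x y : ℤ → Bool) (a : ℤ) (n : ℕ)
    (h : ∀ j, a ≤ j → j < a + n → x j = y j) :
    S g x (a + n) - S g x a = S g y (a + n) - S g y a := by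
  induction n with
  | zero => simp
  | succ n ih =>
    have h1 := ih fun j h2 h3 => h j h2 (by push_cast; omega)
    have h4 : a + ((n + 1 : ℕ) : ℤ) = a + n + 1 := by push_cast; ring
    rw [h4, S_succ, S_succ, h (a + n) (by omega) (by push_cast; omega)]
    linarith

theorem S_flip_self (g : ℝ) (x : ℤ → Bool) (i : ℤ) :
    S g (flip x i) i - S g (flip x i) (i - 1) = ht g (x i) := by
  have h := S_succ g (flip x i) (i - 1)
  rw [sub_add_cancel] at h
  rw [h]
  have h2 : flip x i (i - 1) = x i := if_pos rfl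
  rw [h2]
  ring

theorem S_flip (g : ℝ) (x : ℤ → Bool) (i j : ℤ) (hj : j ≠ i) :
    S g (flip x i) j - S g (flip x i) (i - 1) = S g x j - S g x (i - 1) := by
  have hoff : ∀ k, k ≠ i - 1 → k ≠ i → flip x i k = x k := by
    intro k h1 h2
    unfold flip
    rw [if_neg h1, if_neg h2]
  rcases lt_or_gt_of_ne hj with h | h
  · obtain ⟨n, hn⟩ : ∃ n : ℕ, i - 1 = j + n := ⟨(i - 1 - j).toNat, by omega⟩
    have h1 := S_congr g (flip x i) x j n
      (fun k h2 h3 => hoff k (by omega) (by omega))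
    rw [hn]
    linarith
  · obtain ⟨n, hn⟩ : ∃ n : ℕ, j = (i + 1) + n := ⟨(j - (i + 1)).toNat, by omega⟩
    have h1 := S_congr g (flip x i) x (i + 1) n
      (fun k h2 h3 => hoff k (by omega) (by omega))
    have h2 := S_succ g (flip x i) i
    have h3 := S_succ g x i
    have h4 := S_succ g x (i - 1)
    rw [sub_add_cancel] at h4
    have h5 := S_flip_self g x i
    have h6 : flip x i i = x (i - 1) := by
      unfold flip
      rw [if_neg (by omega), if_pos rfl]
    rw [h6] at h2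
    rw [hn]
    linarith

theorem S_add (g : ℝ) (x : ℤ → Bool) (p : ℤ) (n : ℕ) :
    S g x (p + n) - S g x p = ((wd x p n).count true : ℝ) * (1 + g) - g * n := by
  induction n with
  | zero => simp [wd]
  | succ n ih =>
    have h4 : p + ((n + 1 : ℕ) : ℤ) = p + n + 1 := by push_cast; ring
    have h5 : wd x p (n + 1) = wd x p n ++ [x (p + n)] := by
      unfold wd
      rw [List.range_succ, List.map_append]
      rfl
    rw [h4, S_succ, h5, List.count_append]
    cases hx : x (p + n)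
    · have h6 : List.count true [false] = 0 := rfl
      rw [h6]
      push_cast
      simp only [ht]
      linarith
    · have h6 : List.count true [true] = 1 := rfl
      rw [h6]
      push_cast
      simp only [ht]
      linarith

/-- Put the content `V` into the window around `0`. -/
noncomputable def put {A : Type*} {r : ℕ} (V : Cont A r) (z : ℤ → A) : ℤ → A :=
  open Classical in
  fun j => if h : j ∈ Finset.Ico (-(r : ℤ)) (r : ℤ) then V ⟨j, h⟩ else z j

theorem put_in {A : Type*} {r : ℕ} (V : Cont A r) (z : ℤ → A) {j : ℤ}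
    (h : j ∈ Finset.Ico (-(r : ℤ)) (r : ℤ)) : put V z j = V ⟨j, h⟩ := by
  unfold put
  rw [dif_pos h]

theorem put_out {A : Type*} {r : ℕ} (V : Cont A r) (z : ℤ → A) {j : ℤ}
    (h : j ∉ Finset.Ico (-(r : ℤ)) (r : ℤ)) : put V z j = z j := by
  unfold put
  rw [dif_neg h]

theorem put_cont {A : Type*} {r : ℕ} (x : ℤ → A) (p : ℤ) : put (cont r x p) (sh p x) = sh p x := by
  funext j
  by_cases h : j ∈ Finset.Ico (-(r : ℤ)) (r : ℤ)
  · rw [put_in _ _ h]
    show x (p + j) = x (j + p)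
    rw [add_comm]
  · rw [put_out _ _ h]

theorem mark_sh' {n₀ k₀ : ℕ} (x : ℤ → Bool) (k p : ℤ) :
    Mark n₀ k₀ (sh k x) p ↔ Mark n₀ k₀ x (p + k) := by
  unfold Mark
  rw [wd_sh]

theorem mark_congr {n₀ k₀ : ℕ} {x x' : ℤ → Bool} {p : ℤ}
    (h : ∀ i : ℤ, 0 ≤ i → i < n₀ → x (p + i) = x' (p + i)) :
    Mark n₀ k₀ x p ↔ Mark n₀ k₀ x' p := by
  unfold Mark
  have : wd x p n₀ = wd x' p n₀ := by
    unfold wd
    apply List.map_congr_left
    intro k hk
    rw [List.mem_range] at hk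
    exact h k (by positivity) (by exact_mod_cast hk)
  rw [this]

/-- Types: the pattern of anchors. -/
def tyF (n₀ k₀ N : ℕ) (x : ℤ → Bool) (p : ℤ) :
    {i : ℤ // i ∈ Finset.Ico (-(N : ℤ)) (N : ℤ)} → Prop :=
  fun i => Mark n₀ k₀ x (p + i.1)

theorem flip_flip (x : ℤ → Bool) (i : ℤ) : flip (flip x i) i = x := by
  funext j
  unfold flip
  by_cases h1 : j = i - 1
  · subst h1
    rw [if_pos rfl, if_neg (by omega), if_pos rfl]
  · by_cases h2 : j = i
    · subst h2
      rw [if_neg h1, if_pos rfl, if_pos rfl]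
    · rw [if_neg h1, if_neg h2, if_neg h1, if_neg h2]

theorem S_diff_congr (g : ℝ) {x z : ℤ → Bool} {p : ℤ} (n : ℕ)
    (h : ∀ j : ℤ, 0 ≤ j → j < n → z j = x (p + j)) :
    S g z n - S g z 0 = S g x (p + n) - S g x p := by
  induction n with
  | zero => simp
  | succ n ih =>
    have ih' := ih (fun j h0 h1 => h j h0 (by push_cast; omega))
    push_cast
    rw [S_succ, ← add_assoc, S_succ, h n (by positivity) (by push_cast; omega)]
    linarith

/-- Admissible points: points of `X` with an anchor at `0`. -/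
def Adm (X : Set (ℤ → Bool)) (n₀ k₀ : ℕ) (z : ℤ → Bool) : Prop := z ∈ X ∧ Mark n₀ k₀ z 0

/-- Interchangeable contents. -/
def RR (X : Set (ℤ → Bool)) (n₀ k₀ q : ℕ) (V V' : Cont Bool (q * 1)) : Prop :=
  ∀ z : ℤ → Bool, (Adm X n₀ k₀ (put V z) ↔ Adm X n₀ k₀ (put V' z)) ∧
    (Adm X n₀ k₀ (put V z) → ∀ p, Mark n₀ k₀ (put V z) p ↔ Mark n₀ k₀ (put V' z) p)

theorem RR_equiv (X : Set (ℤ → Bool)) (n₀ k₀ q : ℕ) : Equivalence (RR X n₀ k₀ q) where
  refl _ _ := ⟨Iff.rfl, fun _ _ => Iff.rfl⟩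
  symm h z := ⟨(h z).1.symm, fun hz p => ((h z).2 ((h z).1.2 hz) p).symm⟩
  trans h h' z := ⟨(h z).1.trans (h' z).1, fun hz p =>
    ((h z).2 hz p).trans ((h' z).2 ((h z).1.1 hz) p)⟩

namespace Cfg

variable {g : ℝ} {X : Set (ℤ → Bool)} {D δ e : ℝ} {n₀ k₀ K : ℕ}

theorem sh_mem_nat (c : Cfg g X D δ e n₀ k₀ K) {x : ℤ → Bool} (k : ℕ) :
    sh (k : ℤ) x ∈ X ↔ x ∈ X := by
  induction k with
  | zero => simp [sh_zero]
  | succ k ih =>
    have : sh ((k + 1 : ℕ) : ℤ) x = sh 1 (sh (k : ℤ) x) := by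
      rw [sh_sh]
      congr 1
      push_cast
      ring
    rw [this, c.inv, ih]

theorem sh_mem_iff (c : Cfg g X D δ e n₀ k₀ K) {x : ℤ → Bool} (k : ℤ) :
    sh k x ∈ X ↔ x ∈ X := by
  rcases Int.eq_nat_or_neg k with ⟨n, rfl | rfl⟩
  · exact c.sh_mem_nat n
  · have h := c.sh_mem_nat (x := sh (-(n : ℤ)) x) n
    rw [sh_sh] at h
    rw [add_neg_cancel, sh_zero] at h
    exact h.symm

theorem mark_height (c : Cfg g X D δ e n₀ k₀ K) {x : ℤ → Bool} {p : ℤ}
    (h : Mark n₀ k₀ x p) : S g x p - S g x (p + n₀) = D - e := by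
  have h1 := S_add g x p n₀
  have h2 := c.hD
  unfold Mark at h
  rw [h] at h1
  linarith

theorem mark_close (c : Cfg g X D δ e n₀ k₀ K) {x : ℤ → Bool} (hx : x ∈ X) {p p' : ℤ}
    (h' : Mark n₀ k₀ x p') : S g x p - S g x p' < e := by
  have h1 := c.osc x hx p (p' + n₀)
  have h2 := c.mark_height h'
  linarith

theorem irr_ne (c : Cfg g X D δ e n₀ k₀ K) {n d : ℕ} (hd : 1 ≤ d) :
    (n : ℝ) * (1 + g) - g * d ≠ 0 := by
  intro h
  by_cases hnd : (n : ℝ) - d = 0
  · have h1 : (n : ℝ) = 0 := by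
      have h2 : (n : ℝ) * (1 + g) - g * d = n + ((n : ℝ) - d) * g := by ring
      rw [h2, hnd] at h
      linarith
    have h3 : (d : ℝ) = 0 := by linarith
    have h4 : d = 0 := by exact_mod_cast h3
    omega
  · apply c.irr
    refine ⟨-(n : ℚ) / ((n : ℚ) - d), ?_⟩
    push_cast
    have hg : g = -(n : ℝ) / ((n : ℝ) - d) := by
      rw [eq_div_iff hnd]
      linarith
    exact hg.symm

/-- Marks in an arithmetic progression. -/
theorem sep_mark (c : Cfg g X D δ e n₀ k₀ K) (d : ℕ) (hd : 1 ≤ d) :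
    ∃ J : ℕ, ∀ x ∈ X, ∀ p : ℤ, ¬ (∀ j : ℕ, j ≤ J → Mark n₀ k₀ x (p + j * d)) := by
  have hg0 := c.g0
  have he1 := c.e1
  have hstep : ∀ x ∈ X, ∀ p : ℤ, ∀ J : ℕ, (∀ j : ℕ, j ≤ J → Mark n₀ k₀ x (p + j * d)) →
      ∀ j, j + 1 ≤ J → ∃ n : ℕ, |(n : ℝ) * (1 + g) - g * d| < e ∧
        S g x (p + ((j + 1 : ℕ) : ℤ) * d) - S g x (p + (j : ℤ) * d)
          = (n : ℝ) * (1 + g) - g * d := by
    intro x hx p J hJ j hj
    have e1 : p + ((j + 1 : ℕ) : ℤ) * d = (p + (j : ℤ) * d) + d := by push_cast; ring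
    have h1 := S_add g x (p + (j : ℤ) * d) d
    refine ⟨(wd x (p + (j : ℤ) * d) d).count true, ?_, ?_⟩
    · rw [← h1, ← e1, abs_lt]
      have m1 := hJ j (by omega)
      have m2 := hJ (j + 1) hj
      have c1 := c.mark_close hx (p := p + (j : ℤ) * d) m2
      have c2 := c.mark_close hx (p := p + ((j + 1 : ℕ) : ℤ) * d) m1
      constructor <;> linarith
    · rw [e1, h1]
  by_cases hex : ∃ n : ℕ, |(n : ℝ) * (1 + g) - g * d| < e
  · obtain ⟨n, hn⟩ := hex
    have huniq : ∀ n' : ℕ, |(n' : ℝ) * (1 + g) - g * d| < e → n' = n := by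
      intro n' hn'
      rw [abs_lt] at hn hn'
      by_contra hne
      have hcase : (n' : ℝ) + 1 ≤ n ∨ (n : ℝ) + 1 ≤ n' := by
        rcases lt_or_gt_of_ne hne with h | h
        · left; exact_mod_cast h
        · right; exact_mod_cast h
      rcases hcase with h | h
      · nlinarith
      · nlinarith
    obtain ⟨E, hE⟩ : ∃ E : ℝ, E = (n : ℝ) * (1 + g) - g * d := ⟨_, rfl⟩
    have hE0 : E ≠ 0 := by rw [hE]; exact c.irr_ne hd
    have hEpos : 0 < |E| := abs_pos.mpr hE0
    obtain ⟨J, hJ⟩ := exists_nat_ge (e / |E|)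
    rw [div_le_iff₀ hEpos] at hJ
    refine ⟨J, fun x hx p hm => ?_⟩
    have hsum : ∀ j : ℕ, j ≤ J → S g x (p + (j : ℤ) * d) - S g x p = j * E := by
      intro j
      induction j with
      | zero => intro _; simp
      | succ j ih =>
        intro hj
        obtain ⟨n', h1, h2⟩ := hstep x hx p J hm j hj
        rw [huniq n' h1, ← hE] at h2
        have h3 := ih (by omega)
        push_cast at h2 h3 ⊢
        linarith
    have h1 := hsum J le_rfl
    have m0 := hm 0 (Nat.zero_le _)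
    have mJ := hm J le_rfl
    have e0 : p + ((0 : ℕ) : ℤ) * d = p := by simp
    rw [e0] at m0
    have c1 := c.mark_close hx (p := p) mJ
    have c2 := c.mark_close hx (p := p + (J : ℤ) * d) m0
    have h2 : |(J : ℝ) * E| < e := by
      rw [← h1, abs_lt]
      constructor <;> linarith
    rw [abs_mul, Nat.abs_cast] at h2
    linarith
  · refine ⟨1, fun x hx p hm => ?_⟩
    obtain ⟨n, h1, -⟩ := hstep x hx p 1 hm 0 le_rfl
    exact hex ⟨n, h1⟩

/-- A flip which does not straddle an end of the anchor keeps the anchor. -/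
theorem flip_mark (c : Cfg g X D δ e n₀ k₀ K) {x : ℤ → Bool} {i p : ℤ} (h1 : i ≠ p)
    (h2 : i ≠ p + n₀) :
    Mark n₀ k₀ (flip x i) p ↔ Mark n₀ k₀ x p := by
  have e1 := S_flip g x i p (Ne.symm h1)
  have e2 := S_flip g x i (p + n₀) (Ne.symm h2)
  have e3 := S_add g x p n₀
  have e4 := S_add g (flip x i) p n₀
  have hg := c.g0
  have h3 : ((wd (flip x i) p n₀).count true : ℝ) = ((wd x p n₀).count true : ℝ) := by
    have h4 : ((wd (flip x i) p n₀).count true : ℝ) * (1 + g) =
        ((wd x p n₀).count true : ℝ) * (1 + g) := by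
      linarith
    have h5 : (1 + g) ≠ 0 := by linarith
    exact mul_right_cancel₀ h5 h4
  have h6 : (wd (flip x i) p n₀).count true = (wd x p n₀).count true := by exact_mod_cast h3
  unfold Mark
  rw [h6]

/-! ### Finitely many windows -/

theorem fin_windows (cf : Cfg g X D δ e n₀ k₀ K) {q : ℕ} {S : ℤ → Prop} {x : ℤ → Bool}
    (hS : Sep (q * 1) S)
    (hx : x ∈ X) (c : ℤ → Cont Bool (q * 1)) (hM : ∀ p, S p → Mark n₀ k₀ x p)
    (hc : ∀ p, S p → RR X n₀ k₀ q (cont (q * 1) x p) (c p)) (F : Finset ℤ) :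
    modif (q * 1) (fun p => S p ∧ p ∈ F) c x ∈ X ∧
      ∀ p, Mark n₀ k₀ (modif (q * 1) (fun p => S p ∧ p ∈ F) c x) p ↔ Mark n₀ k₀ x p := by
  induction F using Finset.induction_on with
  | empty =>
    have : modif (q * 1) (fun p => S p ∧ p ∈ (∅ : Finset ℤ)) c x = x := by
      funext j
      apply modif_out
      rintro p ⟨_, hp⟩
      simp at hp
    rw [this]
    exact ⟨hx, fun p => Iff.rfl⟩
  | insert p F hpF ih =>
    set y := modif (q * 1) (fun p => S p ∧ p ∈ F) c x with hy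
    have hSF : Sep (q * 1) (fun p => S p ∧ p ∈ F) := fun a b ha hb hne => hS a b ha.1 hb.1 hne
    have hSI : Sep (q * 1) (fun p' => S p' ∧ p' ∈ insert p F) :=
      fun a b ha hb hne => hS a b ha.1 hb.1 hne
    by_cases hSp : S p
    · have hcy : cont (q * 1) y p = cont (q * 1) x p := by
        funext k
        apply modif_out
        rintro p2 ⟨hp2, hp2F⟩ hk
        have hk' : p + k.1 - p ∈ Finset.Ico (-((q * 1 : ℕ) : ℤ)) ((q * 1 : ℕ) : ℤ) := by
          rw [add_sub_cancel_left]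
          exact k.2
        have := hS.eq hSp hp2 hk' hk
        subst this
        exact hpF hp2F
      have hR := hc p hSp
      rw [← hcy] at hR
      have hz := hR (sh p y)
      rw [put_cont] at hz
      have hadm : Adm X n₀ k₀ (sh p y) := by
        refine ⟨(cf.sh_mem_iff p).2 ih.1, ?_⟩
        rw [mark_sh', zero_add, ih.2]
        exact hM p hSp
      have hnew : put (c p) (sh p y)
          = sh p (modif (q * 1) (fun p' => S p' ∧ p' ∈ insert p F) c x) := by
        funext j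
        rw [sh_apply]
        by_cases hj : j ∈ Finset.Ico (-((q * 1 : ℕ) : ℤ)) ((q * 1 : ℕ) : ℤ)
        · rw [put_in _ _ hj]
          have hj' : j + p - p ∈ Finset.Ico (-((q * 1 : ℕ) : ℤ)) ((q * 1 : ℕ) : ℤ) := by
            rw [add_sub_cancel_right]
            exact hj
          rw [modif_in hSI c x ⟨hSp, Finset.mem_insert_self _ _⟩ hj']
          congr 1
          apply Subtype.ext
          simp
        · rw [put_out _ _ hj, sh_apply]
          have hj2 : j + p - p ∉ Finset.Ico (-((q * 1 : ℕ) : ℤ)) ((q * 1 : ℕ) : ℤ) := by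
            rw [add_sub_cancel_right]
            exact hj
          rcases cases_window (q * 1) (fun p => S p ∧ p ∈ F) (j + p) with ⟨p2, hp2, hj3⟩ | hout
          · rw [hy, modif_in hSF c x hp2 hj3,
              modif_in hSI c x ⟨hp2.1, Finset.mem_insert_of_mem hp2.2⟩ hj3]
          · rw [hy, modif_out c x hout, modif_out]
            rintro p2 ⟨hp2, hp2F⟩ hj3
            rcases Finset.mem_insert.1 hp2F with h | h
            · subst h
              exact hj2 hj3
            · exact hout p2 ⟨hp2, h⟩ hj3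
      rw [hnew] at hz
      have h1 := hz.1.1 hadm
      refine ⟨(cf.sh_mem_iff p).1 h1.1, ?_⟩
      intro p'
      have h2 := hz.2 hadm (p' - p)
      rw [mark_sh', mark_sh'] at h2
      rw [sub_add_cancel] at h2
      rw [← h2]
      exact ih.2 p'
    · have : modif (q * 1) (fun p' => S p' ∧ p' ∈ insert p F) c x = y := by
        have : (fun p' => S p' ∧ p' ∈ insert p F) = fun p' => S p' ∧ p' ∈ F := by
          funext p'
          apply propext
          rw [Finset.mem_insert]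
          constructor
          · rintro ⟨h1, h2 | h2⟩
            · subst h2
              exact absurd h1 hSp
            · exact ⟨h1, h2⟩
          · rintro ⟨h1, h2⟩
            exact ⟨h1, Or.inr h2⟩
        rw [this]
      rw [this]
      exact ih

theorem all_windows (cf : Cfg g X D δ e n₀ k₀ K) {q : ℕ} {S : ℤ → Prop} {x : ℤ → Bool}
    (hS : Sep (q * 1) S)
    (hx : x ∈ X) (c : ℤ → Cont Bool (q * 1)) (hM : ∀ p, S p → Mark n₀ k₀ x p)
    (hc : ∀ p, S p → RR X n₀ k₀ q (cont (q * 1) x p) (c p)) :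
    modif (q * 1) S c x ∈ X ∧ ∀ p, Mark n₀ k₀ (modif (q * 1) S c x) p ↔ Mark n₀ k₀ x p := by
  have key : ∀ n : ℕ, ∀ i : ℤ, |i| ≤ (n : ℤ) →
      modif (q * 1) (fun p => S p ∧ p ∈ Finset.Icc (-(n : ℤ) - q) (n + q)) c x i
        = modif (q * 1) S c x i := by
    intro n i hi
    have hSF : Sep (q * 1) (fun p => S p ∧ p ∈ Finset.Icc (-(n : ℤ) - q) (n + q)) :=
      fun a b ha hb hne => hS a b ha.1 hb.1 hne
    rw [abs_le] at hi
    rcases cases_window (q * 1) S i with ⟨p, hp, hj⟩ | hout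
    · have hpF : p ∈ Finset.Icc (-(n : ℤ) - q) (n + q) := by
        rw [Finset.mem_Ico] at hj
        rw [Finset.mem_Icc]
        push_cast at hj
        omega
      rw [modif_in hS c x hp hj, modif_in hSF c x ⟨hp, hpF⟩ hj]
    · rw [modif_out c x hout, modif_out]
      rintro p ⟨hp, _⟩
      exact hout p hp
  constructor
  · apply cf.loc
    intro n
    exact ⟨_, (cf.fin_windows hS hx c hM hc (Finset.Icc (-(n : ℤ) - q) (n + q))).1, key n⟩
  · intro p
    rw [← (cf.fin_windows hS hx c hM hc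
      (Finset.Icc (-((p.natAbs + n₀ : ℕ) : ℤ) - q) ((p.natAbs + n₀ : ℕ) + q))).2 p]
    apply mark_congr
    intro i h0 h1
    symm
    apply key
    have h5 := neg_abs_le p
    have h6 := le_abs_self p
    rw [abs_le]
    push_cast
    omega

/-! ### Safe flips -/

theorem safe_flip (cf : Cfg g X D δ e n₀ k₀ K) {z : ℤ → Bool} (hz : Adm X n₀ k₀ z) {i : ℤ}
    (hi : (n₀ : ℤ) + 1 ≤ i) (hne : z (i - 1) ≠ z i)
    (h1 : S g z 0 - (D - e) + δ ≤ S g z i) (h2 : S g z i ≤ S g z 0 - δ)
    (h3 : S g z 0 - (D - e) + δ ≤ S g z (i - 1) + ht g (z i))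
    (h4 : S g z (i - 1) + ht g (z i) ≤ S g z 0 - δ) :
    Adm X n₀ k₀ (flip z i) ∧ ∀ p, Mark n₀ k₀ z p ↔ Mark n₀ k₀ (flip z i) p := by
  have heδ := cf.eδ
  have hmh := cf.mark_height hz.2
  rw [zero_add] at hmh
  have hmem : flip z i ∈ X := by
    cases ha : z (i - 1) with
    | false =>
      have hb : z i = true := by
        cases hb : z i with
        | false => exact absurd (ha.trans hb.symm) hne
        | true => rfl
      apply cf.up z hz.1 i 0 ha hb
      rw [hb] at h4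
      simp only [ht] at h4
      linarith
    | true =>
      have hb : z i = false := by
        cases hb : z i with
        | true => exact absurd (ha.trans hb.symm) hne
        | false => rfl
      apply cf.down z hz.1 i n₀ ha hb
      rw [hb] at h3
      simp only [ht] at h3
      linarith
  have hsame : ∀ j : ℤ, 0 ≤ j → j < n₀ → flip z i (0 + j) = z (0 + j) := by
    intro j hj0 hj1
    unfold flip
    rw [if_neg (by omega), if_neg (by omega)]
  have hmark0 : Mark n₀ k₀ (flip z i) 0 := (mark_congr hsame).2 hz.2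
  refine ⟨⟨hmem, hmark0⟩, ?_⟩
  -- heights in the flipped point
  have hS0 := S_flip g z i 0 (by omega)
  have hSi := S_flip_self g z i
  -- exclusion of marks at i and i - n₀
  have excl : ∀ w : ℤ → Bool, w ∈ X → Mark n₀ k₀ w 0 →
      S g w 0 - (D - e) + δ ≤ S g w i → S g w i ≤ S g w 0 - δ →
      ¬ Mark n₀ k₀ w i ∧ ¬ Mark n₀ k₀ w (i - n₀) := by
    intro w hw hw0 k1 k2
    have hm0 := cf.mark_height hw0
    rw [zero_add] at hm0
    constructor
    · intro hm
      have e1 := cf.mark_height hm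
      have e2 := cf.osc w hw 0 (i + n₀)
      linarith
    · intro hm
      have e1 := cf.mark_height hm
      rw [sub_add_cancel] at e1
      have e2 := cf.osc w hw (i - n₀) n₀
      linarith
  have ex1 := excl z hz.1 hz.2 h1 h2
  have ex2 := excl (flip z i) hmem hmark0 (by linarith) (by linarith)
  intro p
  by_cases hp1 : i = p
  · subst hp1
    exact ⟨fun h => absurd h ex1.1, fun h => absurd h ex2.1⟩
  · by_cases hp2 : i = p + n₀
    · have : p = i - n₀ := by omega
      subst this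
      exact ⟨fun h => absurd h ex1.2, fun h => absurd h ex2.2⟩
    · exact (cf.flip_mark hp1 hp2).symm

/-- Two contents which differ by a safe flip are interchangeable. -/
theorem RR_flip (cf : Cfg g X D δ e n₀ k₀ K) {q : ℕ} {x : ℤ → Bool} {p : ℤ} {i : ℤ}
    (hi : p + (n₀ + 1) ≤ i) (hiq : i < p + q) (hne : x (i - 1) ≠ x i)
    (h1 : S g x p - (D - e) + δ ≤ S g x i) (h2 : S g x i ≤ S g x p - δ)
    (h3 : S g x p - (D - e) + δ ≤ S g x (i - 1) + ht g (x i))
    (h4 : S g x (i - 1) + ht g (x i) ≤ S g x p - δ) :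
    RR X n₀ k₀ q (cont (q * 1) x p) (cont (q * 1) (flip x i) p) := by
  intro z
  -- the index relative to the anchor
  obtain ⟨k, hk⟩ : ∃ k : ℕ, i = p + k := ⟨(i - p).toNat, by omega⟩
  have hk27 : (n₀ : ℤ) + 1 ≤ k := by omega
  have hkq : (k : ℤ) < q := by omega
  set z1 := put (cont (q * 1) x p) z with hz1
  set z2 := put (cont (q * 1) (flip x i) p) z with hz2
  have hin : ∀ j : ℤ, -(q : ℤ) ≤ j → j < q →
      j ∈ Finset.Ico (-((q * 1 : ℕ) : ℤ)) ((q * 1 : ℕ) : ℤ) := by
    intro j h h'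
    rw [Finset.mem_Ico]
    push_cast
    omega
  have hz1in : ∀ j : ℤ, -(q : ℤ) ≤ j → j < q → z1 j = x (p + j) := by
    intro j h h'
    rw [hz1, put_in _ _ (hin j h h')]
    rfl
  have hz2in : ∀ j : ℤ, -(q : ℤ) ≤ j → j < q → z2 j = flip x i (p + j) := by
    intro j h h'
    rw [hz2, put_in _ _ (hin j h h')]
    rfl
  have hzout : ∀ j : ℤ, ¬ (-(q : ℤ) ≤ j ∧ j < q) → z2 j = z1 j := by
    intro j h
    have h' : j ∉ Finset.Ico (-((q * 1 : ℕ) : ℤ)) ((q * 1 : ℕ) : ℤ) := by
      rw [Finset.mem_Ico]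
      push_cast
      simpa using h
    rw [hz1, hz2, put_out _ _ h', put_out _ _ h']
  have hflip : z2 = flip z1 k := by
    funext j
    by_cases hj : -(q : ℤ) ≤ j ∧ j < q
    · rw [hz2in j hj.1 hj.2]
      unfold flip
      rw [hz1in k (by omega) (by omega), hz1in (k - 1) (by omega) (by omega),
        hz1in j hj.1 hj.2, hk]
      by_cases a1 : j = k - 1
      · subst a1
        rw [if_pos (by ring), if_pos rfl]
      · by_cases a2 : j = k
        · subst a2
          rw [if_neg (by omega), if_pos rfl, if_neg (by omega), if_pos rfl]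
          congr 1
          ring
        · rw [if_neg (by omega), if_neg (by omega), if_neg a1, if_neg a2]
    · rw [hzout j hj]
      unfold flip
      rw [if_neg (by omega), if_neg (by omega)]
  have hflip' : z1 = flip z2 k := by
    rw [hflip, flip_flip]
  have hS1 : S g z1 k - S g z1 0 = S g x i - S g x p := by
    rw [hk]
    exact S_diff_congr g k (fun j h0 h1 => hz1in j (by omega) (by omega))
  have hS1' : S g z1 (k - 1) - S g z1 0 = S g x (i - 1) - S g x p := by
    obtain ⟨m, hm⟩ : ∃ m : ℕ, k = m + 1 := ⟨k - 1, by omega⟩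
    subst hm
    have := S_diff_congr g (x := x) (z := z1) (p := p) m
      (fun j h0 h1 => hz1in j (by omega) (by push_cast at *; omega))
    rw [show i - 1 = p + (m : ℤ) by push_cast at *; omega]
    rw [← this]
    push_cast
    rw [add_sub_cancel_right]
  have hzk : z1 k = x i := by
    rw [hz1in k (by omega) (by omega), hk]
  have hzk1 : z1 (k - 1) = x (i - 1) := by
    rw [hz1in (k - 1) (by omega) (by omega)]
    congr 1
    omega
  have hne1 : z1 (k - 1) ≠ z1 k := by
    rw [hzk, hzk1]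
    exact hne
  -- forward
  have fwd : Adm X n₀ k₀ z1 → Adm X n₀ k₀ z2 ∧ ∀ p, Mark n₀ k₀ z1 p ↔ Mark n₀ k₀ z2 p := by
    intro h
    rw [hflip]
    apply cf.safe_flip h hk27 hne1
    · linarith
    · linarith
    · rw [hzk]
      linarith
    · rw [hzk]
      linarith
  have hz2k : z2 k = z1 (k - 1) := by
    rw [hflip]
    unfold flip
    rw [if_neg (by omega), if_pos rfl]
  have hz2k1 : z2 (k - 1) = z1 k := by
    rw [hflip]
    unfold flip
    rw [if_pos rfl]
  have bwd : Adm X n₀ k₀ z2 → Adm X n₀ k₀ z1 := by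
    intro h
    have e0 := S_flip g z1 k 0 (by omega)
    have ei := S_flip_self g z1 k
    rw [← hflip] at e0 ei
    have es : S g z1 k = S g z1 (k - 1) + ht g (z1 (k - 1)) := by
      have := S_succ g z1 (k - 1)
      rwa [sub_add_cancel] at this
    rw [hflip']
    apply (cf.safe_flip h hk27 _ _ _ _ _).1
    · rw [hz2k, hz2k1]
      exact fun h => hne1 h.symm
    · rw [hzk] at ei
      linarith
    · rw [hzk] at ei
      linarith
    · rw [hz2k]
      linarith
    · rw [hz2k]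
      linarith
  exact ⟨⟨fun h => (fwd h).1, bwd⟩, fun h => (fwd h).2⟩

/-! ### The theorem -/

theorem sepF (cf : Cfg g X D δ e n₀ k₀ K) (q : ℕ) : ∃ N : ℕ, ∀ x ∈ X, ∀ p p', Mark n₀ k₀ x p → Mark n₀ k₀ x p' →
    tyF n₀ k₀ N x p = tyF n₀ k₀ N x p' → p ≠ p' → 2 * ((q * 1 : ℕ) : ℤ) ≤ |p - p'| := by
  have hJ : ∀ d : ℕ, ∃ J : ℕ, 1 ≤ d → ∀ x ∈ X, ∀ p : ℤ,
      ¬ (∀ j : ℕ, j ≤ J → Mark n₀ k₀ x (p + j * d)) := by
    intro d
    by_cases hd : 1 ≤ d
    · obtain ⟨J, hJ⟩ := cf.sep_mark d hd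
      exact ⟨J, fun _ => hJ⟩
    · exact ⟨0, fun h => absurd h hd⟩
  choose J hJ using hJ
  refine ⟨∑ d ∈ Finset.range (2 * q + 1), (J d + 1) * (d + 1), ?_⟩
  -- wlog
  have main : ∀ x ∈ X, ∀ p p', Mark n₀ k₀ x p → Mark n₀ k₀ x p' →
      tyF n₀ k₀ (∑ d ∈ Finset.range (2 * q + 1), (J d + 1) * (d + 1)) x p
        = tyF n₀ k₀ (∑ d ∈ Finset.range (2 * q + 1), (J d + 1) * (d + 1)) x p' → p < p' →
      2 * ((q * 1 : ℕ) : ℤ) ≤ p' - p := by
    intro x hx p p' hp hp' hty hlt
    by_contra hcon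
    rw [not_le] at hcon
    obtain ⟨d, hd⟩ : ∃ d : ℕ, p' = p + d := ⟨(p' - p).toNat, by omega⟩
    subst hd
    have hd1 : 1 ≤ d := by omega
    have hdq : d < 2 * q + 1 := by
      push_cast at hcon
      omega
    have hN : (J d + 1) * (d + 1) ≤ ∑ d ∈ Finset.range (2 * q + 1), (J d + 1) * (d + 1) :=
      Finset.single_le_sum (f := fun d => (J d + 1) * (d + 1)) (fun _ _ => Nat.zero_le _)
        (Finset.mem_range.2 hdq)
    apply hJ d hd1 x hx p
    intro j
    induction j with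
    | zero =>
      intro _
      simpa using hp
    | succ j ih =>
      intro hj
      have ih' := ih (by omega)
      have hb : ((j : ℤ) * d) < ((∑ d ∈ Finset.range (2 * q + 1), (J d + 1) * (d + 1) : ℕ) : ℤ) := by
        have h5 : j * d < (J d + 1) * (d + 1) := by
          have h6 : j * d ≤ J d * d := Nat.mul_le_mul_right _ (by omega)
          nlinarith
        exact_mod_cast lt_of_lt_of_le h5 hN
      have hmem : ((j : ℤ) * d) ∈ Finset.Ico
          (-((∑ d ∈ Finset.range (2 * q + 1), (J d + 1) * (d + 1) : ℕ) : ℤ))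
          ((∑ d ∈ Finset.range (2 * q + 1), (J d + 1) * (d + 1) : ℕ) : ℤ) := by
        rw [Finset.mem_Ico]
        refine ⟨?_, hb⟩
        have : (0 : ℤ) ≤ (j : ℤ) * d := by positivity
        omega
      have h7 := congrFun hty ⟨(j : ℤ) * d, hmem⟩
      have h8 : Mark n₀ k₀ x (p + (j : ℤ) * d) = Mark n₀ k₀ x (p + d + (j : ℤ) * d) := h7
      have h9 : p + ((j + 1 : ℕ) : ℤ) * d = p + d + (j : ℤ) * d := by
        push_cast
        ring
      rw [h9, ← h8]
      exact ih'
  intro x hx p p' hp hp' hty hne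
  rcases lt_or_gt_of_ne hne with h | h
  · have := main x hx p p' hp hp' hty h
    rw [abs_sub_comm, abs_of_pos (by omega)]
    exact this
  · have := main x hx p' p hp' hp hty.symm h
    rw [abs_of_pos (by omega)]
    exact this

theorem freeF (cf : Cfg g X D δ e n₀ k₀ K) (M q1 : ℕ) : ∃ q, q1 ≤ q ∧ n₀ + 1 ≤ q ∧ ∀ x ∈ X, ∀ p, Mark n₀ k₀ x p →
    ∃ s : Finset (Cont Bool (q * 1)), M ≤ s.card ∧ ∀ V ∈ s, RR X n₀ k₀ q (cont (q * 1) x p) V := by
  refine ⟨q1 + (n₀ + 2 + K) + K * M, by omega, by omega, ?_⟩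
  intro x hx p hp
  set q := q1 + (n₀ + 2 + K) + K * M with hq
  have hmh := cf.mark_height hp
  have hK1 := cf.K1
  have hlo : ∀ i, S g x p - D < S g x i := by
    intro i
    have := cf.osc x hx p i
    linarith
  have hhi : ∀ i, S g x i < S g x p + e := by
    intro i
    have := cf.osc x hx i (p + n₀)
    linarith
  have hav := fun k : ℤ => cf.avail x hx (S g x p) hlo hhi k
  choose v hv1 hv2 hv3 hv4 hv5 hv6 hv7 using hav
  let w : ℕ → ℤ := fun k => v (p + (n₀ + 2) + K * k)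
  have hw1 : ∀ k : ℕ, p + (n₀ + 2) + K * k ≤ w k := fun k => hv1 _
  have hw2 : ∀ k : ℕ, w k < p + (n₀ + 2) + K * k + K := fun k => hv2 _
  have hlt : ∀ k l : ℕ, k < l → w k < w l := by
    intro k l hkl
    have a1 := hw2 k
    have a2 := hw1 l
    have h5 : (k : ℤ) + 1 ≤ l := by exact_mod_cast hkl
    have h6 : (K : ℤ) * ((k : ℤ) + 1) ≤ K * l := mul_le_mul_of_nonneg_left h5 (by positivity)
    rw [mul_add, mul_one] at h6
    omega
  let V : ℕ → Cont Bool (q * 1) := fun k => cont (q * 1) (flip x (w k)) p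
  have hVinj : ∀ k l : ℕ, l < M → k < l → V k ≠ V l := by
    intro k l hl hkl hV
    have a1 := hw1 k
    have a2 := hw2 k
    have a3 := hlt k l hkl
    have hkM : (k : ℤ) + 1 ≤ M := by exact_mod_cast (by omega : k + 1 ≤ M)
    have h6 : (K : ℤ) * ((k : ℤ) + 1) ≤ K * M := mul_le_mul_of_nonneg_left hkM (by positivity)
    rw [mul_add, mul_one] at h6
    have h7 : (0 : ℤ) ≤ (K : ℤ) * k := by positivity
    have hmem : w k - 1 - p ∈ Finset.Ico (-((q * 1 : ℕ) : ℤ)) ((q * 1 : ℕ) : ℤ) := by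
      rw [Finset.mem_Ico]
      push_cast
      omega
    have h := congrFun hV ⟨w k - 1 - p, hmem⟩
    have h' : flip x (w k) (p + (w k - 1 - p)) = flip x (w l) (p + (w k - 1 - p)) := h
    rw [show p + (w k - 1 - p) = w k - 1 by ring] at h'
    unfold flip at h'
    rw [if_pos rfl, if_neg (by omega), if_neg (by omega)] at h'
    exact hv3 _ h'.symm
  refine ⟨(Finset.range M).image V, ?_, ?_⟩
  · rw [Finset.card_image_of_injOn]
    · simp
    · intro k hk l hl hV
      have hk' : k < M := by simpa using hk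
      have hl' : l < M := by simpa using hl
      rcases lt_trichotomy k l with h | h | h
      · exact absurd hV (hVinj k l hl' h)
      · exact h
      · exact absurd hV.symm (hVinj l k hk' h)
  · intro W hW
    obtain ⟨k, hk, rfl⟩ := Finset.mem_image.1 hW
    have hkM : (k : ℤ) + 1 ≤ M := by
      have := Finset.mem_range.1 hk
      exact_mod_cast this
    have h6 : (K : ℤ) * ((k : ℤ) + 1) ≤ K * M := mul_le_mul_of_nonneg_left hkM (by positivity)
    rw [mul_add, mul_one] at h6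
    have h7 : (0 : ℤ) ≤ (K : ℤ) * k := by positivity
    have a1 := hw1 k
    have a2 := hw2 k
    apply cf.RR_flip (i := w k)
    · omega
    · omega
    · exact hv3 _
    · exact hv4 _
    · exact hv5 _
    · exact hv6 _
    · exact hv7 _

theorem not_rf (cf : Cfg g X D δ e n₀ k₀ K) (hX : ShiftInv X)
    (hne : ∃ x ∈ X, Mark n₀ k₀ x 0) : ¬ Group.ResiduallyFinite (autGroup X hX) := by
  apply not_residuallyFinite_of_gates X hX 1 (n₀ + 1)
    (Mark n₀ k₀) (fun N => {i : ℤ // i ∈ Finset.Ico (-(N : ℤ)) (N : ℤ)} → Prop)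
    (fun N => inferInstance) (tyF n₀ k₀) (RR X n₀ k₀)
  · intro x p
    exact mark_sh' x 1 p
  · refine ⟨n₀, ?_⟩
    intro x x' p h hm
    refine (mark_congr ?_).1 hm
    intro i h0 h1
    apply h
    rw [abs_le]
    omega
  · intro N x p
    funext i
    apply propext
    show Mark n₀ k₀ (sh 1 x) (p + i.1) ↔ Mark n₀ k₀ x (p + 1 + i.1)
    rw [mark_sh', show p + i.1 + 1 = p + 1 + i.1 by ring]
  · intro N
    refine ⟨N + n₀, ?_⟩
    intro x x' p h
    funext i
    apply propext
    apply mark_congr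
    intro j h0 h1
    have hi := Finset.mem_Ico.1 i.2
    have := h (i.1 + j) (by
      rw [abs_le]
      push_cast
      omega)
    rw [← add_assoc] at this
    exact this
  · intro N N' hNN x x' p p' h
    funext i
    have hi : i.1 ∈ Finset.Ico (-(N' : ℤ)) (N' : ℤ) := ico_mono hNN i.2
    exact congrFun h ⟨i.1, hi⟩
  · exact RR_equiv X n₀ k₀
  · exact cf.sepF
  · intro q _ N e' hs x hx c hc
    have hS : Sep (q * 1) (fun p => Mark n₀ k₀ x p ∧ tyF n₀ k₀ N x p = e') := by
      intro p p' hp hp' hne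
      exact hs x hx p p' hp.1 hp.2 hp'.1 hp'.2 hne
    have h := cf.all_windows hS hx c (fun p hp => hp.1) (fun p hp => hc p hp.1 hp.2)
    have hty : ∀ N' : ℕ, ∀ p, tyF n₀ k₀ N' (modif (q * 1) (fun p => Mark n₀ k₀ x p ∧ tyF n₀ k₀ N x p = e') c x) p
        = tyF n₀ k₀ N' x p := by
      intro N' p
      funext i
      exact propext (h.2 _)
    refine ⟨h.1, ?_, fun N' _ p _ _ => hty N' p⟩
    intro p
    rw [h.2, hty]
  · intro q q' hqq x x' p hout hR z
    set w1 := put (cont (q' * 1) x p) z with hw1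
    have h1 : put (cont (q * 1) x p) w1 = w1 := by
      funext j
      by_cases hj : j ∈ Finset.Ico (-((q * 1 : ℕ) : ℤ)) ((q * 1 : ℕ) : ℤ)
      · rw [put_in _ _ hj, hw1, put_in _ _ (ico_mono (Nat.mul_le_mul_right 1 hqq) hj)]
        rfl
      · rw [put_out _ _ hj]
    have h2 : put (cont (q * 1) x' p) w1 = put (cont (q' * 1) x' p) z := by
      funext j
      by_cases hj : j ∈ Finset.Ico (-((q * 1 : ℕ) : ℤ)) ((q * 1 : ℕ) : ℤ)
      · rw [put_in _ _ hj, put_in _ _ (ico_mono (Nat.mul_le_mul_right 1 hqq) hj)]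
        rfl
      · rw [put_out _ _ hj]
        by_cases hj' : j ∈ Finset.Ico (-((q' * 1 : ℕ) : ℤ)) ((q' * 1 : ℕ) : ℤ)
        · rw [put_in _ _ hj', hw1, put_in _ _ hj']
          show x (p + j) = x' (p + j)
          symm
          apply hout
          rw [add_sub_cancel_left]
          exact hj
        · rw [put_out _ _ hj', hw1, put_out _ _ hj']
    have h := hR w1
    rw [h1, h2] at h
    exact h
  · exact cf.freeF
  · exact hne

end Cfg

end HGate

/-- The abstract criterion. -/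
theorem not_rf_of_heights (g : ℝ) (hg0 : 0 < g) (hirr : Irrational g)
    (X : Set (ℤ → Bool)) (hX : ShiftInv X)
    (hloc : ∀ x : ℤ → Bool,
      (∀ n : ℕ, ∃ x' ∈ X, ∀ i : ℤ, |i| ≤ (n : ℤ) → x' i = x i) → x ∈ X)
    (D δ e : ℝ) (n₀ k₀ : ℕ) (he0 : 0 < e) (heδ : e < δ) (he1 : 2 * e ≤ 1 + g)
    (hD : D = g * n₀ - (1 + g) * k₀ + e)
    (hosc : ∀ x ∈ X, ∀ i j : ℤ, S g x i - S g x j < D)
    (hup : ∀ x ∈ X, ∀ i P : ℤ, x (i - 1) = false → x i = true →
      S g x (i - 1) + 1 + δ ≤ S g x P → flip x i ∈ X)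
    (hdown : ∀ x ∈ X, ∀ i Q : ℤ, x (i - 1) = true → x i = false →
      S g x Q + δ ≤ S g x (i - 1) - g → flip x i ∈ X)
    (K : ℕ) (hK : 1 ≤ K)
    (havail : ∀ x ∈ X, ∀ T : ℝ, (∀ i, T - D < S g x i) → (∀ i, S g x i < T + e) →
      ∀ k : ℤ, ∃ i, k ≤ i ∧ i < k + K ∧ x (i - 1) ≠ x i ∧
        T - (D - e) + δ ≤ S g x i ∧ S g x i ≤ T - δ ∧
        T - (D - e) + δ ≤ S g x (i - 1) + ht g (x i) ∧
        S g x (i - 1) + ht g (x i) ≤ T - δ)
    (hne : ∃ x ∈ X, Mark n₀ k₀ x 0) :
    ¬ Group.ResiduallyFinite (autGroup X hX) :=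
  HGate.Cfg.not_rf (D := D) (δ := δ) (e := e) (K := K)
    { g0 := hg0, irr := hirr, inv := hX, loc := hloc, e0 := he0, eδ := heδ, e1 := he1,
      hD := hD, osc := hosc, up := hup, down := hdown, K1 := hK, avail := havail } hX hne

end H35.RS.Nm
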