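import Pool.Agent.H35.RS.NmDefs

/-!
# The random noble means substitutions: available vertices
-/

namespace H35.RS.Nm

open H35.RS

/-! ### The dynamics of the bad vertices -/

theorem av_dyn {m : ℕ} {u s e : ℝ} (hu : 0 < u) (h1 : s + e ≤ m * u) (h2 : e + m * u ≤ s + u)
    (L : ℕ) (P : ℤ → ℝ → Prop) (G : ℤ → Prop)
    (hP : ∀ i t, P i t → 0 < t ∧ t < s + e ∧
      ∃ i', i < i' ∧ i' ≤ i + L ∧ (G i' ∨ P i' (t + u) ∨ P i' (t - s)))
    {i : ℤ} {t : ℝ} (h : P i t) : ∃ i', i < i' ∧ i' ≤ i + (2 * m + 2) * L ∧ G i' := by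
  have c1 : ∀ r j : ℕ, r + j = m → ∀ i t, P i t → j * u < t → t < e + j * u →
      ∃ i', i < i' ∧ i' ≤ i + (r + 1) * L ∧ G i' := by
    intro r
    induction r with
    | zero =>
      intro j hj i t ht h3 h4
      exfalso
      have h5 := (hP i t ht).2.1
      obtain rfl : j = m := by omega
      linarith
    | succ r ih =>
      intro j hj i t ht h3 h4
      obtain ⟨h5, h6, i', h7, h8, h9⟩ := hP i t ht
      rcases h9 with h9 | h9 | h9
      · refine ⟨i', h7, ?_, h9⟩
        have h10 : (0 : ℤ) ≤ r * L := by positivity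
        have h11 : (0 : ℤ) ≤ L := by positivity
        push_cast
        linarith
      · obtain ⟨i'', h10, h11, h12⟩ := ih (j + 1) (by omega) i' (t + u) h9
          (by push_cast; linarith) (by push_cast; linarith)
        refine ⟨i'', by omega, ?_, h12⟩
        push_cast
        linarith
      · exfalso
        have h10 := (hP _ _ h9).1
        have h11 : (j : ℝ) + 1 ≤ m := by exact_mod_cast (show j + 1 ≤ m by omega)
        have h12 := mul_le_mul_of_nonneg_right h11 hu.le
        linarith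
  have c2 : ∀ r j : ℕ, r + j = m → ∀ i t, P i t → j * u < t →
      ∃ i', i < i' ∧ i' ≤ i + (r + 1 + (m + 1)) * L ∧ G i' := by
    intro r
    induction r with
    | zero =>
      intro j hj i t ht h3
      exfalso
      have h5 := (hP i t ht).2.1
      obtain rfl : j = m := by omega
      linarith
    | succ r ih =>
      intro j hj i t ht h3
      obtain ⟨h5, h6, i', h7, h8, h9⟩ := hP i t ht
      have h10 : (0 : ℤ) ≤ r * L := by positivity
      have h11 : (0 : ℤ) ≤ L := by positivity
      have h12 : (0 : ℤ) ≤ m * L := by positivity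
      rcases h9 with h9 | h9 | h9
      · refine ⟨i', h7, ?_, h9⟩
        push_cast
        linarith
      · obtain ⟨i'', h13, h14, h15⟩ := ih (j + 1) (by omega) i' (t + u) h9
          (by push_cast; linarith)
        refine ⟨i'', by omega, ?_, h15⟩
        push_cast
        linarith
      · have h13 := (hP _ _ h9).1
        obtain ⟨i'', h14, h15, h16⟩ := c1 m 0 (by omega) i' (t - s) h9
          (by push_cast; linarith) (by push_cast; linarith)
        refine ⟨i'', by omega, ?_, h16⟩
        push_cast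
        linarith
  obtain ⟨i', h3, h4, h5⟩ := c2 m 0 (by omega) i t h (by push_cast; linarith [(hP i t h).1])
  refine ⟨i', h3, ?_, h5⟩
  linarith

/-! ### The setting -/

/-- The heights `H` (relative to the top) of a bi-infinite path and their bounds. -/
structure AvCfg (m : ℕ) (g e : ℝ) (x : ℤ → Bool) (H : ℤ → ℝ) : Prop where
  gm : g * g + m * g = 1
  g0 : 0 < g
  g1 : g < 1 / 2
  e0 : 0 < e
  e1 : e ≤ g ^ 3
  step : ∀ i, H (i + 1) = H i + ht g (x i)
  lo : ∀ i, -(2 + 2 * g) < H i
  hi : ∀ i, H i < e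
  osc : ∀ i j, H i - H j < 2 + 2 * g

/-- A good vertex. -/
def AvGood (g e : ℝ) (x : ℤ → Bool) (H : ℤ → ℝ) (i : ℤ) : Prop :=
  x (i - 1) ≠ x i ∧ -(2 + 2 * g) + e + (g - g ^ 2) ≤ H i ∧ H i ≤ -(g - g ^ 2) ∧
    -(2 + 2 * g) + e + (g - g ^ 2) ≤ H (i - 1) + ht g (x i) ∧
    H (i - 1) + ht g (x i) ≤ -(g - g ^ 2)

variable {m : ℕ} {g e : ℝ} {x : ℤ → Bool} {H : ℤ → ℝ}

namespace AvCfg

theorem run (c : AvCfg m g e x H) (i : ℤ) (n : ℕ) (h : ∀ j : ℕ, j < n → x (i + j) = false) :
    H (i + n) = H i - n * g := by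
  induction n with
  | zero => simp
  | succ n ih =>
    have h1 := ih (fun j hj => h j (by omega))
    rw [show i + ((n + 1 : ℕ) : ℤ) = i + n + 1 by push_cast; ring, c.step, h1, h n (by omega)]
    simp only [ht]
    push_cast
    ring

theorem e_le (c : AvCfg m g e x H) : e ≤ g ^ 2 / 2 := by
  have h1 := c.g0
  have h2 := c.g1
  have h3 := c.e1
  have h4 : 0 < g ^ 2 := by positivity
  have h5 : g ^ 3 = g ^ 2 * g := by ring
  nlinarith

theorem e_lt (c : AvCfg m g e x H) : e < 1 / 8 := by
  have h1 := c.g0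
  have h2 := c.g1
  have h3 := c.e_le
  nlinarith

theorem sq_lt (c : AvCfg m g e x H) : g ^ 2 < g / 2 := by
  have h1 := c.g0
  have h2 := c.g1
  nlinarith

theorem next_b (c : AvCfg m g e x H) (i : ℤ) :
    ∃ n : ℕ, n ≤ 2 * m + 2 ∧ x (i + n) = true ∧ ∀ j : ℕ, j < n → x (i + j) = false := by
  classical
  by_cases hex : ∃ n : ℕ, n ≤ 2 * m + 2 ∧ x (i + n) = true
  · have hex' : ∃ n : ℕ, x (i + n) = true := ⟨hex.choose, hex.choose_spec.2⟩
    refine ⟨Nat.find hex', ?_, Nat.find_spec hex', ?_⟩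
    · obtain ⟨n, hn, hn'⟩ := hex
      exact le_trans (Nat.find_min' hex' hn') hn
    · intro j hj
      have := Nat.find_min hex' hj
      simpa using this
  · exfalso
    push Not at hex
    have h1 := c.run i (2 * m + 3) (fun j hj => by
      have := hex j (by omega)
      simpa using this)
    have h2 := c.osc i (i + ((2 * m + 3 : ℕ) : ℤ))
    rw [h1] at h2
    push_cast at h2
    have h3 := c.gm
    have h4 := c.sq_lt
    have h5 := c.g0
    nlinarith

theorem no_bbb (c : AvCfg m g e x H) (i : ℤ) (h1 : x i = true) (h2 : x (i + 1) = true) :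
    x (i + 2) = false := by
  by_contra h3
  have h3' : x (i + 2) = true := by simpa using h3
  have e1 := c.step i
  have e2 := c.step (i + 1)
  have e3 := c.step (i + 2)
  rw [h1] at e1
  rw [h2] at e2
  rw [h3'] at e3
  rw [show i + 1 + 1 = i + 2 by ring] at e2
  simp only [ht] at e1 e2 e3
  have h4 := c.osc (i + 2 + 1) i
  have h5 := c.g1
  linarith

theorem good_valley (c : AvCfg m g e x H) {i : ℤ} (h1 : x (i - 1) = false) (h2 : x i = true)
    (h3 : g - g ^ 2 + e ≤ H i + (2 + 2 * g)) (h4 : H i + (2 + 2 * g) ≤ 1 + g ^ 2) :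
    AvGood g e x H i := by
  have e1 := c.step (i - 1)
  rw [h1, sub_add_cancel] at e1
  simp only [ht] at e1
  have h5 := c.g0
  have h6 := c.sq_lt
  refine ⟨by rw [h1, h2]; simp, by linarith, by linarith, ?_, ?_⟩
  · rw [h2]
    simp only [ht]
    linarith
  · rw [h2]
    simp only [ht]
    linarith

theorem good_peak (c : AvCfg m g e x H) {i : ℤ} (h1 : x (i - 1) = true) (h2 : x i = false)
    (h3 : -1 + e - g ^ 2 ≤ H i) (h4 : H i ≤ -(g - g ^ 2)) :
    AvGood g e x H i := by
  have e1 := c.step (i - 1)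
  rw [h1, sub_add_cancel] at e1
  simp only [ht] at e1
  have h5 := c.g0
  have h6 := c.sq_lt
  refine ⟨by rw [h1, h2]; simp, by linarith, by linarith, ?_, ?_⟩
  · rw [h2]
    simp only [ht]
    linarith
  · rw [h2]
    simp only [ht]
    linarith

end AvCfg

/-- A low valley with its height above the bottom. -/
def AvB (g e : ℝ) (x : ℤ → Bool) (H : ℤ → ℝ) (i : ℤ) (t : ℝ) : Prop :=
  x (i - 1) = false ∧ x i = true ∧ t = H i + (2 + 2 * g) ∧ 0 < t ∧ t < g - g ^ 2 + e

/-- A high peak with its height above the zone. -/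
def AvT (g e : ℝ) (x : ℤ → Bool) (H : ℤ → ℝ) (i : ℤ) (t : ℝ) : Prop :=
  x (i - 1) = true ∧ x i = false ∧ t = H i + (g - g ^ 2) ∧ 0 < t ∧ t < g - g ^ 2 + e

namespace AvCfg

theorem stepB (c : AvCfg m g e x H) {i : ℤ} {t : ℝ} (h : AvB g e x H i t) :
    ∃ i', i < i' ∧ i' ≤ i + ((2 * m + 4 : ℕ) : ℤ) ∧
      (AvGood g e x H i' ∨ AvB g e x H i' (t + g ^ 2) ∨ AvB g e x H i' (t - (g - g ^ 2))) := by
  obtain ⟨h1, h2, h3, h4, h5⟩ := h
  have hg0 := c.g0
  have hg1 := c.g1
  have hgm := c.gm
  have hsq := c.sq_lt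
  have he0 := c.e0
  have he := c.e_le
  have he' := c.e_lt
  have hsq0 : 0 < g ^ 2 := by positivity
  have e1 := c.step i
  rw [h2] at e1
  simp only [ht] at e1
  cases h6 : x (i + 1)
  · -- one `b`
    obtain ⟨k, hk1, hk2, hk3⟩ := c.next_b (i + 1)
    have hk0 : 1 ≤ k := by
      by_contra hcon
      obtain rfl : k = 0 := by omega
      rw [Nat.cast_zero, add_zero, h6] at hk2
      simp at hk2
    have e2 := c.run (i + 1) k hk3
    have h7 : x (i + 1 + k - 1) = false := by
      have := hk3 (k - 1) (by omega)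
      rw [← this]
      congr 1
      omega
    have hlo := c.lo (i + 1 + k)
    refine ⟨i + 1 + k, by omega, by push_cast; omega, ?_⟩
    rcases lt_trichotomy k m with h8 | h8 | h8
    · left
      have h9 : (k : ℝ) + 1 ≤ m := by exact_mod_cast h8
      have h10 : (1 : ℝ) ≤ k := by exact_mod_cast hk0
      have h11 := mul_le_mul_of_nonneg_right h9 hg0.le
      have h12 := mul_le_mul_of_nonneg_right h10 hg0.le
      refine c.good_valley h7 hk2 ?_ ?_
      · nlinarith
      · nlinarith
    · subst h8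
      by_cases h9 : g - g ^ 2 + e ≤ H (i + 1 + k) + (2 + 2 * g)
      · left
        exact c.good_valley h7 hk2 h9 (by nlinarith)
      · right; left
        refine ⟨h7, hk2, by nlinarith, by linarith, ?_⟩
        rw [not_le] at h9
        nlinarith
    · rcases Nat.lt_or_ge (m + 1) k with h9 | h9
      · exfalso
        have h10 : (m : ℝ) + 2 ≤ k := by exact_mod_cast h9
        have h11 := mul_le_mul_of_nonneg_right h10 hg0.le
        nlinarith
      · obtain rfl : k = m + 1 := by omega
        push_cast at e2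
        right; right
        refine ⟨h7, hk2, ?_, ?_, by linarith⟩
        · push_cast
          nlinarith
        · push_cast at hlo
          nlinarith
  · -- two `b`
    have h7 := c.no_bbb i h2 h6
    have e2 := c.step (i + 1)
    rw [h6, show i + 1 + 1 = i + 2 by ring] at e2
    simp only [ht] at e2
    refine ⟨i + 2, by omega, by push_cast; omega, Or.inl ?_⟩
    refine c.good_peak (by rw [show i + 2 - 1 = i + 1 by ring]; exact h6) h7 ?_ ?_
    · nlinarith
    · nlinarith

theorem stepT (c : AvCfg m g e x H) {i : ℤ} {t : ℝ} (h : AvT g e x H i t) :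
    ∃ i', i < i' ∧ i' ≤ i + ((2 * m + 4 : ℕ) : ℤ) ∧
      ((AvGood g e x H i' ∨ ∃ t', AvB g e x H i' t') ∨
        AvT g e x H i' (t + g ^ 2) ∨ AvT g e x H i' (t - (g - g ^ 2))) := by
  obtain ⟨h1, h2, h3, h4, h5⟩ := h
  have hg0 := c.g0
  have hg1 := c.g1
  have hgm := c.gm
  have hsq := c.sq_lt
  have he0 := c.e0
  have he := c.e_le
  have he' := c.e_lt
  have hsq0 : 0 < g ^ 2 := by positivity
  have hhi := c.hi
  obtain ⟨k, hk1, hk2, hk3⟩ := c.next_b i
  have hk0 : 1 ≤ k := by
    by_contra hcon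
    obtain rfl : k = 0 := by omega
    rw [Nat.cast_zero, add_zero, h2] at hk2
    simp at hk2
  have e1 := c.run i k hk3
  have e2 := c.step (i + k)
  rw [hk2, e1] at e2
  simp only [ht] at e2
  have h7 : x (i + k - 1) = false := by
    have := hk3 (k - 1) (by omega)
    rw [← this]
    congr 1
    omega
  -- the next peak, if the second letter after the valley is `a`
  have hsecond : e ≤ H i - k * g + 2 → x (i + k + 1) = false := by
    intro h8
    by_contra h9
    have h9' : x (i + k + 1) = true := by simpa using h9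
    have e3 := c.step (i + k + 1)
    rw [h9', e2] at e3
    simp only [ht] at e3
    have := hhi (i + k + 1 + 1)
    linarith
  have hpk : x (i + k + 1 - 1) = true := by rw [add_sub_cancel_right]; exact hk2
  have hhi1 := hhi (i + k + 1)
  have hhi0 := hhi i
  rcases lt_trichotomy k m with h8 | h8 | h8
  · exfalso
    have h9 : (k : ℝ) + 1 ≤ m := by exact_mod_cast h8
    have h11 := mul_le_mul_of_nonneg_right h9 hg0.le
    nlinarith
  · subst h8
    refine ⟨i + k + 1, by omega, by push_cast; omega, Or.inr (Or.inl ?_)⟩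
    refine ⟨hpk, hsecond (by nlinarith), ?_, by linarith, ?_⟩
    · nlinarith
    · nlinarith
  · rcases Nat.lt_or_ge (m + 1) k with h9 | h9
    · by_cases h10 : k = m + 2 ∧ 0 < H i
      · obtain ⟨rfl, h11⟩ := h10
        push_cast at e2
        refine ⟨i + ((m + 2 : ℕ) : ℤ) + 1, by omega, by push_cast; omega, Or.inl (Or.inl ?_)⟩
        have h12 : x (i + ((m + 2 : ℕ) : ℤ) + 1) = false := hsecond (by push_cast; nlinarith)
        refine c.good_peak hpk h12 ?_ ?_
        · push_cast
          nlinarith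
        · push_cast
          nlinarith
      · -- the valley is not high
        have h11 : H (i + k) ≤ -1 - 2 * g + g ^ 2 := by
          rcases Nat.lt_or_ge (m + 2) k with h12 | h12
          · have h13 : (m : ℝ) + 3 ≤ k := by exact_mod_cast h12
            have h14 := mul_le_mul_of_nonneg_right h13 hg0.le
            nlinarith
          · obtain rfl : k = m + 2 := by omega
            have h13 : H i ≤ 0 := by
              by_contra hcon
              exact h10 ⟨rfl, by linarith⟩
            rw [e1]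
            push_cast
            nlinarith
        refine ⟨i + k, by omega, by push_cast; omega, Or.inl ?_⟩
        have hlo := c.lo (i + k)
        by_cases h12 : g - g ^ 2 + e ≤ H (i + k) + (2 + 2 * g)
        · left
          exact c.good_valley h7 hk2 h12 (by linarith)
        · right
          rw [not_le] at h12
          exact ⟨_, h7, hk2, rfl, by linarith, h12⟩
    · obtain rfl : k = m + 1 := by omega
      push_cast at e2
      refine ⟨i + ((m + 1 : ℕ) : ℤ) + 1, by omega, by push_cast; omega, ?_⟩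
      have h12 : x (i + ((m + 1 : ℕ) : ℤ) + 1) = false := hsecond (by push_cast; nlinarith)
      by_cases h13 : 0 < t - (g - g ^ 2)
      · right; right
        refine ⟨hpk, h12, ?_, h13, by linarith⟩
        push_cast
        nlinarith
      · left; left
        refine c.good_peak hpk h12 ?_ ?_
        · push_cast
          nlinarith
        · push_cast
          nlinarith

theorem goodB (c : AvCfg m g e x H) {i : ℤ} {t : ℝ} (h : AvB g e x H i t) :
    ∃ i', i < i' ∧ i' ≤ i + (2 * m + 2) * ((2 * m + 4 : ℕ) : ℤ) ∧ AvGood g e x H i' := by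
  have hg0 := c.g0
  have hg1 := c.g1
  have hgm := c.gm
  have hsq := c.sq_lt
  have he1 := c.e1
  have hmu : (m : ℝ) * g ^ 2 = g - g ^ 3 := by
    have : (m : ℝ) * g ^ 2 = g * (m * g) := by ring
    rw [this, show (m : ℝ) * g = 1 - g * g by linarith]
    ring
  have h3 : 2 * g ^ 3 ≤ g ^ 2 := by
    have : g ^ 3 = g ^ 2 * g := by ring
    nlinarith
  refine av_dyn (u := g ^ 2) (s := g - g ^ 2) (e := e) (by positivity) ?_ ?_ (2 * m + 4)
    (AvB g e x H) (AvGood g e x H) ?_ h
  · rw [hmu]; linarith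
  · rw [hmu]; linarith
  · intro i t h
    exact ⟨h.2.2.2.1, h.2.2.2.2, c.stepB h⟩

theorem goodT (c : AvCfg m g e x H) {i : ℤ} {t : ℝ} (h : AvT g e x H i t) :
    ∃ i', i < i' ∧ i' ≤ i + 2 * ((2 * m + 2) * ((2 * m + 4 : ℕ) : ℤ)) ∧ AvGood g e x H i' := by
  have hg0 := c.g0
  have hg1 := c.g1
  have hgm := c.gm
  have hsq := c.sq_lt
  have he1 := c.e1
  have hmu : (m : ℝ) * g ^ 2 = g - g ^ 3 := by
    have : (m : ℝ) * g ^ 2 = g * (m * g) := by ring
    rw [this, show (m : ℝ) * g = 1 - g * g by linarith]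
    ring
  have h3 : 2 * g ^ 3 ≤ g ^ 2 := by
    have : g ^ 3 = g ^ 2 * g := by ring
    nlinarith
  obtain ⟨i', h4, h5, h6⟩ := av_dyn (u := g ^ 2) (s := g - g ^ 2) (e := e) (by positivity)
    (by rw [hmu]; linarith) (by rw [hmu]; linarith) (2 * m + 4)
    (AvT g e x H) (fun i => AvGood g e x H i ∨ ∃ t', AvB g e x H i t')
    (fun i t h => ⟨h.2.2.2.1, h.2.2.2.2, c.stepT h⟩) h
  have hpos : (0 : ℤ) ≤ (2 * m + 2) * ((2 * m + 4 : ℕ) : ℤ) := by positivity
  rcases h6 with h6 | ⟨t', h6⟩
  · exact ⟨i', h4, by linarith, h6⟩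
  · obtain ⟨i'', h7, h8, h9⟩ := c.goodB h6
    exact ⟨i'', by omega, by linarith, h9⟩

theorem good (c : AvCfg m g e x H) (k : ℤ) :
    ∃ i, k ≤ i ∧ i ≤ k + (2 * m + 6) + 2 * ((2 * m + 2) * ((2 * m + 4 : ℕ) : ℤ)) ∧
      AvGood g e x H i := by
  have hg0 := c.g0
  have hg1 := c.g1
  have hsq := c.sq_lt
  have he0 := c.e0
  have he := c.e_le
  have he' := c.e_lt
  have hpos : (0 : ℤ) ≤ (2 * m + 2) * ((2 * m + 4 : ℕ) : ℤ) := by positivity
  -- a position `p ∈ [k, k+2]` with the letter `a`
  obtain ⟨p, hp1, hp2, hp3⟩ : ∃ p, k ≤ p ∧ p ≤ k + 2 ∧ x p = false := by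
    cases h1 : x k
    · exact ⟨k, le_rfl, by omega, h1⟩
    · cases h2 : x (k + 1)
      · exact ⟨k + 1, by omega, by omega, h2⟩
      · exact ⟨k + 2, by omega, by omega, c.no_bbb k h1 h2⟩
  obtain ⟨n, hn1, hn2, hn3⟩ := c.next_b p
  have hn0 : 1 ≤ n := by
    by_contra hcon
    obtain rfl : n = 0 := by omega
    rw [Nat.cast_zero, add_zero, hp3] at hn2
    simp at hn2
  have h7 : x (p + n - 1) = false := by
    have := hn3 (n - 1) (by omega)
    rw [← this]
    congr 1
    omega
  have hlo := c.lo (p + n)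
  by_cases h8 : H (p + n) + (2 + 2 * g) ≤ 1 + g ^ 2
  · by_cases h9 : g - g ^ 2 + e ≤ H (p + n) + (2 + 2 * g)
    · exact ⟨p + n, by omega, by linarith [show p + n ≤ k + (2 * m + 6) by omega],
        c.good_valley h7 hn2 h9 h8⟩
    · rw [not_le] at h9
      obtain ⟨i', h10, h11, h12⟩ := c.goodB
        (⟨h7, hn2, rfl, by linarith, h9⟩ : AvB g e x H (p + n) (H (p + n) + (2 + 2 * g)))
      exact ⟨i', by omega, by linarith [show p + n ≤ k + (2 * m + 6) by omega], h12⟩
  · rw [not_le] at h8
    have e1 := c.step (p + n)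
    rw [hn2] at e1
    simp only [ht] at e1
    have h9 : x (p + n + 1) = false := by
      by_contra h10
      have h10' : x (p + n + 1) = true := by simpa using h10
      have e3 := c.step (p + n + 1)
      rw [h10', e1] at e3
      simp only [ht] at e3
      have := c.hi (p + n + 1 + 1)
      nlinarith
    have hpk : x (p + n + 1 - 1) = true := by rw [add_sub_cancel_right]; exact hn2
    by_cases h10 : H (p + n + 1) ≤ -(g - g ^ 2)
    · exact ⟨p + n + 1, by omega, by linarith [show p + n + 1 ≤ k + (2 * m + 6) by omega],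
        c.good_peak hpk h9 (by nlinarith) h10⟩
    · rw [not_le] at h10
      obtain ⟨i', h11, h12, h13⟩ := c.goodT
        (⟨hpk, h9, rfl, by linarith, by linarith [c.hi (p + n + 1)]⟩ :
          AvT g e x H (p + n + 1) (H (p + n + 1) + (g - g ^ 2)))
      exact ⟨i', by omega, by linarith [show p + n + 1 ≤ k + (2 * m + 6) by omega], h13⟩

end AvCfg

theorem avail {m : ℕ} (hm : 2 ≤ m) : ∃ K : ℕ, 1 ≤ K ∧ ∀ x : ℤ → Bool, ∀ e T : ℝ,
    0 < e → e ≤ gm m ^ 3 →
    (∀ i j, S (gm m) x i - S (gm m) x j < 2 + 2 * gm m) →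
    (∀ i, T - (2 + 2 * gm m) < S (gm m) x i) → (∀ i, S (gm m) x i < T + e) →
    ∀ k : ℤ, ∃ i, k ≤ i ∧ i < k + K ∧ x (i - 1) ≠ x i ∧
      T - (2 + 2 * gm m - e) + (gm m - gm m ^ 2) ≤ S (gm m) x i ∧
      S (gm m) x i ≤ T - (gm m - gm m ^ 2) ∧
      T - (2 + 2 * gm m - e) + (gm m - gm m ^ 2) ≤ S (gm m) x (i - 1) + ht (gm m) (x i) ∧
      S (gm m) x (i - 1) + ht (gm m) (x i) ≤ T - (gm m - gm m ^ 2) := by
  refine ⟨2 * m + 7 + 2 * ((2 * m + 2) * (2 * m + 4)), by omega, ?_⟩
  intro x e T he0 he1 hosc hlo hhi k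
  have c : AvCfg m (gm m) e x (fun i => S (gm m) x i - T) :=
    { gm := gm_sq m
      g0 := gm_pos m
      g1 := gm_lt_half hm
      e0 := he0
      e1 := he1
      step := fun i => by
        show S (gm m) x (i + 1) - T = S (gm m) x i - T + ht (gm m) (x i)
        rw [S_succ]; ring
      lo := fun i => by
        show -(2 + 2 * gm m) < S (gm m) x i - T
        linarith [hlo i]
      hi := fun i => by
        show S (gm m) x i - T < e
        linarith [hhi i]
      osc := fun i j => by
        show S (gm m) x i - T - (S (gm m) x j - T) < 2 + 2 * gm m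
        linarith [hosc i j] }
  obtain ⟨i, h1, h2, h3, h4, h5, h6, h7⟩ := c.good k
  refine ⟨i, h1, ?_, h3, by linarith, by linarith, by linarith, by linarith⟩
  push_cast at h2 ⊢
  linarith

end H35.RS.Nm
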