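import Pool.Agent.H35.RS.NmDefs
import Pool.Agent.H35.RS.Basic
import Pool.Agent.H35.RS.Basic2
import Pool.Agent.H35.RS.Tiles

/-!
# The random noble means substitutions: parsings, images, heights, oscillation, reversal
-/

namespace H35.RS.Nm

open H35.RS

/-! ### Tiles -/

/-- The `a`-tile with its `b` at position `l`: `a^l b a^(m-l)`. -/
def tl (m l : ℕ) : List Bool := List.replicate l false ++ true :: List.replicate (m - l) false

theorem mem_nm_false {m : ℕ} {v : List Bool} : v ∈ nm m false ↔ ∃ l, l ≤ m ∧ v = tl m l := by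
  simp only [nm, Finset.mem_image, Finset.mem_range, tl]
  constructor
  · rintro ⟨i, hi, rfl⟩
    refine ⟨m - i, by omega, ?_⟩
    rw [show m - (m - i) = i by omega]
  · rintro ⟨l, hl, rfl⟩
    refine ⟨m - l, by omega, ?_⟩
    rw [show m - (m - l) = l by omega]

theorem mem_nm_true {m : ℕ} {v : List Bool} : v ∈ nm m true ↔ v = [false] := by
  simp [nm]

theorem isRandomSub_nm (m : ℕ) : IsRandomSub (nm m) := by
  intro a
  cases a
  · refine ⟨⟨tl m 0, mem_nm_false.2 ⟨0, by omega, rfl⟩⟩, ?_⟩
    intro v hv
    obtain ⟨l, -, rfl⟩ := mem_nm_false.1 hv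
    simp [tl]
  · refine ⟨⟨[false], mem_nm_true.2 rfl⟩, ?_⟩
    intro v hv
    rw [mem_nm_true.1 hv]
    simp

/-- The lengths of the tiles. -/
def len (m : ℕ) : Bool → ℕ
  | false => m + 1
  | true => 1

theorem length_tl {m l : ℕ} (hl : l ≤ m) : (tl m l).length = m + 1 := by
  simp only [tl, List.length_append, List.length_replicate, List.length_cons]
  omega

theorem length_nm (m : ℕ) (a : Bool) : ∀ v ∈ nm m a, v.length = len m a := by
  intro v hv
  cases a
  · obtain ⟨l, hl, rfl⟩ := mem_nm_false.1 hv
    exact length_tl hl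
  · rw [mem_nm_true.1 hv]
    rfl

theorem tl_eq_map {m l : ℕ} (hl : l ≤ m) :
    tl m l = (List.range (m + 1)).map (fun k : ℕ => decide (k = l)) := by
  apply List.ext_getElem
  · rw [length_tl hl]; simp
  · intro k h1 h2
    rw [length_tl hl] at h1
    simp only [List.getElem_map, List.getElem_range, tl]
    rcases lt_trichotomy k l with h | h | h
    · rw [List.getElem_append_left (by simpa using h)]
      have : ¬ k = l := by omega
      simp [this]
    · subst h
      rw [List.getElem_append_right (by simp)]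
      simp
    · rw [List.getElem_append_right (by simp; omega)]
      have h3 : ¬ k = l := by omega
      simp only [List.length_replicate, List.getElem_cons, List.getElem_replicate, h3, decide_false,
        show ¬ k - l = 0 by omega, dite_false]

theorem wd_eq_tl {m l : ℕ} (hl : l ≤ m) {x : ℤ → Bool} {p : ℤ} :
    wd x p (m + 1) = tl m l ↔ ∀ k : ℕ, k ≤ m → x (p + k) = decide (k = l) := by
  rw [tl_eq_map hl, wd, List.map_inj_left]
  constructor
  · intro h k hk
    exact h k (List.mem_range.2 (by omega))
  · intro h k hk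
    exact h k (by have := List.mem_range.1 hk; omega)

theorem exists_parse {m : ℕ} {x : ℤ → Bool} (hx : x ∈ subshift (nm m)) :
    ∃ y ∈ subshift (nm m), ∃ c, Parse m x y c := by
  obtain ⟨y, hy, c, hc, ht, -, -⟩ := exists_tiles (isRandomSub_nm m) (len m) (length_nm m) hx
  refine ⟨y, hy, c, fun i => ?_⟩
  have h1 := hc i
  have h2 := ht i
  rcases hyi : y i with _ | _
  · right
    rw [hyi] at h1 h2
    simp only [len] at h1 h2
    obtain ⟨l, hl, h3⟩ := mem_nm_false.1 h2
    exact ⟨rfl, by simpa using h1, l, hl, (wd_eq_tl hl).1 h3⟩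
  · left
    rw [hyi] at h1 h2
    simp only [len] at h1 h2
    have h3 := mem_nm_true.1 h2
    rw [wd_one] at h3
    exact ⟨rfl, by simpa using h1, by simpa using h3⟩

theorem mem_of_parse {m : ℕ} {x y : ℤ → Bool} {c : ℤ → ℤ} (hy : y ∈ subshift (nm m))
    (h : Parse m x y c) : x ∈ subshift (nm m) := by
  refine mem_subshift_of_tiles (isRandomSub_nm m) hy (fun i => wd x (c i) (len m (y i))) c ?_ ?_ ?_
  · intro i
    rcases h i with ⟨h1, h2, h3⟩ | ⟨h1, h2, l, hl, h3⟩
    · simp only [h1, len, wd_one, h3]
      exact mem_nm_true.2 rfl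
    · simp only [h1, len]
      exact mem_nm_false.2 ⟨l, hl, (wd_eq_tl hl).2 h3⟩
  · intro i
    simp only [wd_length]
    rcases h i with ⟨h1, h2, h3⟩ | ⟨h1, h2, h3⟩
    · rw [h1, h2]; rfl
    · rw [h1, h2]; simp [len]
  · intro i
    simp only [wd_length]

theorem sh_mem {m : ℕ} {x : ℤ → Bool} (hx : x ∈ subshift (nm m)) (k : ℤ) :
    sh k x ∈ subshift (nm m) := by
  intro i n
  rw [wd_sh]
  exact hx _ _

theorem sh_parse {m : ℕ} {x y : ℤ → Bool} {c : ℤ → ℤ} (h : Parse m x y c) (p : ℤ) :
    Parse m (sh p x) y (fun i => c i - p) := by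
  intro i
  rcases h i with ⟨h1, h2, h3⟩ | ⟨h1, h2, l, hl, h3⟩
  · left
    refine ⟨h1, by show c (i + 1) - p = c i - p + 1; rw [h2]; ring, ?_⟩
    rw [sh_apply, sub_add_cancel]
    exact h3
  · right
    refine ⟨h1, by show c (i + 1) - p = c i - p + (m + 1); rw [h2]; ring, l, hl, fun k hk => ?_⟩
    rw [sh_apply, show c i - p + k + p = c i + k by ring]
    exact h3 k hk

/-- Every choice of the tiles gives an image. -/
theorem exists_image {m : ℕ} {y : ℤ → Bool} (hy : y ∈ subshift (nm m)) (l : ℤ → ℕ)
    (hl : ∀ i, l i ≤ m) : ∃ z ∈ subshift (nm m), ∃ c : ℤ → ℤ, c 0 = 0 ∧ Parse m z y c ∧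
      ∀ i, y i = false → ∀ k : ℕ, k ≤ m → z (c i + k) = decide (k = l i) := by
  obtain ⟨x, c, hc, hx⟩ := B2.exists_concat
    (fun i => if y i = false then tl m (l i) else [false]) (fun i => by
      by_cases h : y i = false
      · simp [h, tl]
      · simp [h])
  have hP : Parse m x y c := by
    intro i
    have h1 := hc i
    have h2 := hx i
    cases h : y i
    · right
      simp only [h, if_true, length_tl (hl i)] at h1 h2
      exact ⟨rfl, by simpa using h1, l i, hl i, (wd_eq_tl (hl i)).1 h2⟩
    · left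
      simp only [h] at h1 h2
      refine ⟨rfl, by simpa using h1, ?_⟩
      simpa [wd_one] using h2
  have hQ := sh_parse hP (c 0)
  refine ⟨sh (c 0) x, mem_of_parse hy hQ, fun i => c i - c 0, by ring, hQ, ?_⟩
  intro i h k hk
  have h2 := hx i
  simp only [h, if_true, length_tl (hl i)] at h2
  rw [sh_apply, show c i - c 0 + k + c 0 = c i + k by ring]
  exact (wd_eq_tl (hl i)).1 h2 k hk

/-! ### Heights along a tile -/

theorem tile_S {m : ℕ} {x : ℤ → Bool} {p : ℤ} {l : ℕ}
    (h : ∀ k : ℕ, k ≤ m → x (p + k) = decide (k = l)) (g : ℝ) (k : ℕ) (hk : k ≤ m + 1) :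
    S g x (p + k) = S g x p - k * g + (if l < k then 1 + g else 0) := by
  induction k with
  | zero => simp
  | succ k ih =>
    rw [show p + ((k + 1 : ℕ) : ℤ) = p + k + 1 by push_cast; ring, S_succ, ih (by omega),
      h k (by omega)]
    push_cast
    rcases lt_trichotomy k l with h1 | h1 | h1
    · rw [if_neg (by omega), if_neg (by omega)]
      have : ¬ k = l := by omega
      simp only [this, decide_false, ht]
      ring
    · subst h1
      rw [if_neg (by omega), if_pos (by omega)]
      simp only [decide_true, ht]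
      ring
    · rw [if_pos (by omega), if_pos (by omega)]
      have : ¬ k = l := by omega
      simp only [this, decide_false, ht]
      ring

theorem parse_step {m : ℕ} {x y : ℤ → Bool} {c : ℤ → ℤ} (h : Parse m x y c) (i : ℤ) :
    S (gm m) x (c (i + 1)) = S (gm m) x (c i) - gm m * ht (gm m) (y i) := by
  have hg := gm_sq m
  rcases h i with ⟨h1, h2, h3⟩ | ⟨h1, h2, l, hl, h3⟩
  · rw [h2, S_succ, h1, h3]
    simp only [ht]
    ring
  · have h4 := tile_S h3 (gm m) (m + 1) le_rfl
    rw [if_pos (by omega)] at h4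
    rw [h2, h1]
    push_cast at h4
    rw [h4]
    simp only [ht]
    nlinarith

theorem parse_height {m : ℕ} {x y : ℤ → Bool} {c : ℤ → ℤ} (h : Parse m x y c) (i j : ℤ) :
    S (gm m) x (c i) - S (gm m) x (c j) = -gm m * (S (gm m) y i - S (gm m) y j) := by
  have hconst : ∀ i, S (gm m) x (c i) + gm m * S (gm m) y i
      = S (gm m) x (c 0) + gm m * S (gm m) y 0 := by
    intro i
    induction i using Int.induction_on with
    | zero => rfl
    | succ n ih => rw [parse_step h, S_succ, ← ih]; ring
    | pred n ih =>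
      rw [← ih]
      have h1 := parse_step h (-(n : ℤ) - 1)
      have h2 := S_succ (gm m) y (-(n : ℤ) - 1)
      rw [show -(n : ℤ) - 1 + 1 = -(n : ℤ) by ring] at h1 h2
      rw [h1, h2]
      ring
  have h1 := hconst i
  have h2 := hconst j
  linarith

theorem parse_next {m : ℕ} {x y : ℤ → Bool} {c : ℤ → ℤ} (h : Parse m x y c) (i : ℤ) :
    c i < c (i + 1) ∧ c (i + 1) ≤ c i + (m + 1) := by
  rcases h i with ⟨h1, h2, h3⟩ | ⟨h1, h2, h3⟩ <;> omega

theorem parse_cover {m : ℕ} {x y : ℤ → Bool} {c : ℤ → ℤ} (h : Parse m x y c) (v : ℤ) :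
    ∃ i, c i ≤ v ∧ v < c (i + 1) := by
  refine Int.inductionOn' v (c 0) ?_ ?_ ?_
  · exact ⟨0, le_refl _, by simpa using (parse_next h 0).1⟩
  · intro k _ ih
    obtain ⟨i, h1, h2⟩ := ih
    by_cases h3 : k + 1 < c (i + 1)
    · exact ⟨i, by omega, h3⟩
    · refine ⟨i + 1, by omega, ?_⟩
      have := (parse_next h (i + 1)).1
      omega
  · intro k _ ih
    obtain ⟨i, h1, h2⟩ := ih
    by_cases h3 : c i ≤ k - 1
    · exact ⟨i, h3, by omega⟩
    · refine ⟨i - 1, ?_, ?_⟩
      · have := (parse_next h (i - 1)).1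
        rw [show i - 1 + 1 = i by ring] at this
        omega
      · rw [show i - 1 + 1 = i by ring]
        omega

/-! ### Oscillation -/

/-- The height of a word. -/
noncomputable def hs (g : ℝ) (w : List Bool) : ℝ := (w.map (ht g)).sum

theorem hs_nil (g : ℝ) : hs g [] = 0 := by simp [hs]

theorem hs_cons (g : ℝ) (a : Bool) (w : List Bool) : hs g (a :: w) = ht g a + hs g w := by
  simp [hs]

theorem hs_append (g : ℝ) (u v : List Bool) : hs g (u ++ v) = hs g u + hs g v := by simp [hs]

theorem hs_wd (g : ℝ) (x : ℤ → Bool) (i : ℤ) (n : ℕ) :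
    hs g (wd x i n) = S g x (i + n) - S g x i := by
  induction n with
  | zero => simp [wd, hs]
  | succ n ih =>
    rw [wd_add, wd_one, hs_append, ih, hs_cons, hs_nil,
      show i + ((n + 1 : ℕ) : ℤ) = i + n + 1 by push_cast; ring, S_succ]
    ring

theorem hs_tl {m l : ℕ} (hl : l ≤ m) (g : ℝ) (k : ℕ) (hk : k ≤ m + 1) :
    hs g ((tl m l).take k) = - k * g + (if l < k then 1 + g else 0) := by
  have h1 : (tl m l).take k = wd (fun i : ℤ => decide (i = l)) 0 k := by
    rw [tl_eq_map hl, ← List.map_take, List.take_range, min_eq_left hk]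
    unfold wd
    apply List.map_congr_left
    intro j _
    simp
  rw [h1, hs_wd]
  have h2 := @tile_S m (fun i : ℤ => decide (i = l)) 0 l (fun k _ => by simp) g k hk
  rw [h2]
  ring

theorem osc_img {m : ℕ} (hm : 1 ≤ m) (u : List Bool) : ∀ (Y : ℝ) (v : List Bool),
    v ∈ imgW (nm m) u → (∀ k, |Y + hs (gm m) (u.take k)| < 1 + gm m) →
    ∀ k, |-gm m * Y + hs (gm m) (v.take k)| < 1 + gm m := by
  have hg1 := gm_sq m
  have hg2 := gm_pos m
  have hg3 := gm_lt_one hm
  have hm1 : (1 : ℝ) ≤ m := by exact_mod_cast hm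
  set g := gm m with hgdef
  have hg4 : g + g * g ≤ 1 := by nlinarith
  have habs : ∀ Y : ℝ, |Y| < 1 + g → |g * Y| < g + g * g := by
    intro Y h
    rw [abs_mul, abs_of_pos hg2]
    nlinarith
  induction u with
  | nil =>
    intro Y v hv hY k
    have hv' : v = [] := hv
    subst hv'
    have h1 := hY 0
    simp only [List.take_nil, hs_nil, add_zero] at h1 ⊢
    have h2 := habs _ h1
    rw [neg_mul, abs_neg]
    linarith
  | cons a u ih =>
    rintro Y v ⟨s, hs', t, ht', rfl⟩ hY k
    have h0 : |Y| < 1 + g := by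
      have := hY 0
      simpa [hs_nil] using this
    have h1 : |Y + ht g a| < 1 + g := by
      have := hY 1
      simpa [hs_nil, hs_cons] using this
    have hih := ih (Y + ht g a) t ht' (fun k => by
      have := hY (k + 1)
      rw [List.take_succ_cons, hs_cons] at this
      rw [add_assoc]
      exact this)
    have h0' := abs_lt.1 (habs _ h0)
    have h1' := abs_lt.1 (habs _ h1)
    have hlen : s.length = len m a := length_nm m a s hs'
    have htot : hs g s = -g * ht g a := by
      cases a
      · obtain ⟨l, hl, rfl⟩ := mem_nm_false.1 hs'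
        have h2 := hs_tl hl g (m + 1) le_rfl
        rw [List.take_of_length_le (by rw [length_tl hl]), if_pos (by omega)] at h2
        rw [h2]
        push_cast
        simp only [ht]
        nlinarith
      · rw [mem_nm_true.1 hs']
        simp only [hs_cons, hs_nil, ht]
        ring
    rcases le_or_gt s.length k with hk | hk
    · obtain ⟨j, rfl⟩ := Nat.exists_eq_add_of_le hk
      rw [List.take_append, List.take_of_length_le (by omega), hs_append, htot,
        show s.length + j - s.length = j by omega]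
      have := hih j
      rw [show -g * (Y + ht g a) + hs g (t.take j)
        = -g * Y + (-g * ht g a + hs g (t.take j)) by ring] at this
      exact this
    · rw [List.take_append_of_le_length (by omega)]
      cases a
      · obtain ⟨l, hl, rfl⟩ := mem_nm_false.1 hs'
        simp only [len] at hlen
        rw [hlen] at hk
        rw [hs_tl hl g k (by omega)]
        simp only [ht] at h1'
        have hk0 : (0 : ℝ) ≤ (k : ℝ) * g := by positivity
        have hkm : (k : ℝ) * g ≤ m * g :=
          mul_le_mul_of_nonneg_right (by exact_mod_cast (show k ≤ m by omega)) hg2.le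
        rw [abs_lt]
        by_cases hlk : l < k
        · rw [if_pos hlk]
          have hk1 : g ≤ (k : ℝ) * g := by
            have : (1 : ℝ) ≤ k := by exact_mod_cast (show 1 ≤ k by omega)
            nlinarith
          constructor <;> nlinarith
        · rw [if_neg hlk]
          constructor <;> nlinarith
      · rw [mem_nm_true.1 hs'] at hk ⊢
        have : k = 0 := by simpa using hk
        subst this
        simp only [List.take_zero, hs_nil, add_zero]
        rw [abs_lt]
        constructor <;> linarith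

theorem osc_pow {m : ℕ} (hm : 1 ≤ m) (p : ℕ) (a : Bool) :
    ∀ v ∈ pow (nm m) p a, ∃ τ, ∀ k, |τ + hs (gm m) (v.take k)| < 1 + gm m := by
  have hg2 := gm_pos m
  have hg3 := gm_lt_one hm
  induction p with
  | zero =>
    intro v hv
    have hv' : v = [a] := hv
    subst hv'
    refine ⟨0, fun k => ?_⟩
    match k with
    | 0 =>
      simp only [List.take_zero, hs_nil, add_zero, abs_zero]
      linarith
    | k + 1 =>
      simp only [List.take_succ_cons, List.take_nil, hs_cons, hs_nil]
      cases a <;> simp only [ht] <;> rw [abs_lt] <;> constructor <;> linarith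
  | succ p ih =>
    rintro v ⟨u, hu, hv⟩
    obtain ⟨τ, hτ⟩ := ih u hu
    exact ⟨-gm m * τ, osc_img hm u τ v hv hτ⟩

theorem osc_legal {m : ℕ} (hm : 1 ≤ m) {w : List Bool} (hw : Legal (nm m) w) :
    |hs (gm m) w| < 2 + 2 * gm m := by
  obtain ⟨p, a, v, hv, s, t, h⟩ := hw
  obtain ⟨τ, hτ⟩ := osc_pow hm p a v hv
  have h1 := abs_lt.1 (hτ s.length)
  have h2 := abs_lt.1 (hτ (s.length + w.length))
  have e1 : v.take s.length = s := by
    rw [← h, List.append_assoc, List.take_left']
    rfl
  have e2 : v.take (s.length + w.length) = s ++ w := by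
    rw [← h, List.take_left']
    simp
  rw [e1] at h1
  rw [e2, hs_append] at h2
  rw [abs_lt]
  constructor <;> linarith [h1.1, h1.2, h2.1, h2.2]

theorem osc {m : ℕ} (hm : 1 ≤ m) {x : ℤ → Bool} (hx : x ∈ subshift (nm m)) (i j : ℤ) :
    S (gm m) x i - S (gm m) x j < 2 + 2 * gm m := by
  rcases le_total j i with h | h
  · obtain ⟨n, rfl⟩ := Int.le.dest h
    have h1 := (abs_lt.1 (osc_legal hm (hx j n))).2
    rw [hs_wd] at h1
    exact h1
  · obtain ⟨n, rfl⟩ := Int.le.dest h
    have h1 := (abs_lt.1 (osc_legal hm (hx i n))).1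
    rw [hs_wd] at h1
    linarith

/-! ### Reversal -/

theorem nm_reverse {m : ℕ} {a : Bool} {s : List Bool} (h : s ∈ nm m a) : s.reverse ∈ nm m a := by
  cases a
  · obtain ⟨l, hl, rfl⟩ := mem_nm_false.1 h
    refine mem_nm_false.2 ⟨m - l, by omega, ?_⟩
    simp only [tl, List.reverse_append, List.reverse_cons, List.reverse_replicate,
      List.append_assoc, List.singleton_append, show m - (m - l) = l by omega]
  · rw [mem_nm_true] at h ⊢
    rw [h]
    rfl

theorem imgW_reverse {m : ℕ} (u : List Bool) :
    ∀ v ∈ imgW (nm m) u, v.reverse ∈ imgW (nm m) u.reverse := by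
  induction u with
  | nil =>
    intro v hv
    have : v = [] := hv
    subst this
    exact hv
  | cons a u ih =>
    rintro v ⟨s, hs, t, ht, rfl⟩
    rw [List.reverse_append, List.reverse_cons]
    exact (imgW_append _ _ _).2 ⟨_, ih t ht, _, mem_imgW_singleton (nm_reverse hs), rfl⟩

theorem pow_reverse {m : ℕ} (p : ℕ) (a : Bool) :
    ∀ v ∈ pow (nm m) p a, v.reverse ∈ pow (nm m) p a := by
  induction p with
  | zero =>
    intro v hv
    have : v = [a] := hv
    subst this
    exact hv
  | succ p ih =>
    rintro v ⟨u, hu, hv⟩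
    exact ⟨u.reverse, ih u hu, imgW_reverse u v hv⟩

theorem legal_reverse {m : ℕ} {w : List Bool} (hw : Legal (nm m) w) :
    Legal (nm m) w.reverse := by
  obtain ⟨p, a, v, hv, s, t, h⟩ := hw
  refine ⟨p, a, v.reverse, pow_reverse p a v hv, t.reverse, s.reverse, ?_⟩
  rw [← h]
  simp

theorem wd_reverse {A : Type*} (x : ℤ → A) (i : ℤ) (n : ℕ) :
    wd (fun i => x (-1 - i)) i n = (wd x (-i - n) n).reverse := by
  apply List.ext_getElem
  · simp [wd]
  · intro k h1 h2
    have hk : k < n := by simpa [wd] using h1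
    simp only [wd, List.getElem_map, List.getElem_range, List.getElem_reverse, List.length_map,
      List.length_range]
    congr 1
    omega

theorem rev_mem {m : ℕ} {x : ℤ → Bool} (hx : x ∈ subshift (nm m)) :
    (fun i => x (-1 - i)) ∈ subshift (nm m) := by
  intro i n
  rw [wd_reverse]
  exact legal_reverse (hx _ _)

end H35.RS.Nm
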