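import Pool.Agent.H35.RS.NmCore
import Pool.Agent.H35.RS.Basic
import Pool.Agent.H35.RS.Basic2

/-!
# The random noble means substitutions: primitive, compatible, aperiodic, not recognisable
-/

namespace H35.RS.Nm

open H35.RS

/-! ### Tiles -/

theorem nf_tile_mem {m l : ℕ} (hl : l ≤ m) :
    List.replicate l false ++ true :: List.replicate (m - l) false ∈ nm m false := by
  simp only [nm, Finset.mem_image, Finset.mem_range]
  refine ⟨m - l, by omega, ?_⟩
  rw [show m - (m - l) = l by omega]

theorem nf_tile_true (m : ℕ) : [false] ∈ nm m true := by simp [nm]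

theorem nf_wd_tile {m l : ℕ} (hl : l ≤ m) {x : ℤ → Bool} {c : ℤ}
    (h : ∀ k : ℕ, k ≤ m → x (c + k) = decide (k = l)) :
    wd x c (m + 1) = List.replicate l false ++ true :: List.replicate (m - l) false := by
  apply List.ext_getElem
  · simp [wd]
    omega
  · intro k h1 h2
    have hk : k < m + 1 := by simpa [wd] using h1
    rw [B2.wd_getElem, h k (by omega)]
    rcases lt_trichotomy k l with h3 | h3 | h3
    · rw [List.getElem_append_left (by simpa using h3), List.getElem_replicate]
      simp [h3.ne]
    · subst h3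
      rw [List.getElem_append_right (by simp)]
      simp
    · rw [List.getElem_append_right (by simp; omega)]
      simp only [List.length_replicate]
      obtain ⟨d, hd⟩ : ∃ d, k - l = d + 1 := ⟨k - l - 1, by omega⟩
      simp only [hd, List.getElem_cons_succ, List.getElem_replicate]
      simp [h3.ne']

/-! ### Primitivity and compatibility -/

theorem nm_primitive {m : ℕ} (hm : 1 ≤ m) : Primitive (nm m) := by
  refine ⟨2, by norm_num, ?_⟩
  have hT : true :: List.replicate m false ∈ nm m false := by
    have := nf_tile_mem (m := m) (l := 0) (Nat.zero_le _)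
    simpa using this
  have h0 : (true :: List.replicate m false) ∈ pow (nm m) 1 false :=
    ⟨[false], rfl, mem_imgW_singleton hT⟩
  obtain ⟨k, rfl⟩ : ∃ k, m = k + 1 := ⟨m - 1, by omega⟩
  obtain ⟨t, ht⟩ := imgW_nonempty (isRandomSub_nm (k + 1)) (List.replicate k false)
  have h1 : ([false] ++ ((true :: List.replicate (k + 1) false) ++ t)) ∈ pow (nm (k + 1)) 2 false := by
    refine ⟨true :: List.replicate (k + 1) false, h0, ?_⟩
    exact ⟨[false], nf_tile_true _, _, ⟨_, hT, t, ht, rfl⟩, rfl⟩
  have h2 : (true :: List.replicate (k + 1) false) ∈ pow (nm (k + 1)) 2 true :=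
    ⟨[false], ⟨[true], rfl, mem_imgW_singleton (nf_tile_true _)⟩, mem_imgW_singleton hT⟩
  intro a b
  cases b
  · exact ⟨_, h1, by cases a <;> simp⟩
  · exact ⟨_, h2, by cases a <;> simp⟩

theorem nm_compatible (m : ℕ) : Compatible (nm m) := by
  intro a v hv v' hv'
  cases a
  · simp only [nm, Finset.mem_image, Finset.mem_range] at hv hv'
    have key : ∀ i : ℕ, i < m + 1 →
        (List.replicate (m - i) false ++ true :: List.replicate i false).Perm
          (true :: List.replicate m false) := by
      intro i hi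
      refine List.perm_middle.trans ?_
      rw [List.replicate_append_replicate, show m - i + i = m by omega]
    obtain ⟨i, hi, rfl⟩ := hv
    obtain ⟨j, hj, rfl⟩ := hv'
    exact (key i hi).trans (key j hj).symm
  · simp only [nm, Finset.mem_singleton] at hv hv'
    rw [hv, hv']

/-! ### Aperiodicity -/

theorem nf_S_add (m : ℕ) (x : ℤ → Bool) (i : ℤ) (n : ℕ) :
    ∃ p q : ℕ, p + q = n ∧ S (gm m) x (i + n) = S (gm m) x i + (p - gm m * q) := by
  induction n with
  | zero => exact ⟨0, 0, rfl, by simp⟩
  | succ n ih =>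
    obtain ⟨p, q, h1, h2⟩ := ih
    have h3 : S (gm m) x (i + ((n + 1 : ℕ) : ℤ)) = S (gm m) x (i + n) + ht (gm m) (x (i + n)) := by
      rw [show i + ((n + 1 : ℕ) : ℤ) = i + n + 1 by push_cast; ring, S_succ]
    cases hx : x (i + n)
    · refine ⟨p, q + 1, by omega, ?_⟩
      rw [h3, h2, hx]
      simp only [ht]
      push_cast
      ring
    · refine ⟨p + 1, q, by omega, ?_⟩
      rw [h3, h2, hx]
      simp only [ht]
      push_cast
      ring

theorem nf_ne_zero {m : ℕ} (hm : 1 ≤ m) {p q : ℕ} (h : 1 ≤ p + q) :
    (p : ℝ) - gm m * q ≠ 0 := by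
  intro h0
  rcases Nat.eq_zero_or_pos q with hq | hq
  · subst hq
    have h1 : (p : ℝ) = 0 := by simpa using h0
    have h2 : p = 0 := by exact_mod_cast h1
    omega
  · have hq' : (q : ℝ) ≠ 0 := by
      have : (0 : ℝ) < q := by exact_mod_cast hq
      exact this.ne'
    apply gm_irrational hm
    refine ⟨(p : ℚ) / q, ?_⟩
    push_cast
    rw [div_eq_iff hq']
    linarith

theorem nm_aperiodic {m : ℕ} (hm : 1 ≤ m) : Aperiodic (subshift (nm m)) := by
  intro x hx n hn h
  have hper : ∀ i, x (i + n) = x i := by
    intro i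
    exact congrFun h i
  have hSper : ∀ i : ℤ, S (gm m) x (i + n) - S (gm m) x i = S (gm m) x n := by
    intro i
    induction i using Int.induction_on with
    | zero => simp [S_zero]
    | succ i ih =>
      rw [show (i : ℤ) + 1 + n = i + n + 1 by ring, S_succ, S_succ, hper]
      linarith
    | pred i ih =>
      have h1 := S_succ (gm m) x (-(i : ℤ) - 1 + n)
      have h2 := S_succ (gm m) x (-(i : ℤ) - 1)
      rw [hper] at h1
      rw [show -(i : ℤ) - 1 + n + 1 = -i + n by ring] at h1
      rw [show -(i : ℤ) - 1 + 1 = -i by ring] at h2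
      linarith
  have hS : ∀ k : ℕ, S (gm m) x ((k : ℤ) * n) = k * S (gm m) x n := by
    intro k
    induction k with
    | zero => simp [S_zero]
    | succ k ih =>
      have h1 := hSper ((k : ℤ) * n)
      rw [show ((k + 1 : ℕ) : ℤ) * n = (k : ℤ) * n + n by push_cast; ring]
      push_cast
      linarith
  obtain ⟨p, q, hpq, hpq'⟩ := nf_S_add m x 0 n
  rw [zero_add, S_zero, zero_add] at hpq'
  have hd : S (gm m) x n ≠ 0 := by
    rw [hpq']
    exact nf_ne_zero hm (by omega)
  have hpos : 0 < |S (gm m) x n| := abs_pos.2 hd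
  obtain ⟨k, hk⟩ := exists_nat_gt ((2 + 2 * gm m) / |S (gm m) x n|)
  rw [div_lt_iff₀ hpos] at hk
  have h1 := osc hm hx ((k : ℤ) * n) 0
  have h2 := osc hm hx 0 ((k : ℤ) * n)
  rw [hS, S_zero] at h1 h2
  rcases abs_cases (S (gm m) x n) with ⟨h3, h4⟩ | ⟨h3, h4⟩
  · rw [h3] at hk
    linarith
  · rw [h3] at hk
    linarith

/-! ### Non-recognisability -/

/-- The length of the tiles. -/
def nfLen (m : ℕ) : Bool → ℕ
  | false => m + 1
  | true => 1

theorem nf_imgSeq_of_parse {m : ℕ} {x y : ℤ → Bool} {c : ℤ → ℤ} (h : Parse m x y c)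
    (h0 : c 0 = 0) : ImgSeq (nm m) y x := by
  have hl : ∀ i n, (wd x i n).length = n := fun i n => by simp [wd]
  refine ⟨fun i => wd x (c i) (nfLen m (y i)), c, ?_, h0, ?_, ?_⟩
  · intro i
    rcases h i with ⟨h1, h2, h3⟩ | ⟨h1, h2, l, hlm, h3⟩
    · simp only [h1, nfLen]
      simp [wd, h3, nm]
    · simp only [h1, nfLen]
      rw [nf_wd_tile hlm h3]
      exact nf_tile_mem hlm
  · intro i
    simp only [hl]
    rcases h i with ⟨h1, h2, h3⟩ | ⟨h1, h2, h3⟩
    · rw [h1, h2]; rfl
    · rw [h1, h2]
      simp [nfLen]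
  · intro i
    simp only [hl]

theorem nf_desub_of_parse {m : ℕ} {x y : ℤ → Bool} {c : ℤ → ℤ} (hy : y ∈ subshift (nm m))
    (h : Parse m x y c) (h0 : c 0 = 0) : Desub (nm m) x y 0 := by
  refine ⟨hy, ?_, ?_⟩
  · cases y 0
    · exact ⟨_, nf_tile_mem (Nat.zero_le m), by simp⟩
    · exact ⟨_, nf_tile_true m, by simp⟩
  · have : sh (-((0 : ℕ) : ℤ)) x = x := by
      rw [Nat.cast_zero, neg_zero, sh_zero]
    rw [this]
    exact nf_imgSeq_of_parse h h0

theorem nf_nonempty {m : ℕ} (hm : 1 ≤ m) : (subshift (nm m)).Nonempty := by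
  have hT : true :: List.replicate m false ∈ nm m false := by
    have := nf_tile_mem (m := m) (l := 0) (Nat.zero_le _)
    simpa using this
  -- images are at least as long, and longer if there is an `a`
  have himg : ∀ u : List Bool, ∃ v ∈ imgW (nm m) u, u.length ≤ v.length ∧
      (false ∈ u → u.length < v.length) ∧ (u ≠ [] → false ∈ v) := by
    intro u
    induction u with
    | nil => exact ⟨[], rfl, le_rfl, by simp, by simp⟩
    | cons a u ih =>
      obtain ⟨v, hv, h1, h2, h3⟩ := ih
      cases a
      · refine ⟨(true :: List.replicate m false) ++ v, ⟨_, hT, v, hv, rfl⟩, ?_, ?_, ?_⟩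
        · simp only [List.length_append, List.length_cons, List.length_replicate]
          omega
        · intro _
          simp only [List.length_append, List.length_cons, List.length_replicate]
          omega
        · intro _
          have : m ≠ 0 := by omega
          simp [this]
      · refine ⟨[false] ++ v, ⟨_, nf_tile_true m, v, hv, rfl⟩, ?_, ?_, ?_⟩
        · simp only [List.length_append, List.length_cons, List.length_nil]
          omega
        · intro h4
          have h5 := h2 (by simpa using h4)
          simp only [List.length_append, List.length_cons, List.length_nil]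
          omega
        · intro _
          simp
  have hlong : ∀ n : ℕ, ∃ v ∈ pow (nm m) n false, n + 1 ≤ v.length ∧ false ∈ v := by
    intro n
    induction n with
    | zero => exact ⟨[false], rfl, by simp, by simp⟩
    | succ n ih =>
      obtain ⟨u, hu, h1, h2⟩ := ih
      obtain ⟨v, hv, h3, h4, h5⟩ := himg u
      refine ⟨v, ⟨u, hu, hv⟩, ?_, h5 ?_⟩
      · have := h4 h2
        omega
      · rintro rfl
        simp at h2
  apply subshift_nonempty
  intro n
  obtain ⟨v, hv, h1, -⟩ := hlong n
  exact ⟨v, ⟨n, false, v, hv, List.infix_refl _⟩, by omega⟩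

theorem nf_exists_false {m : ℕ} (hm : 1 ≤ m) : ∃ z ∈ subshift (nm m), z 0 = false := by
  obtain ⟨y, hy⟩ := nf_nonempty hm
  obtain ⟨z, hz, c, hc, hp, hl⟩ := exists_image hy (fun _ => m) (fun _ => le_rfl)
  refine ⟨z, hz, ?_⟩
  rcases hp 0 with ⟨h1, h2, h3⟩ | ⟨h1, -, -⟩
  · rw [hc] at h3
    exact h3
  · have := hl 0 h1 0 (Nat.zero_le _)
    rw [hc] at this
    have h4 : (0 : ℕ) ≠ m := by omega
    simpa [h4] using this

theorem nf_strictMono {m : ℕ} {x y : ℤ → Bool} {c : ℤ → ℤ} (h : Parse m x y c) :
    StrictMono c := by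
  apply strictMono_int_of_lt_succ
  intro i
  rcases h i with ⟨h1, h2, h3⟩ | ⟨h1, h2, h3⟩
  · omega
  · omega

theorem nm_not_recognisable {m : ℕ} (hm : 1 ≤ m) : ¬ Recognisable (nm m) := by
  intro hrec
  obtain ⟨z, hz, hz0⟩ := nf_exists_false hm
  obtain ⟨y, hy, c, hc0, hp, hlet⟩ := exists_image hz (fun _ => m - 1) (fun _ => by omega)
  have hmono := nf_strictMono hp
  have hc1 : c 1 = m + 1 := by
    rcases hp 0 with ⟨h1, -, -⟩ | ⟨-, h2, -⟩
    · rw [hz0] at h1
      simp at h1
    · rw [zero_add, hc0, zero_add] at h2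
      exact h2
  have ht0 : ∀ k : ℕ, k ≤ m → y k = decide (k = m - 1) := by
    intro k hk
    have := hlet 0 hz0 k hk
    rwa [hc0, zero_add] at this
  -- the second image: the tile `0` is `a^m b`
  obtain ⟨s, hs⟩ : ∃ s : ℕ, m = s + 1 := ⟨m - 1, by omega⟩
  have hys : y s = true := by
    rw [ht0 s (by omega)]
    simp [hs]
  have hys1 : y (s + 1) = false := by
    have := ht0 (s + 1) (by omega)
    push_cast at this
    rw [this]
    simp [hs]
  let y' : ℤ → Bool := fun j => if j = s then false else if j = s + 1 then true else y j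
  have hy's : y' s = false := by simp [y']
  have hy's1 : y' (s + 1) = true := by simp [y']
  have hy'n : ∀ j : ℤ, j ≠ s → j ≠ s + 1 → y' j = y j := by
    intro j h1 h2
    simp [y', h1, h2]
  have hp' : Parse m y' z c := by
    intro i
    by_cases hi : i = 0
    · subst hi
      right
      refine ⟨hz0, by rw [zero_add, hc0, hc1]; ring, m, le_rfl, ?_⟩
      intro k hk
      rw [hc0, zero_add]
      by_cases h1 : k = m
      · subst h1
        rw [hs]
        push_cast
        rw [hy's1]
        simp
      · by_cases h2 : k = s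
        · subst h2
          rw [hy's]
          simp [hs]
        · rw [hy'n k (by exact_mod_cast h2) (by
            intro h3
            apply h1
            rw [hs]
            exact_mod_cast h3), ht0 k hk]
          have h3 : k ≠ m - 1 := by omega
          simp [h1, h3]
    · have hne : ∀ v : ℤ, c i ≤ v → v < c (i + 1) → y' v = y v := by
        intro v h1 h2
        rcases lt_or_gt_of_ne hi with h | h
        · have h3 : c (i + 1) ≤ c 0 := hmono.monotone (by omega)
          apply hy'n
          · omega
          · omega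
        · have h3 : c 1 ≤ c i := hmono.monotone (by omega)
          apply hy'n
          · omega
          · omega
      rcases hp i with ⟨h1, h2, h3⟩ | ⟨h1, h2, l, hl, h3⟩
      · left
        exact ⟨h1, h2, by rw [hne _ le_rfl (by omega)]; exact h3⟩
      · right
        refine ⟨h1, h2, l, hl, ?_⟩
        intro k hk
        rw [hne _ (by omega) (by omega)]
        exact h3 k hk
  have hy' : y' ∈ subshift (nm m) := mem_of_parse hz hp'
  -- the image of `y`
  obtain ⟨x, hx, d, hd0, hq, hxl⟩ := exists_image hy (fun _ => m - 1) (fun _ => by omega)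
  have hd1 : d (s + 1) = d s + 1 ∧ x (d s) = false := by
    rcases hq s with ⟨-, h2, h3⟩ | ⟨h1, -, -⟩
    · exact ⟨h2, h3⟩
    · rw [hys] at h1
      simp at h1
  have hd2 : d (s + 1 + 1) = d s + 1 + (m + 1) := by
    rcases hq (s + 1) with ⟨h1, -, -⟩ | ⟨-, h2, -⟩
    · rw [hys1] at h1
      simp at h1
    · rw [h2, hd1.1]
  have hxt : ∀ k : ℕ, k ≤ m → x (d s + 1 + k) = decide (k = s) := by
    intro k hk
    have := hxl (s + 1) hys1 k hk
    rw [hd1.1] at this
    rw [this]
    simp [hs]
  let d' : ℤ → ℤ := fun i => if i = s + 1 then d s + (m + 1) else d i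
  have d'1 : d' (s + 1) = d s + (m + 1) := by simp [d']
  have d'n : ∀ i : ℤ, i ≠ s + 1 → d' i = d i := by
    intro i hi
    simp [d', hi]
  have hq' : Parse m x y' d' := by
    intro i
    by_cases hi : i = s
    · subst hi
      right
      refine ⟨hy's, ?_, m, le_rfl, ?_⟩
      · rw [d'1, d'n s (by omega)]
      · intro k hk
        rw [d'n s (by omega)]
        rcases Nat.eq_zero_or_pos k with h0 | h0
        · subst h0
          have h1 : (0 : ℕ) ≠ m := by omega
          rw [Nat.cast_zero, add_zero, hd1.2]
          simp [h1]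
        · obtain ⟨j, rfl⟩ : ∃ j, k = j + 1 := ⟨k - 1, by omega⟩
          have := hxt j (by omega)
          rw [show d s + ((j + 1 : ℕ) : ℤ) = d s + 1 + j by push_cast; ring, this]
          have h2 : (j = s) ↔ (j + 1 = m) := by omega
          simp [h2]
    · by_cases hi1 : i = s + 1
      · subst hi1
        left
        refine ⟨hy's1, ?_, ?_⟩
        · rw [d'1, d'n _ (by omega), hd2]
          ring
        · rw [d'1]
          have := hxt m le_rfl
          rw [show d s + ((m : ℤ) + 1) = d s + 1 + m by ring, this]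
          simp [hs]
      · rw [d'n i hi1, d'n (i + 1) (by omega), hy'n i hi hi1]
        exact hq i
  have e1 : Desub (nm m) x y 0 := nf_desub_of_parse hy hq hd0
  have e2 : Desub (nm m) x y' 0 := nf_desub_of_parse hy' hq' (by
    rw [d'n 0 (by omega), hd0])
  have := (hrec x hx).unique (y₁ := (y, 0)) (y₂ := (y', 0)) e1 e2
  have h3 := congrFun (congrArg Prod.fst this) s
  simp only at h3
  rw [hys, hy's] at h3
  simp at h3

end H35.RS.Nm
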