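import Pool.Agent.H35.RS.NmFlipCore
import Pool.Agent.H35.RS.NmCore

/-!
# The random noble means substitutions: flips
-/

namespace H35.RS.Nm

open H35.RS

theorem nm_facts {m : ℕ} (hm : 1 ≤ m) : Facts m where
  exists_parse := exists_parse
  mem_of_parse := mem_of_parse
  parse_height := parse_height
  parse_cover := parse_cover
  osc := osc hm
  rev_mem := rev_mem

theorem flip_up {m : ℕ} (hm : 1 ≤ m) {x : ℤ → Bool} (hx : x ∈ subshift (nm m)) (i P : ℤ)
    (h1 : x (i - 1) = false) (h2 : x i = true)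
    (hP : S (gm m) x (i - 1) + 1 + (gm m - gm m ^ 2) ≤ S (gm m) x P) :
    flip x i ∈ subshift (nm m) :=
  (nm_facts hm).flip_up hm hx i P h1 h2 hP

theorem flip_down {m : ℕ} (hm : 1 ≤ m) {x : ℤ → Bool} (hx : x ∈ subshift (nm m)) (i Q : ℤ)
    (h1 : x (i - 1) = true) (h2 : x i = false)
    (hQ : S (gm m) x Q + (gm m - gm m ^ 2) ≤ S (gm m) x (i - 1) - gm m) :
    flip x i ∈ subshift (nm m) :=
  (nm_facts hm).flip_down hm hx i Q h1 h2 hQ

end H35.RS.Nm
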