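import Pool.Agent.H35.RS.NmFacts

/-!
# The random noble means substitutions: a point with a large drop of height
-/

namespace H35.RS.Nm

open H35.RS

/-- One step: from a bottom `i` and a top `j` of `x` to a bottom and a top of an image. -/
theorem nk_step {m : ℕ} (hm : 1 ≤ m) {x : ℤ → Bool} (hx : x ∈ subshift (nm m)) {i j : ℤ}
    (hij : i - 1 ≠ j) (hi : x (i - 1) = false) (hj : x j = false) :
    ∃ z ∈ subshift (nm m), ∃ i' j' : ℤ, z (i' - 1) = false ∧ z j' = false ∧
      (i < j + 1 → j' + 1 < i') ∧ (j + 1 < i → i' < j') ∧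
      S (gm m) z j' - S (gm m) z i'
        = 2 * (m * gm m) + gm m * (S (gm m) x j - S (gm m) x i) := by
  obtain ⟨z, hz, c, -, hp, hl⟩ := exists_image hx (fun k => if k = j then m else 0)
    (fun k => by split_ifs <;> omega)
  have hmono := nf_strictMono hp
  have h1 : ∀ k : ℕ, k ≤ m → z (c (i - 1) + k) = decide (k = 0) := by
    intro k hk
    have := hl (i - 1) hi k hk
    simpa [hij] using this
  have h2 : ∀ k : ℕ, k ≤ m → z (c j + k) = decide (k = m) := by
    intro k hk
    have := hl j hj k hk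
    simpa using this
  have hci : c i = c (i - 1) + (m + 1) := by
    rcases hp (i - 1) with ⟨h3, -, -⟩ | ⟨-, h3, -⟩
    · rw [hi] at h3
      simp at h3
    · rwa [sub_add_cancel] at h3
  have hcj : c (j + 1) = c j + (m + 1) := by
    rcases hp j with ⟨h3, -, -⟩ | ⟨-, h3, -⟩
    · rw [hj] at h3
      simp at h3
    · exact h3
  refine ⟨z, hz, c j + m, c (i - 1) + 1, ?_, ?_, ?_, ?_, ?_⟩
  · have h3 := h2 (m - 1) (by omega)
    rw [show c j + (m : ℤ) - 1 = c j + ((m - 1 : ℕ) : ℤ) by omega, h3]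
    have : m - 1 ≠ m := by omega
    simp [this]
  · have h3 := h1 1 hm
    rw [show c (i - 1) + 1 = c (i - 1) + ((1 : ℕ) : ℤ) by simp, h3]
    simp
  · intro h
    have h3 : c i ≤ c j := hmono.monotone (by omega)
    omega
  · intro h
    have h3 : c (j + 1) ≤ c (i - 1) := hmono.monotone (by omega)
    omega
  · have e1 := tile_S h1 (gm m) 1 (by omega)
    have e2 := tile_S h1 (gm m) (m + 1) le_rfl
    have e3 := tile_S h2 (gm m) m (by omega)
    have e4 := parse_height hp i j
    rw [if_pos (by omega)] at e1 e2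
    rw [if_neg (by omega)] at e3
    have e5 : c (i - 1) + ((m + 1 : ℕ) : ℤ) = c i := by rw [hci]; push_cast; ring
    rw [e5] at e2
    push_cast at e1 e2
    rw [e1, e3]
    nlinarith [e1, e2, e3, e4]

theorem nk_iter {m : ℕ} (hm : 1 ≤ m) {y : ℤ → Bool} (hy : y ∈ subshift (nm m)) {i j : ℤ}
    (hij : i < j + 1) (hi : y (i - 1) = false) (hj : y j = false) {e : ℝ}
    (he : S (gm m) y j - S (gm m) y i = 2 + 2 * gm m - e) (k : ℕ) :
    ∃ z ∈ subshift (nm m), ∃ i' j' : ℤ, z (i' - 1) = false ∧ z j' = false ∧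
      (k % 2 = 0 → i' < j' + 1) ∧ (k % 2 = 1 → j' + 1 < i') ∧
      S (gm m) z j' - S (gm m) z i' = 2 + 2 * gm m - gm m ^ k * e := by
  induction k with
  | zero => exact ⟨y, hy, i, j, hi, hj, fun _ => hij, by simp, by rw [he]; ring⟩
  | succ k ih =>
    obtain ⟨x, hx, i, j, hi, hj, h1, h2, h3⟩ := ih
    have hij' : i - 1 ≠ j := by
      rcases Nat.mod_two_eq_zero_or_one k with h | h
      · have := h1 h; omega
      · have := h2 h; omega
    obtain ⟨z, hz, i', j', hi', hj', h4, h5, h6⟩ := nk_step hm hx hij' hi hj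
    refine ⟨z, hz, i', j', hi', hj', ?_, ?_, ?_⟩
    · intro h
      have := h5 (h2 (by omega))
      omega
    · intro h
      exact h4 (h1 (by omega))
    · rw [h6, h3]
      have hg := gm_sq m
      have h7 : 2 * (m * gm m) + gm m * (2 + 2 * gm m - gm m ^ k * e)
          = 2 * (gm m * gm m + m * gm m) + 2 * gm m - gm m ^ (k + 1) * e := by ring
      rw [h7, hg]
      ring

theorem nk_S_count (g : ℝ) (x : ℤ → Bool) (i : ℤ) (n : ℕ) :
    S g x (i + n) = S g x i + ((1 + g) * (wd x i n).count true - g * n) := by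
  induction n with
  | zero => simp [wd]
  | succ n ih =>
    rw [wd_add, wd_one, List.count_append,
      show i + ((n + 1 : ℕ) : ℤ) = i + n + 1 by push_cast; ring, S_succ, ih]
    cases x (i + n)
    · simp only [ht]
      push_cast
      simp
      ring
    · simp only [ht]
      push_cast
      simp
      ring

theorem exists_mark {m : ℕ} (hm : 1 ≤ m) : ∃ n₀ k₀ : ℕ,
    (∃ x ∈ subshift (nm m), Mark n₀ k₀ x 0) ∧
      2 + 2 * gm m - gm m ^ 3 ≤ gm m * n₀ - (1 + gm m) * k₀ := by
  obtain ⟨y, hy, hy0⟩ := nf_exists_false hm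
  obtain ⟨z, hz, c, hc0, hp, hl⟩ := exists_image hy (fun _ => m) (fun _ => le_rfl)
  have h1 : ∀ k : ℕ, k ≤ m → z k = decide (k = m) := by
    intro k hk
    have := hl 0 hy0 k hk
    rwa [hc0, zero_add] at this
  have hc1 : c 1 = m + 1 := by
    rcases hp 0 with ⟨h3, -, -⟩ | ⟨-, h3, -⟩
    · rw [hy0] at h3
      simp at h3
    · rw [zero_add, hc0, zero_add] at h3
      exact h3
  have hz1 : z (m + 1) = false := by
    rcases hp 1 with ⟨-, -, h3⟩ | ⟨h3, -, -⟩
    · rwa [hc1] at h3
    · have := hl 1 h3 0 (Nat.zero_le _)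
      rw [hc1] at this
      have h4 : (0 : ℕ) ≠ m := by omega
      simpa [h4] using this
  have hzm : z ((m : ℤ) - 1) = false := by
    have := h1 (m - 1) (by omega)
    rw [show (m : ℤ) - 1 = ((m - 1 : ℕ) : ℤ) by omega, this]
    have : m - 1 ≠ m := by omega
    simp [this]
  have hzt : z m = true := by
    rw [h1 m le_rfl]
    simp
  have hS : S (gm m) z ((m : ℤ) + 1) - S (gm m) z m = 2 + 2 * gm m - (1 + 2 * gm m) := by
    rw [S_succ, hzt]
    simp only [ht]
    ring
  obtain ⟨x, hx, i, j, hi, hj, -, h3, h4⟩ := nk_iter hm hz (i := m) (j := m + 1)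
    (by omega) hzm hz1 hS 5
  have hji : j + 1 < i := h3 (by norm_num)
  obtain ⟨n, rfl⟩ : ∃ n : ℕ, i = j + n := ⟨(i - j).toNat, by omega⟩
  refine ⟨n, (wd x j n).count true, ⟨sh j x, sh_mem hx j, ?_⟩, ?_⟩
  · unfold Mark
    rw [wd_sh, zero_add]
  · have h5 := nk_S_count (gm m) x j n
    have hg := gm_sq m
    have hg0 := gm_pos m
    have hg1 := gm_lt_one hm
    have h6 : gm m * gm m ≤ 1 - gm m := by
      have : (1 : ℝ) ≤ m := by exact_mod_cast hm
      nlinarith
    have h7 : gm m ^ 5 * (1 + 2 * gm m) ≤ gm m ^ 3 := by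
      have h8 : gm m * gm m * (1 + 2 * gm m) ≤ 1 := by
        rcases le_or_gt (1 / 2) (gm m) with h | h
        · nlinarith
        · nlinarith
      have h9 : (0 : ℝ) < gm m ^ 3 := by positivity
      nlinarith [mul_le_mul_of_nonneg_left h8 h9.le]
    linarith

end H35.RS.Nm
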