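import Pool.Agent.H35.RS.HGate
import Pool.Agent.H35.RS.NmMark
import Pool.Agent.H35.RS.NmFlip
import Pool.Agent.H35.RS.NmAvail
import Pool.Agent.H35.RS.NmFacts
import Pool.Agent.H35.RS.FibGate

/-!
# The automorphism groups of the random noble means subshifts are not residually finite
-/

namespace H35.RS.Nm

open H35.RS

theorem nm_one : nm 1 = Fib.fib := by
  funext a
  cases a
  · show (Finset.range (1 + 1)).image
      (fun i => List.replicate (1 - i) false ++ true :: List.replicate i false)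
      = {[false, true], [true, false]}
    decide
  · rfl

theorem nm_not_rf_of_two_le {m : ℕ} (hm : 2 ≤ m) : ¬ Group.ResiduallyFinite (autRS (nm m)) := by
  have hm1 : 1 ≤ m := by omega
  obtain ⟨n₀, k₀, ⟨x₀, hx₀, hmark⟩, hle⟩ := exists_mark hm1
  obtain ⟨K, hK, hav⟩ := avail hm
  have hg0 := gm_pos m
  have hg1 := gm_lt_half hm
  have hsq := gm_sq m
  have hm' : (2 : ℝ) ≤ m := by exact_mod_cast hm
  have hcube : gm m ^ 3 < gm m - gm m ^ 2 := by
    have h1 : gm m * gm m + gm m < 1 := by nlinarith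
    have h2 : gm m - gm m ^ 2 - gm m ^ 3 = gm m * (1 - (gm m * gm m + gm m)) := by ring
    have h3 : 0 < gm m * (1 - (gm m * gm m + gm m)) := mul_pos hg0 (by linarith)
    linarith
  have hdrop := HGate.S_add (gm m) x₀ 0 n₀
  have hosc0 := osc hm1 hx₀ 0 (0 + n₀)
  unfold Mark at hmark
  rw [hmark] at hdrop
  refine not_rf_of_heights (gm m) hg0 (gm_irrational hm1) (subshift (nm m))
    (shiftInv_subshift (nm m)) (fun x h => mem_subshift_of_local h)
    (2 + 2 * gm m) (gm m - gm m ^ 2) (2 + 2 * gm m - (gm m * n₀ - (1 + gm m) * k₀)) n₀ k₀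
    ?_ ?_ ?_ (by ring) (fun x hx i j => osc hm1 hx i j)
    (fun x hx i P h1 h2 h3 => flip_up hm1 hx i P h1 h2 h3)
    (fun x hx i Q h1 h2 h3 => flip_down hm1 hx i Q h1 h2 h3) K hK ?_ ⟨x₀, hx₀, hmark⟩
  · linarith
  · linarith
  · have h5 : gm m ^ 3 < gm m := by nlinarith [sq_nonneg (gm m)]
    linarith
  · intro x hx T hlo hhi k
    refine hav x _ T ?_ ?_ (fun i j => osc hm1 hx i j) hlo hhi k
    · linarith
    · linarith

theorem nm_not_rf {m : ℕ} (hm : 1 ≤ m) : ¬ Group.ResiduallyFinite (autRS (nm m)) := by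
  rcases Nat.lt_or_ge 1 m with h | h
  · exact nm_not_rf_of_two_le h
  · obtain rfl : m = 1 := by omega
    rw [nm_one]
    exact Fib.fib_not_rf

end H35.RS.Nm
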