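import Pool.Agent.H35.RS.NmDefs

/-!
# The random noble means substitutions: flips (core)

The facts of `NmCore.lean` enter as the fields of the structure `Facts`.
-/

namespace H35.RS.Nm

open H35.RS

/-- The facts of `NmCore.lean` that are used here. -/
structure Facts (m : ℕ) : Prop where
  exists_parse : ∀ {x : ℤ → Bool}, x ∈ subshift (nm m) → ∃ y ∈ subshift (nm m), ∃ c, Parse m x y c
  mem_of_parse : ∀ {x y : ℤ → Bool} {c : ℤ → ℤ}, y ∈ subshift (nm m) → Parse m x y c →
    x ∈ subshift (nm m)
  parse_height : ∀ {x y : ℤ → Bool} {c : ℤ → ℤ}, Parse m x y c → ∀ i j : ℤ,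
    S (gm m) x (c i) - S (gm m) x (c j) = -gm m * (S (gm m) y i - S (gm m) y j)
  parse_cover : ∀ {x y : ℤ → Bool} {c : ℤ → ℤ}, Parse m x y c → ∀ v : ℤ,
    ∃ i, c i ≤ v ∧ v < c (i + 1)
  osc : ∀ {x : ℤ → Bool}, x ∈ subshift (nm m) → ∀ i j : ℤ,
    S (gm m) x i - S (gm m) x j < 2 + 2 * gm m
  rev_mem : ∀ {x : ℤ → Bool}, x ∈ subshift (nm m) → (fun i => x (-1 - i)) ∈ subshift (nm m)

/-- A valley at `i` can be flipped if the new vertex is at least `d` below some vertex. -/
def Up (m : ℕ) (d : ℝ) : Prop :=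
  ∀ x ∈ subshift (nm m), ∀ i P : ℤ, x (i - 1) = false → x i = true →
    S (gm m) x (i - 1) + 1 + d ≤ S (gm m) x P → flip x i ∈ subshift (nm m)

/-- A peak at `i` can be flipped if the new vertex is at least `d` above some vertex. -/
def Down (m : ℕ) (d : ℝ) : Prop :=
  ∀ x ∈ subshift (nm m), ∀ i Q : ℤ, x (i - 1) = true → x i = false →
    S (gm m) x Q + d ≤ S (gm m) x (i - 1) - gm m → flip x i ∈ subshift (nm m)

theorem ht_false (g : ℝ) : ht g false = -g := rfl

theorem ht_true (g : ℝ) : ht g true = 1 := rfl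

theorem S_pred (g : ℝ) (x : ℤ → Bool) (i : ℤ) : S g x i = S g x (i - 1) + ht g (x (i - 1)) := by
  have := S_succ g x (i - 1)
  simpa using this

theorem S_rev (g : ℝ) (x : ℤ → Bool) (i : ℤ) :
    S g (fun i => x (-1 - i)) i = - S g x (-i) := by
  induction i using Int.induction_on with
  | zero => simp [S_zero]
  | succ n ih =>
    have h1 := S_succ g (fun i => x (-1 - i)) (n : ℤ)
    have h2 := S_succ g x (-((n : ℤ) + 1))
    rw [show -((n : ℤ) + 1) + 1 = -(n : ℤ) by ring] at h2
    rw [h1, ih, h2, show (-1 - (n : ℤ)) = -((n : ℤ) + 1) by ring]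
    ring
  | pred n ih =>
    have h1 := S_succ g (fun i => x (-1 - i)) (-(n : ℤ) - 1)
    have h2 := S_succ g x (-(-(n : ℤ)))
    rw [show -(n : ℤ) - 1 + 1 = -(n : ℤ) by ring, ih] at h1
    rw [show -(-(n : ℤ)) + 1 = -(-(n : ℤ) - 1) by ring] at h2
    rw [h2]
    rw [show (-1 - (-(n : ℤ) - 1)) = -(-(n : ℤ)) by ring] at h1
    linarith

theorem flip_rev (x : ℤ → Bool) (i : ℤ) :
    (fun j => flip (fun k => x (-1 - k)) (-i) (-1 - j)) = flip x i := by
  funext j
  unfold flip
  simp only
  by_cases h1 : j = i - 1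
  · subst h1
    rw [if_neg (by omega), if_pos (by omega), if_pos rfl]
    congr 1
    ring
  · by_cases h2 : j = i
    · subst h2
      rw [if_pos (by omega), if_neg (by omega), if_pos rfl]
      congr 1
      ring
    · rw [if_neg (by omega), if_neg (by omega), if_neg h1, if_neg h2]
      congr 1
      ring

theorem flip_of_ne {x : ℤ → Bool} {i j : ℤ} (h1 : j ≠ i - 1) (h2 : j ≠ i) : flip x i j = x j := by
  unfold flip
  rw [if_neg h1, if_neg h2]

theorem flip_at (x : ℤ → Bool) (i : ℤ) : flip x i i = x (i - 1) := by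
  unfold flip
  rw [if_neg (by omega), if_pos rfl]

theorem flip_at' (x : ℤ → Bool) (i : ℤ) : flip x i (i - 1) = x i := by
  unfold flip
  rw [if_pos rfl]

theorem Facts.down_of_up {m : ℕ} (F : Facts m) {d : ℝ} (h : Up m d) : Down m d := by
  intro x hx i Q h1 h2 hQ
  have hx' := F.rev_mem hx
  have key := h _ hx' (-i) (-Q)
    (by rw [show (-1 - (-i - 1)) = i by ring]; exact h2)
    (by rw [show (-1 - (-i)) = i - 1 by ring]; exact h1)
    (by
      rw [S_rev, S_rev, neg_neg]
      rw [show -(-i - 1) = i + 1 by ring, S_succ, h2, ht_false, S_pred, h1, ht_true]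
      linarith)
  have := F.rev_mem key
  rwa [flip_rev] at this

/-- Heights along a run of the letter `a`. -/
theorem S_runA (g : ℝ) (x : ℤ → Bool) (v : ℤ) (k : ℕ) (h : ∀ t : ℕ, t < k → x (v + t) = false) :
    S g x (v + k) = S g x v - k * g := by
  induction k with
  | zero => simp
  | succ k ih =>
    have h1 := ih (fun t ht => h t (by omega))
    have h2 := S_succ g x (v + k)
    rw [h k (by omega), ht_false, h1] at h2
    push_cast
    rw [show v + ((k : ℤ) + 1) = v + k + 1 by ring, h2]
    ring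

/-- A cut which is at most `m g` below a given vertex. -/
theorem Facts.cut_near {m : ℕ} (F : Facts m) {x y : ℤ → Bool} {c : ℤ → ℤ} (hp : Parse m x y c)
    (P : ℤ) : ∃ M, S (gm m) x P - m * gm m ≤ S (gm m) x (c M) := by
  have hg := gm_pos m
  have hmg : 0 ≤ (m : ℝ) * gm m := by positivity
  obtain ⟨i, h1, h2⟩ := F.parse_cover hp P
  rcases hp i with ⟨_, h4, _⟩ | ⟨_, h4, l, hl, h5⟩
  · have : P = c i := by omega
    exact ⟨i, by rw [this]; linarith⟩
  · obtain ⟨k, hk⟩ : ∃ k : ℕ, P = c i + k := ⟨(P - c i).toNat, by omega⟩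
    have hkm : k ≤ m := by omega
    by_cases hkl : k ≤ l
    · refine ⟨i, ?_⟩
      have h6 := S_runA (gm m) x (c i) k (fun t ht => by
        rw [h5 t (by omega)]
        exact decide_eq_false (by omega))
      rw [hk, h6]
      have : 0 ≤ (k : ℝ) * gm m := by positivity
      linarith
    · refine ⟨i + 1, ?_⟩
      have h6 := S_runA (gm m) x (c i + k) (m + 1 - k) (fun t ht => by
        have := h5 (k + t) (by omega)
        rw [show c i + (k : ℤ) + (t : ℤ) = c i + ((k + t : ℕ) : ℤ) by push_cast; ring, this]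
        exact decide_eq_false (by omega))
      rw [show c i + (k : ℤ) + ((m + 1 - k : ℕ) : ℤ) = c (i + 1) by omega] at h6
      rw [hk, h6]
      have h7 : ((m + 1 - k : ℕ) : ℝ) ≤ (m : ℝ) := by
        have : m + 1 - k ≤ m := by omega
        exact_mod_cast this
      have h8 : ((m + 1 - k : ℕ) : ℝ) * gm m ≤ (m : ℝ) * gm m :=
        mul_le_mul_of_nonneg_right h7 hg.le
      linarith

theorem parse_mono {m : ℕ} {x y : ℤ → Bool} {c : ℤ → ℤ} (hp : Parse m x y c) : StrictMono c := by
  apply strictMono_int_of_lt_succ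
  intro i
  rcases hp i with ⟨_, h, _⟩ | ⟨_, h, _⟩ <;> omega

/-- The condition on one tile depends only on the letters of the tile. -/
theorem tile_congr {m : ℕ} {x x' y y' : ℤ → Bool} {c c' : ℤ → ℤ} {l : ℤ}
    (h : (y l = true ∧ c (l + 1) = c l + 1 ∧ x (c l) = false) ∨
      (y l = false ∧ c (l + 1) = c l + (m + 1) ∧
        ∃ r : ℕ, r ≤ m ∧ ∀ k : ℕ, k ≤ m → x (c l + k) = decide (k = r)))
    (hc : c' l = c l) (hc1 : c' (l + 1) = c (l + 1)) (hy : y' l = y l)
    (hx : ∀ t, c l ≤ t → t < c (l + 1) → x' t = x t) :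
    (y' l = true ∧ c' (l + 1) = c' l + 1 ∧ x' (c' l) = false) ∨
      (y' l = false ∧ c' (l + 1) = c' l + (m + 1) ∧
        ∃ r : ℕ, r ≤ m ∧ ∀ k : ℕ, k ≤ m → x' (c' l + k) = decide (k = r)) := by
  rw [hc, hc1, hy]
  rcases h with ⟨h1, h2, h3⟩ | ⟨h1, h2, r, hr, h3⟩
  · left
    refine ⟨h1, h2, ?_⟩
    rw [hx _ le_rfl (by omega)]
    exact h3
  · right
    refine ⟨h1, h2, r, hr, fun k hk => ?_⟩
    rw [hx _ (by omega) (by omega)]
    exact h3 k hk

/-- Case: `i` is inside a tile. -/
theorem parse_flip_mid {m : ℕ} {x y : ℤ → Bool} {c : ℤ → ℤ} (hp : Parse m x y c) {i j : ℤ}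
    (h1 : c j < i) (h2 : i < c (j + 1)) (hx1 : x (i - 1) = false) (hx2 : x i = true) :
    Parse m (flip x i) y c := by
  have hmono := parse_mono hp
  intro l
  by_cases hl : l = j
  · subst hl
    rcases hp l with ⟨_, h, _⟩ | ⟨hy, h, r, hr, h3⟩
    · omega
    · right
      obtain ⟨k, hk⟩ : ∃ k : ℕ, i = c l + k := ⟨(i - c l).toNat, by omega⟩
      have hkm : k ≤ m := by omega
      have hkr : k = r := by
        have := h3 k hkm
        rw [← hk, hx2] at this
        exact of_decide_eq_true this.symm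
      subst hkr
      refine ⟨hy, h, k - 1, by omega, fun t ht => ?_⟩
      by_cases ht1 : t = k - 1
      · subst ht1
        rw [show c l + ((k - 1 : ℕ) : ℤ) = i - 1 by omega, flip_at', hx2]
        simp
      · by_cases ht2 : t = k
        · subst ht2
          rw [← hk, flip_at, hx1]
          exact (decide_eq_false (by omega)).symm
        · rw [flip_of_ne (by omega) (by omega), h3 t ht]
          rw [decide_eq_false ht2, decide_eq_false ht1]
  · refine tile_congr (hp l) rfl rfl rfl fun t ht1 ht2 => ?_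
    rcases lt_or_gt_of_ne hl with hlt | hgt
    · have h4 : c (l + 1) ≤ c j := hmono.monotone (by omega)
      exact flip_of_ne (by omega) (by omega)
    · have h4 : c (j + 1) ≤ c l := hmono.monotone (by omega)
      exact flip_of_ne (by omega) (by omega)

theorem tile_true {m : ℕ} {x y : ℤ → Bool} {c : ℤ → ℤ} (hp : Parse m x y c) {j : ℤ}
    (hy : y j = true) : c (j + 1) = c j + 1 ∧ x (c j) = false := by
  rcases hp j with ⟨_, h, h'⟩ | ⟨h, _, _⟩
  · exact ⟨h, h'⟩
  · rw [h] at hy
    exact absurd hy (by simp)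

theorem tile_false {m : ℕ} {x y : ℤ → Bool} {c : ℤ → ℤ} (hp : Parse m x y c) {j : ℤ}
    (hy : y j = false) : c (j + 1) = c j + (m + 1) ∧
      ∃ r : ℕ, r ≤ m ∧ ∀ k : ℕ, k ≤ m → x (c j + k) = decide (k = r) := by
  rcases hp j with ⟨h, _, _⟩ | ⟨_, h, h'⟩
  · rw [h] at hy
    exact absurd hy (by simp)
  · exact ⟨h, h'⟩

/-- Case `n = 0`: a tile `a` followed by a tile `b a^m`; after the flip at the cut it is
`b a^m . a`. -/
theorem parse_flip_cut {m : ℕ} (hm : 1 ≤ m) {x y : ℤ → Bool} {c : ℤ → ℤ} (hp : Parse m x y c)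
    {j : ℤ} (hy1 : y (j - 1) = true) (hx2 : x (c j) = true) :
    Parse m (flip x (c j)) (flip y j) (fun l => if l = j then c j + m else c l) := by
  have hmono := parse_mono hp
  have h0 : c j = c (j - 1) + 1 ∧ x (c (j - 1)) = false := by
    have := tile_true hp hy1
    rwa [show j - 1 + 1 = j by ring] at this
  have hyj : y j = false := by
    rcases hp j with ⟨_, _, h⟩ | ⟨h, _, _⟩
    · rw [h] at hx2
      exact absurd hx2 (by simp)
    · exact h
  obtain ⟨h1, r, hr, h2⟩ := tile_false hp hyj
  have hr0 : r = 0 := by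
    have := h2 0 (by omega)
    rw [Nat.cast_zero, add_zero, hx2] at this
    exact (of_decide_eq_true this.symm).symm
  subst hr0
  intro l
  by_cases hl : l = j - 1
  · subst hl
    right
    simp only
    rw [if_pos (by omega), if_neg (show ¬ (j - 1 = j) by omega), flip_at']
    refine ⟨hyj, by omega, 0, by omega, fun k hk => ?_⟩
    by_cases hk0 : k = 0
    · subst hk0
      rw [show c (j - 1) + ((0 : ℕ) : ℤ) = c j - 1 by push_cast; omega, flip_at', hx2]
      simp
    · rw [decide_eq_false hk0]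
      by_cases hk1 : k = 1
      · subst hk1
        rw [show c (j - 1) + ((1 : ℕ) : ℤ) = c j by push_cast; omega, flip_at,
          show c j - 1 = c (j - 1) by omega]
        exact h0.2
      · rw [flip_of_ne (by omega) (by omega)]
        have := h2 (k - 1) (by omega)
        rw [show c j + ((k - 1 : ℕ) : ℤ) = c (j - 1) + k by omega,
          decide_eq_false (show ¬ (k - 1 = 0) by omega)] at this
        exact this
  · by_cases hl' : l = j
    · subst hl'
      left
      simp only [if_true]
      rw [if_neg (by omega), flip_at]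
      refine ⟨hy1, by omega, ?_⟩
      rw [flip_of_ne (by omega) (by omega), h2 m le_rfl]
      exact decide_eq_false (by omega)
    · refine tile_congr (c' := fun l => if l = j then c j + m else c l) (hp l)
        (if_neg hl') (if_neg (by omega)) (flip_of_ne hl hl') fun t ht1 ht2 => ?_
      · rcases lt_or_gt_of_ne hl' with hlt | hgt
        · have h4 : c (l + 1) ≤ c (j - 1) := hmono.monotone (by omega)
          exact flip_of_ne (by omega) (by omega)
        · have h4 : c (j + 1) ≤ c l := hmono.monotone (by omega)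
          exact flip_of_ne (by omega) (by omega)

/-- Case `n > 0`: a tile `a` followed by a tile `a^(m-r) b a^r`, `r ≥ 1`, re-cut as
`a^(m-r+1) b a^(r-1)` and `a`. -/
theorem parse_recut {m : ℕ} {x y : ℤ → Bool} {c : ℤ → ℤ} (hp : Parse m x y c) {j : ℤ}
    (hy1 : y (j - 1) = true) (hyj : y j = false) (hx2 : x (c j + m) = false) :
    Parse m x (flip y j) (fun l => if l = j then c j + m else c l) := by
  have h0 : c j = c (j - 1) + 1 ∧ x (c (j - 1)) = false := by
    have := tile_true hp hy1
    rwa [show j - 1 + 1 = j by ring] at this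
  obtain ⟨h1, r, hr, h2⟩ := tile_false hp hyj
  have hrm : r ≠ m := by
    rintro rfl
    have := h2 r le_rfl
    rw [hx2] at this
    simp at this
  intro l
  by_cases hl : l = j - 1
  · subst hl
    right
    simp only
    rw [if_pos (by omega), if_neg (show ¬ (j - 1 = j) by omega), flip_at']
    refine ⟨hyj, by omega, r + 1, by omega, fun k hk => ?_⟩
    by_cases hk0 : k = 0
    · subst hk0
      rw [Nat.cast_zero, add_zero, h0.2]
      exact (decide_eq_false (by omega)).symm
    · have := h2 (k - 1) (by omega)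
      rw [show c j + ((k - 1 : ℕ) : ℤ) = c (j - 1) + k by omega] at this
      rw [this]
      by_cases hkr : k = r + 1
      · rw [decide_eq_true hkr, decide_eq_true (show k - 1 = r by omega)]
      · rw [decide_eq_false hkr, decide_eq_false (show ¬ (k - 1 = r) by omega)]
  · by_cases hl' : l = j
    · subst hl'
      left
      simp only [if_true]
      rw [if_neg (by omega), flip_at]
      exact ⟨hy1, by omega, hx2⟩
    · exact tile_congr (c' := fun l => if l = j then c j + m else c l) (hp l)
        (if_neg hl') (if_neg (by omega)) (flip_of_ne hl hl') fun t _ _ => rfl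

/-- The height along a run of long tiles. -/
theorem Facts.run_height {m : ℕ} (F : Facts m) {x y : ℤ → Bool} {c : ℤ → ℤ} (hp : Parse m x y c)
    (j : ℤ) (n : ℕ) (hrun : ∀ l : ℕ, 1 ≤ l → l ≤ n → y (j - l) = false) :
    S (gm m) x (c j) = S (gm m) x (c (j - n)) + n * (gm m * gm m) := by
  have h1 := F.parse_height hp j (j - n)
  have h2 := S_runA (gm m) y (j - n) n (fun t ht => by
    have := hrun (n - t) (by omega) (by omega)
    rwa [show j - ((n - t : ℕ) : ℤ) = j - (n : ℤ) + t by omega] at this)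
  rw [show j - (n : ℤ) + n = j by ring] at h2
  rw [h2] at h1
  have h3 : -gm m * (S (gm m) y (j - ↑n) - ↑n * gm m - S (gm m) y (j - ↑n)) =
      n * (gm m * gm m) := by ring
  rw [h3] at h1
  linarith

/-- The claim of the step, by induction on the length `n` of the run of long tiles. -/
theorem Facts.claim {m : ℕ} (hm : 1 ≤ m) (F : Facts m) {d : ℝ} (hD : Down m (d / gm m))
    {x : ℤ → Bool} (i P : ℤ) (hxi : x i = true)
    (hP : S (gm m) x i + gm m + 1 + d ≤ S (gm m) x P) (n : ℕ) :
    ∀ (y : ℤ → Bool) (c : ℤ → ℤ) (j : ℤ), y ∈ subshift (nm m) → Parse m x y c → i = c j →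
      (∀ l : ℕ, 1 ≤ l → l ≤ n → y (j - l) = false ∧ x (c (j - l) + m) = false) →
      y (j - n - 1) = true → flip x i ∈ subshift (nm m) := by
  have hg := gm_pos m
  have hg2 := gm_sq m
  -- the estimate
  have est : ∀ (y : ℤ → Bool) (c : ℤ → ℤ) (j : ℤ), Parse m x y c → i = c j → ∀ n : ℕ,
      (∀ l : ℕ, 1 ≤ l → l ≤ n → y (j - l) = false) → y (j - n - 1) = true →
      ∃ M, S (gm m) y M + d / gm m ≤ S (gm m) y (j - n - 1) - gm m := by
    intro y c j hp hij n hrun hya
    obtain ⟨M, hM⟩ := F.cut_near hp P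
    refine ⟨M, ?_⟩
    have h0 := tile_true hp hya
    rw [show j - (n : ℤ) - 1 + 1 = j - n by ring] at h0
    have h2 := F.parse_height hp M (j - n - 1)
    have h3 : S (gm m) x (c (j - n)) = S (gm m) x (c (j - n - 1)) - gm m := by
      rw [h0.1, S_succ, h0.2, ht_false]
      ring
    have h7 := F.run_height hp j n hrun
    rw [← hij] at h7
    have h8 : 0 ≤ (n : ℝ) * (gm m * gm m) := by positivity
    have h5 : gm m * (S (gm m) y M + d / gm m) ≤ gm m * (S (gm m) y (j - n - 1) - gm m) := by
      rw [mul_add, mul_div_cancel₀ d hg.ne', mul_sub]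
      linarith
    exact le_of_mul_le_mul_left h5 hg
  induction n with
  | zero =>
    intro y c j hy hp hij hrun hya
    obtain ⟨M, hM⟩ := est y c j hp hij 0 (fun l h1 h2 => (hrun l h1 h2).1) hya
    simp only [Nat.cast_zero, sub_zero] at hya hM
    subst hij
    have h1 : y j = false := by
      rcases hp j with ⟨_, _, h⟩ | ⟨h, _, _⟩
      · rw [h] at hxi
        exact absurd hxi (by simp)
      · exact h
    have h6 := hD y hy j M hya h1 hM
    exact F.mem_of_parse h6 (parse_flip_cut hm hp hya hxi)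
  | succ n ih =>
    intro y c j hy hp hij hrun hya
    obtain ⟨M, hM⟩ := est y c j hp hij (n + 1) (fun l h1 h2 => (hrun l h1 h2).1) hya
    have hrun1 := hrun (n + 1) (by omega) le_rfl
    obtain ⟨k, hk⟩ : ∃ k : ℤ, k = j - ((n + 1 : ℕ) : ℤ) := ⟨_, rfl⟩
    rw [← hk] at hrun1 hya hM
    have h6 := hD y hy k M hya hrun1.1 hM
    refine ih (flip y k) (fun l => if l = k then c k + m else c l) j h6
      (parse_recut hp hya hrun1.1 hrun1.2) ?_ ?_ ?_
    · rw [if_neg (by omega)]
      exact hij
    · intro l hl1 hl2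
      have hne : j - (l : ℤ) ≠ k := by omega
      have hne' : j - (l : ℤ) ≠ k - 1 := by omega
      rw [if_neg hne]
      have := hrun l hl1 (by omega)
      refine ⟨?_, this.2⟩
      rw [flip_of_ne hne' hne]
      exact this.1
    · have : j - (n : ℤ) - 1 = k := by omega
      rw [this, flip_at]
      exact hya

/-- The step. -/
theorem Facts.step {m : ℕ} (hm : 1 ≤ m) (F : Facts m) {d : ℝ} (hd : gm m - gm m ^ 2 ≤ d)
    (hD : Down m (d / gm m)) : Up m d := by
  have hg := gm_pos m
  have hg2 := gm_sq m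
  intro x hx i P h1 h2 hP
  have hSi : S (gm m) x i = S (gm m) x (i - 1) - gm m := by
    rw [S_pred (gm m) x i, h1, ht_false]
    ring
  have hP' : S (gm m) x i + gm m + 1 + d ≤ S (gm m) x P := by
    rw [hSi]
    linarith
  obtain ⟨y, hy, c, hp⟩ := F.exists_parse hx
  obtain ⟨j, hj1, hj2⟩ := F.parse_cover hp i
  rcases hj1.lt_or_eq with hj1 | hj
  · exact F.mem_of_parse hy (parse_flip_mid hp hj1 hj2 h1 h2)
  · -- `i` is a cut
    have hj := hj.symm
    by_cases hex : ∃ n : ℕ, ¬ (y (j - n - 1) = false ∧ x (c (j - n - 1) + m) = false)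
    · classical
      have hspec := Nat.find_spec hex
      have hmin := fun (k : ℕ) (hk : k < Nat.find hex) => Nat.find_min hex hk
      obtain ⟨n, hn⟩ : ∃ n, n = Nat.find hex := ⟨_, rfl⟩
      rw [← hn] at hspec hmin
      have hrun : ∀ l : ℕ, 1 ≤ l → l ≤ n → y (j - l) = false ∧ x (c (j - l) + m) = false := by
        intro l hl1 hl2
        have := hmin (l - 1) (by omega)
        rw [not_not] at this
        have e : j - ((l - 1 : ℕ) : ℤ) - 1 = j - l := by omega
        rw [e] at this
        exact this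
      rcases Bool.eq_false_or_eq_true (y (j - n - 1)) with h3 | h3
      · exact F.claim hm hD i P h2 hP' n y c j hy hp hj hrun h3
      · exfalso
        have h6 : x (c (j - n - 1) + m) = true := by
          by_contra h
          exact hspec ⟨h3, by simpa using h⟩
        have h4 := (tile_false hp h3).1
        rw [show j - (n : ℤ) - 1 + 1 = j - n by ring] at h4
        rcases Nat.eq_zero_or_pos n with hn0 | hn0
        · subst hn0
          simp only [Nat.cast_zero, sub_zero] at h4 h6
          have : c (j - 1) + m = i - 1 := by omega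
          rw [this, h1] at h6
          exact absurd h6 (by simp)
        · have h7 := F.run_height hp j n (fun l h1 h2 => (hrun l h1 h2).1)
          rw [← hj] at h7
          have h8 : S (gm m) x (c (j - n)) = S (gm m) x (c (j - n - 1) + m) + 1 := by
            rw [h4, show c (j - (n : ℤ) - 1) + ((m : ℤ) + 1) = (c (j - (n : ℤ) - 1) + m) + 1 by ring,
              S_succ, h6, ht_true]
          have h9 := F.osc hx P (c (j - n - 1) + m)
          have h10 : (1 : ℝ) * (gm m * gm m) ≤ (n : ℝ) * (gm m * gm m) := by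
            apply mul_le_mul_of_nonneg_right
            · exact_mod_cast hn0
            · positivity
          rw [sq] at hd
          linarith
    · exfalso
      push Not at hex
      have hgg : 0 < gm m * gm m := by positivity
      obtain ⟨n, hn⟩ := exists_nat_gt ((2 + 2 * gm m) / (gm m * gm m))
      have h3 := F.run_height hp j n (fun l hl1 hl2 => by
        have := (hex (l - 1)).1
        have e : j - ((l - 1 : ℕ) : ℤ) - 1 = j - l := by omega
        rw [e] at this
        exact this)
      have h4 := F.osc hx (c j) (c (j - n))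
      rw [div_lt_iff₀ hgg] at hn
      linarith

theorem Facts.up_big {m : ℕ} (F : Facts m) {d : ℝ} (hd : 1 + gm m ≤ d) : Up m d := by
  intro x hx i P h1 h2 hP
  exfalso
  have hSi : S (gm m) x i = S (gm m) x (i - 1) - gm m := by
    rw [S_pred (gm m) x i, h1, ht_false]
    ring
  have := F.osc hx P i
  linarith

theorem gm_d0_pos {m : ℕ} (hm : 1 ≤ m) : 0 < gm m - gm m ^ 2 := by
  have h1 := gm_pos m
  have h2 := gm_lt_one hm
  nlinarith

theorem Facts.up_all {m : ℕ} (hm : 1 ≤ m) (F : Facts m) (k : ℕ) : ∀ d : ℝ,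
    gm m - gm m ^ 2 ≤ d → (1 + gm m) * gm m ^ k ≤ d → Up m d := by
  have hg := gm_pos m
  have hg' := gm_lt_one hm
  have hd0 := gm_d0_pos hm
  induction k with
  | zero =>
    intro d _ h
    exact F.up_big (by simpa using h)
  | succ k ih =>
    intro d hd h
    have hdp : 0 < d := by linarith
    have h1 : gm m - gm m ^ 2 ≤ d / gm m := by
      rw [le_div_iff₀ hg]
      nlinarith
    have h2 : (1 + gm m) * gm m ^ k ≤ d / gm m := by
      rw [le_div_iff₀ hg]
      calc (1 + gm m) * gm m ^ k * gm m = (1 + gm m) * gm m ^ (k + 1) := by ring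
        _ ≤ d := h
    exact F.step hm hd (F.down_of_up (ih _ h1 h2))

theorem Facts.up_final {m : ℕ} (hm : 1 ≤ m) (F : Facts m) : Up m (gm m - gm m ^ 2) := by
  have hg := gm_pos m
  have hg' := gm_lt_one hm
  have hd0 := gm_d0_pos hm
  obtain ⟨k, hk⟩ := exists_pow_lt_of_lt_one (show (0 : ℝ) < (gm m - gm m ^ 2) / (1 + gm m) by
    apply div_pos <;> linarith) hg'
  refine F.up_all hm k _ le_rfl ?_
  rw [lt_div_iff₀ (by linarith)] at hk
  linarith

theorem Facts.flip_up {m : ℕ} (hm : 1 ≤ m) (F : Facts m) {x : ℤ → Bool}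
    (hx : x ∈ subshift (nm m)) (i P : ℤ) (h1 : x (i - 1) = false) (h2 : x i = true)
    (hP : S (gm m) x (i - 1) + 1 + (gm m - gm m ^ 2) ≤ S (gm m) x P) :
    flip x i ∈ subshift (nm m) :=
  F.up_final hm x hx i P h1 h2 hP

theorem Facts.flip_down {m : ℕ} (hm : 1 ≤ m) (F : Facts m) {x : ℤ → Bool}
    (hx : x ∈ subshift (nm m)) (i Q : ℤ) (h1 : x (i - 1) = true) (h2 : x i = false)
    (hQ : S (gm m) x Q + (gm m - gm m ^ 2) ≤ S (gm m) x (i - 1) - gm m) :
    flip x i ∈ subshift (nm m) :=
  F.down_of_up (F.up_final hm) x hx i Q h1 h2 hQ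

end H35.RS.Nm
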