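import Pool.Agent.H35.RS.PowF
import Pool.Agent.H35.RS.Univ

/-! # Small shifts of the cutting positions of high powers -/

namespace H35.RS.Up

open H35.RS

variable {A : Type*}

/-- (a) many phases at level `n` -/
theorem two_pow_le_ph [Finite A] {ϑ : A → Finset (List A)} (hϑ : IsRandomSub ϑ)
    (hp : Primitive ϑ) {L : ℕ} (hL : 1 ≤ L) (hlen : ∀ a, ∀ v ∈ ϑ a, v.length = L)
    (h2 : ∀ x ∈ subshift ϑ, 2 ≤ (ph ϑ L x).card) {n : ℕ} (hn : 1 ≤ n) :
    ∀ x ∈ subshift ϑ, 2 ^ n ≤ (ph (powF ϑ n) (L ^ n) x).card := by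
  classical
  induction n, hn using Nat.le_induction with
  | base =>
    intro x hx
    rw [powF_one, pow_one, pow_one]
    exact h2 x hx
  | succ n hn ih =>
    intro x hx
    have hL0 : (0 : ℤ) < L := by exact_mod_cast hL
    have hLn : (0 : ℤ) < (L : ℤ) ^ n := by positivity
    have hy : ∀ c : ℤ, ∃ y : ℤ → A, c ∈ ph ϑ L x →
        (y ∈ subshift ϑ ∧ ∀ i : ℤ, wd x (c + i * L) L ∈ ϑ (y i)) := by
      intro c
      by_cases hc : c ∈ ph ϑ L x
      · obtain ⟨y, hy, hi⟩ := (Uv.mem_ph.1 hc).2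
        exact ⟨y, fun _ => ⟨hy, hi⟩⟩
      · exact ⟨x, fun h => absurd h hc⟩
    choose y hy12 using hy
    have hy1 : ∀ c ∈ ph ϑ L x, y c ∈ subshift ϑ := fun c hc => (hy12 c hc).1
    have hy2 : ∀ c ∈ ph ϑ L x, ∀ i : ℤ, wd x (c + i * L) L ∈ ϑ (y c i) :=
      fun c hc => (hy12 c hc).2
    -- the set of pairs
    let T : Finset (Σ _ : ℤ, ℤ) := (ph ϑ L x).sigma (fun c => ph (powF ϑ n) (L ^ n) (y c))
    have hT : 2 ^ (n + 1) ≤ T.card := by
      rw [Finset.card_sigma]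
      calc 2 ^ (n + 1) = 2 * 2 ^ n := by ring
        _ ≤ (ph ϑ L x).card * 2 ^ n := Nat.mul_le_mul_right _ (h2 x hx)
        _ = ∑ c ∈ ph ϑ L x, 2 ^ n := by rw [Finset.sum_const, smul_eq_mul]
        _ ≤ ∑ c ∈ ph ϑ L x, (ph (powF ϑ n) (L ^ n) (y c)).card :=
            Finset.sum_le_sum (fun c hc => ih _ (hy1 c hc))
    refine hT.trans (Finset.card_le_card_of_injOn (fun p => p.1 + p.2 * L) ?_ ?_)
    · rintro ⟨c, c'⟩ hp'
      have hp'' := Finset.mem_sigma.1 (Finset.mem_coe.1 hp')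
      have h1 := Uv.mem_ph.1 hp''.1
      have h3 := Uv.mem_ph.1 hp''.2
      simp only at h1 h3 hp''
      refine Finset.mem_coe.2 (Uv.mem_ph.2 ⟨⟨?_, ?_⟩, ?_⟩)
      · have := h1.1.1
        have := h3.1.1
        simp only
        positivity
      · have a1 := h1.1.2
        have a2 := h3.1.2
        simp only
        push_cast at a2 ⊢
        rw [pow_succ]
        nlinarith
      · exact valid_succ hϑ hp hlen hn (hy2 c hp''.1) h3.2
    · rintro ⟨c, c'⟩ hc ⟨d, d'⟩ hd he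
      have hc1 := Uv.mem_ph.1 (Finset.mem_sigma.1 (Finset.mem_coe.1 hc)).1
      have hd1 := Uv.mem_ph.1 (Finset.mem_sigma.1 (Finset.mem_coe.1 hd)).1
      simp only at hc1 hd1 he
      have h1 : c % L = c := Int.emod_eq_of_lt hc1.1.1 hc1.1.2
      have h3 : d % L = d := Int.emod_eq_of_lt hd1.1.1 hd1.1.2
      have h4 : (c + c' * L) % L = (d + d' * L) % L := by rw [he]
      rw [Int.add_mul_emod_self_right, Int.add_mul_emod_self_right, h1, h3] at h4
      subst h4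
      have h5 : c' * (L : ℤ) = d' * L := by linarith
      have h6 : c' = d' := mul_right_cancel₀ hL0.ne' h5
      subst h6
      rfl

theorem exists_small_shift [Finite A] {ϑ : A → Finset (List A)} (hϑ : IsRandomSub ϑ)
    (hp : Primitive ϑ) {L : ℕ} (hL : 1 ≤ L) (hlen : ∀ a, ∀ v ∈ ϑ a, v.length = L)
    (hne : (subshift ϑ).Nonempty) (h2 : ∀ x ∈ subshift ϑ, 2 ≤ (ph ϑ L x).card) {n : ℕ}
    (hn : 1 ≤ n) :
    ∃ δ K : ℕ, 1 ≤ δ ∧ 2 ^ n ≤ K ∧ L ^ n = K * δ ∧ ∀ x ∈ subshift ϑ, ∀ c : ℤ,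
      Cst.Valid (powF ϑ n) (L ^ n) x c → ∀ s : ℤ,
        Cst.Valid (powF ϑ n) (L ^ n) x (c + s * δ) := by
  classical
  have hψ := powF_isRandomSub hϑ n
  have hψp := powF_primitive hϑ hp hn
  have hψl := powF_length hlen n
  have hψs := subshift_powF hϑ hp hn
  have hΛ : 1 ≤ L ^ n := Nat.one_le_pow _ _ hL
  -- minimal point
  obtain ⟨x₀, hx₀, hmin'⟩ := WellFounded.has_min
    (measure (fun x : ℤ → A => (ph (powF ϑ n) (L ^ n) x).card)).wf (subshift ϑ) hne
  have hmin : ∀ x ∈ subshift ϑ,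
      (ph (powF ϑ n) (L ^ n) x₀).card ≤ (ph (powF ϑ n) (L ^ n) x).card :=
    fun x hx => not_lt.1 (hmin' x hx)
  -- the group of the universal shifts
  let M : AddSubmonoid ℤ :=
    { carrier := {h | ∀ x ∈ subshift ϑ, ∀ c : ℤ, Cst.Valid (powF ϑ n) (L ^ n) x c →
        Cst.Valid (powF ϑ n) (L ^ n) x (c + h)}
      add_mem' := by
        intro a b ha hb x hx c hc
        have := hb x hx _ (ha x hx c hc)
        rwa [add_assoc] at this
      zero_mem' := by
        intro x hx c hc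
        rwa [add_zero] }
  have hM : ∀ h : ℤ, h ∈ M ↔ ∀ x ∈ subshift ϑ, ∀ c : ℤ, Cst.Valid (powF ϑ n) (L ^ n) x c →
        Cst.Valid (powF ϑ n) (L ^ n) x (c + h) := fun h => Iff.rfl
  have hΛM : ∀ d : ℤ, d * ((L ^ n : ℕ) : ℤ) ∈ M := by
    intro d
    rw [hM]
    intro x hx c hc
    exact Cst.valid_add hc d
  let G : AddSubgroup ℤ :=
    { M with
      neg_mem' := by
        intro h hh
        have h1 : (L ^ n - 1) • h ∈ M := M.nsmul_mem hh _
        have h3 := M.add_mem h1 (hΛM (-h))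
        have h4 : (L ^ n - 1) • h + -h * ((L ^ n : ℕ) : ℤ) = -h := by
          rw [nsmul_eq_mul, Nat.cast_sub hΛ]
          push_cast
          ring
        rw [h4] at h3
        exact h3 }
  have hG : ∀ h : ℤ, h ∈ G ↔ ∀ x ∈ subshift ϑ, ∀ c : ℤ, Cst.Valid (powF ϑ n) (L ^ n) x c →
        Cst.Valid (powF ϑ n) (L ^ n) x (c + h) := fun h => Iff.rfl
  obtain ⟨a, ha⟩ := Int.subgroup_cyclic G
  have hmemG : ∀ h : ℤ, h ∈ G ↔ a ∣ h := by
    intro h
    rw [ha, AddSubgroup.mem_closure_singleton]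
    constructor
    · rintro ⟨z, hz⟩
      exact ⟨z, by rw [← hz, smul_eq_mul, mul_comm]⟩
    · rintro ⟨z, hz⟩
      exact ⟨z, by rw [hz, smul_eq_mul, mul_comm]⟩
  have hΛG : ((L ^ n : ℕ) : ℤ) ∈ G := by
    have := hΛM 1
    rw [one_mul] at this
    exact this
  have haΛ : a ∣ ((L ^ n : ℕ) : ℤ) := (hmemG _).1 hΛG
  have hdvd : a.natAbs ∣ L ^ n := by
    have := Int.natAbs_dvd_natAbs.2 haΛ
    rwa [Int.natAbs_natCast] at this
  obtain ⟨K, hK⟩ := hdvd
  have hδ : 1 ≤ a.natAbs := by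
    rcases Nat.eq_zero_or_pos a.natAbs with h | h
    · rw [h, zero_mul] at hK
      omega
    · exact h
  refine ⟨a.natAbs, K, hδ, ?_, by rw [hK, mul_comm], ?_⟩
  · refine (two_pow_le_ph hϑ hp hL hlen h2 hn x₀ hx₀).trans ?_
    have hδ' : (0 : ℤ) < (a.natAbs : ℤ) := by exact_mod_cast hδ
    have hK' : ((L ^ n : ℕ) : ℤ) = (a.natAbs : ℤ) * K := by
      rw [hK]
      push_cast
      rfl
    have hcard : (Finset.Ico (0 : ℤ) K).card = K := by
      rw [Int.card_Ico, sub_zero, Int.toNat_natCast]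
    rw [← hcard]
    refine Finset.card_le_card_of_injOn (fun c => c / (a.natAbs : ℤ)) ?_ ?_
    · intro c hc
      have hc' := Uv.mem_ph.1 (Finset.mem_coe.1 hc)
      refine Finset.mem_coe.2 (Finset.mem_Ico.2 ⟨?_, ?_⟩)
      · exact Int.ediv_nonneg hc'.1.1 hδ'.le
      · refine Int.ediv_lt_of_lt_mul hδ' ?_
        have := hc'.1.2
        rw [hK'] at this
        rw [mul_comm]
        exact this
    · intro c hc c' hc' he
      have h1 := Uv.mem_ph.1 (Finset.mem_coe.1 hc)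
      have h3 := Uv.mem_ph.1 (Finset.mem_coe.1 hc')
      have h4 : c' - c ∈ G := by
        rw [hG]
        intro x hx d hd
        refine univ_shift hψ hψp hΛ hψl (x₀ := x₀) ?_ ?_ h1.2 h3.2 ?_ hd
        · rw [hψs]
          exact hx₀
        · rw [hψs]
          exact hmin
        · rw [hψs]
          exact hx
      have h5 : a ∣ c' - c := (hmemG _).1 h4
      have h6 : (a.natAbs : ℤ) ∣ c' - c := Int.natAbs_dvd.2 h5
      have h7 : c % (a.natAbs : ℤ) = c' % (a.natAbs : ℤ) := (Int.emod_eq_emod_iff_emod_sub_eq_zero.2 (by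
        have := Int.emod_eq_zero_of_dvd h6
        have h8 : c - c' = -(c' - c) := by ring
        rw [h8]
        exact Int.emod_eq_zero_of_dvd ((dvd_neg).2 h6)))
      have h8 := Int.emod_add_mul_ediv c (a.natAbs : ℤ)
      have h9 := Int.emod_add_mul_ediv c' (a.natAbs : ℤ)
      simp only at he
      rw [← h8, ← h9, h7, he]
  · intro x hx c hc s
    have : s * (a.natAbs : ℤ) ∈ G := (hmemG _).2 (Dvd.dvd.mul_left (Int.dvd_natAbs.2 dvd_rfl) s)
    exact (hG _).1 this x hx c hc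

end H35.RS.Up
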