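import Pool.Agent.H35.RS.Basic2
import Pool.Agent.H35.RS.Tiles

/-! # Every letter occurs with bounded gaps (constant length, compatible, primitive) -/

namespace H35.RS

variable {A : Type*}

namespace Syn

theorem wd_zero' (x : ℤ → A) (i : ℤ) : wd x i 0 = [] := rfl

theorem wd_cons (x : ℤ → A) (i : ℤ) (n : ℕ) : wd x i (n + 1) = x i :: wd x (i + 1) n := by
  unfold wd
  rw [List.range_succ_eq_map]
  simp only [List.map_cons, List.map_map, Nat.cast_zero, add_zero]
  congr 1
  apply List.map_congr_left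
  intro j _
  simp only [Function.comp_apply, Nat.succ_eq_add_one, Nat.cast_add, Nat.cast_one]
  congr 1
  ring

theorem wd_append' (x : ℤ → A) (i : ℤ) (m n : ℕ) :
    wd x i (m + n) = wd x i m ++ wd x (i + m) n := by
  unfold wd
  rw [List.range_add, List.map_append, List.map_map]
  congr 1
  apply List.map_congr_left
  intro j _
  simp only [Function.comp_apply, Nat.cast_add]
  congr 1
  ring

theorem wd_mem_imgW {ϑ : A → Finset (List A)} (L : ℕ) {x y : ℤ → A} {c : ℤ}
    (h : ∀ i : ℤ, wd x (c + i * L) L ∈ ϑ (y i)) (n : ℕ) (j : ℤ) :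
    wd x (c + j * L) (n * L) ∈ imgW ϑ (wd y j n) := by
  induction n generalizing j with
  | zero =>
      rw [Nat.zero_mul, wd_zero', wd_zero']
      exact rfl
  | succ n ih =>
      rw [wd_cons, Nat.succ_mul, Nat.add_comm, wd_append']
      refine ⟨_, h j, _, ih (j + 1), ?_⟩
      congr 2
      ring

/-- An element of the subshift is tiled by level `p` inflation words. -/
theorem exists_tiles_pow [Finite A] {ϑ : A → Finset (List A)} (hϑ : IsRandomSub ϑ) (L : ℕ)
    (hlen : ∀ a, ∀ v ∈ ϑ a, v.length = L) (p : ℕ) {x : ℤ → A} (hx : x ∈ subshift ϑ) :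
    ∃ y ∈ subshift ϑ, ∃ c : ℤ, ∀ i : ℤ, wd x (c + i * (L ^ p : ℕ)) (L ^ p) ∈ pow ϑ p (y i) := by
  induction p generalizing x with
  | zero =>
      refine ⟨x, hx, 0, fun i => ?_⟩
      simp [wd, pow]
  | succ p ih =>
      obtain ⟨y1, hy1, c, hc, ht, -, -⟩ := exists_tiles hϑ (fun _ => L) hlen hx
      have hc' : ∀ i : ℤ, c i = c 0 + i * L := by
        intro i
        induction i using Int.induction_on with
        | zero => simp
        | succ i ih => rw [hc, ih]; ring
        | pred i ih =>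
            have := hc (-(i : ℤ) - 1)
            rw [sub_add_cancel, ih] at this
            have h2 : c (-(i : ℤ) - 1) = c 0 + -(i : ℤ) * L - L := by linarith
            rw [h2]; ring
      have ht' : ∀ i : ℤ, wd x (c 0 + i * L) L ∈ ϑ (y1 i) := by
        intro i
        rw [← hc' i]
        exact ht i
      obtain ⟨y, hy, d, hd⟩ := ih hy1
      refine ⟨y, hy, c 0 + d * L, fun i => ?_⟩
      refine ⟨_, hd i, ?_⟩
      have := wd_mem_imgW L ht' (L ^ p) (d + i * (L ^ p : ℕ))
      rw [pow_succ]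
      convert this using 2
      push_cast
      ring

theorem mem_wd {x : ℤ → A} {i : ℤ} {n : ℕ} {b : A} (h : b ∈ wd x i n) :
    ∃ j : ℤ, i ≤ j ∧ j < i + n ∧ x j = b := by
  unfold wd at h
  rw [List.mem_map] at h
  obtain ⟨k, hk, hb⟩ := h
  rw [List.mem_range] at hk
  exact ⟨i + k, by omega, by omega, hb⟩

end Syn

open Syn in
theorem syndetic_letter [Finite A] {ϑ : A → Finset (List A)} (hϑ : IsRandomSub ϑ) (L : ℕ)
    (hL : 1 ≤ L) (hlen : ∀ a, ∀ v ∈ ϑ a, v.length = L) (hc : Compatible ϑ) (hp : Primitive ϑ)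
    (b : A) : ∃ G : ℕ, ∀ y ∈ subshift ϑ, ∀ k : ℤ, ∃ i, k ≤ i ∧ i < k + G ∧ y i = b := by
  obtain ⟨p, -, hp⟩ := hp
  refine ⟨2 * L ^ p, fun x hx k => ?_⟩
  obtain ⟨y, hy, c, ht⟩ := exists_tiles_pow hϑ L hlen p hx
  have hN : (0 : ℤ) < (L ^ p : ℕ) := by
    have : 0 < L ^ p := Nat.pow_pos (by omega)
    exact_mod_cast this
  set N : ℤ := ((L ^ p : ℕ) : ℤ) with hNdef
  -- the first tile starting at or after `k`
  set i : ℤ := -((c - k) / N) with hi
  have h1 : k ≤ c + i * N := by
    have := Int.ediv_mul_le (c - k) (ne_of_gt hN)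
    rw [hi]
    linarith
  have h2 : c + i * N < k + N := by
    have := Int.lt_ediv_add_one_mul_self (c - k) hN
    rw [hi]
    linarith
  obtain ⟨v, hv, hbv⟩ := hp b (y i)
  have hperm := pow_perm hϑ hc hv (ht i)
  have hb : b ∈ wd x (c + i * N) (L ^ p) := hperm.mem_iff.1 hbv
  obtain ⟨j, hj1, hj2, hj3⟩ := mem_wd hb
  refine ⟨j, by linarith, ?_, hj3⟩
  push_cast
  have : (c + i * N) + ((L ^ p : ℕ) : ℤ) < k + 2 * (L ^ p : ℕ) := by
    rw [← hNdef]; linarith
  push_cast at this hj2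
  linarith

end H35.RS
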